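import Pool.Agent.CLX.Stmts2
import Pool.Agent.SBT.Api

/-!
# BSE: a basis over the unit sums among finitely many integer sequences
-/

set_option autoImplicit false

namespace Pool.Agent.CLX

open Filter Pool.Agent.SBT

namespace BSE_

theorem un_mul {U : Ultrafilter ℕ} {S : Finset ℕ} {T : ℕ → ℝ} (hS : PS S) {u u' : ℕ → ℚ}
    (hu : u ∈ Un U S T) (hu' : u' ∈ Un U S T) : u * u' ∈ Un U S T := by
  obtain ⟨h1, C, h2⟩ := hu
  obtain ⟨h1', C', h2'⟩ := hu'
  refine ⟨fun n => (h1 n).mul hS (h1' n), C + C', ?_⟩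
  filter_upwards [h2, h2'] with n a1 a2 v hv
  rw [Pi.mul_apply, av_mul (place_of_mem hS hv), add_mul, Real.exp_add]
  exact mul_le_mul (a1 v hv) (a2 v hv) (av_nonneg _ _) (Real.exp_pos _).le

theorem un_one (U : Ultrafilter ℕ) (S : Finset ℕ) (T : ℕ → ℝ) :
    (fun _ => (1 : ℚ)) ∈ Un U S T := by
  refine ⟨fun n => isU_one S, 0, Eventually.of_forall fun n v hv => ?_⟩
  simp

theorem lc_mul (hLCC : Stmt_LCC) {U : Ultrafilter ℕ} {S : Finset ℕ} {T : ℕ → ℝ} (hS : PS S)
    {f g : ℕ → ℚ} (hf : Lc U (Un U S T) f) (hg : Lc U (Un U S T) g) :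
    Lc U (Un U S T) (fun n => f n * g n) := by
  obtain ⟨-, -, hmul, -⟩ := hLCC U
  exact hmul _ _ _ f g hf hg fun u hu u' hu' => un_mul hS hu hu'

theorem lc_const (hLCC : Stmt_LCC) (U : Ultrafilter ℕ) (S : Finset ℕ) (T : ℕ → ℝ) (c : ℤ) :
    Lc U (Un U S T) (fun _ => (c : ℚ)) := by
  obtain ⟨-, -, -, -, hcm, hmem, -⟩ := hLCC U
  have h := hcm _ _ c (hmem (Un U S T) (fun _ => (1 : ℚ)) (un_one U S T))
  simpa using h

theorem lc_neg (hLCC : Stmt_LCC) {U : Ultrafilter ℕ} {S : Finset ℕ} {T : ℕ → ℝ} {f : ℕ → ℚ}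
    (hf : Lc U (Un U S T) f) : Lc U (Un U S T) (fun n => -f n) := by
  obtain ⟨-, -, -, -, hcm, -⟩ := hLCC U
  have h := hcm _ _ (-1) hf
  simpa using h

theorem lc_prod (hLCC : Stmt_LCC) {U : Ultrafilter ℕ} {S : Finset ℕ} {T : ℕ → ℝ} (hS : PS S)
    {ι : Type} (F : ι → ℕ → ℚ) (h : ∀ i, Lc U (Un U S T) (F i)) (A : Finset ι) :
    Lc U (Un U S T) (fun n => ∏ i ∈ A, F i n) := by
  classical
  induction A using Finset.induction_on with
  | empty =>
    have := lc_const hLCC U S T 1
    simpa using this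
  | insert a A ha ih =>
    have e1 : (fun n => ∏ i ∈ insert a A, F i n) = fun n => F a n * ∏ i ∈ A, F i n := by
      funext n
      rw [Finset.prod_insert ha]
    rw [e1]
    exact lc_mul hLCC hS (h a) ih

end BSE_

open BSE_

theorem bse_proof (hLCC : Stmt_LCC) : Stmt_BSE := by
  intro U S T s y hS _
  classical
  let P : ℕ → Prop := fun d => ∃ σ : Fin d → Fin s, IndU U S T (fun i => y (σ i))
  have hP0 : P 0 := ⟨fun i => i.elim0, fun H _ _ i => i.elim0⟩
  have hinj : ∀ (d : ℕ) (σ : Fin d → Fin s), IndU U S T (fun i => y (σ i)) →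
      Function.Injective σ := by
    intro d σ hσ i j hij
    by_contra hne
    have h1 := hσ (fun k n => if k = i then 1 else if k = j then -1 else 0) (by
      intro k
      by_cases h1 : k = i
      · subst h1
        simpa using lc_const hLCC U S T 1
      · by_cases h2 : k = j
        · subst h2
          simpa [h1] using lc_const hLCC U S T (-1)
        · simpa [h1, h2] using lc_const hLCC U S T 0) (by
      refine Eventually.of_forall fun n => ?_
      have e : ∀ k : Fin d, (if k = i then (1 : ℚ) else if k = j then -1 else 0) *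
          (y (σ k) n : ℚ) = (if k = i then (y (σ k) n : ℚ) else 0) -
            (if k = j then (y (σ k) n : ℚ) else 0) := by
        intro k
        by_cases h1 : k = i
        · subst h1
          simp [hne]
        · by_cases h2 : k = j
          · subst h2
            simp [h1]
          · simp [h1, h2]
      rw [Finset.sum_congr rfl fun k _ => e k, Finset.sum_sub_distrib]
      simp [hij]) i
    obtain ⟨n, hn⟩ := h1.exists
    simp at hn
  have hle : ∀ d, P d → d ≤ s := by
    rintro d ⟨σ, hσ⟩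
    have := Fintype.card_le_of_injective σ (hinj d σ hσ)
    simpa using this
  obtain ⟨d, hd, hmax⟩ : ∃ d, P d ∧ ∀ d', P d' → d' ≤ d :=
    ⟨Nat.findGreatest P s, Nat.findGreatest_spec (Nat.zero_le _) hP0,
      fun d' hd' => Nat.le_findGreatest (hle d' hd') hd'⟩
  obtain ⟨σ, hσ⟩ := hd
  have hrel : ∀ t : Fin s, ∃ (G : ℕ → ℚ) (K : Fin d → ℕ → ℚ), Lc U (Un U S T) G ∧
      (∀ᶠ n in (U : Filter ℕ), G n ≠ 0) ∧ (∀ i, Lc U (Un U S T) (K i)) ∧
      ∀ᶠ n in (U : Filter ℕ), G n * (y t n : ℚ) = ∑ i, K i n * (y (σ i) n : ℚ) := by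
    intro t
    have h1 : ¬ IndU U S T
        (fun i : Fin (d + 1) => y ((Fin.cons t σ : Fin (d + 1) → Fin s) i)) := by
      intro h
      have := hmax (d + 1) ⟨_, h⟩
      omega
    unfold IndU at h1
    push Not at h1
    obtain ⟨H, hH1, hH2, i₀, hH3⟩ := h1
    have hH2' : ∀ᶠ n in (U : Filter ℕ), H 0 n * (y t n : ℚ) +
        ∑ i : Fin d, H i.succ n * (y (σ i) n : ℚ) = 0 := by
      filter_upwards [hH2] with n hn
      rw [Fin.sum_univ_succ] at hn
      simpa using hn
    have h2 : ¬ ∀ᶠ n in (U : Filter ℕ), H 0 n = 0 := by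
      intro h0
      have h3 : ∀ i : Fin d, ∀ᶠ n in (U : Filter ℕ), H i.succ n = 0 := by
        refine hσ (fun i => H i.succ) (fun i => hH1 i.succ) ?_
        filter_upwards [hH2', h0] with n a1 a2
        rw [a2, zero_mul, zero_add] at a1
        exact a1
      have h4 : ∀ᶠ n in (U : Filter ℕ), H i₀ n = 0 := by
        induction i₀ using Fin.cases with
        | zero => exact h0
        | succ i => exact h3 i
      obtain ⟨n, h5, h6⟩ := (hH3.and h4).exists
      exact h5 h6
    refine ⟨H 0, fun i n => -H i.succ n, hH1 0, Ultrafilter.eventually_not.2 h2,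
      fun i => lc_neg hLCC (hH1 i.succ), ?_⟩
    filter_upwards [hH2'] with n hn
    have e : ∑ i : Fin d, -H i.succ n * (y (σ i) n : ℚ) =
        -∑ i : Fin d, H i.succ n * (y (σ i) n : ℚ) := by
      rw [← Finset.sum_neg_distrib]
      exact Finset.sum_congr rfl fun i _ => by ring
    rw [e]
    linarith
  choose G K hG1 hG2 hK hGK using hrel
  refine ⟨d, σ, fun n => ∏ t, G t n, fun t i n => (∏ t' ∈ Finset.univ.erase t, G t' n) * K t i n,
    hle d ⟨σ, hσ⟩, hσ, lc_prod hLCC hS G hG1 _, ?_, ?_, ?_⟩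
  · have h : ∀ᶠ n in (U : Filter ℕ), ∀ t, G t n ≠ 0 := by
      rw [eventually_all]
      exact hG2
    filter_upwards [h] with n hn
    exact Finset.prod_ne_zero_iff.2 fun t _ => hn t
  · intro t i
    exact lc_mul hLCC hS (lc_prod hLCC hS G hG1 _) (hK t i)
  · intro t
    filter_upwards [hGK t] with n hn
    rw [← Finset.mul_prod_erase Finset.univ (fun t => G t n) (Finset.mem_univ t)]
    have e : G t n * (∏ x ∈ Finset.univ.erase t, G x n) * (y t n : ℚ) =
        (∏ x ∈ Finset.univ.erase t, G x n) * (G t n * (y t n : ℚ)) := by ring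
    rw [e, hn, Finset.mul_sum]
    exact Finset.sum_congr rfl fun i _ => by ring

end Pool.Agent.CLX
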