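import Pool.Agent.CLX.Stmts2

set_option autoImplicit false

namespace Pool.Agent.CLX

open Filter Pool.Agent.SBT

namespace BSM_

theorem rec_bound (u : ℕ → ℕ) (hu : ∀ i, u i < 2) (k x : ℤ) (δ : ℝ) (hδ : 0 ≤ δ) (L : ℕ)
    (hbig : ∀ j ≤ L, |(k : ℝ)| * 2 ^ ze u j ≤ δ * |(3 : ℝ) ^ on u j * x + k * bv u j|) :
    ∀ j ≤ L, 3 ^ on u j * |(x : ℝ)| + |(k : ℝ)| * bv u j ≤
      (1 + δ) ^ j * (3 ^ on u j * |(x : ℝ)|) := by
  intro j
  induction j with
  | zero =>
    intro _
    simp [bv, on]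
  | succ j ih =>
    intro hj
    have h := ih (by omega)
    have hb := hbig j (by omega)
    have hon : on u (j + 1) = on u j + u j := by
      unfold on
      rw [Finset.sum_range_succ]
    have hbv : (bv u (j + 1) : ℝ) = 3 ^ u j * bv u j + u j * 2 ^ ze u j := by
      simp [bv]
    have habs : |(3 : ℝ) ^ on u j * x + k * bv u j| ≤
        3 ^ on u j * |(x : ℝ)| + |(k : ℝ)| * bv u j := by
      refine (abs_add_le _ _).trans ?_
      rw [abs_mul, abs_mul, abs_of_nonneg (by positivity : (0 : ℝ) ≤ 3 ^ on u j),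
        abs_of_nonneg (by positivity : (0 : ℝ) ≤ (bv u j : ℝ))]
    set W : ℝ := 3 ^ on u j * |(x : ℝ)| + |(k : ℝ)| * bv u j with hW
    have hW0 : 0 ≤ W := by positivity
    have hkb : |(k : ℝ)| * 2 ^ ze u j ≤ δ * W := hb.trans (mul_le_mul_of_nonneg_left habs hδ)
    rw [hon, hbv, pow_add, pow_succ]
    have hu2 := hu j
    have hcases : u j = 0 ∨ u j = 1 := by omega
    rcases hcases with h0 | h1
    · rw [h0]
      simp only [pow_zero, mul_one, one_mul, Nat.cast_zero, zero_mul, add_zero]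
      have h2 : (1 + δ) ^ j * (3 ^ on u j * |(x : ℝ)|) ≤
          (1 + δ) ^ j * (1 + δ) * (3 ^ on u j * |(x : ℝ)|) := by
        have h3 : 0 ≤ (1 + δ) ^ j * (3 ^ on u j * |(x : ℝ)|) := by positivity
        nlinarith
      exact h.trans h2
    · rw [h1]
      simp only [pow_one, Nat.cast_one, one_mul]
      have h4 : 3 ^ on u j * 3 * |(x : ℝ)| + |(k : ℝ)| * (3 * (bv u j : ℝ) + 2 ^ ze u j) =
          3 * W + |(k : ℝ)| * 2 ^ ze u j := by
        rw [hW]; ring
      rw [h4]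
      have h5 : 3 * W + |(k : ℝ)| * 2 ^ ze u j ≤ 3 * (1 + δ) * W := by nlinarith
      refine h5.trans ?_
      have h6 : (1 + δ) ^ j * (1 + δ) * (3 ^ on u j * 3 * |(x : ℝ)|) =
          3 * (1 + δ) * ((1 + δ) ^ j * (3 ^ on u j * |(x : ℝ)|)) := by ring
      rw [h6]
      exact mul_le_mul_of_nonneg_left h (by positivity)

/-- the final estimate -/
theorem tend (G : ℝ) : ∀ᶠ t : ℝ in atTop,
    2 * (2 / (2 : ℝ) ^ (t / 16)) * (G * t) ≤ Real.exp (-(t / 40)) ∧
    2 / (2 : ℝ) ^ (t / 16) * (G * t) ≤ 1 := by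
  have hb : (0 : ℝ) < 0.69 / 16 - 1 / 40 := by norm_num
  have h1 : Tendsto (fun t : ℝ => (0.69 / 16 - 1 / 40) * t) atTop atTop :=
    Tendsto.const_mul_atTop hb tendsto_id
  have h2 := (Real.tendsto_pow_mul_exp_neg_atTop_nhds_zero 1).comp h1
  have h3 : ∀ᶠ t : ℝ in atTop, ((0.69 / 16 - 1 / 40) * t) ^ 1 *
      Real.exp (-((0.69 / 16 - 1 / 40) * t)) < (0.69 / 16 - 1 / 40) / (4 * (|G| + 1)) :=
    h2.eventually_lt_const (by positivity)
  filter_upwards [h3, eventually_ge_atTop (0 : ℝ)] with t ht ht0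
  rw [pow_one] at ht
  have hG : 0 < |G| + 1 := by positivity
  have hlog : (0.69 : ℝ) ≤ Real.log 2 := by
    have := Real.log_two_gt_d9
    linarith
  have hc : Real.exp (0.69 / 16 * t) ≤ (2 : ℝ) ^ (t / 16) := by
    rw [Real.rpow_def_of_pos (by norm_num)]
    apply Real.exp_le_exp.2
    have : 0.69 * (t / 16) ≤ Real.log 2 * (t / 16) :=
      mul_le_mul_of_nonneg_right hlog (by positivity)
    linarith
  -- `t * exp (-(..)) < 1 / (4 (|G| + 1))`
  have h4 : t * Real.exp (-((0.69 / 16 - 1 / 40) * t)) ≤ 1 / (4 * (|G| + 1)) := by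
    have h5 : (0.69 / 16 - 1 / 40 : ℝ) * (t * Real.exp (-((0.69 / 16 - 1 / 40) * t))) ≤
        (0.69 / 16 - 1 / 40) * (1 / (4 * (|G| + 1))) := by
      have := ht.le
      calc _ = (0.69 / 16 - 1 / 40) * t * Real.exp (-((0.69 / 16 - 1 / 40) * t)) := by ring
        _ ≤ (0.69 / 16 - 1 / 40) / (4 * (|G| + 1)) := this
        _ = _ := by ring
    exact le_of_mul_le_mul_left h5 hb
  have h6 : Real.exp (-((0.69 / 16 - 1 / 40) * t)) =
      Real.exp (t / 40) / Real.exp (0.69 / 16 * t) := by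
    rw [← Real.exp_sub]
    congr 1
    ring
  have hinv : 1 / (2 : ℝ) ^ (t / 16) ≤ 1 / Real.exp (0.69 / 16 * t) :=
    one_div_le_one_div_of_le (Real.exp_pos _) hc
  have hGt : G * t ≤ |G| * t := mul_le_mul_of_nonneg_right (le_abs_self G) ht0
  have hP : 0 < (2 : ℝ) ^ (t / 16) := Real.rpow_pos_of_pos (by norm_num) _
  have hE : 0 < Real.exp (t / 40) := Real.exp_pos _
  have hE2 : 0 < Real.exp (0.69 / 16 * t) := Real.exp_pos _
  have key : 2 * (2 / (2 : ℝ) ^ (t / 16)) * (G * t) * Real.exp (t / 40) ≤ 1 := by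
    have e1 : 2 * (2 / (2 : ℝ) ^ (t / 16)) * (G * t) * Real.exp (t / 40) ≤
        2 * (2 / (2 : ℝ) ^ (t / 16)) * (|G| * t) * Real.exp (t / 40) := by
      apply mul_le_mul_of_nonneg_right _ hE.le
      exact mul_le_mul_of_nonneg_left hGt (by positivity)
    have e2 : 2 * (2 / (2 : ℝ) ^ (t / 16)) * (|G| * t) * Real.exp (t / 40) =
        4 * |G| * t * Real.exp (t / 40) * (1 / (2 : ℝ) ^ (t / 16)) := by
      field_simp
      ring
    have e3 : 4 * |G| * t * Real.exp (t / 40) * (1 / (2 : ℝ) ^ (t / 16)) ≤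
        4 * |G| * t * Real.exp (t / 40) * (1 / Real.exp (0.69 / 16 * t)) :=
      mul_le_mul_of_nonneg_left hinv (by positivity)
    have e4 : 4 * |G| * t * Real.exp (t / 40) * (1 / Real.exp (0.69 / 16 * t)) =
        4 * |G| * (t * Real.exp (-((0.69 / 16 - 1 / 40) * t))) := by
      rw [h6]
      ring
    have e5 : 4 * |G| * (t * Real.exp (-((0.69 / 16 - 1 / 40) * t))) ≤
        4 * |G| * (1 / (4 * (|G| + 1))) :=
      mul_le_mul_of_nonneg_left h4 (by positivity)
    have e6 : 4 * |G| * (1 / (4 * (|G| + 1))) ≤ 1 := by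
      rw [mul_one_div, div_le_one (by positivity)]
      linarith
    linarith
  constructor
  · rw [Real.exp_neg, ← one_div, le_div_iff₀ hE]
    exact key
  · by_cases hg : 0 ≤ 2 / (2 : ℝ) ^ (t / 16) * (G * t)
    · have hE1 : 1 ≤ Real.exp (t / 40) := Real.one_le_exp (by positivity)
      nlinarith
    · linarith

end BSM_

open BSM_ in
theorem bsm_proof : Stmt_BSM := by
  intro U T s B κ N u k x ζ μ y hL G
  have hT : Tendsto (fun n => (T n : ℝ)) (U : Filter ℕ) atTop :=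
    tendsto_natCast_atTop_atTop.comp hL.lim
  have h1 := hT.eventually (tend (G : ℝ))
  filter_upwards [h1, hL.kb, hL.big G] with n hn hk hbig
  obtain ⟨hn1, hn2⟩ := hn
  set c : ℝ := (2 : ℝ) ^ ((T n : ℝ) / 16) with hc
  have hc0 : 0 < c := Real.rpow_pos_of_pos (by norm_num) _
  have hc16 : c ^ 16 = 2 ^ T n := by
    rw [hc, ← Real.rpow_natCast, ← Real.rpow_mul (by norm_num), ← Real.rpow_natCast]
    congr 1
    push_cast
    ring
  have hkc : |(k n : ℝ)| ≤ c := by
    have h2 : |(k n : ℝ)| ^ 16 ≤ c ^ 16 := by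
      rw [hc16]
      have : ((|k n| ^ 16 : ℤ) : ℝ) ≤ ((2 ^ T n : ℤ) : ℝ) := by exact_mod_cast hk
      push_cast at this
      exact this
    exact le_of_pow_le_pow_left₀ (by norm_num) hc0.le h2
  have h8 : c ^ 2 / 2 ≤ 2 ^ (T n / 8) := by
    have e1 : c ^ 2 / 2 = (2 : ℝ) ^ ((T n : ℝ) / 8 - 1) := by
      rw [hc, ← Real.rpow_natCast, ← Real.rpow_mul (by norm_num), Real.rpow_sub (by norm_num),
        Real.rpow_one]
      congr 2
      push_cast
      ring
    rw [e1, ← Real.rpow_natCast]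
    apply Real.rpow_le_rpow_of_exponent_le (by norm_num)
    have e2 : T n < 8 * (T n / 8 + 1) := by omega
    have e3 : (T n : ℝ) < 8 * (((T n / 8 : ℕ) : ℝ) + 1) := by exact_mod_cast e2
    linarith
  have hrec := rec_bound (u n) (hL.two n) (k n) (x n) (2 / c) (by positivity) (G * T n) (by
    intro j hj
    have hb := hbig j hj
    have hb' : (2 : ℝ) ^ (ze (u n) j + T n / 8) ≤
        |(3 : ℝ) ^ on (u n) j * x n + k n * bv (u n) j| := by
      have : (((2 : ℤ) ^ (ze (u n) j + T n / 8) : ℤ) : ℝ) ≤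
        ((|3 ^ on (u n) j * x n + k n * bv (u n) j| : ℤ) : ℝ) := by exact_mod_cast hb
      push_cast at this
      exact this
    rw [pow_add] at hb'
    have hz : (0 : ℝ) < 2 ^ ze (u n) j := by positivity
    have e4 : (2 : ℝ) ^ ze (u n) j * (c ^ 2 / 2) ≤
        |(3 : ℝ) ^ on (u n) j * x n + k n * bv (u n) j| :=
      (mul_le_mul_of_nonneg_left h8 hz.le).trans hb'
    calc |(k n : ℝ)| * 2 ^ ze (u n) j ≤ c * 2 ^ ze (u n) j :=
          mul_le_mul_of_nonneg_right hkc hz.le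
      _ = 2 / c * ((2 : ℝ) ^ ze (u n) j * (c ^ 2 / 2)) := by
          field_simp
      _ ≤ _ := mul_le_mul_of_nonneg_left e4 (by positivity))
  intro j hj
  have h3 := hrec j hj
  have hA : 0 ≤ 3 ^ on (u n) j * |(x n : ℝ)| := by positivity
  have hδ : 0 ≤ 2 / c := by positivity
  have hpow : (1 + 2 / c) ^ j ≤ 1 + Real.exp (-((T n : ℝ) / 40)) := by
    have e5 : (1 + 2 / c) ^ j ≤ Real.exp (2 / c * (G * T n)) := by
      have e6 : 1 + 2 / c ≤ Real.exp (2 / c) := by
        have := Real.add_one_le_exp (2 / c)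
        linarith
      calc (1 + 2 / c) ^ j ≤ (Real.exp (2 / c)) ^ j := pow_le_pow_left₀ (by positivity) e6 j
        _ = Real.exp (2 / c * j) := by rw [← Real.exp_nat_mul]; congr 1; ring
        _ ≤ _ := by
          apply Real.exp_le_exp.2
          apply mul_le_mul_of_nonneg_left _ hδ
          exact_mod_cast hj
    have e7 : 0 ≤ 2 / c * ((G : ℝ) * T n) := by positivity
    have e8 := Real.abs_exp_sub_one_le (x := 2 / c * ((G : ℝ) * T n))
      (by rw [abs_of_nonneg e7]; exact hn2)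
    rw [abs_of_nonneg e7] at e8
    have e9 := (abs_le.1 e8).2
    have : 2 * (2 / c * ((G : ℝ) * T n)) = 2 * (2 / c) * (G * T n) := by ring
    linarith
  have h4 : (1 + 2 / c) ^ j * (3 ^ on (u n) j * |(x n : ℝ)|) ≤
      (1 + Real.exp (-((T n : ℝ) / 40))) * (3 ^ on (u n) j * |(x n : ℝ)|) :=
    mul_le_mul_of_nonneg_right hpow hA
  linarith

end Pool.Agent.CLX
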