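import Pool.Agent.CLX.Stmts
import Pool.Agent.SBT.RNG

/-!
# CGR: low complexity of the parities implies that all terms are small
-/

set_option autoImplicit false

namespace Pool.Agent.CLX

open Filter Pool.Agent.SBT

namespace CGR_

theorem ze_succ (u : ℕ → ℕ) (j : ℕ) : ze u (j + 1) = ze u j + (1 - u j) := by
  unfold ze
  rw [Finset.sum_range_succ]

theorem on_succ (u : ℕ → ℕ) (j : ℕ) : on u (j + 1) = on u j + u j := by
  unfold on
  rw [Finset.sum_range_succ]

theorem ze_le (u : ℕ → ℕ) (j : ℕ) : ze u j ≤ j := by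
  induction j with
  | zero => simp [ze]
  | succ j ih => rw [ze_succ]; omega

theorem on_le {u : ℕ → ℕ} (hu : ∀ i, u i < 2) (j : ℕ) : on u j ≤ j := by
  induction j with
  | zero => simp [on]
  | succ j ih => rw [on_succ]; have := hu j; omega

theorem ze_mono (u : ℕ → ℕ) (j t : ℕ) : ze u j ≤ ze u (j + t) := by
  induction t with
  | zero => simp
  | succ t ih => rw [← add_assoc, ze_succ]; omega

theorem on_mono (u : ℕ → ℕ) (j t : ℕ) : on u j ≤ on u (j + t) := by
  induction t with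
  | zero => simp
  | succ t ih => rw [← add_assoc, on_succ]; omega

theorem noc {u : ℕ → ℕ} (hu : ∀ i, u i < 2) (h1 : ∀ i, u i = 1 → u (i + 1) = 0) (j t : ℕ) :
    on u (j + t) + ze u j ≤ ze u (j + t) + on u j + 1 ∧
      ((t = 0 ∨ ∃ t', t = t' + 1 ∧ u (j + t') = 0) →
        on u (j + t) + ze u j ≤ ze u (j + t) + on u j) := by
  induction t with
  | zero =>
    simp only [add_zero]
    constructor
    · omega
    · intro _
      omega
  | succ t ih =>
    obtain ⟨ih1, ih2⟩ := ih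
    have hz := ze_succ u (j + t)
    have ho := on_succ u (j + t)
    rw [← add_assoc]
    have h2 := hu (j + t)
    rcases Nat.eq_zero_or_pos (u (j + t)) with h0 | h0
    · constructor
      · omega
      · intro _
        omega
    · have h3 : u (j + t) = 1 := by omega
      have h4 : t = 0 ∨ ∃ t', t = t' + 1 ∧ u (j + t') = 0 := by
        rcases t with _ | t'
        · exact Or.inl rfl
        · right
          refine ⟨t', rfl, ?_⟩
          have h5 := hu (j + t')
          by_contra h6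
          have h7 : u (j + t') = 1 := by omega
          have h8 := h1 _ h7
          rw [← add_assoc] at h3
          omega
      have h5 := ih2 h4
      constructor
      · omega
      · rintro (h6 | ⟨t', h6, h7⟩)
        · omega
        · have h8 : t = t' := by omega
          rw [← h8] at h7
          omega

/-- the bad integers -/
def Bad (C A Λ n : ℕ) : Prop :=
  ∃ (k x : ℤ) (i : ℕ), Odd k ∧ |k| ≤ 2 ^ n ∧ |x| ≤ 2 ^ n ∧
    nbl (par k x) n (Λ * n) ≤ C * n ∧ i ≤ Λ * n ∧ 2 ^ (A * n) < |(col k)^[i] x|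

theorem pow_sum_le {a b : ℤ} {m n : ℕ} (ha : a ≤ 2 ^ m) (hb : b ≤ 2 ^ n) :
    a + b ≤ 2 ^ (m + n + 1) := by
  have h1 : (2 : ℤ) ^ m ≤ 2 ^ (m + n) := pow_le_pow_right₀ (by norm_num) (by omega)
  have h2 : (2 : ℤ) ^ n ≤ 2 ^ (m + n) := pow_le_pow_right₀ (by norm_num) (by omega)
  rw [pow_succ]
  linarith

theorem four_pow (t : ℕ) : (4 : ℤ) ^ t = 2 ^ (2 * t) := by
  rw [pow_mul]
  norm_num

theorem grow {k x : ℤ} {i t m n : ℕ} (h : |(col k)^[i + t] x| ≤ 4 ^ t * (|(col k)^[i] x| + |k|))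
    (h1 : |(col k)^[i] x| ≤ 2 ^ m) (h2 : |k| ≤ 2 ^ n) :
    |(col k)^[i + t] x| ≤ 2 ^ (2 * t + (m + n + 1)) := by
  rw [pow_add, ← four_pow]
  exact h.trans (mul_le_mul_of_nonneg_left (pow_sum_le h1 h2) (by positivity))

end CGR_

open CGR_

theorem cgr_proof (hCRP : Stmt_CRP) (hCSG : Stmt_CSG) (hCCR : Stmt_CCR) (hCOL : Stmt_COL) :
    Stmt_CGR := by
  intro C
  obtain ⟨s, B, hSG⟩ := hCSG C
  obtain ⟨E, hE⟩ := hCCR s (2 * B + 2)
  refine ⟨2 * B + E + 10, ?_⟩
  intro Λ
  obtain ⟨N, hN⟩ := hSG Λ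
  by_contra hcon
  have hfr : ∃ᶠ n in atTop, Bad C (2 * B + E + 10) Λ n := by
    rw [Filter.frequently_atTop]
    intro a
    by_contra h
    refine hcon ⟨a, ?_⟩
    intro n hn k x hk hkn hxn hb i hi
    by_contra h2
    exact h ⟨n, hn, k, x, i, hk, hkn, hxn, hb, hi, not_le.1 h2⟩
  obtain ⟨U, hU, hUe⟩ := RNG_.exists_ultra _ hfr
  have key : ∀ n : ℕ, ∃ (k x : ℤ) (L : ℕ) (ζ μ : Fin s → ℕ) (y : Fin s → ℤ),
      Odd k ∧ L ≤ Λ * n ∧ (8 ≤ n → Bad C (2 * B + E + 10) Λ n →
        (∀ i, 1 ≤ ζ i + μ i ∧ ζ i ≤ (2 * B + 2) * n ∧ μ i ≤ (2 * B + 2) * n) ∧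
        (∀ i, |y i| ≤ 2 ^ ((2 * B + 2) * n)) ∧
        (∃ F : Fin s → ℤ,
          (∀ i, Rpc (ze (par k x)) (on (par k x)) N ((2 * B + 2) * n) L (F i)) ∧
          (∏ i, ((2 : ℤ) ^ ζ i - 3 ^ μ i)) * (2 ^ ze (par k x) L * (col k)^[L] x) =
            ∑ i, F i * y i) ∧ 2 ^ (E * n) < |(col k)^[L] x|) := by
    intro n
    by_cases hbad : Bad C (2 * B + E + 10) Λ n
    swap
    · exact ⟨1, 0, 0, fun _ => 0, fun _ => 0, fun _ => 0, odd_one, Nat.zero_le _,
        fun _ h => absurd h hbad⟩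
    by_cases h8 : 8 ≤ n
    swap
    · exact ⟨1, 0, 0, fun _ => 0, fun _ => 0, fun _ => 0, odd_one, Nat.zero_le _,
        fun h => absurd h h8⟩
    obtain ⟨k, x, i, hk, hkn, hxn, hb, hi, hbig⟩ := hbad
    obtain ⟨hVal, hpar, -, hgr, -⟩ := hCOL k x hk
    obtain ⟨ζ, μ, y, hζ, hy, hz⟩ := hN n k (par k x)
      (fun i => 2 ^ ze (par k x) i * (col k)^[i] x) h8 hpar hVal hb
    -- the place `i` is far from the beginning
    have hi1 : B * n + 1 ≤ i := by
      by_contra hlt
      have h1 := hgr 0 i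
      rw [zero_add] at h1
      have h2 := grow (k := k) (x := x) (i := 0) (t := i) (m := n) (n := n)
        (by rw [zero_add]; exact h1) hxn hkn
      rw [zero_add] at h2
      have h3 : (2 : ℤ) ^ (2 * i + (n + n + 1)) ≤ 2 ^ ((2 * B + E + 10) * n) := by
        apply pow_le_pow_right₀ (by norm_num)
        have h4 : (2 * B + E + 10) * n = 2 * (B * n) + E * n + 10 * n := by ring
        rw [h4]
        have : 0 ≤ E * n := Nat.zero_le _
        omega
      exact absurd (h2.trans h3) (not_le.2 hbig)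
    obtain ⟨L, hL1, hL2, F, hF, hid⟩ := hz (i - B * n - 1) (by omega)
    refine ⟨k, x, L, ζ, μ, y, hk, by omega, fun _ _ => ⟨?_, ?_, ⟨F, ?_, hid⟩, ?_⟩⟩
    · intro j
      obtain ⟨h1, h2, h3⟩ := hζ j
      have h4 : B * n ≤ (2 * B + 2) * n := Nat.mul_le_mul_right n (by omega)
      exact ⟨h1, h2.trans h4, h3.trans h4⟩
    · intro j
      refine (hy j).trans ?_
      have h1 : |(2 : ℤ) ^ ze (par k x) 0 * (col k)^[0] x| = |x| := by
        simp [ze]
      have h2 : (|(2 : ℤ) ^ ze (par k x) 0 * (col k)^[0] x| + |k|) ≤ 2 ^ (n + n + 1) := by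
        rw [h1]
        exact pow_sum_le hxn hkn
      have h2' : (|(2 : ℤ) ^ ze (par k x) 0 * (col k)^[0] x| + |k|) ≤ 2 ^ (n + 1) := by
        rw [h1, pow_succ]
        linarith
      calc (|(2 : ℤ) ^ ze (par k x) 0 * (col k)^[0] x| + |k|) * 4 ^ (B * n)
          ≤ 2 ^ (n + 1) * 4 ^ (B * n) := mul_le_mul_of_nonneg_right h2' (by positivity)
        _ = 2 ^ (n + 1 + 2 * (B * n)) := by rw [four_pow, ← pow_add]
        _ ≤ 2 ^ ((2 * B + 2) * n) := by
            apply pow_le_pow_right₀ (by norm_num)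
            have h4 : (2 * B + 2) * n = 2 * (B * n) + 2 * n := by ring
            rw [h4]
            omega
    · intro j
      exact hCRP.2.2.1 _ _ _ _ _ _ _ _ le_rfl (Nat.mul_le_mul_right n (by omega)) (hF j)
    · by_contra hsm
      have hLi : L + (i - L) = i := by omega
      have h1 := hgr L (i - L)
      have h2 := grow (m := E * n) (n := n) h1 (not_lt.1 hsm) hkn
      rw [hLi] at h2
      have h3 : (2 : ℤ) ^ (2 * (i - L) + (E * n + n + 1)) ≤ 2 ^ ((2 * B + E + 10) * n) := by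
        apply pow_le_pow_right₀ (by norm_num)
        have h4 : (2 * B + E + 10) * n = 2 * (B * n) + E * n + 10 * n := by ring
        rw [h4]
        omega
      exact absurd (h2.trans h3) (not_le.2 hbig)
  choose k x L ζ μ y hdata using key
  have h8 : ∀ᶠ n : ℕ in (U : Filter ℕ), 8 ≤ n := hU (eventually_ge_atTop 8)
  have hfin := hE U N Λ (fun n => ze (par (k n) (x n))) (fun n => on (par (k n) (x n))) L
    (fun i n => ζ n i) (fun i n => μ n i) (fun i n => y n i)
    (fun n => 2 ^ ze (par (k n) (x n)) (L n) * (col (k n))^[L n] (x n))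
    (fun n => (col (k n))^[L n] (x n)) hU ?_ ?_ ?_ ?_ ?_
  · have hF : ∀ᶠ n in (U : Filter ℕ), False := by
      filter_upwards [h8, hUe, hfin] with n h1 h2 h3
      exact absurd h3 (not_le.2 ((hdata n).2.2 h1 h2).2.2.2)
    rw [eventually_false_iff_eq_bot] at hF
    exact U.neBot.ne hF
  · intro n j hj
    obtain ⟨hk, hL, -⟩ := hdata n
    obtain ⟨-, hpar, hnoc, -, -⟩ := hCOL (k n) (x n) hk
    obtain ⟨t, ht⟩ := Nat.exists_eq_add_of_le hj
    have e1 := ze_le (par (k n) (x n)) j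
    have e2 := ze_mono (par (k n) (x n)) j t
    have e3 := on_mono (par (k n) (x n)) j t
    have e4 := on_le hpar (L n)
    have e5 := (noc hpar hnoc j t).1
    rw [← ht] at e2 e3 e5
    refine ⟨by omega, e2, e3, by omega, ?_⟩
    show on (par (k n) (x n)) (L n) - on (par (k n) (x n)) j ≤
      ze (par (k n) (x n)) (L n) - ze (par (k n) (x n)) j + 1
    omega
  · filter_upwards [h8, hUe] with n h1 h2
    exact ((hdata n).2.2 h1 h2).1
  · filter_upwards [h8, hUe] with n h1 h2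
    exact ((hdata n).2.2 h1 h2).2.1
  · filter_upwards [h8, hUe] with n h1 h2
    exact ((hdata n).2.2 h1 h2).2.2.1
  · exact Filter.Eventually.of_forall fun n => rfl

end Pool.Agent.CLX
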