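import Pool.Agent.CLX.Stmts
import Pool.Agent.SBT.Api

/-!
# CLD: a description of the value at a place of a trajectory
-/

set_option autoImplicit false

namespace Pool.Agent.CLX

open Filter Pool.Agent.SBT

namespace CLD_

theorem ps23 : PS S23 := by
  intro p hp
  simp only [S23, Finset.mem_insert, Finset.mem_singleton] at hp
  rcases hp with rfl | rfl
  · exact Nat.prime_two
  · exact Nat.prime_three

theorem isU_two (k : ℕ) : IsU S23 ((2 : ℚ) ^ k) := by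
  have h := isU_nat_pow ps23 (a := 2) (by norm_num) (by
    intro p hp hd
    rw [(Nat.prime_dvd_prime_iff_eq hp Nat.prime_two).1 hd]
    simp [S23]) k
  exact_mod_cast h

theorem isU_three (k : ℕ) : IsU S23 ((3 : ℚ) ^ k) := by
  have h := isU_nat_pow ps23 (a := 3) (by norm_num) (by
    intro p hp hd
    rw [(Nat.prime_dvd_prime_iff_eq hp Nat.prime_three).1 hd]
    simp [S23]) k
  exact_mod_cast h

theorem isU_mono (a b : ℕ) : IsU S23 ((2 : ℚ) ^ a * 3 ^ b) := (isU_two a).mul ps23 (isU_three b)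

theorem two_le : |((2 : ℤ) : ℝ)| ≤ Real.exp 1 := by
  have := Real.add_one_le_exp (1 : ℝ)
  rw [abs_of_nonneg (by norm_num)]
  push_cast
  linarith

theorem three_le : |((3 : ℤ) : ℝ)| ≤ Real.exp 2 := by
  have := Real.add_one_le_exp (2 : ℝ)
  rw [abs_of_nonneg (by norm_num)]
  push_cast
  linarith

theorem zpow_bd {v : ℕ} (hv : v = 0 ∨ v.Prime) (z : ℤ) (hz : z ≠ 0) (k : ℝ) (hk : 0 ≤ k)
    (hzk : |(z : ℝ)| ≤ Real.exp k) (a : ℤ) (m : ℕ) (ha : |a| ≤ m) :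
    av v ((z : ℚ) ^ a) ≤ Real.exp (k * m) := by
  have h1 : av v (z : ℚ) ≤ Real.exp k := (av_int_le_abs hv z).trans hzk
  have h2 : (av v (z : ℚ))⁻¹ ≤ Real.exp k := by
    have h3 := inv_abs_le_av hv hz
    have h4 : 0 < |(z : ℝ)| := by
      have := one_le_abs_int hz
      linarith
    exact (inv_le_of_inv_le₀ h4 h3).trans hzk
  have hmain : ∀ (x : ℝ) (n : ℕ), 0 ≤ x → x ≤ Real.exp k → n ≤ m → x ^ n ≤ Real.exp (k * m) := by
    intro x n hx hxk hn
    have hn' : (n : ℝ) ≤ m := by exact_mod_cast hn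
    calc x ^ n ≤ (Real.exp k) ^ n := pow_le_pow_left₀ hx hxk n
      _ = Real.exp (n * k) := (Real.exp_nat_mul k n).symm
      _ ≤ Real.exp (k * m) := by
          apply Real.exp_le_exp.2
          rw [mul_comm]
          exact mul_le_mul_of_nonneg_left hn' hk
  rw [av_zpow hv]
  obtain ⟨n, hn | hn⟩ := Int.eq_nat_or_neg a
  · subst hn
    rw [zpow_natCast]
    refine hmain _ n (av_nonneg _ _) h1 ?_
    rw [Nat.abs_cast] at ha
    exact_mod_cast ha
  · subst hn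
    rw [zpow_neg, zpow_natCast, ← inv_pow]
    refine hmain _ n (inv_nonneg.2 (av_nonneg _ _)) h2 ?_
    rw [abs_neg, Nat.abs_cast] at ha
    exact_mod_cast ha

theorem two_zpow {v : ℕ} (hv : v = 0 ∨ v.Prime) (a : ℤ) (m : ℕ) (ha : |a| ≤ m) :
    av v ((2 : ℚ) ^ a) ≤ Real.exp (1 * m) := by
  have := zpow_bd hv 2 (by norm_num) 1 (by norm_num) two_le a m ha
  exact_mod_cast this

theorem three_zpow {v : ℕ} (hv : v = 0 ∨ v.Prime) (a : ℤ) (m : ℕ) (ha : |a| ≤ m) :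
    av v ((3 : ℚ) ^ a) ≤ Real.exp (2 * m) := by
  have := zpow_bd hv 3 (by norm_num) 2 (by norm_num) three_le a m ha
  exact_mod_cast this

theorem two_pow {v : ℕ} (hv : v = 0 ∨ v.Prime) (a m : ℕ) (ha : a ≤ m) :
    av v ((2 : ℚ) ^ a) ≤ Real.exp (1 * m) := by
  have := two_zpow hv (a : ℤ) m (by rw [Nat.abs_cast]; exact_mod_cast ha)
  rwa [zpow_natCast] at this

theorem three_pow {v : ℕ} (hv : v = 0 ∨ v.Prime) (a m : ℕ) (ha : a ≤ m) :
    av v ((3 : ℚ) ^ a) ≤ Real.exp (2 * m) := by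
  have := three_zpow hv (a : ℤ) m (by rw [Nat.abs_cast]; exact_mod_cast ha)
  rwa [zpow_natCast] at this

/-- a monomial close to another one -/
theorem ratio {v : ℕ} (hv : v = 0 ∨ v.Prime) (α β z m : ℕ) (D : ℕ) (h1 : |(α : ℤ) - z| ≤ D)
    (h2 : |(β : ℤ) - m| ≤ D) :
    av v ((2 : ℚ) ^ α * 3 ^ β) ≤ Real.exp (3 * D) * av v ((2 : ℚ) ^ z * 3 ^ m) := by
  have e : (2 : ℚ) ^ α * 3 ^ β =
      (2 : ℚ) ^ ((α : ℤ) - z) * (3 : ℚ) ^ ((β : ℤ) - m) * ((2 : ℚ) ^ z * 3 ^ m) := by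
    have e1 : (2 : ℚ) ^ α = (2 : ℚ) ^ ((α : ℤ) - z) * (2 : ℚ) ^ z := by
      rw [← zpow_natCast, ← zpow_natCast (2 : ℚ) z, ← zpow_add₀ (by norm_num)]
      congr 1
      ring
    have e2 : (3 : ℚ) ^ β = (3 : ℚ) ^ ((β : ℤ) - m) * (3 : ℚ) ^ m := by
      rw [← zpow_natCast, ← zpow_natCast (3 : ℚ) m, ← zpow_add₀ (by norm_num)]
      congr 1
      ring
    rw [e1, e2]
    ring
  rw [e, av_mul hv, av_mul hv]
  apply mul_le_mul_of_nonneg_right _ (av_nonneg _ _)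
  calc av v ((2 : ℚ) ^ ((α : ℤ) - z)) * av v ((3 : ℚ) ^ ((β : ℤ) - m))
      ≤ Real.exp (1 * D) * Real.exp (2 * D) :=
        mul_le_mul (two_zpow hv _ D h1) (three_zpow hv _ D h2) (av_nonneg _ _) (Real.exp_pos _).le
    _ = Real.exp (3 * D) := by
        rw [← Real.exp_add]
        congr 1
        ring

theorem gg_mul {U : Ultrafilter ℕ} {S : Finset ℕ} {T : ℕ → ℝ} {r : ℕ} {g : Fin r → ℕ → ℚ}
    (hg : Gd U S T g) {u u' : ℕ → ℚ} (hu : u ∈ Gg U g) (hu' : u' ∈ Gg U g) :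
    u * u' ∈ Gg U g := by
  obtain ⟨κ, e, hκ, h⟩ := hu
  obtain ⟨κ', e', hκ', h'⟩ := hu'
  refine ⟨κ * κ', e + e', mul_pos hκ hκ', ?_⟩
  filter_upwards [h, h'] with n h1 h2
  rw [Pi.mul_apply, h1, h2]
  have : ∏ i, g i n ^ (e + e') i = (∏ i, g i n ^ e i) * ∏ i, g i n ^ e' i := by
    rw [← Finset.prod_mul_distrib]
    exact Finset.prod_congr rfl fun i _ => by
      rw [Pi.add_apply, zpow_add₀ (hg.unit i n).ne_zero]
  rw [this]
  ring

theorem sm_mul {U : Ultrafilter ℕ} {S : Finset ℕ} {T : ℕ → ℝ} (hS : PS S) {B B' : ℝ}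
    {u u' : ℕ → ℚ} (hu : u ∈ Sm U S T B) (hu' : u' ∈ Sm U S T B') :
    u * u' ∈ Sm U S T (B + B') := by
  refine ⟨fun n => (hu.1 n).mul hS (hu'.1 n), ?_⟩
  filter_upwards [hu.2, hu'.2] with n h1 h2 v hv
  rw [Pi.mul_apply, av_mul (place_of_mem hS hv), add_mul, Real.exp_add]
  exact mul_le_mul (h1 v hv) (h2 v hv) (av_nonneg _ _) (Real.exp_pos _).le

theorem lc_prod (hLCC : Stmt_LCC) {U : Ultrafilter ℕ} {S : Finset ℕ} {T : ℕ → ℝ} {r : ℕ}
    {g : Fin r → ℕ → ℚ} (hg : Gd U S T g) {s : ℕ} {C : ℝ} (F : Fin s → ℕ → ℚ)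
    (h : ∀ i, Lc U (Sm U S T C ∩ Gg U g) (F i)) (A : Finset (Fin s)) :
    Lc U (Sm U S T (A.card * C) ∩ Gg U g) (fun n => ∏ i ∈ A, F i n) := by
  classical
  obtain ⟨-, -, hmul, -, -, hmem, -, -⟩ := hLCC U
  induction A using Finset.induction_on with
  | empty =>
    apply hmem
    refine ⟨⟨fun n => by simpa using isU_one S, Eventually.of_forall fun n v hv => ?_⟩,
      1, 0, one_pos, Eventually.of_forall fun n => ?_⟩
    · simp
    · simp
  | insert a A ha ih =>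
    have e1 : (fun n => ∏ i ∈ insert a A, F i n) = F a * fun n => ∏ i ∈ A, F i n := by
      funext n
      rw [Finset.prod_insert ha]
      rfl
    have e2 : ((insert a A).card : ℝ) * C = C + A.card * C := by
      rw [Finset.card_insert_of_notMem ha]
      push_cast
      ring
    rw [e1, e2]
    exact hmul _ _ _ _ _ (h a) ih fun u hu u' hu' =>
      ⟨sm_mul hg.prime hu.1 hu'.1, gg_mul hg hu.2 hu'.2⟩

/-- powers of 2 and 3 are different -/
theorem ne_pow (a b : ℕ) (h : 1 ≤ a + b) : (2 : ℤ) ^ a - 3 ^ b ≠ 0 := by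
  intro h0
  have h1 : (2 : ℤ) ^ a = 3 ^ b := by linarith
  have h2 : (2 : ℕ) ^ a = 3 ^ b := by exact_mod_cast h1
  have h3 : Odd ((3 : ℕ) ^ b) := Odd.pow (by decide)
  rcases Nat.eq_zero_or_pos a with rfl | ha
  · rw [pow_zero] at h2
    have hb : b ≠ 0 := by omega
    have : 1 < (3 : ℕ) ^ b := Nat.one_lt_pow hb (by norm_num)
    omega
  · rw [← h2] at h3
    exact (Nat.not_odd_iff_even.2 ((even_two).pow_of_ne_zero ha.ne')) h3

end CLD_

open CLD_

theorem cld_proof (hLCC : Stmt_LCC) (hBAG : Stmt_BAG) (hINH : Stmt_INH) (hEGM : Stmt_EGM) :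
    Stmt_CLD := by
  intro s B
  have hs0 : (0 : ℝ) ≤ s := Nat.cast_nonneg s
  have hB0 : (0 : ℝ) ≤ B := Nat.cast_nonneg B
  set B₁ : ℝ := (s : ℝ) * (2 * B) + 3 * B with hB₁
  have hB₁0 : 0 ≤ B₁ := by positivity
  refine ⟨B₁ + 1 + s * (s * B + 1), by positivity, ?_⟩
  intro U N Λ Z M L ζ μ y R hU hZM hζμ hy hF
  set T : ℕ → ℝ := fun n => (n : ℝ) with hT
  have hTT : Tendsto T (U : Filter ℕ) atTop := tendsto_natCast_atTop_atTop.mono_left hU
  -- choose the data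
  have h0 : ∀ n : ℕ, ∃ (ε : Fin s → Fin N → ℤ) (α β j : Fin s → Fin N → ℕ),
      (∀ i t, |ε i t| ≤ 1) ∧ (∀ i t, j i t ≤ L n) ∧
      (∀ i t, α i t ≤ (Λ + B) * n ∧ β i t ≤ (Λ + B) * n) ∧
      ((∃ F : Fin s → ℤ, (∀ i, Rpc (Z n) (M n) N (B * n) (L n) (F i)) ∧
        (∏ i, ((2 : ℤ) ^ ζ i n - 3 ^ μ i n)) * R n = ∑ i, F i * y i n) →
        (∀ i t, |(α i t : ℤ) - Z n (j i t)| ≤ (B * n : ℕ) ∧
          |(β i t : ℤ) - ((M n (L n) - M n (j i t) : ℕ) : ℤ)| ≤ (B * n : ℕ)) ∧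
        (∏ i, ((2 : ℤ) ^ ζ i n - 3 ^ μ i n)) * R n =
          ∑ i, (∑ t, ε i t * 2 ^ α i t * 3 ^ β i t) * y i n) := by
    intro n
    by_cases hn : ∃ F : Fin s → ℤ, (∀ i, Rpc (Z n) (M n) N (B * n) (L n) (F i)) ∧
        (∏ i, ((2 : ℤ) ^ ζ i n - 3 ^ μ i n)) * R n = ∑ i, F i * y i n
    · obtain ⟨F, hF1, hF2⟩ := hn
      choose ε α β j h1 h2 h3 using hF1
      have h4 : ∀ i t, j i t ≤ L n := fun i t => (h2 i t).1
      have h5 : ∀ i t, |(α i t : ℤ) - Z n (j i t)| ≤ (B * n : ℕ) ∧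
          |(β i t : ℤ) - ((M n (L n) - M n (j i t) : ℕ) : ℤ)| ≤ (B * n : ℕ) := by
        intro i t
        obtain ⟨a1, a2, a3⟩ := h2 i t
        refine ⟨a2, ?_⟩
        rw [Nat.cast_sub (hZM n _ a1).2.1]
        exact a3
      refine ⟨ε, α, β, j, h1, h4, ?_, fun _ => ⟨h5, ?_⟩⟩
      · intro i t
        obtain ⟨b1, b2⟩ := h5 i t
        obtain ⟨c1, c2, c3⟩ := hZM n (j i t) (h4 i t)
        have b1' := (abs_le.1 b1).2
        have b2' := (abs_le.1 b2).2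
        have e1 : (Λ + B) * n = Λ * n + B * n := by ring
        rw [e1]
        constructor
        · omega
        · omega
      · rw [hF2]
        exact Finset.sum_congr rfl fun i _ => by rw [h3 i]
    · exact ⟨fun _ _ => 0, fun _ _ => 0, fun _ _ => 0, fun _ _ => 0, fun _ _ => by norm_num,
        fun _ _ => Nat.zero_le _, fun _ _ => ⟨Nat.zero_le _, Nat.zero_le _⟩,
        fun h => absurd h hn⟩
  choose ε α β j h1 h2 h3 h4 using h0
  have hc0 : ∀ (i : Fin s) (t : Fin N), ∃ c : ℤ, ∀ᶠ n in (U : Filter ℕ), ε n i t = c := by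
    intro i t
    obtain ⟨c, -, hc⟩ := ult_const_set U (fun n => ε n i t) (Set.finite_Icc (-1 : ℤ) 1)
      (Eventually.of_forall fun n => Set.mem_Icc.2 (abs_le.1 (h1 n i t)))
    exact ⟨c, hc⟩
  choose c hc using hc0
  have hc' : ∀ᶠ n in (U : Filter ℕ), ∀ i t, ε n i t = c i t := by
    rw [eventually_all]
    intro i
    rw [eventually_all]
    exact hc i
  -- the units
  have hu2 : ∀ i, (fun n => (2 : ℚ) ^ ζ i n) ∈ Sm U S23 T (2 * B) := by
    intro i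
    refine ⟨fun n => isU_two _, ?_⟩
    filter_upwards [hζμ] with n hn v hv
    refine (two_pow (place_of_mem ps23 hv) _ _ (hn i).2.1).trans (Real.exp_le_exp.2 ?_)
    have : (0 : ℝ) ≤ B * n := by positivity
    simp only [hT]
    push_cast
    nlinarith
  have hu3 : ∀ i, (fun n => (3 : ℚ) ^ μ i n) ∈ Sm U S23 T (2 * B) := by
    intro i
    refine ⟨fun n => isU_three _, ?_⟩
    filter_upwards [hζμ] with n hn v hv
    refine (three_pow (place_of_mem ps23 hv) _ _ (hn i).2.2).trans (Real.exp_le_exp.2 ?_)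
    simp only [hT]
    push_cast
    nlinarith
  have hum : ∀ i t, (fun n => (2 : ℚ) ^ α n i t * 3 ^ β n i t) ∈ Un U S23 T := by
    intro i t
    refine ⟨fun n => isU_mono _ _, 3 * ((Λ : ℝ) + B), Eventually.of_forall fun n v hv => ?_⟩
    have hv' := place_of_mem ps23 hv
    rw [av_mul hv']
    calc av v ((2 : ℚ) ^ α n i t) * av v ((3 : ℚ) ^ β n i t)
        ≤ Real.exp (1 * ((Λ + B) * n : ℕ)) * Real.exp (2 * ((Λ + B) * n : ℕ)) :=
          mul_le_mul (two_pow hv' _ _ (h3 n i t).1) (three_pow hv' _ _ (h3 n i t).2)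
            (av_nonneg _ _) (Real.exp_pos _).le
      _ = Real.exp (3 * ((Λ : ℝ) + B) * T n) := by
          rw [← Real.exp_add]
          congr 1
          simp only [hT]
          push_cast
          ring
  -- the basis
  let ι := (Fin s) ⊕ (Fin s) ⊕ (Fin s × Fin N)
  let fam : ι → ℕ → ℚ := Sum.elim (fun i n => (2 : ℚ) ^ ζ i n)
    (Sum.elim (fun i n => (3 : ℚ) ^ μ i n) (fun p n => (2 : ℚ) ^ α n p.1 p.2 * 3 ^ β n p.1 p.2))
  have hfam : ∀ x : ι, fam x ∈ Un U S23 T := by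
    rintro (i | i | ⟨i, t⟩)
    · exact ⟨(hu2 i).1, _, (hu2 i).2⟩
    · exact ⟨(hu3 i).1, _, (hu3 i).2⟩
    · exact hum i t
  let eqv := Fintype.equivFin ι
  obtain ⟨r, g, hGd, hGg⟩ := hBAG U S23 T (Fintype.card ι) (fun k => fam (eqv.symm k)) ps23 hTT
    (fun k => hfam _)
  have hGg' : ∀ x : ι, fam x ∈ Gg U g := by
    intro x
    have := hGg (eqv x)
    simpa only [Equiv.symm_apply_apply] using this
  -- the coefficient of `R`
  obtain ⟨-, hadd, -, hsub, hcm, hmem, -, -⟩ := hLCC U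
  have hf1 : ∀ i, Lc U (Sm U S23 T (2 * B) ∩ Gg U g)
      (fun n => (2 : ℚ) ^ ζ i n - 3 ^ μ i n) := by
    intro i
    have a1 := hmem (Sm U S23 T (2 * B) ∩ Gg U g) (fun n => (2 : ℚ) ^ ζ i n)
      ⟨hu2 i, hGg' (Sum.inl i)⟩
    have a2 := hcm _ _ (-1) (hmem (Sm U S23 T (2 * B) ∩ Gg U g) (fun n => (3 : ℚ) ^ μ i n)
      ⟨hu3 i, hGg' (Sum.inr (Sum.inl i))⟩)
    have a3 := hadd _ _ _ a1 a2
    have e : (fun n => (2 : ℚ) ^ ζ i n - 3 ^ μ i n) =
        (fun n => (2 : ℚ) ^ ζ i n) + fun n => ((-1 : ℤ) : ℚ) * (3 : ℚ) ^ μ i n := by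
      funext n
      simp only [Pi.add_apply]
      push_cast
      ring
    rw [e]
    exact a3
  have hf2 := lc_prod hLCC hGd _ hf1 Finset.univ
  rw [Finset.card_univ, Fintype.card_fin] at hf2
  have hf₀ : Lc U (Sm U S23 T B₁ ∩ Gg U g) (fun n => ∏ i, ((2 : ℚ) ^ ζ i n - 3 ^ μ i n)) := by
    refine hsub _ _ _ ?_ hf2
    rintro u ⟨⟨a1, a2⟩, a3⟩
    refine ⟨⟨a1, ?_⟩, a3⟩
    filter_upwards [a2] with n hn v hv
    refine (hn v hv).trans (Real.exp_le_exp.2 ?_)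
    rw [hB₁, add_mul]
    have : (0 : ℝ) ≤ 3 * B * T n := by
      simp only [hT]
      positivity
    linarith
  -- the coefficients of the `y i`
  have hf : ∀ i, Lc U ({u | ∃ w ∈ Pth Z M L, ∀ᶠ n in (U : Filter ℕ), ∀ v ∈ pl S23,
      av v (u n) ≤ Real.exp (B₁ * T n) * av v (w n)} ∩ Gg U g)
      (fun n => ∑ t, (c i t : ℚ) * ((2 : ℚ) ^ α n i t * 3 ^ β n i t)) := by
    intro i
    refine ⟨N, c i, fun t n => (2 : ℚ) ^ α n i t * 3 ^ β n i t, fun t => ⟨?_,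
      hGg' (Sum.inr (Sum.inr (i, t)))⟩, Eventually.of_forall fun n => rfl⟩
    refine ⟨fun n => 2 ^ Z n (j n i t) * 3 ^ (M n (L n) - M n (j n i t)),
      ⟨fun n => j n i t, fun n => h2 n i t, fun n => rfl⟩, ?_⟩
    filter_upwards [hF] with n hn v hv
    obtain ⟨b1, b2⟩ := (h4 n hn).1 i t
    refine (ratio (place_of_mem ps23 hv) _ _ _ _ _ b1 b2).trans ?_
    apply mul_le_mul_of_nonneg_right _ (av_nonneg _ _)
    apply Real.exp_le_exp.2
    rw [hB₁]
    simp only [hT]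
    push_cast
    have : (0 : ℝ) ≤ (s : ℝ) * (2 * B) * n := by positivity
    nlinarith
  -- the description
  have hD1 : Dsg U S23 T g (Pth Z M L) y R (B₁ + 1) := by
    refine hINH U S23 T r s g (Pth Z M L) y R _ _ B₁ hGd hB₁0 hf₀ hf ?_ ?_
    · filter_upwards [hζμ] with n hn
      rw [Finset.prod_ne_zero_iff]
      intro i _ h0
      apply ne_pow _ _ (hn i).1
      exact_mod_cast h0
    · filter_upwards [hF, hc'] with n hn hcn
      have h5 := (h4 n hn).2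
      have h6 := congrArg (fun z : ℤ => (z : ℚ)) h5
      push_cast at h6
      rw [h6]
      refine Finset.sum_congr rfl fun i _ => ?_
      congr 1
      refine Finset.sum_congr rfl fun t _ => ?_
      rw [hcn i t]
      ring
  have hy' : ∀ᶠ n in (U : Filter ℕ), ∀ i, |(y i n : ℝ)| ≤ Real.exp (B * T n) := by
    filter_upwards [hy] with n hn i
    have a1 : |(y i n : ℝ)| ≤ (2 : ℝ) ^ (B * n) := by
      rw [← Int.cast_abs]
      exact_mod_cast hn i
    refine a1.trans ?_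
    have a2 : (2 : ℝ) ≤ Real.exp 1 := by
      have := Real.add_one_le_exp (1 : ℝ)
      linarith
    calc (2 : ℝ) ^ (B * n) ≤ (Real.exp 1) ^ (B * n) := pow_le_pow_left₀ (by norm_num) a2 _
      _ = Real.exp (B * T n) := by
          rw [← Real.exp_nat_mul]
          congr 1
          simp only [hT]
          push_cast
          ring
  obtain ⟨d', Z', hd', hZ', hind', hD2⟩ := hEGM U S23 T r s Unit g
    (fun _ => Pth Z M L) y (fun _ => R) B (B₁ + 1) hGd hB0 hy' (fun _ => hD1)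
  exact ⟨r, g, d', Z', hGd, hd', hZ', hind', hD2 ()⟩

end Pool.Agent.CLX
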