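import Pool.Agent.CLX.Stmts

/-!
# CLX, module COL: the trajectories (MP_d02c56_nt)
-/

set_option autoImplicit false

namespace Pool.Agent.CLX

open Filter Pool.Agent.SBT

namespace COL_

theorem ze_succ (u : ℕ → ℕ) (j : ℕ) : ze u (j + 1) = ze u j + (1 - u j) :=
  Finset.sum_range_succ _ _

theorem step_even {k y : ℤ} (h : Even y) : 2 * col k y = y := by
  unfold col
  rw [if_pos h]
  obtain ⟨m, rfl⟩ := h
  omega

theorem step_odd {k y : ℤ} (h : ¬ Even y) : col k y = 3 * y + k := by
  unfold col
  rw [if_neg h]

theorem par_even {k x : ℤ} {i : ℕ} (h : Even ((col k)^[i] x)) : par k x i = 0 := by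
  unfold par
  rw [if_pos h]

theorem par_odd {k x : ℤ} {i : ℕ} (h : ¬ Even ((col k)^[i] x)) : par k x i = 1 := by
  unfold par
  rw [if_neg h]

theorem par_lt (k x : ℤ) (i : ℕ) : par k x i < 2 := by
  unfold par
  split <;> norm_num

theorem iter_succ (k x : ℤ) (i : ℕ) : (col k)^[i + 1] x = col k ((col k)^[i] x) :=
  Function.iterate_succ_apply' _ _ _

theorem val (k x : ℤ) : Val (par k x) k (fun i => 2 ^ ze (par k x) i * (col k)^[i] x) := by
  intro i
  simp only [iter_succ, ze_succ]
  by_cases h : Even ((col k)^[i] x)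
  · rw [par_even h]
    have := step_even (k := k) h
    simp only [Nat.sub_zero, pow_succ, pow_zero, one_mul, Nat.cast_zero, zero_mul, add_zero]
    rw [mul_assoc, this]
  · rw [par_odd h, step_odd h]
    simp only [Nat.sub_self, add_zero, pow_one, Nat.cast_one, one_mul]
    ring

theorem gap {k x : ℤ} (hk : Odd k) (i : ℕ) (h : par k x i = 1) : par k x (i + 1) = 0 := by
  have h1 : ¬ Even ((col k)^[i] x) := by
    intro h2
    rw [par_even h2] at h
    exact absurd h (by norm_num)
  apply par_even
  rw [iter_succ, step_odd h1]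
  rw [Int.not_even_iff_odd] at h1
  obtain ⟨a, ha⟩ := h1
  obtain ⟨b, hb⟩ := hk
  rw [ha, hb]
  exact ⟨3 * a + b + 2, by ring⟩

theorem col_le (k y : ℤ) : |col k y| + |k| ≤ 4 * (|y| + |k|) := by
  by_cases h : Even y
  · have h1 := step_even (k := k) h
    have h2 : |2 * col k y| = |y| := by rw [h1]
    rw [abs_mul] at h2
    norm_num at h2
    have := abs_nonneg (col k y)
    have := abs_nonneg k
    linarith
  · rw [step_odd h]
    have h1 : |3 * y + k| ≤ |3 * y| + |k| := abs_add_le _ _
    rw [abs_mul] at h1
    norm_num at h1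
    have := abs_nonneg y
    have := abs_nonneg k
    linarith

theorem growth (k x : ℤ) (i t : ℕ) :
    |(col k)^[i + t] x| + |k| ≤ 4 ^ t * (|(col k)^[i] x| + |k|) := by
  induction t with
  | zero => simp
  | succ t ih =>
    rw [← add_assoc, iter_succ]
    have h := col_le k ((col k)^[i + t] x)
    calc |col k ((col k)^[i + t] x)| + |k| ≤ 4 * (|(col k)^[i + t] x| + |k|) := h
      _ ≤ 4 * (4 ^ t * (|(col k)^[i] x| + |k|)) := by linarith
      _ = 4 ^ (t + 1) * (|(col k)^[i] x| + |k|) := by rw [pow_succ]; ring

theorem diff {k x : ℤ} {i j n : ℕ} (h : ∀ t < n, par k x (i + t) = par k x (j + t)) :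
    ∀ t ≤ n, (2 : ℤ) ^ (∑ s ∈ Finset.range t, (1 - par k x (i + s))) *
      ((col k)^[i + t] x - (col k)^[j + t] x) =
      3 ^ (∑ s ∈ Finset.range t, par k x (i + s)) * ((col k)^[i] x - (col k)^[j] x) := by
  intro t
  induction t with
  | zero => intro _; simp
  | succ t ih =>
    intro ht
    have ih' := ih (by omega)
    have hp := h t (by omega)
    rw [Finset.sum_range_succ, Finset.sum_range_succ, ← add_assoc, ← add_assoc, iter_succ,
      iter_succ, pow_add, pow_add]
    by_cases h1 : Even ((col k)^[i + t] x)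
    · have h2 : Even ((col k)^[j + t] x) := by
        by_contra h3
        rw [par_even h1, par_odd h3] at hp
        exact absurd hp (by norm_num)
      rw [par_even h1]
      have e1 := step_even (k := k) h1
      have e2 := step_even (k := k) h2
      simp only [Nat.sub_zero, pow_one, pow_zero, mul_one]
      rw [← ih']
      have : (2 : ℤ) * (col k ((col k)^[i + t] x) - col k ((col k)^[j + t] x)) =
          (col k)^[i + t] x - (col k)^[j + t] x := by linarith
      rw [mul_assoc, this]
    · have h2 : ¬ Even ((col k)^[j + t] x) := by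
        intro h3
        rw [par_odd h1, par_even h3] at hp
        exact absurd hp (by norm_num)
      rw [par_odd h1, step_odd h1, step_odd h2]
      simp only [Nat.sub_self, pow_one, pow_zero, mul_one]
      have : (3 : ℤ) * (col k)^[i + t] x + k - (3 * (col k)^[j + t] x + k) =
          3 * ((col k)^[i + t] x - (col k)^[j + t] x) := by ring
      rw [this, ← mul_assoc, mul_right_comm, ih']
      ring

theorem zeros {k x : ℤ} (hk : Odd k) (i m : ℕ) :
    m ≤ ∑ s ∈ Finset.range (2 * m), (1 - par k x (i + s)) := by
  induction m with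
  | zero => simp
  | succ m ih =>
    have : 2 * (m + 1) = 2 * m + 1 + 1 := by ring
    rw [this, Finset.sum_range_succ, Finset.sum_range_succ]
    have h1 := par_lt k x (i + 2 * m)
    have h2 : 1 ≤ (1 - par k x (i + 2 * m)) + (1 - par k x (i + (2 * m + 1))) := by
      by_cases h : par k x (i + 2 * m) = 1
      · have := gap hk _ h
        rw [add_assoc] at this
        rw [this]
        omega
      · have : par k x (i + 2 * m) = 0 := by omega
        rw [this]
        omega
    omega

end COL_

theorem col_proof : Stmt_COL := by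
  intro k x hk
  refine ⟨COL_.val k x, COL_.par_lt k x, fun i h => COL_.gap hk i h, ?_, ?_⟩
  · intro i t
    have := COL_.growth k x i t
    have := abs_nonneg k
    linarith
  · intro i j m h
    have h1 : ∀ t < 2 * m, par k x (i + t) = par k x (j + t) := by
      intro t ht
      exact congrFun h ⟨t, ht⟩
    have h2 := COL_.diff h1 (2 * m) le_rfl
    have h3 := COL_.zeros (x := x) hk i m
    have h4 : (2 : ℤ) ^ m ∣ 3 ^ (∑ s ∈ Finset.range (2 * m), par k x (i + s)) *
        ((col k)^[i] x - (col k)^[j] x) := by
      rw [← h2]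
      exact Dvd.dvd.mul_right (pow_dvd_pow 2 h3) _
    have h5 : IsCoprime ((2 : ℤ) ^ m) (3 ^ (∑ s ∈ Finset.range (2 * m), par k x (i + s))) := by
      apply IsCoprime.pow
      norm_num
    exact h5.dvd_of_dvd_mul_left h4

end Pool.Agent.CLX
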