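import Pool.Agent.CLX.Stmts

set_option autoImplicit false

namespace Pool.Agent.CLX

open Filter Pool.Agent.SBT

namespace CRP_

open Finset

theorem add {Z M : ℕ → ℕ} {N N' B L : ℕ} {F G : ℤ} (h : Rpc Z M N B L F)
    (h' : Rpc Z M N' B L G) : Rpc Z M (N + N') B L (F + G) := by
  obtain ⟨e, a, b, j, h1, h2, rfl⟩ := h
  obtain ⟨e', a', b', j', h1', h2', rfl⟩ := h'
  refine ⟨Fin.append e e', Fin.append a a', Fin.append b b', Fin.append j j', ?_, ?_, ?_⟩
  · intro t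
    refine Fin.addCases (fun i => ?_) (fun i => ?_) t
    · rw [Fin.append_left]
      exact h1 i
    · rw [Fin.append_right]
      exact h1' i
  · intro t
    refine Fin.addCases (fun i => ?_) (fun i => ?_) t
    · simp only [Fin.append_left]
      exact h2 i
    · simp only [Fin.append_right]
      exact h2' i
  · rw [Fin.sum_univ_add]
    simp only [Fin.append_left, Fin.append_right]

theorem mul {Z M : ℕ → ℕ} {N N' B B' L : ℕ} {F G : ℤ} (h : Rpc Z M N B L F)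
    (h' : Rps N' B' G) : Rpc Z M (N * N') (B + B') L (F * G) := by
  obtain ⟨e, a, b, j, h1, h2, rfl⟩ := h
  obtain ⟨e', a', b', h1', h2', rfl⟩ := h'
  refine ⟨fun p => e (finProdFinEquiv.symm p).1 * e' (finProdFinEquiv.symm p).2,
    fun p => a (finProdFinEquiv.symm p).1 + a' (finProdFinEquiv.symm p).2,
    fun p => b (finProdFinEquiv.symm p).1 + b' (finProdFinEquiv.symm p).2,
    fun p => j (finProdFinEquiv.symm p).1, ?_, ?_, ?_⟩
  · intro t
    rw [abs_mul]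
    exact mul_le_one₀ (h1 _) (abs_nonneg _) (h1' _)
  · intro t
    obtain ⟨c1, c2, c3⟩ := h2 (finProdFinEquiv.symm t).1
    obtain ⟨c4, c5⟩ := h2' (finProdFinEquiv.symm t).2
    refine ⟨c1, ?_, ?_⟩
    · rw [abs_le] at c2 ⊢
      push_cast
      constructor <;> omega
    · rw [abs_le] at c3 ⊢
      push_cast
      constructor <;> omega
  · rw [sum_mul_sum, ← Fintype.sum_prod_type']
    rw [← Equiv.sum_comp finProdFinEquiv.symm]
    apply sum_congr rfl
    intro p _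
    rw [pow_add, pow_add]
    ring

theorem zero (Z M : ℕ → ℕ) (N B L : ℕ) : Rpc Z M N B L 0 := by
  refine ⟨fun _ => 0, fun _ => Z L, fun _ => 0, fun _ => L, by intro t; simp, ?_, by simp⟩
  intro t
  refine ⟨le_rfl, ?_, ?_⟩
  · rw [sub_self, abs_zero]
    exact Int.natCast_nonneg _
  · rw [sub_self, Nat.cast_zero, sub_zero, abs_zero]
    exact Int.natCast_nonneg _

theorem mono {Z M : ℕ → ℕ} {N N' B B' L : ℕ} {F : ℤ} (hN : N ≤ N') (hB : B ≤ B')
    (h : Rpc Z M N B L F) : Rpc Z M N' B' L F := by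
  have h1 : Rpc Z M N B' L F := by
    obtain ⟨e, a, b, j, h1, h2, rfl⟩ := h
    refine ⟨e, a, b, j, h1, fun t => ⟨(h2 t).1, (h2 t).2.1.trans ?_, (h2 t).2.2.trans ?_⟩, rfl⟩
    · exact_mod_cast hB
    · exact_mod_cast hB
  obtain ⟨n, rfl⟩ := Nat.exists_eq_add_of_le hN
  have := add h1 (zero Z M n B' L)
  rwa [add_zero] at this

theorem neg {Z M : ℕ → ℕ} {N B L : ℕ} {F : ℤ} (h : Rpc Z M N B L F) :
    Rpc Z M N B L (-F) := by
  obtain ⟨e, a, b, j, h1, h2, rfl⟩ := h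
  refine ⟨fun t => - e t, a, b, j, ?_, h2, ?_⟩
  · intro t
    rw [abs_neg]
    exact h1 t
  · simp

theorem pt (Z M : ℕ → ℕ) (B L j α β : ℕ) (hj : j ≤ L) (ha : |(α : ℤ) - Z j| ≤ B)
    (hb : |(β : ℤ) - ((M L : ℤ) - M j)| ≤ B) : Rpc Z M 1 B L (2 ^ α * 3 ^ β) :=
  ⟨fun _ => 1, fun _ => α, fun _ => β, fun _ => j, by intro t; simp,
    fun _ => ⟨hj, ha, hb⟩, by simp⟩

theorem longer (Z M : ℕ → ℕ) (N B L L' : ℕ) (F : ℤ) (hL : L ≤ L') (hM : M L ≤ M L')
    (h : Rpc Z M N B L F) : Rpc Z M N B L' (3 ^ (M L' - M L) * F) := by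
  obtain ⟨e, a, b, j, h1, h2, rfl⟩ := h
  refine ⟨e, a, fun t => b t + (M L' - M L), j, h1, fun t => ?_, ?_⟩
  · obtain ⟨c1, c2, c3⟩ := h2 t
    refine ⟨c1.trans hL, c2, ?_⟩
    have e1 : ((b t + (M L' - M L) : ℕ) : ℤ) - ((M L' : ℤ) - M (j t))
        = (b t : ℤ) - ((M L : ℤ) - M (j t)) := by
      rw [Nat.cast_add, Nat.cast_sub hM]
      ring
    rw [e1]
    exact c3
  · rw [mul_sum]
    apply sum_congr rfl
    intro t _
    rw [pow_add]
    ring

theorem sadd {N N' B : ℕ} {F G : ℤ} (h : Rps N B F) (h' : Rps N' B G) :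
    Rps (N + N') B (F + G) := by
  obtain ⟨e, a, b, h1, h2, rfl⟩ := h
  obtain ⟨e', a', b', h1', h2', rfl⟩ := h'
  refine ⟨Fin.append e e', Fin.append a a', Fin.append b b', ?_, ?_, ?_⟩
  · intro t
    refine Fin.addCases (fun i => ?_) (fun i => ?_) t
    · rw [Fin.append_left]
      exact h1 i
    · rw [Fin.append_right]
      exact h1' i
  · intro t
    refine Fin.addCases (fun i => ?_) (fun i => ?_) t
    · simp only [Fin.append_left]
      exact h2 i
    · simp only [Fin.append_right]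
      exact h2' i
  · rw [Fin.sum_univ_add]
    simp only [Fin.append_left, Fin.append_right]

theorem smul {N N' B B' : ℕ} {F G : ℤ} (h : Rps N B F) (h' : Rps N' B' G) :
    Rps (N * N') (B + B') (F * G) := by
  obtain ⟨e, a, b, h1, h2, rfl⟩ := h
  obtain ⟨e', a', b', h1', h2', rfl⟩ := h'
  refine ⟨fun p => e (finProdFinEquiv.symm p).1 * e' (finProdFinEquiv.symm p).2,
    fun p => a (finProdFinEquiv.symm p).1 + a' (finProdFinEquiv.symm p).2,
    fun p => b (finProdFinEquiv.symm p).1 + b' (finProdFinEquiv.symm p).2, ?_, ?_, ?_⟩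
  · intro t
    rw [abs_mul]
    exact mul_le_one₀ (h1 _) (abs_nonneg _) (h1' _)
  · intro t
    exact ⟨Nat.add_le_add (h2 _).1 (h2' _).1, Nat.add_le_add (h2 _).2 (h2' _).2⟩
  · rw [sum_mul_sum, ← Fintype.sum_prod_type']
    rw [← Equiv.sum_comp finProdFinEquiv.symm]
    apply sum_congr rfl
    intro p _
    rw [pow_add, pow_add]
    ring

theorem szero (N B : ℕ) : Rps N B 0 :=
  ⟨fun _ => 0, fun _ => 0, fun _ => 0, by intro t; simp, by intro t; simp, by simp⟩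

theorem smono {N N' B B' : ℕ} {F : ℤ} (hN : N ≤ N') (hB : B ≤ B') (h : Rps N B F) :
    Rps N' B' F := by
  have h1 : Rps N B' F := by
    obtain ⟨e, a, b, h1, h2, rfl⟩ := h
    exact ⟨e, a, b, h1, fun t => ⟨(h2 t).1.trans hB, (h2 t).2.trans hB⟩, rfl⟩
  obtain ⟨n, rfl⟩ := Nat.exists_eq_add_of_le hN
  have := sadd h1 (szero n B')
  rwa [add_zero] at this

theorem sneg {N B : ℕ} {F : ℤ} (h : Rps N B F) : Rps N B (-F) := by
  obtain ⟨e, a, b, h1, h2, rfl⟩ := h
  refine ⟨fun t => - e t, a, b, ?_, h2, ?_⟩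
  · intro t
    rw [abs_neg]
    exact h1 t
  · simp

theorem spt (a b : ℕ) : Rps 1 (max a b) ((2 : ℤ) ^ a * 3 ^ b) :=
  ⟨fun _ => 1, fun _ => a, fun _ => b, by intro t; simp,
    fun _ => ⟨le_max_left _ _, le_max_right _ _⟩, by simp⟩

theorem two (a b : ℕ) : Rps 2 (a + b) ((2 : ℤ) ^ a - 3 ^ b) := by
  have h1 : Rps 1 (a + b) ((2 : ℤ) ^ a) := by
    have := spt a 0
    rw [pow_zero, mul_one] at this
    exact smono le_rfl (by simp) this
  have h2 : Rps 1 (a + b) ((3 : ℤ) ^ b) := by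
    have := spt 0 b
    rw [pow_zero, one_mul] at this
    exact smono le_rfl (by simp) this
  have := sadd h1 (sneg h2)
  simpa [sub_eq_add_neg] using this

theorem prd : ∀ (E : ℕ) (ζ μ : Fin E → ℕ),
    Rps (2 ^ E) (∑ i, (ζ i + μ i)) (∏ i, ((2 : ℤ) ^ ζ i - 3 ^ μ i)) := by
  intro E
  induction E with
  | zero =>
    intro ζ μ
    have := spt 0 0
    simpa using this
  | succ E ih =>
    intro ζ μ
    rw [Fin.prod_univ_castSucc, Fin.sum_univ_castSucc, pow_succ]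
    exact smul (ih _ _) (two _ _)

end CRP_

theorem crp_proof : Stmt_CRP :=
  ⟨fun _ _ _ _ _ _ _ _ h h' => CRP_.add h h', fun _ _ _ _ _ _ _ _ _ h h' => CRP_.mul h h',
    fun _ _ _ _ _ _ _ _ h h' h'' => CRP_.mono h h' h'', CRP_.zero,
    fun _ _ _ _ _ _ h => CRP_.neg h, CRP_.pt, CRP_.longer,
    fun _ _ _ _ _ _ h h' => CRP_.smul h h', fun _ _ _ _ _ h h' h'' => CRP_.smono h h' h'',
    CRP_.spt, CRP_.prd⟩

end Pool.Agent.CLX
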