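import Pool.Agent.CLX.Stmts

/-!
# Squad CLX, module CSF: the structure theorem for values of parity words
-/

set_option autoImplicit false

namespace Pool.Agent.CLX

open Filter Pool.Agent.SBT

namespace CSF_

/-- the value of a word -/
def bv (w : ℕ → ℕ) : ℕ → ℤ
  | 0 => 0
  | t + 1 => 3 ^ w t * bv w t + (w t : ℤ) * 2 ^ ze w t

theorem bv_zero (w : ℕ → ℕ) : bv w 0 = 0 := rfl

theorem bv_succ (w : ℕ → ℕ) (t : ℕ) :
    bv w (t + 1) = 3 ^ w t * bv w t + (w t : ℤ) * 2 ^ ze w t := rfl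

theorem ze_zero (u : ℕ → ℕ) : ze u 0 = 0 := by
  unfold ze
  simp

theorem on_zero (u : ℕ → ℕ) : on u 0 = 0 := by
  unfold on
  simp

theorem ze_succ (u : ℕ → ℕ) (j : ℕ) : ze u (j + 1) = ze u j + (1 - u j) := by
  unfold ze
  rw [Finset.sum_range_succ]

theorem on_succ (u : ℕ → ℕ) (j : ℕ) : on u (j + 1) = on u j + u j := by
  unfold on
  rw [Finset.sum_range_succ]

theorem ze_add (u : ℕ → ℕ) (i t : ℕ) :
    ze u (i + t) = ze u i + ze (fun l => u (i + l)) t := by
  induction t with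
  | zero => rw [ze_zero, Nat.add_zero, Nat.add_zero]
  | succ t ih =>
    rw [show i + (t + 1) = (i + t) + 1 by ring, ze_succ, ze_succ, ih]
    omega

theorem on_add (u : ℕ → ℕ) (i t : ℕ) :
    on u (i + t) = on u i + on (fun l => u (i + l)) t := by
  induction t with
  | zero => rw [on_zero, Nat.add_zero, Nat.add_zero]
  | succ t ih =>
    rw [show i + (t + 1) = (i + t) + 1 by ring, on_succ, on_succ, ih]
    omega

theorem ze_congr {v w : ℕ → ℕ} (t : ℕ) (h : ∀ l < t, v l = w l) : ze v t = ze w t := by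
  unfold ze
  exact Finset.sum_congr rfl (fun l hl => by rw [h l (Finset.mem_range.1 hl)])

theorem on_congr {v w : ℕ → ℕ} (t : ℕ) (h : ∀ l < t, v l = w l) : on v t = on w t := by
  unfold on
  exact Finset.sum_congr rfl (fun l hl => by rw [h l (Finset.mem_range.1 hl)])

theorem ze_on {w : ℕ → ℕ} (hw : ∀ i, w i < 2) (t : ℕ) : ze w t + on w t = t := by
  induction t with
  | zero => rw [ze_zero, on_zero]
  | succ t ih =>
    rw [ze_succ, on_succ]
    have := hw t
    omega

theorem bv_congr {v w : ℕ → ℕ} (t : ℕ) (h : ∀ l < t, v l = w l) : bv v t = bv w t := by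
  induction t with
  | zero => rfl
  | succ t ih =>
    rw [bv_succ, bv_succ, ih (fun l hl => h l (by omega)),
      ze_congr t (fun l hl => h l (by omega)), h t (by omega)]

theorem bv_bd {w : ℕ → ℕ} (hw : ∀ i, w i < 2) (t : ℕ) : 0 ≤ bv w t ∧ bv w t + 1 ≤ 4 ^ t := by
  induction t with
  | zero =>
    rw [bv_zero]
    norm_num
  | succ t ih =>
    obtain ⟨h1, h2⟩ := ih
    have h3 : (2 : ℤ) ^ ze w t ≤ 4 ^ t := by
      have h4 : ze w t ≤ t := by
        have := ze_on hw t
        omega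
      calc (2 : ℤ) ^ ze w t ≤ 2 ^ t := pow_le_pow_right₀ (by norm_num) h4
        _ ≤ 4 ^ t := pow_le_pow_left₀ (by norm_num) (by norm_num) t
    have h5 : (0 : ℤ) ≤ 2 ^ ze w t := by positivity
    have h6 := hw t
    rw [bv_succ, pow_succ]
    rcases (by omega : w t = 0 ∨ w t = 1) with h | h
    · rw [h]
      constructor
      · simpa using h1
      · have h7 : (0 : ℤ) ≤ 4 ^ t := by positivity
        simp only [pow_zero, one_mul, Nat.cast_zero, zero_mul, add_zero]
        linarith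
    · rw [h]
      constructor
      · have := mul_nonneg (show (0 : ℤ) ≤ 3 by norm_num) h1
        simp only [pow_one, Nat.cast_one, one_mul]
        linarith
      · simp only [pow_one, Nat.cast_one, one_mul]
        linarith

/-- the value of a longer prefix -/
theorem val_eq {u : ℕ → ℕ} {k : ℤ} {P : ℕ → ℤ} (hP : Val u k P) (i t : ℕ) :
    P (i + t) = 3 ^ on (fun l => u (i + l)) t * P i +
      2 ^ ze u i * (k * bv (fun l => u (i + l)) t) := by
  induction t with
  | zero =>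
    rw [on_zero, bv_zero]
    simp
  | succ t ih =>
    have h1 : P (i + (t + 1)) =
        3 ^ u (i + t) * P (i + t) + (u (i + t) : ℤ) * k * 2 ^ ze u (i + t) := hP (i + t)
    rw [h1, ih, on_succ, bv_succ, ze_add u i t, pow_add, pow_add]
    ring

theorem val_bd {u : ℕ → ℕ} {k : ℤ} {P : ℕ → ℤ} (hu : ∀ i, u i < 2) (hP : Val u k P) (t : ℕ) :
    |P t| ≤ (|P 0| + |k|) * 4 ^ t := by
  have h1 := val_eq hP 0 t
  rw [Nat.zero_add, ze_zero, pow_zero, one_mul] at h1
  have hw : ∀ i, (fun l => u (0 + l)) i < 2 := fun i => hu _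
  obtain ⟨h2, h3⟩ := bv_bd hw t
  have h4 : (3 : ℤ) ^ on (fun l => u (0 + l)) t ≤ 4 ^ t := by
    have h5 : on (fun l => u (0 + l)) t ≤ t := by
      have := ze_on hw t
      omega
    calc (3 : ℤ) ^ on (fun l => u (0 + l)) t ≤ 3 ^ t := pow_le_pow_right₀ (by norm_num) h5
      _ ≤ 4 ^ t := pow_le_pow_left₀ (by norm_num) (by norm_num) t
  have h6 : (0 : ℤ) ≤ 3 ^ on (fun l => u (0 + l)) t := by positivity
  rw [h1]
  refine (abs_add_le _ _).trans ?_
  rw [abs_mul, abs_mul, abs_of_nonneg h6, abs_of_nonneg h2, add_mul]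
  have h7 : (3 : ℤ) ^ on (fun l => u (0 + l)) t * |P 0| ≤ |P 0| * 4 ^ t := by
    rw [mul_comm]
    exact mul_le_mul_of_nonneg_left h4 (abs_nonneg _)
  have h8 : |k| * bv (fun l => u (0 + l)) t ≤ |k| * 4 ^ t :=
    mul_le_mul_of_nonneg_left (by linarith) (abs_nonneg _)
  linarith

/-- coding of a small set -/
theorem enc_exists {α : Type} (T : Set α) (hT : T.Finite) (E : ℕ) (h : T.ncard ≤ E)
    (hE : 0 < E) : ∃ enc : α → Fin E, Set.InjOn enc T := by
  classical
  have : Fintype T := hT.fintype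
  have h1 : Fintype.card T ≤ Fintype.card (Fin E) := by
    rw [Fintype.card_fin, ← Nat.card_eq_fintype_card, Nat.card_coe_set_eq]
    exact h
  obtain ⟨f⟩ := Function.Embedding.nonempty_of_card_le h1
  refine ⟨fun x => if hx : x ∈ T then f ⟨x, hx⟩ else ⟨0, hE⟩, ?_⟩
  intro x hx y hy hxy
  simp only [dif_pos hx, dif_pos hy] at hxy
  have := f.injective hxy
  exact congrArg Subtype.val this

/-- enumeration of a bounded set -/
theorem enum_exists (p : ℕ → Prop) (X : ℕ) (hp : ∀ x, p x → x < X) :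
    ∃ (K : ℕ) (β : ℕ → ℕ), (∀ i j, i < j → j < K → β i < β j) ∧
      ∀ x, p x ↔ ∃ k < K, β k = x := by
  classical
  have hfin : {x | p x}.Finite := (Set.finite_Iio X).subset (fun x hx => hp x hx)
  refine ⟨hfin.toFinset.card, Nat.nth p, ?_, ?_⟩
  · intro i j hij hj
    exact Nat.nth_lt_nth_of_lt_card hfin hij hj
  · intro x
    constructor
    · intro hx
      obtain ⟨k, hk, hkx⟩ := Nat.exists_lt_card_finite_nth_eq hfin hx
      exact ⟨k, hk, hkx⟩
    · rintro ⟨k, hk, rfl⟩
      exact Nat.nth_mem_of_lt_card hfin hk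

/-- the choice of the length -/
theorem len_exists (f : ℕ → ℕ) (C n : ℕ) (hn : 8 ≤ n) (h : f n ≤ C * n) :
    ∃ m, n ≤ 2 * m ∧ m + 1 ≤ n ∧ f (m + 1) ≤ f m + 3 * C := by
  by_contra hcon
  push Not at hcon
  have h1 : ∀ j, (n + 1) / 2 + j ≤ n → (3 * C + 1) * j ≤ f ((n + 1) / 2 + j) := by
    intro j
    induction j with
    | zero => intro _; simp
    | succ j ih =>
      intro hj
      have h2 := ih (by omega)
      have h3 := hcon ((n + 1) / 2 + j) (by omega) (by omega)
      rw [← Nat.add_assoc, Nat.mul_add]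
      omega
  have h2 := h1 (n / 2) (by omega)
  have h3 : (n + 1) / 2 + n / 2 = n := by omega
  rw [h3] at h2
  have h4 : n ≤ 2 * (n / 2) + 1 := by omega
  have h5 : (3 * C + 1) * (n / 2) ≤ C * n := h2.trans h
  have h6 : 4 ≤ n / 2 := by omega
  nlinarith

theorem nbl_mono (hTYC : Stmt_TYC) {u : ℕ → ℕ} (hu : (Set.range u).Finite) (X m j : ℕ) :
    nbl u m X ≤ nbl u (m + j) X := by
  induction j with
  | zero => exact le_refl _
  | succ j ih => exact ih.trans (hTYC u (m + j) X hu).1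

/-- from the places to the path -/
theorem rpc_path {u : ℕ → ℕ} {β : ℕ → ℕ} {m N B K : ℕ} {F : ℤ}
    (hβ : ∀ j, j ≤ K → β j ≤ β K)
    (h : Rpc (fun l => ze u (β l + m)) (fun l => on u (β l + m)) N B K F) :
    Rpc (ze u) (on u) N B (β K + m) F := by
  obtain ⟨ε, α, γ, j, h1, h2, h3⟩ := h
  refine ⟨ε, α, γ, fun t => β (j t) + m, h1, ?_, h3⟩
  intro t
  obtain ⟨h4, h5, h6⟩ := h2 t
  exact ⟨Nat.add_le_add_right (hβ (j t) h4) m, h5, h6⟩

end CSF_

open CSF_ in
theorem csf_proof (hTYC : Stmt_TYC) (hDTM : Stmt_DTM) (hSPX : Stmt_SPX) (hRTN : Stmt_RTN)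
    (hCSV : Stmt_CSV) : Stmt_CSF := by
  classical
  intro C
  refine ⟨6 * C + 1 + 1, (2 * (6 * C + 1 + 1) + 3) * (C + 1), ?_⟩
  intro Λ
  obtain ⟨N₀, hN₀⟩ := hCSV (6 * C + 1 + 1) (6 * Λ)
  refine ⟨N₀, ?_⟩
  intro n kk u P hn hu hP hnbl
  have hufin : (Set.range u).Finite :=
    (Set.finite_Iio 2).subset (by rintro _ ⟨i, rfl⟩; exact hu i)
  obtain ⟨X, hX⟩ : ∃ X, X = Λ * n := ⟨_, rfl⟩
  rw [← hX] at hnbl ⊢
  obtain ⟨B₂, hB₂⟩ : ∃ B₂, B₂ = (C + 1) * n := ⟨_, rfl⟩
  have hCn : C * n + n = B₂ := by rw [hB₂]; ring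
  have hBn : (2 * (6 * C + 1 + 1) + 3) * (C + 1) * n = (2 * (6 * C + 1 + 1) + 3) * B₂ := by
    rw [hB₂]; ring
  rw [hBn]
  have hB₂le : B₂ ≤ (2 * (6 * C + 1 + 1) + 3) * B₂ := Nat.le_mul_of_pos_left _ (by omega)
  obtain ⟨B₃, hB₃⟩ : ∃ B₃, B₃ = (2 * (6 * C + 1 + 1) + 3) * B₂ := ⟨_, rfl⟩
  rw [← hB₃] at hB₂le ⊢
  -- the length
  obtain ⟨m, hm1, hm2, hm3⟩ := len_exists (fun m => nbl u m X) C n hn hnbl
  have hm4 : nbl u m X ≤ C * n := by
    obtain ⟨d, rfl⟩ := Nat.exists_eq_add_of_le (Nat.le_of_succ_le hm2)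
    exact (nbl_mono hTYC hufin X m d).trans hnbl
  -- the enumeration
  obtain ⟨K₁, β, hβ, hSp⟩ := enum_exists (Spe u m X) X (fun x hx => hx.1)
  have hSβ : ∀ k < K₁, Spe u m X (β k) := fun k hk => (hSp _).2 ⟨k, hk, rfl⟩
  have hβX : ∀ k < K₁, β k < X := fun k hk => (hSβ k hk).1
  have hβm : ∀ i j, i ≤ j → j < K₁ → β i ≤ β j := by
    intro i j hij hj
    rcases Nat.eq_or_lt_of_le hij with h | h
    · rw [h]
    · exact (hβ i j h hj).le
  -- a special place after `β k` is at least `β (k + 1)`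
  have hnext : ∀ k, k + 1 < K₁ → ∀ x, β k < x → Spe u m X x → β (k + 1) ≤ x := by
    intro k hk x hx hxs
    obtain ⟨k', hk', rfl⟩ := (hSp x).1 hxs
    apply hβm _ _ _ hk'
    by_contra hlt
    have := hβm k' k (by omega) (by omega)
    omega
  -- gaps
  have hgap : ∀ k, k + 1 < K₁ → β (k + 1) ≤ β k + 1 + C * n := by
    intro k hk
    by_cases hc : β k + 1 + C * n < X
    · rcases hSPX u m X (β k + 1) (C * n) hm4 hc with ⟨x, hx1, hx2, hx3⟩ | ⟨_, _, _, _, hno⟩
      · exact (hnext k hk x (by omega) hx3).trans hx2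
      · exact absurd (hSβ (k + 1) hk) (hno _ (hβ k (k + 1) (by omega) hk))
    · have := hβX (k + 1) hk
      omega
  have hgap0 : 0 < K₁ → β 0 ≤ C * n := by
    intro hK
    by_cases hc : 0 + C * n < X
    · rcases hSPX u m X 0 (C * n) hm4 hc with ⟨x, hx1, hx2, hx3⟩ | ⟨_, _, _, _, hno⟩
      · obtain ⟨k', hk', rfl⟩ := (hSp x).1 hx3
        have := hβm 0 k' (Nat.zero_le _) hk'
        omega
      · exact absurd (hSβ 0 hK) (hno _ (Nat.zero_le _))
    · have := hβX 0 hK
      omega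
  -- the types
  have hTfin : (blk u (m + 1) '' {i | Spe u m X i}).Finite :=
    ((Set.finite_Iio X).subset (fun x hx => hx.1)).image _
  have hTcard : (blk u (m + 1) '' {i | Spe u m X i}).ncard ≤ 6 * C + 1 := by
    have := (hTYC u m X hufin).2
    omega
  obtain ⟨enc, henc⟩ := enc_exists _ hTfin (6 * C + 1) hTcard (Nat.succ_pos _)
  obtain ⟨ty, hty⟩ : ∃ ty : ℕ → Fin (6 * C + 1), ∀ k, ty k = enc (blk u (m + 1) (β k)) :=
    ⟨_, fun _ => rfl⟩
  have htyiff : ∀ k k', k < K₁ → k' < K₁ →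
      (ty k = ty k' ↔ blk u (m + 1) (β k) = blk u (m + 1) (β k')) := by
    intro k k' hk hk'
    rw [hty, hty]
    constructor
    · intro h
      exact henc ⟨β k, hSβ k hk, rfl⟩ ⟨β k', hSβ k' hk', rfl⟩ h
    · intro h
      rw [h]
  -- the gap depends only on the type
  have hdet1 : ∀ k k', k + 1 < K₁ → k' + 1 < K₁ → ty k = ty k' →
      β (k + 1) + β k' ≤ β (k' + 1) + β k →
      β (k + 1) + β k' = β (k' + 1) + β k ∧
        ∀ l < β (k + 1) - β k, u (β k + m + l) = u (β k' + m + l) := by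
    intro k k' hk hk' hkk hle
    have hb := (htyiff k k' (by omega) (by omega)).1 hkk
    have h1 := hβ k (k + 1) (by omega) hk
    have h2 := hβ k' (k' + 1) (by omega) hk'
    obtain ⟨t, ht⟩ : ∃ t, β (k + 1) = β k + t := ⟨β (k + 1) - β k, by omega⟩
    have hX1 := hβX (k + 1) hk
    have hX2 := hβX (k' + 1) hk'
    obtain ⟨h3, h4⟩ := hDTM u m X (β k) (β k') t (hSβ k (by omega)) (hSβ k' (by omega)) hb
      (by omega) (by omega) (by omega) (by
        intro l hl1 hl2 hl3
        have := hnext k hk (β k + l) (by omega) hl3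
        omega)
    have h5 : Spe u m X (β k' + t) := by
      rw [← h4, ← ht]
      exact hSβ (k + 1) hk
    have h6 := hnext k' hk' (β k' + t) (by omega) h5
    have h7 : β (k' + 1) = β k' + t := by omega
    refine ⟨by omega, ?_⟩
    intro l hl
    have := congrFun h3 ⟨m + l, by omega⟩
    simp only [blk] at this
    rw [Nat.add_assoc, Nat.add_assoc]
    exact this
  have hdet : ∀ k k', k + 1 < K₁ → k' + 1 < K₁ → ty k = ty k' →
      β (k + 1) + β k' = β (k' + 1) + β k ∧
        ∀ l < β (k + 1) - β k, u (β k + m + l) = u (β k' + m + l) := by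
    intro k k' hk hk' hkk
    rcases le_total (β (k + 1) + β k') (β (k' + 1) + β k) with h | h
    · exact hdet1 k k' hk hk' hkk h
    · obtain ⟨h1, h2⟩ := hdet1 k' k hk' hk hkk.symm h
      have h3 := hβ k (k + 1) (by omega) hk
      have h4 := hβ k' (k' + 1) (by omega) hk'
      exact ⟨h1.symm, fun l hl => (h2 l (by omega)).symm⟩
  have hvw : ∀ t : Fin (6 * C + 1), ∃ (v zt ot : ℕ) (w : ℤ), 1 ≤ v ∧ zt ≤ B₂ ∧ ot ≤ B₂ ∧
      |w| ≤ |kk| * 4 ^ B₂ ∧
      ∀ k, k + 1 < K₁ → ty k = t → β (k + 1) = β k + v ∧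
        ze u (β (k + 1) + m) = ze u (β k + m) + zt ∧
        on u (β (k + 1) + m) = on u (β k + m) + ot ∧
        P (β (k + 1) + m) = 3 ^ ot * P (β k + m) + 2 ^ ze u (β k + m) * w := by
    intro t
    by_cases hex : ∃ k, k + 1 < K₁ ∧ ty k = t
    · obtain ⟨k₀, hk₀, hk₀t⟩ := hex
      have h1 := hβ k₀ (k₀ + 1) (by omega) hk₀
      have h2 := hgap k₀ hk₀
      obtain ⟨v, hv⟩ : ∃ v, v = β (k₀ + 1) - β k₀ := ⟨_, rfl⟩
      have hw : ∀ i, (fun l => u (β k₀ + m + l)) i < 2 := fun i => hu _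
      have hvB : v ≤ B₂ := by omega
      have hzo := ze_on hw v
      refine ⟨v, ze (fun l => u (β k₀ + m + l)) v, on (fun l => u (β k₀ + m + l)) v,
        kk * bv (fun l => u (β k₀ + m + l)) v, by omega, by omega, by omega, ?_, ?_⟩
      · obtain ⟨h3, h4⟩ := bv_bd hw v
        rw [abs_mul, abs_of_nonneg h3]
        apply mul_le_mul_of_nonneg_left _ (abs_nonneg _)
        have h6 : (4 : ℤ) ^ v ≤ 4 ^ B₂ := pow_le_pow_right₀ (by norm_num) hvB
        linarith
      · intro k hk hkt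
        obtain ⟨h3, h4⟩ := hdet k₀ k hk₀ hk (hk₀t.trans hkt.symm)
        rw [← hv] at h4
        have h5 := hβ k (k + 1) (by omega) hk
        have h6 : β (k + 1) = β k + v := by omega
        have h7 : β (k + 1) + m = β k + m + v := by omega
        have h8 : ∀ l < v, (fun l => u (β k₀ + m + l)) l = (fun l => u (β k + m + l)) l := h4
        refine ⟨h6, ?_, ?_, ?_⟩
        · rw [h7, ze_add, ze_congr v h8]
        · rw [h7, on_add, on_congr v h8]
        · rw [h7, val_eq hP, on_congr v h8, bv_congr v h8]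
    · push Not at hex
      refine ⟨1, 0, 0, 0, le_refl _, Nat.zero_le _, Nat.zero_le _, ?_, ?_⟩
      · rw [abs_zero]
        positivity
      · intro k hk hkt
        exact absurd hkt (hex k hk)
  choose len zt ot w hlen1 hzt hot hw hlenw using hvw
  -- returns
  have hD1 : 2 * (m / 2) ≤ m := by omega
  obtain ⟨D, hD⟩ : ∃ D, D = m / 2 := ⟨_, rfl⟩
  rw [← hD] at hD1
  obtain ⟨hR1, hR2, hR3⟩ := hRTN u m X K₁ D β hβ hSp hD1
  have hqq : ∀ t : Fin (6 * C + 1), ∃ q ζ μ : ℕ, 1 ≤ q ∧ q ≤ D ∧ 1 ≤ ζ + μ ∧ ζ ≤ B₂ ∧ μ ≤ B₂ ∧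
      ∀ k k', k < k' → k' < K₁ → ty k = ty k' → ty k = t → β k' ≤ β k + D →
        (∀ j, k < j → j < k' → ty k ≠ ty j) → β k' = β k + q ∧
          ze u (β k' + m) = ze u (β k + m) + ζ ∧ on u (β k' + m) = on u (β k + m) + μ := by
    intro t
    by_cases hex : ∃ k k', k < k' ∧ k' < K₁ ∧ ty k = ty k' ∧ ty k = t ∧ β k' ≤ β k + D ∧
        (∀ j, k < j → j < k' → ty k ≠ ty j)
    · obtain ⟨l, l', h1, h2, h3, h4, h5, h6⟩ := hex
      have h7 := hβ l l' h1 h2
      obtain ⟨q, hq⟩ : ∃ q, q = β l' - β l := ⟨_, rfl⟩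
      have hwq : ∀ i, (fun j => u (β l + m + j)) i < 2 := fun i => hu _
      have hzo := ze_on hwq q
      refine ⟨q, ze (fun j => u (β l + m + j)) q, on (fun j => u (β l + m + j)) q,
        by omega, by omega, by omega, by omega, by omega, ?_⟩
      intro k k' g1 g2 g3 g4 g5 g6
      have hr := hR1 k k' l l' g1 g2 h1 h2
        ((htyiff k k' (by omega) g2).1 g3) ((htyiff l l' (by omega) h2).1 h3)
        ((htyiff k l (by omega) (by omega)).1 (g4.trans h4.symm)) g5 h5
        (fun j j1 j2 hj => g6 j j1 j2 ((htyiff k j (by omega) (by omega)).2 hj))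
        (fun j j1 j2 hj => h6 j j1 j2 ((htyiff l j (by omega) (by omega)).2 hj))
      have g7 : β k' = β k + q := by omega
      have g8 : β k' + m = β k + m + q := by omega
      have e1 := (htyiff k k' (by omega) g2).1 g3
      have e2 := (htyiff l l' (by omega) h2).1 h3
      have e3 := (htyiff k l (by omega) (by omega)).1 (g4.trans h4.symm)
      have hlet : ∀ j < q, (fun j => u (β l + m + j)) j = (fun j => u (β k + m + j)) j := by
        intro j hj
        have f1 := congrFun e1 ⟨m + j - q, by omega⟩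
        have f2 := congrFun e2 ⟨m + j - q, by omega⟩
        have f3 := congrFun e3 ⟨m + j - q, by omega⟩
        simp only [blk] at f1 f2 f3
        rw [show β k' + (m + j - q) = β k + m + j by omega] at f1
        rw [show β l' + (m + j - q) = β l + m + j by omega] at f2
        show u (β l + m + j) = u (β k + m + j)
        rw [← f1, ← f2, f3]
      refine ⟨g7, ?_, ?_⟩
      · rw [g8, ze_add, ze_congr q hlet]
      · rw [g8, on_add, on_congr q hlet]
    · refine ⟨1, 1, 0, le_refl _, by omega, le_refl _, by omega, by omega, ?_⟩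
      intro k k' g1 g2 g3 g4 g5 g6
      exact absurd ⟨k, k', g1, g2, g3, g4, g5, g6⟩ hex
  choose q ζ μ hq1 hqD hζμ hζ hμ hq using hqq
  -- the first value
  have hy0 : ∃ y₀ : ℤ, |y₀| ≤ (|P 0| + |kk|) * 4 ^ B₃ ∧
      (0 < K₁ → y₀ = P (β 0 + m)) := by
    by_cases hK : 0 < K₁
    · refine ⟨P (β 0 + m), (val_bd hu hP _).trans ?_, fun _ => rfl⟩
      apply mul_le_mul_of_nonneg_left _ (by positivity)
      apply pow_le_pow_right₀ (by norm_num)
      have := hgap0 hK
      omega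
    · exact ⟨0, by rw [abs_zero]; positivity, fun h => absurd h hK⟩
  obtain ⟨y₀, hy₀, hy₀'⟩ := hy0
  refine ⟨m, Fin.cons 1 ζ, Fin.cons 0 μ, Fin.cons y₀ w, hm1, by omega, ?_, ?_, ?_, ?_⟩
  · intro i
    refine Fin.cases ?_ (fun i => ?_) i
    · rw [Fin.cons_zero, Fin.cons_zero]
      omega
    · rw [Fin.cons_succ, Fin.cons_succ]
      exact ⟨hζμ i, (hζ i).trans hB₂le, (hμ i).trans hB₂le⟩
  · intro i
    refine Fin.cases ?_ (fun i => ?_) i
    · rw [Fin.cons_zero]
      exact hy₀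
    · rw [Fin.cons_succ]
      refine (hw i).trans ?_
      have h1 : (4 : ℤ) ^ B₂ ≤ 4 ^ B₃ := pow_le_pow_right₀ (by norm_num) hB₂le
      have h2 : (0 : ℤ) ≤ |P 0| := abs_nonneg _
      have h3 : (0 : ℤ) ≤ |kk| := abs_nonneg _
      have h4 : (0 : ℤ) ≤ (4 : ℤ) ^ B₃ := by positivity
      have h5 := mul_le_mul_of_nonneg_left h1 h3
      have h6 := mul_nonneg h2 h4
      rw [add_mul]
      linarith
  · intro x hx
    obtain ⟨K, hK, rfl⟩ := (hSp x).1 hx
    have hy : y₀ = P (β 0 + m) := hy₀' (by omega)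
    obtain ⟨F₀, F, hF₀, hF, hFeq⟩ := hN₀ D X K B₂ (fun k => (ty k).succ) β
      (Fin.cons 0 w) (Fin.cons 1 len) (Fin.cons 1 q) (Fin.cons 0 zt) (Fin.cons 0 ot)
      (Fin.cons 1 ζ) (Fin.cons 0 μ) (fun l => ze u (β l + m)) (fun l => on u (β l + m))
      (fun l => P (β l + m)) (by omega)
      (by
        have h1 : n ≤ 6 * D := by omega
        have h2 := Nat.mul_le_mul_left Λ h1
        rw [hX]
        calc Λ * n ≤ Λ * (6 * D) := h2
          _ = 6 * Λ * D := by ring)
      (by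
        intro i
        refine Fin.cases ?_ (fun i => ?_) i
        · rw [Fin.cons_zero]
          omega
        · rw [Fin.cons_succ]
          exact ⟨hq1 i, hqD i⟩)
      (by
        intro l hl
        rw [Fin.cons_succ]
        exact (hlenw (ty l) l (by omega) rfl).1)
      (by
        intro l hl
        rw [Fin.cons_succ]
        exact hlen1 _)
      (hβX K hK)
      (by
        intro l hl
        rw [Fin.cons_succ, Fin.cons_succ]
        exact ⟨(hlenw (ty l) l (by omega) rfl).2.1, (hlenw (ty l) l (by omega) rfl).2.2.1⟩)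
      (by
        have hu' : ∀ i, u i < 2 := hu
        have h1 := ze_on hu' (β 0 + m)
        have h2 := hgap0 (by omega)
        show ze u (β 0 + m) ≤ B₂
        omega)
      (by
        intro i
        refine Fin.cases ?_ (fun i => ?_) i
        · rw [Fin.cons_zero, Fin.cons_zero, Fin.cons_zero, Fin.cons_zero]
          omega
        · rw [Fin.cons_succ, Fin.cons_succ, Fin.cons_succ, Fin.cons_succ]
          exact ⟨hzt i, hot i, hζ i, hμ i⟩)
      (by
        intro l hl
        rw [Fin.cons_succ, Fin.cons_succ]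
        exact (hlenw (ty l) l (by omega) rfl).2.2.2)
      (by
        intro k k' h1 h2 h3 h4 h5
        have h3' : ty k = ty k' := Fin.succ_injective _ h3
        have h5' : ∀ j, k < j → j < k' → ty k ≠ ty j := fun j j1 j2 hj =>
          h5 j j1 j2 (congrArg Fin.succ hj)
        obtain ⟨r1, r2, r3⟩ := hq (ty k) k k' h1 (by omega) h3' rfl h4 h5'
        refine ⟨?_, ?_, ?_, ?_⟩
        · rw [Fin.cons_succ]
          exact r1
        · rw [Fin.cons_succ]
          exact r2
        · rw [Fin.cons_succ]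
          exact r3
        · intro i j i1 i2 i3 hij
          refine hR2 k k' h1 (by omega) ((htyiff k k' (by omega) (by omega)).1 h3') h4
            (fun j j1 j2 hj => h5' j j1 j2 ((htyiff k j (by omega) (by omega)).2 hj))
            i j i1 i2 i3 ((htyiff i j (by omega) (by omega)).1 (Fin.succ_injective _ hij)))
      (by
        intro k k' k'' h1 h2 h3 h4 h5 h6 h7 l h8 h9
        refine congrArg Fin.succ ((htyiff l (l + (k' - k)) (by omega) (by omega)).2 ?_)
        exact hR3 k k' k'' h1 h2 (by omega)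
          ((htyiff k k' (by omega) (by omega)).1 (Fin.succ_injective _ h4))
          ((htyiff k k'' (by omega) (by omega)).1 (Fin.succ_injective _ h5)) h6
          (fun j j1 j2 hj => h7 j j1 j2
            (congrArg Fin.succ ((htyiff k j (by omega) (by omega)).2 hj))) l h8 h9)
    have hβK : ∀ j, j ≤ K → β j ≤ β K := fun j hj => hβm j K hj hK
    rw [← hB₃] at hF₀ hF
    refine ⟨Fin.cons F₀ (fun i => F i.succ), ?_, ?_⟩
    · intro i
      refine Fin.cases ?_ (fun i => ?_) i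
      · rw [Fin.cons_zero]
        exact rpc_path hβK hF₀
      · rw [Fin.cons_succ]
        exact rpc_path hβK (hF _)
    · have e1 : ∑ i, F i * (Fin.cons 0 w : Fin (6 * C + 1 + 1) → ℤ) i =
          ∑ i : Fin (6 * C + 1), F i.succ * w i := by
        rw [Fin.sum_univ_succ]
        simp only [Fin.cons_zero, Fin.cons_succ, mul_zero, zero_add]
      have e2 : ∑ i, (Fin.cons F₀ (fun i => F i.succ) : Fin (6 * C + 1 + 1) → ℤ) i *
          (Fin.cons y₀ w : Fin (6 * C + 1 + 1) → ℤ) i =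
          F₀ * y₀ + ∑ i : Fin (6 * C + 1), F i.succ * w i := by
        rw [Fin.sum_univ_succ]
        simp only [Fin.cons_zero, Fin.cons_succ]
      rw [hFeq, e1, e2, hy]
  · intro z hz
    rcases hSPX u m X z (C * n) hm4 (by omega) with
      ⟨x, hx1, hx2, hx3⟩ | ⟨per, hp1, hp2, hp3, _⟩
    · exact Or.inl ⟨x, hx1, by omega, hx3⟩
    · refine Or.inr ⟨per, hp1, by omega, ?_⟩
      intro i hi1 hi2
      exact hp3 i (by omega) (by omega)

end Pool.Agent.CLX
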