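import Pool.Agent.CLX.Stmts

set_option autoImplicit false

namespace Pool.Agent.CLX

open Filter Pool.Agent.SBT

namespace CSG_

open Finset

/-- the values of a word, starting with the value 0 -/
def bw (k : ℤ) (v : ℕ → ℕ) : ℕ → ℤ
  | 0 => 0
  | t + 1 => 3 ^ v t * bw k v t + (v t : ℤ) * k * 2 ^ ze v t

theorem on_add (u : ℕ → ℕ) (i t : ℕ) : on u (i + t) = on u i + on (fun l => u (i + l)) t := by
  unfold on
  rw [sum_range_add]

theorem ze_add (u : ℕ → ℕ) (i t : ℕ) : ze u (i + t) = ze u i + ze (fun l => u (i + l)) t := by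
  unfold ze
  rw [sum_range_add]

theorem on_succ (u : ℕ → ℕ) (i : ℕ) : on u (i + 1) = on u i + u i := by
  unfold on
  rw [sum_range_succ]

theorem ze_succ (u : ℕ → ℕ) (i : ℕ) : ze u (i + 1) = ze u i + (1 - u i) := by
  unfold ze
  rw [sum_range_succ]

theorem on_zero (u : ℕ → ℕ) : on u 0 = 0 := by
  unfold on
  simp

theorem ze_zero (u : ℕ → ℕ) : ze u 0 = 0 := by
  unfold ze
  simp

theorem on_cg {u v : ℕ → ℕ} {t : ℕ} (h : ∀ l < t, u l = v l) : on u t = on v t := by
  unfold on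
  exact sum_congr rfl fun i hi => h i (mem_range.1 hi)

theorem ze_cg {u v : ℕ → ℕ} {t : ℕ} (h : ∀ l < t, u l = v l) : ze u t = ze v t := by
  unfold ze
  exact sum_congr rfl fun i hi => by rw [h i (mem_range.1 hi)]

theorem bw_cg {k : ℤ} {u v : ℕ → ℕ} {t : ℕ} (h : ∀ l < t, u l = v l) : bw k u t = bw k v t := by
  induction t with
  | zero => rfl
  | succ t ih =>
    have h1 := ih (fun l hl => h l (by omega))
    have h2 := h t (by omega)
    have h3 : ze u t = ze v t := ze_cg (fun l hl => h l (by omega))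
    show 3 ^ u t * bw k u t + (u t : ℤ) * k * 2 ^ ze u t =
      3 ^ v t * bw k v t + (v t : ℤ) * k * 2 ^ ze v t
    rw [h1, h2, h3]

theorem zo {u : ℕ → ℕ} (hu : ∀ i, u i < 2) (t : ℕ) : ze u t + on u t = t := by
  induction t with
  | zero => rw [ze_zero, on_zero]
  | succ t ih =>
    rw [ze_succ, on_succ]
    have := hu t
    omega

theorem val {u : ℕ → ℕ} {k : ℤ} {P : ℕ → ℤ} (hP : Val u k P) (i t : ℕ) :
    P (i + t) = 3 ^ on (fun l => u (i + l)) t * P i +
      2 ^ ze u i * bw k (fun l => u (i + l)) t := by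
  induction t with
  | zero => simp [on_zero, bw]
  | succ t ih =>
    have h1 : P (i + (t + 1)) = 3 ^ u (i + t) * P (i + t) +
        (u (i + t) : ℤ) * k * 2 ^ ze u (i + t) := hP (i + t)
    have h2 : bw k (fun l => u (i + l)) (t + 1) = 3 ^ u (i + t) * bw k (fun l => u (i + l)) t +
        (u (i + t) : ℤ) * k * 2 ^ ze (fun l => u (i + l)) t := rfl
    rw [h1, h2, ih, on_succ, ze_add]
    rw [pow_add, pow_add]
    ring

theorem bw_bd {k : ℤ} {v : ℕ → ℕ} (hv : ∀ i, v i < 2) (t : ℕ) :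
    |bw k v t| + |k| * 2 ^ t ≤ |k| * 4 ^ t := by
  induction t with
  | zero => simp [bw]
  | succ t ih =>
    have h2 : bw k v (t + 1) = 3 ^ v t * bw k v t + (v t : ℤ) * k * 2 ^ ze v t := rfl
    have hz : ze v t ≤ t := by
      have := zo hv t
      omega
    have hk : (0 : ℤ) ≤ |k| := abs_nonneg k
    have hb : (0 : ℤ) ≤ |bw k v t| := abs_nonneg _
    have h4 : (0 : ℤ) ≤ |k| * 4 ^ t := by positivity
    have h22 : (0 : ℤ) ≤ |k| * 2 ^ t := by positivity
    rw [h2]
    rcases (by have := hv t; omega : v t = 0 ∨ v t = 1) with h | h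
    · rw [h]
      simp only [pow_zero, one_mul, Nat.cast_zero, zero_mul, add_zero]
      rw [pow_succ, pow_succ]
      nlinarith
    · rw [h]
      simp only [pow_one, Nat.cast_one, one_mul]
      have h5 : |3 * bw k v t + k * 2 ^ ze v t| ≤ 3 * |bw k v t| + |k| * 2 ^ t := by
        refine (abs_add_le _ _).trans ?_
        rw [abs_mul, abs_mul]
        have h6 : |(2 : ℤ) ^ ze v t| ≤ 2 ^ t := by
          rw [abs_of_nonneg (by positivity)]
          exact pow_le_pow_right₀ (by norm_num) hz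
        have h7 : |(3 : ℤ)| = 3 := by norm_num
        rw [h7]
        have := mul_le_mul_of_nonneg_left h6 hk
        linarith
      rw [pow_succ, pow_succ]
      nlinarith

theorem bw_le {k : ℤ} {v : ℕ → ℕ} (hv : ∀ i, v i < 2) (t : ℕ) : |bw k v t| ≤ |k| * 4 ^ t := by
  have h1 := bw_bd (k := k) hv t
  have h2 : (0 : ℤ) ≤ |k| * 2 ^ t := by positivity
  linarith

theorem iter (u : ℕ → ℕ) (z per X : ℕ) (h : ∀ i, z ≤ i → i + per < X → u i = u (i + per)) :
    ∀ k i : ℕ, z ≤ i → i + k * per < X → u i = u (i + k * per) := by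
  intro k
  induction k with
  | zero => intro i _ _; simp
  | succ k ih =>
    intro i hi hX
    rw [add_mul, one_mul, ← add_assoc] at hX ⊢
    rw [ih i hi (by omega)]
    exact h _ (by omega) hX

theorem geo {u : ℕ → ℕ} {k : ℤ} {P : ℕ → ℤ} (hP : Val u k P) (z per X : ℕ)
    (h : ∀ i, z ≤ i → i + per < X → u i = u (i + per)) :
    ∀ j : ℕ, z + j * per ≤ X →
      ze u (z + j * per) = ze u z + j * ze (fun l => u (z + l)) per ∧
      on u (z + j * per) = on u z + j * on (fun l => u (z + l)) per ∧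
      ((2 : ℤ) ^ ze (fun l => u (z + l)) per - 3 ^ on (fun l => u (z + l)) per) *
          P (z + j * per) =
        ((2 : ℤ) ^ ze (fun l => u (z + l)) per - 3 ^ on (fun l => u (z + l)) per) *
          3 ^ (j * on (fun l => u (z + l)) per) * P z +
        2 ^ ze u z * ((2 : ℤ) ^ (j * ze (fun l => u (z + l)) per) -
          3 ^ (j * on (fun l => u (z + l)) per)) * bw k (fun l => u (z + l)) per := by
  intro j
  induction j with
  | zero => intro _; simp
  | succ j ih =>
    intro hX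
    have hX' : z + j * per + per ≤ X := by rw [add_mul, one_mul] at hX; omega
    obtain ⟨h1, h2, h3⟩ := ih (by omega)
    have hcg : ∀ l < per, (fun l => u (z + j * per + l)) l = (fun l => u (z + l)) l := by
      intro l hl
      have := iter u z per X h j (z + l) (by omega) (by omega)
      show u (z + j * per + l) = u (z + l)
      rw [this]
      congr 1
      ring
    have hv := val hP (z + j * per) per
    rw [on_cg hcg, bw_cg hcg] at hv
    have hze := ze_add u (z + j * per) per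
    have hon := on_add u (z + j * per) per
    rw [ze_cg hcg] at hze
    rw [on_cg hcg] at hon
    have e : z + (j + 1) * per = z + j * per + per := by ring
    rw [e, hze, hon, hv, h1, h2]
    obtain ⟨a, ha⟩ : ∃ a, a = ze (fun l => u (z + l)) per := ⟨_, rfl⟩
    obtain ⟨b, hb⟩ : ∃ b, b = on (fun l => u (z + l)) per := ⟨_, rfl⟩
    obtain ⟨w, hw⟩ : ∃ w, w = bw k (fun l => u (z + l)) per := ⟨_, rfl⟩
    rw [← ha, ← hb, ← hw] at h3 ⊢
    refine ⟨by ring, by ring, ?_⟩
    have e1 : (j + 1) * a = j * a + a := by ring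
    have e2 : (j + 1) * b = j * b + b := by ring
    rw [e1, e2, pow_add, pow_add, pow_add]
    linear_combination (3 : ℤ) ^ b * h3

end CSG_

open CSG_ Finset in
theorem csg_proof (hCSF : Stmt_CSF) (hCRP : Stmt_CRP) : Stmt_CSG := by
  classical
  obtain ⟨radd, rmul, rmono, rzero, rneg, rpt, rlong, smul, smono, spt, sprd⟩ := hCRP
  intro C
  obtain ⟨s₁, B₁, hS⟩ := hCSF C
  refine ⟨s₁ + 2, 2 * s₁ * B₁ + 4 * B₁ + 3, fun Λ => ?_⟩
  obtain ⟨N₁, hN⟩ := hS Λ
  refine ⟨4 * N₁ + 4 * 2 ^ s₁, ?_⟩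
  intro n k u P hn hu hP hnb
  obtain ⟨m, ζ, μ, y, hm1, hm2, hq, hy, hspe, hz⟩ := hN n k u P hn hu hP hnb
  obtain ⟨N, hNdef⟩ : ∃ N, N = 4 * N₁ + 4 * 2 ^ s₁ := ⟨_, rfl⟩
  obtain ⟨B, hB⟩ : ∃ B, B = 2 * s₁ * B₁ + 4 * B₁ + 3 := ⟨_, rfl⟩
  rw [← hNdef, ← hB]
  have hBn : B * n = 2 * s₁ * (B₁ * n) + 4 * (B₁ * n) + 3 * n := by rw [hB]; ring
  obtain ⟨D, hD⟩ : ∃ D, D = B₁ * n := ⟨_, rfl⟩
  obtain ⟨Q, hQ⟩ : ∃ Q : ℤ, Q = ∏ i, ((2 : ℤ) ^ ζ i - 3 ^ μ i) := ⟨_, rfl⟩
  have hpowmono : ∀ i j : ℕ, i ≤ j → (4 : ℤ) ^ i ≤ (4 : ℤ) ^ j := fun i j h =>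
    pow_le_pow_right₀ (by norm_num) h
  have hP0 : (0 : ℤ) ≤ |P 0| := abs_nonneg _
  have hk0 : (0 : ℤ) ≤ |k| := abs_nonneg _
  -- assembly
  have key : ∀ (a b : ℕ) (y' w : ℤ), 1 ≤ a + b → a ≤ B * n → b ≤ B * n →
      |y'| ≤ (|P 0| + |k|) * 4 ^ (B * n) → |w| ≤ (|P 0| + |k|) * 4 ^ (B * n) →
      (∀ z, z + B * n < Λ * n → ∃ L, z ≤ L ∧ L ≤ z + B * n ∧
        ∃ (F : Fin s₁ → ℤ) (Fy Fw : ℤ), (∀ i, Rpc (ze u) (on u) N (B * n) L (F i)) ∧
          Rpc (ze u) (on u) N (B * n) L Fy ∧ Rpc (ze u) (on u) N (B * n) L Fw ∧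
          Q * ((2 : ℤ) ^ a - 3 ^ b) * P L = ∑ i, F i * y i + (Fy * y' + Fw * w)) →
      ∃ (ζ μ : Fin (s₁ + 2) → ℕ) (y : Fin (s₁ + 2) → ℤ),
        (∀ i, 1 ≤ ζ i + μ i ∧ ζ i ≤ B * n ∧ μ i ≤ B * n) ∧
        (∀ i, |y i| ≤ (|P 0| + |k|) * 4 ^ (B * n)) ∧
        ∀ z, z + B * n < Λ * n → ∃ L, z ≤ L ∧ L ≤ z + B * n ∧ ∃ F : Fin (s₁ + 2) → ℤ,
          (∀ i, Rpc (ze u) (on u) N (B * n) L (F i)) ∧
          (∏ i, ((2 : ℤ) ^ ζ i - 3 ^ μ i)) * P L = ∑ i, F i * y i := by
    intro a b y' w hab ha hb hy' hw hF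
    refine ⟨Fin.append ζ ![a, 1], Fin.append μ ![b, 0], Fin.append y ![y', w], ?_, ?_, ?_⟩
    · intro i
      refine Fin.addCases (fun i => ?_) (fun i => ?_) i
      · rw [Fin.append_left, Fin.append_left]
        have := hq i
        refine ⟨this.1, ?_, ?_⟩
        · rw [hBn]
          omega
        · rw [hBn]
          omega
      · rw [Fin.append_right, Fin.append_right]
        fin_cases i
        · exact ⟨hab, ha, hb⟩
        · refine ⟨le_rfl, ?_, Nat.zero_le _⟩
          rw [hBn]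
          simp only [Fin.mk_one, Matrix.cons_val_one, Matrix.cons_val_fin_one]
          omega
    · intro i
      refine Fin.addCases (fun i => ?_) (fun i => ?_) i
      · rw [Fin.append_left]
        refine (hy i).trans (mul_le_mul_of_nonneg_left (hpowmono _ _ ?_) (by positivity))
        rw [hBn]
        omega
      · rw [Fin.append_right]
        fin_cases i
        · exact hy'
        · exact hw
    · intro z hzz
      obtain ⟨L, h1, h2, F, Fy, Fw, h3, h4, h5, h6⟩ := hF z hzz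
      refine ⟨L, h1, h2, Fin.append F ![Fy, Fw], ?_, ?_⟩
      · intro i
        refine Fin.addCases (fun i => ?_) (fun i => ?_) i
        · rw [Fin.append_left]
          exact h3 i
        · rw [Fin.append_right]
          fin_cases i
          · exact h4
          · exact h5
      · rw [Fin.prod_univ_add, Fin.sum_univ_add]
        simp only [Fin.append_left, Fin.append_right, Fin.prod_univ_two, Fin.sum_univ_two,
          Matrix.cons_val_zero, Matrix.cons_val_one]
        rw [← hQ, ← h6]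
        norm_num
  -- the factors
  have hsumq : ∑ i, (ζ i + μ i) ≤ 2 * s₁ * D := by
    calc ∑ i, (ζ i + μ i) ≤ ∑ _i : Fin s₁, 2 * D := sum_le_sum fun i _ => by
          have := hq i
          rw [hD]
          omega
      _ = 2 * s₁ * D := by simp; ring
  have rQ : Rps (2 ^ s₁) (2 * s₁ * D) Q := by
    rw [hQ]
    exact smono _ _ _ _ _ le_rfl hsumq (sprd s₁ ζ μ)
  have rtwo : ∀ a b : ℕ, Rps 2 (a + b) ((2 : ℤ) ^ a - 3 ^ b) := by
    intro a b
    have := sprd 1 (fun _ => a) (fun _ => b)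
    simpa using this
  have hNN : N₁ * 2 ≤ N ∧ 2 * 2 ^ s₁ ≤ N := by
    constructor
    · omega
    · have : 0 < 2 ^ s₁ := by positivity
      omega
  -- the special places
  have spec : ∀ (a b : ℕ) (y' w : ℤ) (z x : ℕ), a + b ≤ D + 1 → z ≤ x →
      x ≤ z + D → Spe u m (Λ * n) x → ∃ L, z ≤ L ∧ L ≤ z + B * n ∧
        ∃ (F : Fin s₁ → ℤ) (Fy Fw : ℤ), (∀ i, Rpc (ze u) (on u) N (B * n) L (F i)) ∧
          Rpc (ze u) (on u) N (B * n) L Fy ∧ Rpc (ze u) (on u) N (B * n) L Fw ∧
          Q * ((2 : ℤ) ^ a - 3 ^ b) * P L = ∑ i, F i * y i + (Fy * y' + Fw * w) := by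
    intro a b y' w z x hab hzx hxz hx
    obtain ⟨F, hF1, hF2⟩ := hspe x hx
    refine ⟨x + m, by omega, by rw [hBn, ← hD]; omega,
      fun i => F i * ((2 : ℤ) ^ a - 3 ^ b), 0, 0, ?_, rzero _ _ _ _ _,
      rzero _ _ _ _ _, ?_⟩
    · intro i
      have h1 := rmul _ _ _ _ _ _ _ _ _ (hF1 i) (rtwo a b)
      refine rmono _ _ _ _ _ _ _ _ hNN.1 ?_ h1
      rw [hBn, ← hD]
      omega
    · rw [← hQ] at hF2
      have e : Q * ((2 : ℤ) ^ a - 3 ^ b) * P (x + m) = (Q * P (x + m)) * ((2 : ℤ) ^ a - 3 ^ b) := by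
        ring
      rw [e, hF2, sum_mul]
      simp only [zero_mul, add_zero]
      exact sum_congr rfl fun i _ => by ring
  by_cases hcase : ∀ z, z + D < Λ * n →
      ∃ x, z ≤ x ∧ x ≤ z + D ∧ Spe u m (Λ * n) x
  · -- special places everywhere
    refine key 1 0 0 0 le_rfl (by rw [hBn]; omega) (Nat.zero_le _) ?_ ?_ ?_
    · rw [abs_zero]; positivity
    · rw [abs_zero]; positivity
    · intro z hzz
      obtain ⟨x, h1, h2, h3⟩ := hcase z (by rw [hBn, ← hD] at hzz; omega)
      exact spec 1 0 0 0 z x (by omega) h1 h2 h3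
  · -- the first place without special places
    push Not at hcase
    have hex : ∃ z, z + D < Λ * n ∧
        ¬ ∃ x, z ≤ x ∧ x ≤ z + D ∧ Spe u m (Λ * n) x := by
      obtain ⟨z, h1, h2⟩ := hcase
      refine ⟨z, h1, ?_⟩
      rintro ⟨x, h3, h4, h5⟩
      exact h2 x h3 h4 h5
    obtain ⟨z₁, hz₁⟩ : ∃ z₁, z₁ = Nat.find hex := ⟨_, rfl⟩
    obtain ⟨hz1, hz2⟩ := Nat.find_spec hex
    have hmin : ∀ z < z₁, z + D < Λ * n →
        ∃ x, z ≤ x ∧ x ≤ z + D ∧ Spe u m (Λ * n) x := by
      intro z hzlt hzz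
      have := Nat.find_min hex (hz₁ ▸ hzlt)
      push Not at this
      by_contra hcon
      exact hcon (this hzz)
    rw [← hz₁] at hz1 hz2
    obtain ⟨per, hper1, hper2, hper⟩ : ∃ per, 1 ≤ per ∧ per ≤ D ∧
        ∀ i, z₁ + D ≤ i → i + per < Λ * n → u i = u (i + per) := by
      have := (hz z₁ (by rw [← hD]; exact hz1)).resolve_left (by rw [← hD]; exact hz2)
      rw [← hD] at this
      exact this
    have hB₁ : 1 ≤ B₁ := by
      by_contra hcon
      have h0 : B₁ = 0 := by omega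
      rw [h0, zero_mul] at hD
      omega
    have hnB : n ≤ D := by
      rw [hD]
      exact Nat.le_mul_of_pos_left n hB₁
    obtain ⟨z₂, hz₂⟩ : ∃ z₂, z₂ = z₁ + D := ⟨_, rfl⟩
    rw [← hz₂] at hper
    -- the value at `z₂`
    obtain ⟨y', c, e0, F', hy', hc1, hc2, hc3, he0, hF', hz2val⟩ :
        ∃ (y' : ℤ) (c e0 : ℕ) (F' : Fin s₁ → ℤ),
        |y'| ≤ (|P 0| + |k|) * 4 ^ (B * n) ∧ c ≤ z₂ ∧ on u z₂ ≤ on u c + (D + 1) ∧
        on u c ≤ on u z₂ ∧ |(e0 : ℤ) - ze u c| ≤ (D : ℕ) ∧
        (∀ i, Rpc (ze u) (on u) N₁ D c (F' i)) ∧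
        Q * P z₂ = 3 ^ (on u z₂ - on u c) * (∑ i, F' i * y i) + Q * (2 ^ e0 * y') := by
      rcases Nat.eq_zero_or_pos z₁ with h0 | h0
      · refine ⟨P z₂, z₂, 0, fun _ => 0, ?_, le_rfl, by omega, le_rfl, ?_,
          fun _ => rzero _ _ _ _ _, by simp⟩
        · have h1 := val hP 0 D
          rw [ze_zero, pow_zero, one_mul] at h1
          have e : z₂ = 0 + D := by omega
          rw [e, h1]
          refine (abs_add_le _ _).trans ?_
          rw [abs_mul, abs_of_nonneg (by positivity : (0 : ℤ) ≤ 3 ^ on (fun l => u (0 + l)) D)]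
          have h2 : (3 : ℤ) ^ on (fun l => u (0 + l)) D ≤ 4 ^ D := by
            have h3 : on (fun l => u (0 + l)) D ≤ D := by
              have := zo (u := fun l => u (0 + l)) (fun i => hu _) D
              omega
            calc (3 : ℤ) ^ on (fun l => u (0 + l)) D ≤ 3 ^ D :=
                  pow_le_pow_right₀ (by norm_num) h3
              _ ≤ 4 ^ D := pow_le_pow_left₀ (by norm_num) (by norm_num) _
          have h4 := bw_le (k := k) (v := fun l => u (0 + l)) (fun i => hu _) D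
          have h5 := mul_le_mul_of_nonneg_right h2 hP0
          have h6 : (4 : ℤ) ^ D ≤ 4 ^ (B * n) := hpowmono _ _ (by rw [hBn, ← hD]; omega)
          have h7 := mul_le_mul_of_nonneg_left h6 (by positivity : (0 : ℤ) ≤ |P 0| + |k|)
          linarith
        · have e : z₂ = D := by omega
          rw [e, Nat.cast_zero, zero_sub, abs_neg, abs_of_nonneg (by positivity)]
          have := zo hu D
          exact_mod_cast (by omega : ze u D ≤ D)
      · obtain ⟨x, hx1, hx2, hx3⟩ := hmin (z₁ - 1) (by omega) (by omega)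
        have hxe : x = z₁ - 1 := by
          by_contra hcon
          exact hz2 ⟨x, by omega, by omega, hx3⟩
        subst hxe
        obtain ⟨F, hF1, hF2⟩ := hspe _ hx3
        rw [← hQ] at hF2
        rw [← hD] at hF1
        have hkk : z₁ - 1 + m + (D + 1 - m) = z₂ := by omega
        have h1 := val hP (z₁ - 1 + m) (D + 1 - m)
        have h2 := on_add u (z₁ - 1 + m) (D + 1 - m)
        rw [hkk] at h1 h2
        have h3 : on (fun l => u (z₁ - 1 + m + l)) (D + 1 - m) ≤ D + 1 - m := by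
          have := zo (u := fun l => u (z₁ - 1 + m + l)) (fun i => hu _) (D + 1 - m)
          omega
        refine ⟨bw k (fun l => u (z₁ - 1 + m + l)) (D + 1 - m), z₁ - 1 + m, ze u (z₁ - 1 + m),
          F, ?_, by omega, by omega, by omega, ?_, hF1, ?_⟩
        · have h4 := bw_le (k := k) (v := fun l => u (z₁ - 1 + m + l)) (fun i => hu _) (D + 1 - m)
          have h6 : (4 : ℤ) ^ (D + 1 - m) ≤ 4 ^ (B * n) := hpowmono _ _ (by
            rw [hBn, ← hD]; omega)
          have h7 := mul_le_mul_of_nonneg_left h6 hk0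
          have h8 : (0 : ℤ) ≤ |P 0| * 4 ^ (B * n) := by positivity
          linarith
        · rw [sub_self, abs_zero]
          positivity
        · have e : on u z₂ - on u (z₁ - 1 + m) = on (fun l => u (z₁ - 1 + m + l)) (D + 1 - m) := by
            omega
          rw [e, h1, ← hF2]
          ring
    -- the period word
    obtain ⟨a, ha⟩ : ∃ a, a = ze (fun l => u (z₂ + l)) per := ⟨_, rfl⟩
    obtain ⟨b, hb⟩ : ∃ b, b = on (fun l => u (z₂ + l)) per := ⟨_, rfl⟩
    obtain ⟨w, hw⟩ : ∃ w, w = bw k (fun l => u (z₂ + l)) per := ⟨_, rfl⟩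
    have hab : a + b = per := by
      rw [ha, hb]
      exact zo (fun i => hu _) per
    have hwb : |w| ≤ |k| * 4 ^ per := by
      rw [hw]
      exact bw_le (fun i => hu _) per
    refine key a b y' w (by omega) (by rw [hBn, ← hD]; omega) (by rw [hBn, ← hD]; omega) hy' ?_ ?_
    · have h6 : (4 : ℤ) ^ per ≤ 4 ^ (B * n) := hpowmono _ _ (by rw [hBn, ← hD]; omega)
      have h7 := mul_le_mul_of_nonneg_left h6 hk0
      have h8 : (0 : ℤ) ≤ |P 0| * 4 ^ (B * n) := by positivity
      linarith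
    · intro z hzz
      rcases Nat.lt_or_ge z z₁ with hlt | hge
      · obtain ⟨x, h1, h2, h3⟩ := hmin z hlt (by rw [hBn, ← hD] at hzz; omega)
        exact spec a b _ _ z x (by omega) h1 h2 h3
      · -- the periodic part
        obtain ⟨j, hj1, hj2⟩ : ∃ j : ℕ, z ≤ z₂ + j * per ∧
            z₂ + j * per ≤ z + D + per := by
          rcases Nat.lt_or_ge z z₂ with hlt | hge'
          · exact ⟨0, by omega, by omega⟩
          · refine ⟨(z - z₂) / per + 1, ?_, ?_⟩
            · have := Nat.div_add_mod (z - z₂) per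
              have h2 := Nat.mod_lt (z - z₂) hper1
              rw [add_mul, one_mul, mul_comm (_ / per) per]
              omega
            · have := Nat.div_add_mod (z - z₂) per
              rw [add_mul, one_mul, mul_comm (_ / per) per]
              omega
        have hLX : z₂ + j * per < Λ * n := by
          rw [hBn, ← hD] at hzz
          omega
        obtain ⟨g1, g2, g3⟩ := geo hP z₂ per (Λ * n) hper j hLX.le
        rw [← ha] at g1
        rw [← hb] at g2
        rw [← ha, ← hb, ← hw] at g3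
        obtain ⟨L, hL⟩ : ∃ L, L = z₂ + j * per := ⟨_, rfl⟩
        rw [← hL] at g1 g2 g3 hj1 hj2 hLX
        have hz2L : z₂ ≤ L := by omega
        have honL : on u z₂ ≤ on u L := by omega
        have ejb : on u L - on u z₂ = j * b := by omega
        have hcL : on u c ≤ on u L := by omega
        refine ⟨L, hj1, by rw [hBn, ← hD]; omega,
          fun i => (3 ^ (on u L - on u c) * F' i) * ((2 : ℤ) ^ a - 3 ^ b),
          ((2 ^ e0 * 3 ^ (j * b)) * ((2 : ℤ) ^ a - 3 ^ b)) * Q,
          (2 ^ (ze u L) * 3 ^ 0 + -(2 ^ ze u z₂ * 3 ^ (j * b))) * Q, ?_, ?_, ?_, ?_⟩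
        · intro i
          have h1 := rmul _ _ _ _ _ _ _ _ _ (rlong _ _ _ _ _ L _ (hc1.trans hz2L) hcL (hF' i))
            (rtwo a b)
          refine rmono _ _ _ _ _ _ _ _ hNN.1 ?_ h1
          rw [hBn, ← hD]
          omega
        · have h0 : Rpc (ze u) (on u) 1 (D + 1) L (2 ^ e0 * 3 ^ (j * b)) := by
            refine rpt _ _ _ _ c _ _ (hc1.trans hz2L) ?_ ?_
            · refine he0.trans ?_
              push_cast
              linarith
            · rw [abs_le]
              push_cast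
              constructor <;> omega
          have h1 := rmul _ _ _ _ _ _ _ _ _ (rmul _ _ _ _ _ _ _ _ _ h0 (rtwo a b)) rQ
          refine rmono _ _ _ _ _ _ _ _ ?_ ?_ h1
          · rw [one_mul]
            exact hNN.2
          · rw [hBn, ← hD]
            omega
        · have h0 : Rpc (ze u) (on u) 1 0 L (2 ^ ze u L * 3 ^ 0) := by
            refine rpt _ _ _ _ L _ _ le_rfl ?_ ?_
            · rw [sub_self, abs_zero]
              positivity
            · rw [sub_self, Nat.cast_zero, sub_zero, abs_zero]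
          have h0' : Rpc (ze u) (on u) 1 0 L (2 ^ ze u z₂ * 3 ^ (j * b)) := by
            refine rpt _ _ _ _ z₂ _ _ hz2L ?_ ?_
            · rw [sub_self, abs_zero]
              positivity
            · rw [abs_le]
              push_cast
              constructor <;> omega
          have h1 := rmul _ _ _ _ _ _ _ _ _ (radd _ _ _ _ _ _ _ _ h0
            (rneg _ _ _ _ _ _ h0')) rQ
          refine rmono _ _ _ _ _ _ _ _ ?_ ?_ h1
          · exact hNN.2
          · rw [hBn, ← hD]
            omega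
        · have e : ∑ i, (3 ^ (on u L - on u c) * F' i) * ((2 : ℤ) ^ a - 3 ^ b) * y i =
              3 ^ (on u L - on u c) * ((2 : ℤ) ^ a - 3 ^ b) * ∑ i, F' i * y i := by
            rw [mul_sum]
            exact sum_congr rfl fun i _ => by ring
          have e1 : on u L - on u c = j * b + (on u z₂ - on u c) := by omega
          rw [e, e1, g1, pow_add, pow_add]
          linear_combination Q * g3 + (((2 : ℤ) ^ a - 3 ^ b) * 3 ^ (j * b)) * hz2val

end Pool.Agent.CLX
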