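import Pool.Agent.CLX.Stmts2
import Pool.Agent.CLX.CSF

/-!
# Squad CLX, module CSH: the structure theorem, the same integers for all windows, with sizes
-/

set_option autoImplicit false

namespace Pool.Agent.CLX

open Filter Pool.Agent.SBT

namespace CSH_

theorem bv_congr {v w : ℕ → ℕ} (t : ℕ) (h : ∀ l < t, v l = w l) : bv v t = bv w t := by
  induction t with
  | zero => rfl
  | succ t ih =>
    rw [bv, bv, ih (fun l hl => h l (by omega)),
      CSF_.ze_congr t (fun l hl => h l (by omega)), h t (by omega)]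

theorem bv_bd {w : ℕ → ℕ} (hw : ∀ i, w i < 2) (t : ℕ) : bv w t + 1 ≤ 4 ^ t := by
  induction t with
  | zero => simp [bv]
  | succ t ih =>
    have h3 : 2 ^ ze w t ≤ 4 ^ t := by
      have h4 : ze w t ≤ t := by
        have := CSF_.ze_on hw t
        omega
      calc 2 ^ ze w t ≤ 2 ^ t := Nat.pow_le_pow_right (by norm_num) h4
        _ ≤ 4 ^ t := Nat.pow_le_pow_left (by norm_num) t
    have h6 := hw t
    rw [bv, pow_succ]
    rcases (by omega : w t = 0 ∨ w t = 1) with h | h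
    · rw [h, pow_zero]
      omega
    · rw [h, pow_one]
      omega

/-- the value of a longer prefix -/
theorem val_eq (u : ℕ → ℕ) (i t : ℕ) :
    bv u (i + t) = 3 ^ on (fun l => u (i + l)) t * bv u i +
      2 ^ ze u i * bv (fun l => u (i + l)) t := by
  induction t with
  | zero =>
    rw [CSF_.on_zero]
    simp [bv]
  | succ t ih =>
    have h1 : bv u (i + (t + 1)) =
        3 ^ u (i + t) * bv u (i + t) + u (i + t) * 2 ^ ze u (i + t) := rfl
    have h2 : bv (fun l => u (i + l)) (t + 1) =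
        3 ^ u (i + t) * bv (fun l => u (i + l)) t + u (i + t) * 2 ^ ze (fun l => u (i + l)) t :=
      rfl
    rw [h1, ih, CSF_.on_succ, h2, CSF_.ze_add u i t, pow_add, pow_add]
    ring

/-- from the places to the path -/
theorem rpw_path {u : ℕ → ℕ} {β : ℕ → ℕ} {m N B K W v : ℕ} {F : ℤ}
    (hβ : ∀ j, j ≤ K → β j ≤ β K)
    (h : Rpw (fun l => ze u (β l + m)) (fun l => on u (β l + m)) N B K W v F) :
    Rpw (ze u) (on u) N B (β K + m) W v F := by
  obtain ⟨ε, α, γ, j, h1, h2, h3, h7⟩ := h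
  refine ⟨ε, α, γ, fun t => β (j t) + m, h1, ?_, h3, h7⟩
  intro t
  obtain ⟨h4, h5, h6⟩ := h2 t
  exact ⟨Nat.add_le_add_right (hβ (j t) h4) m, h5, h6⟩

end CSH_

open CSH_ in
theorem csh_proof (hTYC : Stmt_TYC) (hDTM : Stmt_DTM) (hSPX : Stmt_SPX) (hRTN : Stmt_RTN)
    (hCSW : Stmt_CSW) : Stmt_CSH := by
  classical
  intro C
  choose N₀ hN₀ using fun G : ℕ => hCSW (6 * C + 1 + 1) (6 * G)
  refine ⟨6 * C + 1 + 1, (2 * (6 * C + 1 + 1) + 3) * (C + 1), N₀, ?_⟩
  intro Λ n u hn hu hnbl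
  have hufin : (Set.range u).Finite :=
    (Set.finite_Iio 2).subset (by rintro _ ⟨i, rfl⟩; exact hu i)
  obtain ⟨X, hX⟩ : ∃ X, X = Λ * n := ⟨_, rfl⟩
  rw [← hX] at hnbl ⊢
  obtain ⟨B₂, hB₂⟩ : ∃ B₂, B₂ = (C + 1) * n := ⟨_, rfl⟩
  have hCn : C * n + n = B₂ := by rw [hB₂]; ring
  have hBn : (2 * (6 * C + 1 + 1) + 3) * (C + 1) * n = (2 * (6 * C + 1 + 1) + 3) * B₂ := by
    rw [hB₂]; ring
  rw [hBn]
  have hB₂le : B₂ ≤ (2 * (6 * C + 1 + 1) + 3) * B₂ := Nat.le_mul_of_pos_left _ (by omega)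
  obtain ⟨B₃, hB₃⟩ : ∃ B₃, B₃ = (2 * (6 * C + 1 + 1) + 3) * B₂ := ⟨_, rfl⟩
  rw [← hB₃] at hB₂le ⊢
  -- the length
  obtain ⟨m, hm1, hm2, hm3⟩ := CSF_.len_exists (fun m => nbl u m X) C n hn hnbl
  have hm4 : nbl u m X ≤ C * n := by
    obtain ⟨d, rfl⟩ := Nat.exists_eq_add_of_le (Nat.le_of_succ_le hm2)
    exact (CSF_.nbl_mono hTYC hufin X m d).trans hnbl
  -- the enumeration
  obtain ⟨K₁, β, hβ, hSp⟩ := CSF_.enum_exists (Spe u m X) X (fun x hx => hx.1)
  have hSβ : ∀ k < K₁, Spe u m X (β k) := fun k hk => (hSp _).2 ⟨k, hk, rfl⟩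
  have hβX : ∀ k < K₁, β k < X := fun k hk => (hSβ k hk).1
  have hβm : ∀ i j, i ≤ j → j < K₁ → β i ≤ β j := by
    intro i j hij hj
    rcases Nat.eq_or_lt_of_le hij with h | h
    · rw [h]
    · exact (hβ i j h hj).le
  -- a special place after `β k` is at least `β (k + 1)`
  have hnext : ∀ k, k + 1 < K₁ → ∀ x, β k < x → Spe u m X x → β (k + 1) ≤ x := by
    intro k hk x hx hxs
    obtain ⟨k', hk', rfl⟩ := (hSp x).1 hxs
    apply hβm _ _ _ hk'
    by_contra hlt
    have := hβm k' k (by omega) (by omega)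
    omega
  -- gaps
  have hgap : ∀ k, k + 1 < K₁ → β (k + 1) ≤ β k + 1 + C * n := by
    intro k hk
    by_cases hc : β k + 1 + C * n < X
    · rcases hSPX u m X (β k + 1) (C * n) hm4 hc with ⟨x, hx1, hx2, hx3⟩ | ⟨_, _, _, _, hno⟩
      · exact (hnext k hk x (by omega) hx3).trans hx2
      · exact absurd (hSβ (k + 1) hk) (hno _ (hβ k (k + 1) (by omega) hk))
    · have := hβX (k + 1) hk
      omega
  have hgap0 : 0 < K₁ → β 0 ≤ C * n := by
    intro hK
    by_cases hc : 0 + C * n < X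
    · rcases hSPX u m X 0 (C * n) hm4 hc with ⟨x, hx1, hx2, hx3⟩ | ⟨_, _, _, _, hno⟩
      · obtain ⟨k', hk', rfl⟩ := (hSp x).1 hx3
        have := hβm 0 k' (Nat.zero_le _) hk'
        omega
      · exact absurd (hSβ 0 hK) (hno _ (Nat.zero_le _))
    · have := hβX 0 hK
      omega
  -- the types
  have hTfin : (blk u (m + 1) '' {i | Spe u m X i}).Finite :=
    ((Set.finite_Iio X).subset (fun x hx => hx.1)).image _
  have hTcard : (blk u (m + 1) '' {i | Spe u m X i}).ncard ≤ 6 * C + 1 := by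
    have := (hTYC u m X hufin).2
    omega
  obtain ⟨enc, henc⟩ := CSF_.enc_exists _ hTfin (6 * C + 1) hTcard (Nat.succ_pos _)
  obtain ⟨ty, hty⟩ : ∃ ty : ℕ → Fin (6 * C + 1), ∀ k, ty k = enc (blk u (m + 1) (β k)) :=
    ⟨_, fun _ => rfl⟩
  have htyiff : ∀ k k', k < K₁ → k' < K₁ →
      (ty k = ty k' ↔ blk u (m + 1) (β k) = blk u (m + 1) (β k')) := by
    intro k k' hk hk'
    rw [hty, hty]
    constructor
    · intro h
      exact henc ⟨β k, hSβ k hk, rfl⟩ ⟨β k', hSβ k' hk', rfl⟩ h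
    · intro h
      rw [h]
  -- the gap depends only on the type
  have hdet1 : ∀ k k', k + 1 < K₁ → k' + 1 < K₁ → ty k = ty k' →
      β (k + 1) + β k' ≤ β (k' + 1) + β k →
      β (k + 1) + β k' = β (k' + 1) + β k ∧
        ∀ l < β (k + 1) - β k, u (β k + m + l) = u (β k' + m + l) := by
    intro k k' hk hk' hkk hle
    have hb := (htyiff k k' (by omega) (by omega)).1 hkk
    have h1 := hβ k (k + 1) (by omega) hk
    have h2 := hβ k' (k' + 1) (by omega) hk'
    obtain ⟨t, ht⟩ : ∃ t, β (k + 1) = β k + t := ⟨β (k + 1) - β k, by omega⟩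
    have hX1 := hβX (k + 1) hk
    have hX2 := hβX (k' + 1) hk'
    obtain ⟨h3, h4⟩ := hDTM u m X (β k) (β k') t (hSβ k (by omega)) (hSβ k' (by omega)) hb
      (by omega) (by omega) (by omega) (by
        intro l hl1 hl2 hl3
        have := hnext k hk (β k + l) (by omega) hl3
        omega)
    have h5 : Spe u m X (β k' + t) := by
      rw [← h4, ← ht]
      exact hSβ (k + 1) hk
    have h6 := hnext k' hk' (β k' + t) (by omega) h5
    have h7 : β (k' + 1) = β k' + t := by omega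
    refine ⟨by omega, ?_⟩
    intro l hl
    have := congrFun h3 ⟨m + l, by omega⟩
    simp only [blk] at this
    rw [Nat.add_assoc, Nat.add_assoc]
    exact this
  have hdet : ∀ k k', k + 1 < K₁ → k' + 1 < K₁ → ty k = ty k' →
      β (k + 1) + β k' = β (k' + 1) + β k ∧
        ∀ l < β (k + 1) - β k, u (β k + m + l) = u (β k' + m + l) := by
    intro k k' hk hk' hkk
    rcases le_total (β (k + 1) + β k') (β (k' + 1) + β k) with h | h
    · exact hdet1 k k' hk hk' hkk h
    · obtain ⟨h1, h2⟩ := hdet1 k' k hk' hk hkk.symm h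
      have h3 := hβ k (k + 1) (by omega) hk
      have h4 := hβ k' (k' + 1) (by omega) hk'
      exact ⟨h1.symm, fun l hl => (h2 l (by omega)).symm⟩
  have hvw : ∀ t : Fin (6 * C + 1), ∃ (v zt ot w : ℕ), 1 ≤ v ∧ zt ≤ B₂ ∧ ot ≤ B₂ ∧
      w ≤ 4 ^ B₂ ∧
      ∀ k, k + 1 < K₁ → ty k = t → β (k + 1) = β k + v ∧
        ze u (β (k + 1) + m) = ze u (β k + m) + zt ∧
        on u (β (k + 1) + m) = on u (β k + m) + ot ∧
        bv u (β (k + 1) + m) = 3 ^ ot * bv u (β k + m) + 2 ^ ze u (β k + m) * w := by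
    intro t
    by_cases hex : ∃ k, k + 1 < K₁ ∧ ty k = t
    · obtain ⟨k₀, hk₀, hk₀t⟩ := hex
      have h1 := hβ k₀ (k₀ + 1) (by omega) hk₀
      have h2 := hgap k₀ hk₀
      obtain ⟨v, hv⟩ : ∃ v, v = β (k₀ + 1) - β k₀ := ⟨_, rfl⟩
      have hw : ∀ i, (fun l => u (β k₀ + m + l)) i < 2 := fun i => hu _
      have hvB : v ≤ B₂ := by omega
      have hzo := CSF_.ze_on hw v
      refine ⟨v, ze (fun l => u (β k₀ + m + l)) v, on (fun l => u (β k₀ + m + l)) v,
        bv (fun l => u (β k₀ + m + l)) v, by omega, by omega, by omega, ?_, ?_⟩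
      · have h4 := bv_bd hw v
        have h6 : 4 ^ v ≤ 4 ^ B₂ := Nat.pow_le_pow_right (by norm_num) hvB
        omega
      · intro k hk hkt
        obtain ⟨h3, h4⟩ := hdet k₀ k hk₀ hk (hk₀t.trans hkt.symm)
        rw [← hv] at h4
        have h5 := hβ k (k + 1) (by omega) hk
        have h6 : β (k + 1) = β k + v := by omega
        have h7 : β (k + 1) + m = β k + m + v := by omega
        have h8 : ∀ l < v, (fun l => u (β k₀ + m + l)) l = (fun l => u (β k + m + l)) l := h4
        refine ⟨h6, ?_, ?_, ?_⟩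
        · rw [h7, CSF_.ze_add, CSF_.ze_congr v h8]
        · rw [h7, CSF_.on_add, CSF_.on_congr v h8]
        · rw [h7, val_eq, CSF_.on_congr v h8, bv_congr v h8]
    · push Not at hex
      refine ⟨1, 0, 0, 0, le_refl _, Nat.zero_le _, Nat.zero_le _, Nat.zero_le _, ?_⟩
      intro k hk hkt
      exact absurd hkt (hex k hk)
  choose len zt ot w hlen1 hzt hot hw hlenw using hvw
  -- returns
  have hD1 : 2 * (m / 2) ≤ m := by omega
  obtain ⟨D, hD⟩ : ∃ D, D = m / 2 := ⟨_, rfl⟩
  rw [← hD] at hD1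
  obtain ⟨hR1, hR2, hR3⟩ := hRTN u m X K₁ D β hβ hSp hD1
  have hqq : ∀ t : Fin (6 * C + 1), ∃ q ζ μ : ℕ, 1 ≤ q ∧ q ≤ D ∧ 1 ≤ ζ + μ ∧ ζ ≤ B₂ ∧ μ ≤ B₂ ∧
      ∀ k k', k < k' → k' < K₁ → ty k = ty k' → ty k = t → β k' ≤ β k + D →
        (∀ j, k < j → j < k' → ty k ≠ ty j) → β k' = β k + q ∧
          ze u (β k' + m) = ze u (β k + m) + ζ ∧ on u (β k' + m) = on u (β k + m) + μ := by
    intro t
    by_cases hex : ∃ k k', k < k' ∧ k' < K₁ ∧ ty k = ty k' ∧ ty k = t ∧ β k' ≤ β k + D ∧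
        (∀ j, k < j → j < k' → ty k ≠ ty j)
    · obtain ⟨l, l', h1, h2, h3, h4, h5, h6⟩ := hex
      have h7 := hβ l l' h1 h2
      obtain ⟨q, hq⟩ : ∃ q, q = β l' - β l := ⟨_, rfl⟩
      have hwq : ∀ i, (fun j => u (β l + m + j)) i < 2 := fun i => hu _
      have hzo := CSF_.ze_on hwq q
      refine ⟨q, ze (fun j => u (β l + m + j)) q, on (fun j => u (β l + m + j)) q,
        by omega, by omega, by omega, by omega, by omega, ?_⟩
      intro k k' g1 g2 g3 g4 g5 g6
      have hr := hR1 k k' l l' g1 g2 h1 h2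
        ((htyiff k k' (by omega) g2).1 g3) ((htyiff l l' (by omega) h2).1 h3)
        ((htyiff k l (by omega) (by omega)).1 (g4.trans h4.symm)) g5 h5
        (fun j j1 j2 hj => g6 j j1 j2 ((htyiff k j (by omega) (by omega)).2 hj))
        (fun j j1 j2 hj => h6 j j1 j2 ((htyiff l j (by omega) (by omega)).2 hj))
      have g7 : β k' = β k + q := by omega
      have g8 : β k' + m = β k + m + q := by omega
      have e1 := (htyiff k k' (by omega) g2).1 g3
      have e2 := (htyiff l l' (by omega) h2).1 h3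
      have e3 := (htyiff k l (by omega) (by omega)).1 (g4.trans h4.symm)
      have hlet : ∀ j < q, (fun j => u (β l + m + j)) j = (fun j => u (β k + m + j)) j := by
        intro j hj
        have f1 := congrFun e1 ⟨m + j - q, by omega⟩
        have f2 := congrFun e2 ⟨m + j - q, by omega⟩
        have f3 := congrFun e3 ⟨m + j - q, by omega⟩
        simp only [blk] at f1 f2 f3
        rw [show β k' + (m + j - q) = β k + m + j by omega] at f1
        rw [show β l' + (m + j - q) = β l + m + j by omega] at f2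
        show u (β l + m + j) = u (β k + m + j)
        rw [← f1, ← f2, f3]
      refine ⟨g7, ?_, ?_⟩
      · rw [g8, CSF_.ze_add, CSF_.ze_congr q hlet]
      · rw [g8, CSF_.on_add, CSF_.on_congr q hlet]
    · refine ⟨1, 1, 0, le_refl _, by omega, le_refl _, by omega, by omega, ?_⟩
      intro k k' g1 g2 g3 g4 g5 g6
      exact absurd ⟨k, k', g1, g2, g3, g4, g5, g6⟩ hex
  choose q ζ μ hq1 hqD hζμ hζ hμ hq using hqq
  -- the first value
  have hy0 : ∃ y₀ : ℕ, y₀ ≤ 4 ^ B₃ ∧ (0 < K₁ → y₀ = bv u (β 0 + m)) := by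
    by_cases hK : 0 < K₁
    · refine ⟨bv u (β 0 + m), ?_, fun _ => rfl⟩
      have h1 := bv_bd hu (β 0 + m)
      have h2 : 4 ^ (β 0 + m) ≤ 4 ^ B₃ := by
        apply Nat.pow_le_pow_right (by norm_num)
        have := hgap0 hK
        omega
      omega
    · exact ⟨0, Nat.zero_le _, fun h => absurd h hK⟩
  obtain ⟨y₀, hy₀, hy₀'⟩ := hy0
  refine ⟨m, Fin.cons 1 ζ, Fin.cons 0 μ, Fin.cons y₀ w, by omega, ?_, ?_, ?_, ?_⟩
  · intro i
    refine Fin.cases ?_ (fun i => ?_) i
    · rw [Fin.cons_zero, Fin.cons_zero]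
      omega
    · rw [Fin.cons_succ, Fin.cons_succ]
      exact ⟨hζμ i, (hζ i).trans hB₂le, (hμ i).trans hB₂le⟩
  · intro i
    refine Fin.cases ?_ (fun i => ?_) i
    · rw [Fin.cons_zero]
      exact hy₀
    · rw [Fin.cons_succ]
      exact (hw i).trans (Nat.pow_le_pow_right (by norm_num) hB₂le)
  · intro G x hx hxG
    obtain ⟨K, hK, rfl⟩ := (hSp x).1 hx
    have hy : y₀ = bv u (β 0 + m) := hy₀' (by omega)
    obtain ⟨F₀, F, hF₀, hF, hFeq⟩ := hN₀ G D (β K + 1) K B₂ (fun k => (ty k).succ) β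
      (Fin.cons 0 w) (Fin.cons 1 len) (Fin.cons 1 q) (Fin.cons 0 zt) (Fin.cons 0 ot)
      (Fin.cons 1 ζ) (Fin.cons 0 μ) (fun l => ze u (β l + m)) (fun l => on u (β l + m))
      (fun l => bv u (β l + m)) (by omega)
      (by
        have h1 : n ≤ 6 * D := by omega
        have h2 := Nat.mul_le_mul_left G h1
        calc β K + 1 ≤ G * n := hxG
          _ ≤ G * (6 * D) := h2
          _ = 6 * G * D := by ring)
      (by
        intro i
        refine Fin.cases ?_ (fun i => ?_) i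
        · rw [Fin.cons_zero]
          omega
        · rw [Fin.cons_succ]
          exact ⟨hq1 i, hqD i⟩)
      (by
        intro l hl
        rw [Fin.cons_succ]
        exact (hlenw (ty l) l (by omega) rfl).1)
      (by
        intro l hl
        rw [Fin.cons_succ]
        exact hlen1 _)
      (Nat.lt_succ_self _)
      (by
        intro l hl
        rw [Fin.cons_succ, Fin.cons_succ]
        exact ⟨(hlenw (ty l) l (by omega) rfl).2.1, (hlenw (ty l) l (by omega) rfl).2.2.1⟩)
      (by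
        have h1 := CSF_.ze_on hu (β 0 + m)
        have h2 := hgap0 (by omega)
        show ze u (β 0 + m) ≤ B₂
        omega)
      (by
        intro i
        refine Fin.cases ?_ (fun i => ?_) i
        · rw [Fin.cons_zero, Fin.cons_zero, Fin.cons_zero, Fin.cons_zero]
          omega
        · rw [Fin.cons_succ, Fin.cons_succ, Fin.cons_succ, Fin.cons_succ]
          exact ⟨hzt i, hot i, hζ i, hμ i⟩)
      (by
        intro l hl
        rw [Fin.cons_succ, Fin.cons_succ]
        exact (hlenw (ty l) l (by omega) rfl).2.2.2)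
      (by
        intro k k' h1 h2 h3 h4 h5
        have h3' : ty k = ty k' := Fin.succ_injective _ h3
        have h5' : ∀ j, k < j → j < k' → ty k ≠ ty j := fun j j1 j2 hj =>
          h5 j j1 j2 (congrArg Fin.succ hj)
        obtain ⟨r1, r2, r3⟩ := hq (ty k) k k' h1 (by omega) h3' rfl h4 h5'
        refine ⟨?_, ?_, ?_, ?_⟩
        · rw [Fin.cons_succ]
          exact r1
        · rw [Fin.cons_succ]
          exact r2
        · rw [Fin.cons_succ]
          exact r3
        · intro i j i1 i2 i3 hij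
          refine hR2 k k' h1 (by omega) ((htyiff k k' (by omega) (by omega)).1 h3') h4
            (fun j j1 j2 hj => h5' j j1 j2 ((htyiff k j (by omega) (by omega)).2 hj))
            i j i1 i2 i3 ((htyiff i j (by omega) (by omega)).1 (Fin.succ_injective _ hij)))
      (by
        intro k k' k'' h1 h2 h3 h4 h5 h6 h7 l h8 h9
        refine congrArg Fin.succ ((htyiff l (l + (k' - k)) (by omega) (by omega)).2 ?_)
        exact hR3 k k' k'' h1 h2 (by omega)
          ((htyiff k k' (by omega) (by omega)).1 (Fin.succ_injective _ h4))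
          ((htyiff k k'' (by omega) (by omega)).1 (Fin.succ_injective _ h5)) h6
          (fun j j1 j2 hj => h7 j j1 j2
            (congrArg Fin.succ ((htyiff k j (by omega) (by omega)).2 hj))) l h8 h9)
    have hβK : ∀ j, j ≤ K → β j ≤ β K := fun j hj => hβm j K hj hK
    rw [← hB₃] at hF₀ hF
    refine ⟨Fin.cons F₀ (fun i => F i.succ), ?_, ?_⟩
    · intro i
      refine Fin.cases ?_ (fun i => ?_) i
      · rw [Fin.cons_zero, Fin.cons_zero, hy]
        exact rpw_path hβK hF₀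
      · rw [Fin.cons_succ, Fin.cons_succ]
        have := rpw_path hβK (hF i.succ)
        rw [Fin.cons_succ] at this
        exact this
    · have e1 : ∑ i, F i * ((Fin.cons 0 w : Fin (6 * C + 1 + 1) → ℕ) i : ℤ) =
          ∑ i : Fin (6 * C + 1), F i.succ * (w i : ℤ) := by
        rw [Fin.sum_univ_succ]
        simp only [Fin.cons_zero, Fin.cons_succ, Nat.cast_zero, mul_zero, zero_add]
      have e2 : ∑ i, (Fin.cons F₀ (fun i => F i.succ) : Fin (6 * C + 1 + 1) → ℤ) i *
          ((Fin.cons y₀ w : Fin (6 * C + 1 + 1) → ℕ) i : ℤ) =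
          F₀ * (y₀ : ℤ) + ∑ i : Fin (6 * C + 1), F i.succ * (w i : ℤ) := by
        rw [Fin.sum_univ_succ]
        simp only [Fin.cons_zero, Fin.cons_succ]
      rw [hFeq, e1, e2, hy]
  · intro z hz
    rcases hSPX u m X z (C * n) hm4 (by omega) with
      ⟨x, hx1, hx2, hx3⟩ | ⟨per, hp1, hp2, hp3, _⟩
    · exact Or.inl ⟨x, hx1, by omega, hx3⟩
    · refine Or.inr ⟨per, hp1, by omega, ?_⟩
      intro i hi1 hi2
      exact hp3 i (by omega) (by omega)

end Pool.Agent.CLX
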