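import Pool.Agent.CLX.Stmts

/-!
# CSV: the value of a beginning of the word
-/

set_option autoImplicit false

namespace Pool.Agent.CLX

open Filter Pool.Agent.SBT

namespace CSV_

/-- explicit formula for the values -/
theorem val_eq {E : ℕ} (K : ℕ) (ty : ℕ → Fin E) (y : Fin E → ℤ)
    (zt ot : Fin E → ℕ) (Z M : ℕ → ℕ) (P : ℕ → ℤ)
    (hZM : ∀ l < K, Z (l + 1) = Z l + zt (ty l) ∧ M (l + 1) = M l + ot (ty l))
    (hP : ∀ l < K, P (l + 1) = 3 ^ ot (ty l) * P l + 2 ^ Z l * y (ty l)) :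
    ∀ k ≤ K, (∀ l ≤ k, M l ≤ M k) ∧ P k = 3 ^ (M k - M 0) * P 0 +
      ∑ l ∈ Finset.range k, 3 ^ (M k - M (l + 1)) * 2 ^ Z l * y (ty l) := by
  intro k
  induction k with
  | zero =>
    intro _
    refine ⟨?_, by simp⟩
    intro l hl
    rw [Nat.le_zero.1 hl]
  | succ k ih =>
    intro hk
    obtain ⟨h2, h3⟩ := ih (by omega)
    have hb := (hZM k (by omega)).2
    refine ⟨?_, ?_⟩
    · intro l hl
      rcases Nat.lt_or_ge l (k + 1) with h | h
      · have := h2 l (by omega)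
        omega
      · have : l = k + 1 := by omega
        rw [this]
    · have h0 := h2 0 (by omega)
      rw [hP k (by omega), h3, Finset.sum_range_succ, mul_add, Finset.mul_sum, Nat.sub_self,
        pow_zero, one_mul, ← mul_assoc, ← pow_add]
      have e1 : ot (ty k) + (M k - M 0) = M (k + 1) - M 0 := by omega
      rw [e1, add_assoc]
      congr 2
      refine Finset.sum_congr rfl fun l hl => ?_
      have h4 := h2 (l + 1) (by have := Finset.mem_range.1 hl; omega)
      have e2 : M (k + 1) - M (l + 1) = ot (ty k) + (M k - M (l + 1)) := by omega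
      rw [e2, pow_add]
      ring

/-- types and beginnings -/
theorem beta_mono {E : ℕ} (K : ℕ) (ty : ℕ → Fin E) (β : ℕ → ℕ) (len : Fin E → ℕ)
    (hβ : ∀ l < K, β (l + 1) = β l + len (ty l)) :
    ∀ k ≤ K, ∀ l ≤ k, β l ≤ β k := by
  intro k
  induction k with
  | zero =>
    intro _ l hl
    rw [Nat.le_zero.1 hl]
  | succ k ih =>
    intro hk l hl
    have hb := hβ k (by omega)
    rcases Nat.lt_or_ge l (k + 1) with h | h
    · have := ih (by omega) l (by omega)
      omega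
    · have : l = k + 1 := by omega
      rw [this]

end CSV_

open CSV_ in
theorem csv_proof (hCRP : Stmt_CRP) (hCVP : Stmt_CVP) (hPCS : Stmt_PCS) : Stmt_CSV := by
  intro E G
  obtain ⟨radd, rmul, rmono, rzero, -, rpt, rlong, -, smono, -, sprod⟩ := hCRP
  rcases E with _ | E
  · exact ⟨0, fun _ _ _ _ ty => (ty 0).elim0⟩
  set N1 : ℕ := (2 * (E + 1) + 1) * 2 ^ (E + 1) with hN1
  refine ⟨((E + 1 + 1) * (G + 2)) * N1 + 2 ^ (E + 1), ?_⟩
  intro D X K B ty β y len q zt ot ζ μ Z M P hD hX hq hβ hlen hβK hZM hZ0 hb hP h1 h2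
  set N : ℕ := ((E + 1 + 1) * (G + 2)) * N1 + 2 ^ (E + 1) with hN
  have hpre := val_eq K ty y zt ot Z M P hZM hP
  have hbm := beta_mono K ty β len hβ
  have hmono : ∀ i j, i < j → j ≤ K → β i < β j := by
    intro i j hij hj
    have h3 := hbm j hj (i + 1) hij
    have h4 := hβ i (by omega)
    have h5 := hlen i (by omega)
    omega
  have hltX : ∀ i ≤ K, β i < X := fun i hi => lt_of_le_of_lt (hbm K le_rfl i hi) hβK
  obtain ⟨s, κ, hs, hκ0, hκs, hκlt, hpc⟩ := hPCS (E + 1) D X K ty β hD hmono hltX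
    (fun k k' a1 a2 a3 a4 a5 => (h1 k k' a1 a2 a3 a4 a5).2.2.2) h2
  have hXD : X / D ≤ G := Nat.div_le_of_le_mul (by rw [Nat.mul_comm]; exact hX)
  have hs' : s ≤ (E + 1 + 1) * (G + 2) :=
    hs.trans (Nat.mul_le_mul_left _ (by omega))
  -- the product
  set Fs : ℤ := ∏ t, ((2 : ℤ) ^ ζ t - 3 ^ μ t) with hFs
  have hsumq : ∑ t, (ζ t + μ t) ≤ (2 * (E + 1)) * B := by
    calc ∑ t, (ζ t + μ t) ≤ ∑ _t : Fin (E + 1), 2 * B :=
          Finset.sum_le_sum fun t _ => by have := hb t; omega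
      _ = (2 * (E + 1)) * B := by simp; ring
  have hBB : B + (2 * (E + 1)) * B ≤ (2 * (E + 1) + 3) * B := by nlinarith [Nat.zero_le B]
  have hBB2 : 2 * B + (2 * (E + 1)) * B ≤ (2 * (E + 1) + 3) * B := by nlinarith [Nat.zero_le B]
  have hSFs : Rps (2 ^ (E + 1)) ((2 * (E + 1)) * B) Fs :=
    smono _ _ _ _ _ le_rfl hsumq (sprod (E + 1) ζ μ)
  -- a monomial near the path, times the product
  have hRFs : ∀ α γ j : ℕ, j ≤ K → |(α : ℤ) - Z j| ≤ B → |(γ : ℤ) - ((M K : ℤ) - M j)| ≤ B →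
      Rpc Z M (2 ^ (E + 1)) ((2 * (E + 1) + 3) * B) K (2 ^ α * 3 ^ γ * Fs) := by
    intro α γ j hj hα hγ
    refine rmono Z M (1 * 2 ^ (E + 1)) (2 ^ (E + 1)) (B + (2 * (E + 1)) * B) _ K _ (by omega)
      hBB ?_
    exact rmul Z M _ _ _ _ _ _ _ (rpt Z M B K j α γ hj hα hγ) hSFs
  -- monotonicity of κ
  have hκle : ∀ j, j ≤ s → ∀ i ≤ j, κ i ≤ κ j := by
    intro j
    induction j with
    | zero =>
      intro _ i hi
      rw [Nat.le_zero.1 hi]
    | succ j ih =>
      intro hj i hi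
      rcases Nat.lt_or_ge i (j + 1) with h | h
      · exact (ih (by omega) i (by omega)).trans (hκlt j (by omega)).le
      · have : i = j + 1 := by omega
        rw [this]
  -- a single piece
  have hpiece : ∀ j < s, ∃ F : Fin (E + 1) → ℤ,
      (∀ t, Rpc Z M N1 ((2 * (E + 1) + 3) * B) K (F t)) ∧
      Fs * ∑ l ∈ Finset.Ico (κ j) (κ (j + 1)), 3 ^ (M K - M (l + 1)) * 2 ^ Z l * y (ty l) =
        ∑ t, F t * y t := by
    intro j hj
    have hjK : κ (j + 1) ≤ K := by
      rw [← hκs]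
      exact hκle s le_rfl (j + 1) hj
    have hjlt : κ j < κ (j + 1) := hκlt j hj
    rcases hpc j hj with hone | ⟨r, hr1, hrE, hr, hrD, hrt, hrn, hper⟩
    · refine ⟨fun t => if t = ty (κ j) then
        2 ^ Z (κ j) * 3 ^ (M K - M (κ j + 1)) * Fs else 0, ?_, ?_⟩
      · intro t
        dsimp only
        split_ifs
        · have h3 := (hZM (κ j) (by omega)).2
          have h4 := (hpre K le_rfl).1 (κ j + 1) (by omega)
          have h5 := (hb (ty (κ j))).2.1
          refine rmono Z M (2 ^ (E + 1)) _ _ _ _ _ ?_ le_rfl (hRFs (Z (κ j)) (M K - M (κ j + 1)) (κ j)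
            (by omega) ?_ ?_)
          · rw [hN1]
            exact Nat.le_mul_of_pos_left _ (by omega)
          · rw [sub_self, abs_zero]
            exact Int.natCast_nonneg B
          · rw [abs_le]
            constructor <;> push_cast [Nat.cast_sub h4] <;> omega
        · exact rzero Z M _ _ _
      · rw [hone, Nat.Ico_succ_singleton, Finset.sum_singleton]
        simp only [ite_mul, zero_mul, Finset.sum_ite_eq', Finset.mem_univ, if_true]
        ring
    · have hq1 := h1 (κ j) (κ j + r) (by omega) (by omega) hrt hrD hrn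
      obtain ⟨F, hF, hFe⟩ := hCVP (E + 1) (κ j) (κ (j + 1)) r B ty Z M y zt ot ζ μ hr1 hrE hr
        (fun l _ hl2 => hZM l (by omega)) hb hq1.2.1 hq1.2.2.1 hper
      set t₀ := ty (κ j) with ht₀
      set Q : ℤ := ∏ i : Fin E, ((2 : ℤ) ^ ζ (t₀.succAbove i) - 3 ^ μ (t₀.succAbove i)) with hQ
      have hFQ : Fs = ((2 : ℤ) ^ ζ t₀ - 3 ^ μ t₀) * Q := by
        rw [hFs, Fin.prod_univ_succAbove _ t₀]
      have hsq : ∑ i : Fin E, (ζ (t₀.succAbove i) + μ (t₀.succAbove i)) ≤ (2 * (E + 1)) * B := by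
        refine le_trans ?_ hsumq
        rw [Fin.sum_univ_succAbove _ t₀]
        omega
      have hSQ : Rps (2 ^ (E + 1)) ((2 * (E + 1)) * B) Q :=
        smono _ _ _ _ _ (Nat.pow_le_pow_right (by norm_num) (by omega)) hsq
          (sprod E (fun i => ζ (t₀.succAbove i)) (fun i => μ (t₀.succAbove i)))
      have hbk : M (κ (j + 1)) ≤ M K := (hpre K le_rfl).1 _ hjK
      refine ⟨fun t => 3 ^ (M K - M (κ (j + 1))) * F t * Q, ?_, ?_⟩
      · intro t
        refine rmono Z M (2 * (E + 1) * 2 ^ (E + 1)) N1 (2 * B + (2 * (E + 1)) * B) _ K _ ?_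
          hBB2 ?_
        · rw [hN1]
          exact Nat.mul_le_mul_right _ (by omega)
        · exact rmul Z M _ _ _ _ _ _ _ (rlong Z M _ _ _ _ _ hjK hbk (hF t)) hSQ
      · have hsum : ∑ l ∈ Finset.Ico (κ j) (κ (j + 1)),
            3 ^ (M K - M (l + 1)) * 2 ^ Z l * y (ty l) =
            3 ^ (M K - M (κ (j + 1))) *
            ∑ l ∈ Finset.Ico (κ j) (κ (j + 1)),
              3 ^ (M (κ (j + 1)) - M (l + 1)) * 2 ^ Z l * y (ty l) := by
          rw [Finset.mul_sum]
          refine Finset.sum_congr rfl fun l hl => ?_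
          have hl2 := (Finset.mem_Ico.1 hl).2
          have h3 := (hpre (κ (j + 1)) hjK).1 (l + 1) hl2
          have e3 : M K - M (l + 1) = (M K - M (κ (j + 1))) + (M (κ (j + 1)) - M (l + 1)) := by
            omega
          rw [e3, pow_add]
          ring
        rw [hsum, hFQ]
        calc ((2 : ℤ) ^ ζ t₀ - 3 ^ μ t₀) * Q * (3 ^ (M K - M (κ (j + 1))) *
              ∑ l ∈ Finset.Ico (κ j) (κ (j + 1)),
                3 ^ (M (κ (j + 1)) - M (l + 1)) * 2 ^ Z l * y (ty l))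
            = Q * 3 ^ (M K - M (κ (j + 1))) * (((2 : ℤ) ^ ζ t₀ - 3 ^ μ t₀) *
              ∑ l ∈ Finset.Ico (κ j) (κ (j + 1)),
                3 ^ (M (κ (j + 1)) - M (l + 1)) * 2 ^ Z l * y (ty l)) := by ring
          _ = _ := by
            rw [hFe, Finset.mul_sum]
            exact Finset.sum_congr rfl fun t _ => by ring
  -- the sum over the pieces
  have hsumm : ∀ j ≤ s, ∃ F : Fin (E + 1) → ℤ,
      (∀ t, Rpc Z M (j * N1) ((2 * (E + 1) + 3) * B) K (F t)) ∧
      Fs * ∑ l ∈ Finset.range (κ j), 3 ^ (M K - M (l + 1)) * 2 ^ Z l * y (ty l) =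
        ∑ t, F t * y t := by
    intro j
    induction j with
    | zero =>
      intro _
      refine ⟨fun _ => 0, fun t => rzero Z M _ _ _, ?_⟩
      rw [hκ0]
      simp
    | succ j ih =>
      intro hj
      obtain ⟨F, hF, hFe⟩ := ih (by omega)
      obtain ⟨F', hF', hFe'⟩ := hpiece j (by omega)
      refine ⟨fun t => F t + F' t, ?_, ?_⟩
      · intro t
        rw [Nat.succ_mul]
        exact radd Z M _ _ _ _ _ _ (hF t) (hF' t)
      · rw [Finset.range_eq_Ico, ← Finset.sum_Ico_consecutive _ (Nat.zero_le (κ j))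
          (hκlt j (by omega)).le, mul_add, ← Finset.range_eq_Ico, hFe, hFe',
          ← Finset.sum_add_distrib]
        exact Finset.sum_congr rfl fun t _ => by ring
  obtain ⟨F, hF, hFe⟩ := hsumm s le_rfl
  rw [hκs] at hFe
  refine ⟨2 ^ 0 * 3 ^ (M K - M 0) * Fs, F, ?_, ?_, ?_⟩
  · have h4 := (hpre K le_rfl).1 0 (by omega)
    refine rmono Z M (2 ^ (E + 1)) _ _ _ _ _ (by omega) le_rfl
      (hRFs 0 (M K - M 0) 0 (by omega) ?_ ?_)
    · rw [abs_le]
      constructor <;> push_cast <;> omega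
    · rw [Nat.cast_sub h4, sub_self, abs_zero]
      exact Int.natCast_nonneg B
  · intro t
    refine rmono Z M _ _ _ _ _ _ ?_ le_rfl (hF t)
    exact (Nat.mul_le_mul_right N1 hs').trans (Nat.le_add_right _ _)
  · rw [(hpre K le_rfl).2, mul_add, hFe]
    ring

end Pool.Agent.CLX
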