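import Pool.Agent.CLX.Stmts2

/-!
# Module CSW: the value of a prefix, with sizes
-/

set_option autoImplicit false

namespace Pool.Agent.CLX

open Filter Pool.Agent.SBT

namespace CSW_

open Finset

/-- short sums of monomials with a bound for the monomials -/
def Rpm (N B W : ℕ) (F : ℤ) : Prop :=
  ∃ (ε : Fin N → ℤ) (α β : Fin N → ℕ), (∀ t, |ε t| ≤ 1) ∧ (∀ t, α t ≤ B ∧ β t ≤ B) ∧
    (∀ t, 2 ^ α t * 3 ^ β t ≤ W) ∧ F = ∑ t, ε t * 2 ^ α t * 3 ^ β t

theorem madd {N N' B W : ℕ} {F G : ℤ} (h : Rpm N B W F) (h' : Rpm N' B W G) :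
    Rpm (N + N') B W (F + G) := by
  obtain ⟨e, a, b, h1, h2, h3, rfl⟩ := h
  obtain ⟨e', a', b', h1', h2', h3', rfl⟩ := h'
  refine ⟨Fin.append e e', Fin.append a a', Fin.append b b', ?_, ?_, ?_, ?_⟩
  · intro t
    refine Fin.addCases (fun i => ?_) (fun i => ?_) t
    · rw [Fin.append_left]
      exact h1 i
    · rw [Fin.append_right]
      exact h1' i
  · intro t
    refine Fin.addCases (fun i => ?_) (fun i => ?_) t
    · simp only [Fin.append_left]
      exact h2 i
    · simp only [Fin.append_right]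
      exact h2' i
  · intro t
    refine Fin.addCases (fun i => ?_) (fun i => ?_) t
    · simp only [Fin.append_left]
      exact h3 i
    · simp only [Fin.append_right]
      exact h3' i
  · rw [Fin.sum_univ_add]
    simp only [Fin.append_left, Fin.append_right]

theorem mmul {N N' B B' W W' : ℕ} {F G : ℤ} (h : Rpm N B W F) (h' : Rpm N' B' W' G) :
    Rpm (N * N') (B + B') (W * W') (F * G) := by
  obtain ⟨e, a, b, h1, h2, h3, rfl⟩ := h
  obtain ⟨e', a', b', h1', h2', h3', rfl⟩ := h'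
  refine ⟨fun p => e (finProdFinEquiv.symm p).1 * e' (finProdFinEquiv.symm p).2,
    fun p => a (finProdFinEquiv.symm p).1 + a' (finProdFinEquiv.symm p).2,
    fun p => b (finProdFinEquiv.symm p).1 + b' (finProdFinEquiv.symm p).2, ?_, ?_, ?_, ?_⟩
  · intro t
    rw [abs_mul]
    exact mul_le_one₀ (h1 _) (abs_nonneg _) (h1' _)
  · intro t
    exact ⟨Nat.add_le_add (h2 _).1 (h2' _).1, Nat.add_le_add (h2 _).2 (h2' _).2⟩
  · intro t
    have := Nat.mul_le_mul (h3 (finProdFinEquiv.symm t).1) (h3' (finProdFinEquiv.symm t).2)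
    refine le_trans (le_of_eq ?_) this
    simp only [pow_add]
    ring
  · rw [sum_mul_sum, ← Fintype.sum_prod_type']
    rw [← Equiv.sum_comp finProdFinEquiv.symm]
    apply sum_congr rfl
    intro p _
    rw [pow_add, pow_add]
    ring

theorem two {a b B : ℕ} (ha : a ≤ B) (hb : b ≤ B) :
    Rpm 2 B (max (2 ^ a) (3 ^ b)) ((2 : ℤ) ^ a - 3 ^ b) := by
  have h1 : Rpm 1 B (max (2 ^ a) (3 ^ b)) ((2 : ℤ) ^ a) :=
    ⟨fun _ => 1, fun _ => a, fun _ => 0, by intro t; simp, fun _ => ⟨ha, Nat.zero_le _⟩,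
      fun _ => by simp, by simp⟩
  have h2 : Rpm 1 B (max (2 ^ a) (3 ^ b)) (-(3 : ℤ) ^ b) :=
    ⟨fun _ => -1, fun _ => 0, fun _ => b, by intro t; simp, fun _ => ⟨Nat.zero_le _, hb⟩,
      fun _ => by simp, by simp⟩
  have := madd h1 h2
  simpa [sub_eq_add_neg] using this

theorem prd : ∀ (E B : ℕ) (ζ μ : Fin E → ℕ), (∀ t, ζ t ≤ B ∧ μ t ≤ B) →
    Rpm (2 ^ E) (E * B) (∏ i, max (2 ^ ζ i) (3 ^ μ i)) (∏ i, ((2 : ℤ) ^ ζ i - 3 ^ μ i)) := by
  intro E
  induction E with
  | zero =>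
    intro B ζ μ _
    refine ⟨fun _ => 1, fun _ => 0, fun _ => 0, by intro t; simp, fun _ => ⟨Nat.zero_le _,
      Nat.zero_le _⟩, fun _ => by simp, by simp⟩
  | succ E ih =>
    intro B ζ μ h
    rw [Fin.prod_univ_castSucc, Fin.prod_univ_castSucc, pow_succ, Nat.succ_mul]
    exact mmul (ih _ _ _ fun t => h _) (two (h _).1 (h _).2)

variable {Z M : ℕ → ℕ}

theorem add {N N' B L W v : ℕ} {F G : ℤ} (h : Rpw Z M N B L W v F)
    (h' : Rpw Z M N' B L W v G) : Rpw Z M (N + N') B L W v (F + G) := by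
  obtain ⟨e, a, b, j, h1, h2, h3, rfl⟩ := h
  obtain ⟨e', a', b', j', h1', h2', h3', rfl⟩ := h'
  refine ⟨Fin.append e e', Fin.append a a', Fin.append b b', Fin.append j j', ?_, ?_, ?_, ?_⟩
  · intro t
    refine Fin.addCases (fun i => ?_) (fun i => ?_) t
    · rw [Fin.append_left]
      exact h1 i
    · rw [Fin.append_right]
      exact h1' i
  · intro t
    refine Fin.addCases (fun i => ?_) (fun i => ?_) t
    · simp only [Fin.append_left]
      exact h2 i
    · simp only [Fin.append_right]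
      exact h2' i
  · intro t
    refine Fin.addCases (fun i => ?_) (fun i => ?_) t
    · simp only [Fin.append_left]
      exact h3 i
    · simp only [Fin.append_right]
      exact h3' i
  · rw [Fin.sum_univ_add]
    simp only [Fin.append_left, Fin.append_right]

theorem zero (N B L W v : ℕ) : Rpw Z M N B L W v 0 := by
  refine ⟨fun _ => 0, fun _ => Z L, fun _ => 0, fun _ => L, by intro t; simp, ?_, ?_, by simp⟩
  · intro t
    refine ⟨le_rfl, ?_, ?_⟩
    · rw [sub_self, abs_zero]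
      exact Int.natCast_nonneg _
    · rw [sub_self, Nat.cast_zero, sub_zero, abs_zero]
      exact Int.natCast_nonneg _
  · intro t ht
    exact absurd rfl ht

theorem mono {N N' B B' L W W' v : ℕ} {F : ℤ} (hN : N ≤ N') (hB : B ≤ B') (hW : W ≤ W')
    (h : Rpw Z M N B L W v F) : Rpw Z M N' B' L W' v F := by
  have h1 : Rpw Z M N B' L W' v F := by
    obtain ⟨e, a, b, j, h1, h2, h3, rfl⟩ := h
    refine ⟨e, a, b, j, h1, fun t => ⟨(h2 t).1, (h2 t).2.1.trans ?_, (h2 t).2.2.trans ?_⟩,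
      fun t ht => (h3 t ht).trans hW, rfl⟩
    · exact_mod_cast hB
    · exact_mod_cast hB
  obtain ⟨n, rfl⟩ := Nat.exists_eq_add_of_le hN
  have := add h1 (zero (Z := Z) (M := M) n B' L W' v)
  rwa [add_zero] at this

theorem mul {N N' B B' L W W' v : ℕ} {F G : ℤ} (h : Rpw Z M N B L W v F)
    (h' : Rpm N' B' W' G) : Rpw Z M (N * N') (B + B') L (W' * W) v (F * G) := by
  obtain ⟨e, a, b, j, h1, h2, h3, rfl⟩ := h
  obtain ⟨e', a', b', h1', h2', h3', rfl⟩ := h'
  refine ⟨fun p => e (finProdFinEquiv.symm p).1 * e' (finProdFinEquiv.symm p).2,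
    fun p => a (finProdFinEquiv.symm p).1 + a' (finProdFinEquiv.symm p).2,
    fun p => b (finProdFinEquiv.symm p).1 + b' (finProdFinEquiv.symm p).2,
    fun p => j (finProdFinEquiv.symm p).1, ?_, ?_, ?_, ?_⟩
  · intro t
    rw [abs_mul]
    exact mul_le_one₀ (h1 _) (abs_nonneg _) (h1' _)
  · intro t
    obtain ⟨c1, c2, c3⟩ := h2 (finProdFinEquiv.symm t).1
    obtain ⟨c4, c5⟩ := h2' (finProdFinEquiv.symm t).2
    refine ⟨c1, ?_, ?_⟩
    · rw [abs_le] at c2 ⊢
      push_cast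
      constructor <;> omega
    · rw [abs_le] at c3 ⊢
      push_cast
      constructor <;> omega
  · intro t ht
    have hne : e (finProdFinEquiv.symm t).1 ≠ 0 := left_ne_zero_of_mul ht
    have := Nat.mul_le_mul (h3' (finProdFinEquiv.symm t).2) (h3 _ hne)
    refine le_trans (le_of_eq ?_) this
    simp only [pow_add]
    ring
  · rw [sum_mul_sum, ← Fintype.sum_prod_type']
    rw [← Equiv.sum_comp finProdFinEquiv.symm]
    apply sum_congr rfl
    intro p _
    rw [pow_add, pow_add]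
    ring

theorem pt (B L j α β W v : ℕ) (hj : j ≤ L) (ha : |(α : ℤ) - Z j| ≤ B)
    (hb : |(β : ℤ) - ((M L : ℤ) - M j)| ≤ B) (hW : 2 ^ α * 3 ^ β * v ≤ W) :
    Rpw Z M 1 B L W v (2 ^ α * 3 ^ β) :=
  ⟨fun _ => 1, fun _ => α, fun _ => β, fun _ => j, by intro t; simp,
    fun _ => ⟨hj, ha, hb⟩, fun _ _ => hW, by simp⟩

theorem longer {N B L L' W v : ℕ} {F : ℤ} (hL : L ≤ L') (hM : M L ≤ M L')
    (h : Rpw Z M N B L W v F) :
    Rpw Z M N B L' (3 ^ (M L' - M L) * W) v (3 ^ (M L' - M L) * F) := by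
  obtain ⟨e, a, b, j, h1, h2, h3, rfl⟩ := h
  refine ⟨e, a, fun t => b t + (M L' - M L), j, h1, fun t => ?_, fun t ht => ?_, ?_⟩
  · obtain ⟨c1, c2, c3⟩ := h2 t
    refine ⟨c1.trans hL, c2, ?_⟩
    have e1 : ((b t + (M L' - M L) : ℕ) : ℤ) - ((M L' : ℤ) - M (j t))
        = (b t : ℤ) - ((M L : ℤ) - M (j t)) := by
      rw [Nat.cast_add, Nat.cast_sub hM]
      ring
    rw [e1]
    exact c3
  · have := Nat.mul_le_mul_left (3 ^ (M L' - M L)) (h3 t ht)
    refine le_trans (le_of_eq ?_) this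
    rw [pow_add]
    ring
  · rw [mul_sum]
    apply sum_congr rfl
    intro t _
    rw [pow_add]
    ring

/-- explicit formula for the prefixes -/
theorem prefix_eq {E : ℕ} (K : ℕ) (ty : ℕ → Fin E) (y : Fin E → ℕ) (zt ot : Fin E → ℕ)
    (Z M P : ℕ → ℕ) (hM : ∀ l < K, Z (l + 1) = Z l + zt (ty l) ∧ M (l + 1) = M l + ot (ty l))
    (hP : ∀ l < K, P (l + 1) = 3 ^ ot (ty l) * P l + 2 ^ Z l * y (ty l)) :
    ∀ k ≤ K, (∀ l ≤ k, M l ≤ M k) ∧ P k = 3 ^ (M k - M 0) * P 0 +
      ∑ l ∈ Finset.range k, 3 ^ (M k - M (l + 1)) * 2 ^ Z l * y (ty l) := by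
  intro k
  induction k with
  | zero =>
    intro _
    refine ⟨?_, by simp⟩
    intro l hl
    rw [Nat.le_zero.1 hl]
  | succ k ih =>
    intro hk
    obtain ⟨h2, h3⟩ := ih (by omega)
    have hb := (hM k (by omega)).2
    have h0 := h2 0 (Nat.zero_le _)
    refine ⟨?_, ?_⟩
    · intro l hl
      rcases Nat.lt_or_ge l (k + 1) with h | h
      · have := h2 l (by omega)
        omega
      · have : l = k + 1 := by omega
        rw [this]
    · rw [hP k (by omega), h3, Finset.sum_range_succ, mul_add, Finset.mul_sum, Nat.sub_self,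
        pow_zero, one_mul, ← mul_assoc, ← pow_add]
      have e1 : ot (ty k) + (M k - M 0) = M (k + 1) - M 0 := by omega
      rw [e1, add_assoc]
      congr 2
      refine Finset.sum_congr rfl fun l hl => ?_
      rw [← mul_assoc, ← mul_assoc, ← pow_add]
      have h4 := h2 (l + 1) (by have := Finset.mem_range.1 hl; omega)
      have e2 : ot (ty k) + (M k - M (l + 1)) = M (k + 1) - M (l + 1) := by omega
      rw [e2]

end CSW_

open CSW_ in
theorem csw_proof (hCVQ : Stmt_CVQ) (hPCS : Stmt_PCS) : Stmt_CSW := by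
  intro E G
  rcases E with _ | E
  · exact ⟨0, fun _ _ _ _ ty => (ty 0).elim0⟩
  set N1 : ℕ := 2 ^ (E + 1) * (2 * (E + 1) + 1) with hN1
  refine ⟨((E + 1 + 1) * (G + 2)) * N1 + 2 ^ (E + 1), ?_⟩
  intro D X K B ty β y len q zt ot ζ μ Z M P hD hX hq hβ hlen hβK hZM hZ0 hB hP h1 h2
  set N : ℕ := ((E + 1 + 1) * (G + 2)) * N1 + 2 ^ (E + 1) with hN
  have hpre := prefix_eq K ty y zt ot Z M P hZM hP
  have hMle : ∀ i j, i ≤ j → j ≤ K → M i ≤ M j := fun i j hij hj => (hpre j hj).1 i hij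
  have hmono : ∀ i j, i < j → j ≤ K → β i < β j := by
    intro i j hij
    obtain ⟨c, rfl⟩ := Nat.exists_eq_add_of_lt hij
    induction c with
    | zero =>
      intro hj
      have h4 := hβ i (by omega)
      have h5 := hlen i (by omega)
      simp only [add_zero] at *
      omega
    | succ c ih =>
      intro hj
      have h3 := ih (by omega) (by omega)
      have h4 := hβ (i + c + 1) (by omega)
      have e : i + (c + 1) + 1 = i + c + 1 + 1 := by omega
      rw [e, h4]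
      omega
  have hltX : ∀ i ≤ K, β i < X := by
    intro i hi
    rcases Nat.lt_or_ge i K with h | h
    · have := hmono i K h le_rfl
      omega
    · have : i = K := by omega
      rw [this]
      exact hβK
  obtain ⟨s, κ, hs, hκ0, hκs, hκlt, hpc⟩ := hPCS (E + 1) D X K ty β hD hmono hltX
    (fun k k' a1 a2 a3 a4 a5 => (h1 k k' a1 a2 a3 a4 a5).2.2.2) h2
  have hXD : X / D ≤ G := Nat.div_le_of_le_mul (by rw [Nat.mul_comm]; exact hX)
  have hs' : s ≤ (E + 1 + 1) * (G + 2) :=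
    hs.trans (Nat.mul_le_mul_left _ (by omega))
  -- the product
  set Fs : ℤ := ∏ t, ((2 : ℤ) ^ ζ t - 3 ^ μ t) with hFs
  have hRFs : Rpm (2 ^ (E + 1)) ((E + 1) * B) (mx ζ μ) Fs :=
    prd (E + 1) B ζ μ fun t => ⟨(hB t).2.2.1, (hB t).2.2.2⟩
  -- monotonicity of κ
  have hκle : ∀ j, j ≤ s → ∀ i ≤ j, κ i ≤ κ j := by
    intro j
    induction j with
    | zero =>
      intro _ i hi
      rw [Nat.le_zero.1 hi]
    | succ j ih =>
      intro hj i hi
      rcases Nat.lt_or_ge i (j + 1) with h | h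
      · exact (ih (by omega) i (by omega)).trans (hκlt j (by omega)).le
      · have : i = j + 1 := by omega
        rw [this]
  -- the size of the parts
  have hPK := (hpre K le_rfl).2
  have hpart : ∀ i j, i ≤ j → j ≤ K →
      ∑ l ∈ Finset.Ico i j, 3 ^ (M K - M (l + 1)) * 2 ^ Z l * y (ty l) ≤ P K := by
    intro i j _ hj
    rw [hPK]
    refine le_trans ?_ (Nat.le_add_left _ _)
    refine Finset.sum_le_sum_of_subset ?_
    intro l hl
    rw [Finset.mem_range]
    have := (Finset.mem_Ico.1 hl).2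
    omega
  -- a single piece
  have hpiece : ∀ j < s, ∃ F : Fin (E + 1) → ℤ,
      (∀ t, Rpw Z M N1 ((2 * (E + 1) + 3) * B) K (mx ζ μ * P K) (y t) (F t)) ∧
      Fs * ∑ l ∈ Finset.Ico (κ j) (κ (j + 1)),
        (3 : ℤ) ^ (M K - M (l + 1)) * 2 ^ Z l * y (ty l) = ∑ t, F t * y t := by
    intro j hj
    have hjK : κ (j + 1) ≤ K := by
      rw [← hκs]
      exact hκle s le_rfl (j + 1) hj
    have hjj := hκlt j hj
    rcases hpc j hj with hone | ⟨r, hr1, hrE, hr, hrD, hrt, hrn, hper⟩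
    · have hM1 := hZM (κ j) (by omega)
      have hle1 : M (κ j + 1) ≤ M K := hMle _ _ (by omega) le_rfl
      have hBt := hB (ty (κ j))
      have hot : ((M (κ j + 1) : ℕ) : ℤ) = M (κ j) + ot (ty (κ j)) := by
        rw [hM1.2]
        push_cast
        ring
      have hs1 : Rpw Z M 1 B K (3 ^ (M K - M (κ j + 1)) * 2 ^ Z (κ j) * y (ty (κ j)))
          (y (ty (κ j))) (2 ^ Z (κ j) * 3 ^ (M K - M (κ j + 1))) := by
        refine pt B K (κ j) (Z (κ j)) (M K - M (κ j + 1)) _ _ (by omega) ?_ ?_ ?_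
        · rw [sub_self, abs_zero]
          exact Int.natCast_nonneg _
        · rw [Nat.cast_sub hle1, hot, abs_le]
          have h3 : (ot (ty (κ j)) : ℤ) ≤ B := by exact_mod_cast hBt.2.1
          have h4 : (0 : ℤ) ≤ ot (ty (κ j)) := Int.natCast_nonneg _
          constructor <;> linarith
        · refine le_of_eq ?_
          ring
      have hsz : 3 ^ (M K - M (κ j + 1)) * 2 ^ Z (κ j) * y (ty (κ j)) ≤ P K := by
        have := hpart (κ j) (κ j + 1) (by omega) (by omega)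
        rwa [Nat.Ico_succ_singleton, Finset.sum_singleton] at this
      have hs2 := mul hs1 hRFs
      refine ⟨fun t => if t = ty (κ j) then
        2 ^ Z (κ j) * 3 ^ (M K - M (κ j + 1)) * Fs else 0, ?_, ?_⟩
      · intro t
        dsimp only
        split_ifs with ht
        · rw [ht]
          refine mono ?_ ?_ ?_ hs2
          · rw [hN1, one_mul]
            exact Nat.le_mul_of_pos_right _ (by omega)
          · nlinarith [Nat.zero_le B, Nat.zero_le (E * B)]
          · exact Nat.mul_le_mul_left _ hsz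
        · exact zero _ _ _ _ _
      · rw [hone, Nat.Ico_succ_singleton, Finset.sum_singleton]
        simp only [ite_mul, zero_mul, Finset.sum_ite_eq', Finset.mem_univ, if_true]
        ring
    · obtain ⟨hq1, hq2, hq3, -⟩ := h1 (κ j) (κ j + r) (by omega) (by omega) hrt hrD hrn
      obtain ⟨F, hF, hFe⟩ := hCVQ (E + 1) (κ j) (κ (j + 1)) r B ty Z M y zt ot ζ μ hr1 hrE hr
        (fun l _ hl2 => hZM l (by omega)) hB hq2 hq3 hper
      push_cast at hFe
      set t₀ := ty (κ j) with ht₀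
      set Q : ℤ := ∏ i : Fin E, ((2 : ℤ) ^ ζ (t₀.succAbove i) - 3 ^ μ (t₀.succAbove i)) with hQ
      have hFQ : Fs = ((2 : ℤ) ^ ζ t₀ - 3 ^ μ t₀) * Q := by
        rw [hFs, Fin.prod_univ_succAbove _ t₀]
      set mQ : ℕ := ∏ i : Fin E, max (2 ^ ζ (t₀.succAbove i)) (3 ^ μ (t₀.succAbove i)) with hmQ
      have hmx : mx ζ μ = max (2 ^ ζ t₀) (3 ^ μ t₀) * mQ := by
        rw [mx, Fin.prod_univ_succAbove _ t₀]
      have hRQ : Rpm (2 ^ E) (E * B) mQ Q :=
        prd E B (fun i => ζ (t₀.succAbove i)) (fun i => μ (t₀.succAbove i))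
          fun t => ⟨(hB _).2.2.1, (hB _).2.2.2⟩
      have hMM : M (κ (j + 1)) ≤ M K := hMle _ _ hjK le_rfl
      have hsumN : 3 ^ (M K - M (κ (j + 1))) * ∑ l ∈ Finset.Ico (κ j) (κ (j + 1)),
          3 ^ (M (κ (j + 1)) - M (l + 1)) * 2 ^ Z l * y (ty l) =
          ∑ l ∈ Finset.Ico (κ j) (κ (j + 1)), 3 ^ (M K - M (l + 1)) * 2 ^ Z l * y (ty l) := by
        rw [Finset.mul_sum]
        refine Finset.sum_congr rfl fun l hl => ?_
        have hl2 := (Finset.mem_Ico.1 hl).2
        have h3 : M (l + 1) ≤ M (κ (j + 1)) := hMle _ _ (by omega) hjK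
        rw [← mul_assoc, ← mul_assoc, ← pow_add]
        congr 3
        omega
      refine ⟨fun t => 3 ^ (M K - M (κ (j + 1))) * F t * Q, ?_, ?_⟩
      · intro t
        refine mono ?_ ?_ ?_ (mul (longer hjK hMM (hF t)) hRQ)
        · rw [hN1, Nat.mul_comm]
          exact Nat.mul_le_mul (Nat.pow_le_pow_right (by norm_num) (by omega)) (by omega)
        · nlinarith [Nat.zero_le B, Nat.zero_le (E * B)]
        · have e1 : mQ * (3 ^ (M K - M (κ (j + 1))) * (max (2 ^ ζ t₀) (3 ^ μ t₀) *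
              ∑ l ∈ Finset.Ico (κ j) (κ (j + 1)),
                3 ^ (M (κ (j + 1)) - M (l + 1)) * 2 ^ Z l * y (ty l))) =
              mx ζ μ * (3 ^ (M K - M (κ (j + 1))) * ∑ l ∈ Finset.Ico (κ j) (κ (j + 1)),
                3 ^ (M (κ (j + 1)) - M (l + 1)) * 2 ^ Z l * y (ty l)) := by
            rw [hmx]
            ring
          rw [e1, hsumN]
          exact Nat.mul_le_mul_left _ (hpart _ _ hjj.le hjK)
      · have hsum : ∑ l ∈ Finset.Ico (κ j) (κ (j + 1)),
            (3 : ℤ) ^ (M K - M (l + 1)) * 2 ^ Z l * y (ty l) =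
            (3 : ℤ) ^ (M K - M (κ (j + 1))) *
            ∑ l ∈ Finset.Ico (κ j) (κ (j + 1)),
              (3 : ℤ) ^ (M (κ (j + 1)) - M (l + 1)) * 2 ^ Z l * y (ty l) := by
          exact_mod_cast hsumN.symm
        rw [hsum, hFQ]
        calc ((2 : ℤ) ^ ζ t₀ - 3 ^ μ t₀) * Q * ((3 : ℤ) ^ (M K - M (κ (j + 1))) *
              ∑ l ∈ Finset.Ico (κ j) (κ (j + 1)),
                (3 : ℤ) ^ (M (κ (j + 1)) - M (l + 1)) * 2 ^ Z l * y (ty l))
            = 3 ^ (M K - M (κ (j + 1))) * Q * (((2 : ℤ) ^ ζ t₀ - 3 ^ μ t₀) *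
              ∑ l ∈ Finset.Ico (κ j) (κ (j + 1)),
                (3 : ℤ) ^ (M (κ (j + 1)) - M (l + 1)) * 2 ^ Z l * y (ty l)) := by ring
          _ = _ := by
            rw [hFe, Finset.mul_sum]
            exact Finset.sum_congr rfl fun t _ => by ring
  -- the sum over the pieces
  have hsumm : ∀ j ≤ s, ∃ F : Fin (E + 1) → ℤ,
      (∀ t, Rpw Z M (j * N1) ((2 * (E + 1) + 3) * B) K (mx ζ μ * P K) (y t) (F t)) ∧
      Fs * ∑ l ∈ Finset.range (κ j), (3 : ℤ) ^ (M K - M (l + 1)) * 2 ^ Z l * y (ty l) =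
        ∑ t, F t * y t := by
    intro j
    induction j with
    | zero =>
      intro _
      refine ⟨fun _ => 0, fun t => zero _ _ _ _ _, ?_⟩
      rw [hκ0]
      simp
    | succ j ih =>
      intro hj
      obtain ⟨F, hF, hFe⟩ := ih (by omega)
      obtain ⟨F', hF', hFe'⟩ := hpiece j (by omega)
      refine ⟨fun t => F t + F' t, ?_, ?_⟩
      · intro t
        rw [Nat.succ_mul]
        exact add (hF t) (hF' t)
      · rw [Finset.range_eq_Ico, ← Finset.sum_Ico_consecutive _ (Nat.zero_le (κ j))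
          (hκlt j (by omega)).le, mul_add, ← Finset.range_eq_Ico, hFe, hFe',
          ← Finset.sum_add_distrib]
        exact Finset.sum_congr rfl fun t _ => by ring
  obtain ⟨F, hF, hFe⟩ := hsumm s le_rfl
  rw [hκs] at hFe
  have hM0 : M 0 ≤ M K := hMle 0 K (Nat.zero_le _) le_rfl
  have hF0 : Rpw Z M 1 B K (3 ^ (M K - M 0) * P 0) (P 0) (2 ^ 0 * 3 ^ (M K - M 0)) := by
    refine pt B K 0 0 (M K - M 0) _ _ (Nat.zero_le _) ?_ ?_ ?_
    · rw [abs_le]
      have : ((Z 0 : ℕ) : ℤ) ≤ B := by exact_mod_cast hZ0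
      have h' : (0 : ℤ) ≤ Z 0 := Int.natCast_nonneg _
      push_cast
      constructor <;> linarith
    · rw [Nat.cast_sub hM0, sub_self, abs_zero]
      exact Int.natCast_nonneg _
    · rw [pow_zero, one_mul]
  refine ⟨2 ^ 0 * 3 ^ (M K - M 0) * Fs, F, ?_, ?_, ?_⟩
  · refine mono ?_ ?_ ?_ (mul hF0 hRFs)
    · rw [hN, one_mul]
      exact Nat.le_add_left _ _
    · nlinarith [Nat.zero_le B, Nat.zero_le (E * B)]
    · refine Nat.mul_le_mul_left _ ?_
      rw [hPK]
      exact Nat.le_add_right _ _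
  · intro t
    refine mono ?_ le_rfl le_rfl (hF t)
    exact (Nat.mul_le_mul_right N1 hs').trans (Nat.le_add_right _ _)
  · have hPKz : (P K : ℤ) = 3 ^ (M K - M 0) * P 0 +
        ∑ l ∈ Finset.range K, (3 : ℤ) ^ (M K - M (l + 1)) * 2 ^ Z l * y (ty l) := by
      exact_mod_cast hPK
    rw [hPKz, mul_add, hFe]
    ring

end Pool.Agent.CLX
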