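import Pool.Agent.CLX.Stmts2

/-!
# CVQ: the value of a periodic piece, with sizes
-/

set_option autoImplicit false

namespace Pool.Agent.CLX

open Filter Pool.Agent.SBT

theorem cvq_proof : Stmt_CVQ := by
  intro E i k r B ty Z M y zt ot ζ μ hr hrE hik hZM hb hZr hMr hper
  classical
  -- periodicity of `Z` and `M`
  have hZ : ∀ l, i ≤ l → l + r ≤ k →
      Z (l + r) = Z l + ζ (ty i) ∧ M (l + r) = M l + μ (ty i) := by
    intro l hl
    induction l, hl using Nat.le_induction with
    | base => intro _; exact ⟨hZr, hMr⟩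
    | succ l hl ih =>
      intro hlk
      have h1 := ih (by omega)
      have h2 := hZM l hl (by omega)
      have h3 := hZM (l + r) (by omega) (by omega)
      have h4 := hper l hl (by omega)
      rw [show l + 1 + r = l + r + 1 by ring, h3.1, h3.2, h2.1, h2.2, h1.1, h1.2, ← h4]
      constructor <;> ring
  have hM : ∀ l l', i ≤ l → l ≤ l' → l' ≤ k → M l ≤ M l' := by
    intro l l' hl hll
    induction l', hll using Nat.le_induction with
    | base => intro _; exact le_rfl
    | succ l' hl' ih =>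
      intro hk
      have h1 := ih (by omega)
      have h2 := (hZM l' (by omega) (by omega)).2
      omega
  obtain ⟨A, hA⟩ : ∃ A : ℕ → ℕ, ∀ l, A l = 3 ^ (M k - M (l + 1)) * 2 ^ Z l * y (ty l) :=
    ⟨_, fun l => rfl⟩
  have hS : ∑ l ∈ Finset.Ico i k, 3 ^ (M k - M (l + 1)) * 2 ^ Z l * y (ty l) =
      ∑ l ∈ Finset.Ico i k, A l := Finset.sum_congr rfl fun l _ => (hA l).symm
  have hAr : ∀ l, i ≤ l → l + r < k → 3 ^ μ (ty i) * A (l + r) = 2 ^ ζ (ty i) * A l := by
    intro l hl hlk
    have h1 := hZ l hl (by omega)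
    have h2 := hZ (l + 1) (by omega) (by omega)
    have h3 := hM (l + 1 + r) k (by omega) (by omega) le_rfl
    rw [hA, hA, ← hper l hl hlk, h1.1, show l + r + 1 = l + 1 + r by ring]
    have h4 : M k - M (l + 1) = μ (ty i) + (M k - M (l + 1 + r)) := by omega
    rw [h4, pow_add, pow_add]
    ring
  -- the identity of the sums
  have hsum : 2 ^ ζ (ty i) * ∑ l ∈ Finset.Ico i k, A l +
      3 ^ μ (ty i) * ∑ a ∈ Finset.range r, A (i + a) =
      3 ^ μ (ty i) * ∑ l ∈ Finset.Ico i k, A l +
        2 ^ ζ (ty i) * ∑ a ∈ Finset.range r, A (k - r + a) := by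
    have e1 : ∑ l ∈ Finset.Ico i k, A l =
        ∑ l ∈ Finset.Ico i (k - r), A l + ∑ l ∈ Finset.Ico (k - r) k, A l :=
      (Finset.sum_Ico_consecutive A (by omega) (by omega)).symm
    have e2 : ∑ l ∈ Finset.Ico i k, A l =
        ∑ l ∈ Finset.Ico i (i + r), A l + ∑ l ∈ Finset.Ico (i + r) k, A l :=
      (Finset.sum_Ico_consecutive A (by omega) (by omega)).symm
    have e3 : ∑ l ∈ Finset.Ico (i + r) k, A l = ∑ l ∈ Finset.Ico i (k - r), A (l + r) := by
      have h := Finset.sum_Ico_add' A i (k - r) r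
      rw [h, Nat.sub_add_cancel (by omega)]
    have e4 : 3 ^ μ (ty i) * ∑ l ∈ Finset.Ico i (k - r), A (l + r) =
        2 ^ ζ (ty i) * ∑ l ∈ Finset.Ico i (k - r), A l := by
      rw [Finset.mul_sum, Finset.mul_sum]
      refine Finset.sum_congr rfl fun l hl => ?_
      rw [Finset.mem_Ico] at hl
      exact hAr l hl.1 (by omega)
    have e5 : ∑ l ∈ Finset.Ico i (i + r), A l = ∑ a ∈ Finset.range r, A (i + a) := by
      rw [Finset.sum_Ico_eq_sum_range, Nat.add_sub_cancel_left]
    have e6 : ∑ l ∈ Finset.Ico (k - r) k, A l = ∑ a ∈ Finset.range r, A (k - r + a) := by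
      rw [Finset.sum_Ico_eq_sum_range, Nat.sub_sub_self (by omega)]
    rw [← e5, ← e6]
    nth_rewrite 1 [e1]
    rw [e2, mul_add, mul_add, e3, e4]
    ring
  -- the terms
  obtain ⟨α, hα⟩ : ∃ α : ℕ → ℕ, ∀ τ, α τ = if τ < r then ζ (ty i) + Z (k - r + τ) else
    if E ≤ τ ∧ τ < E + r then Z (i + (τ - E)) else Z k := ⟨_, fun _ => rfl⟩
  obtain ⟨β, hβ⟩ : ∃ β : ℕ → ℕ, ∀ τ, β τ = if τ < r then M k - M (k - r + τ + 1) else
    if E ≤ τ ∧ τ < E + r then μ (ty i) + (M k - M (i + (τ - E) + 1)) else 0 := ⟨_, fun _ => rfl⟩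
  obtain ⟨j, hj⟩ : ∃ j : ℕ → ℕ, ∀ τ, j τ = if τ < r then k - r + τ else
    if E ≤ τ ∧ τ < E + r then i + (τ - E) else k := ⟨_, fun _ => rfl⟩
  obtain ⟨ε, hε⟩ : ∃ ε : Fin E → ℕ → ℤ, ∀ t τ, ε t τ = if τ < r then
      (if ty (k - r + τ) = t then 1 else 0) else
    if E ≤ τ ∧ τ < E + r then (if ty (i + (τ - E)) = t then -1 else 0) else 0 :=
    ⟨_, fun _ _ => rfl⟩
  refine ⟨fun t => ∑ τ : Fin (2 * E), ε t τ * 2 ^ α τ * 3 ^ β τ, ?_, ?_⟩
  · intro t
    refine ⟨fun τ => ε t τ, fun τ => α τ, fun τ => β τ, fun τ => j τ, ?_, ?_, ?_, rfl⟩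
    · intro τ
      change |ε t τ| ≤ 1
      rw [hε]
      split_ifs <;> norm_num
    · intro τ
      change j τ ≤ k ∧ |((α τ : ℕ) : ℤ) - Z (j τ)| ≤ ((2 * B : ℕ) : ℤ) ∧
        |((β τ : ℕ) : ℤ) - ((M k : ℤ) - M (j τ))| ≤ ((2 * B : ℕ) : ℤ)
      obtain ⟨b1, b2, b3, b4⟩ := hb (ty i)
      by_cases h1 : (τ : ℕ) < r
      · rw [hα, hβ, hj, if_pos h1, if_pos h1, if_pos h1]
        have h2 := (hZM (k - r + τ) (by omega) (by omega)).2
        have h3 := hM (k - r + τ + 1) k (by omega) (by omega) le_rfl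
        have h4 := (hb (ty (k - r + τ))).2.1
        refine ⟨by omega, ?_, ?_⟩
        · rw [abs_le]; constructor <;> push_cast <;> omega
        · rw [abs_le]; constructor <;> push_cast <;> omega
      · by_cases h2 : E ≤ (τ : ℕ) ∧ (τ : ℕ) < E + r
        · rw [hα, hβ, hj, if_neg h1, if_neg h1, if_neg h1, if_pos h2, if_pos h2, if_pos h2]
          have h3 := (hZM (i + (τ - E)) (by omega) (by omega)).2
          have h4 := hM (i + (τ - E) + 1) k (by omega) (by omega) le_rfl
          have h5 := (hb (ty (i + (τ - E)))).2.1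
          refine ⟨by omega, ?_, ?_⟩
          · rw [abs_le]; constructor <;> push_cast <;> omega
          · rw [abs_le]; constructor <;> push_cast <;> omega
        · rw [hα, hβ, hj, if_neg h1, if_neg h1, if_neg h1, if_neg h2, if_neg h2, if_neg h2]
          refine ⟨le_rfl, ?_, ?_⟩
          · rw [sub_self, abs_zero]; positivity
          · rw [sub_self, Nat.cast_zero, sub_self, abs_zero]; positivity
    · intro τ hτ
      change ε t τ ≠ 0 at hτ
      change 2 ^ α τ * 3 ^ β τ * y t ≤ _
      rw [hS]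
      have hle : ∀ l ∈ Finset.Ico i k, A l ≤ ∑ l ∈ Finset.Ico i k, A l := fun l hl =>
        Finset.single_le_sum (f := A) (fun _ _ => Nat.zero_le _) hl
      rw [hε] at hτ
      by_cases h1 : (τ : ℕ) < r
      · rw [if_pos h1] at hτ
        have h2 : ty (k - r + τ) = t := by
          by_contra h
          rw [if_neg h] at hτ
          exact hτ rfl
        rw [hα, hβ, if_pos h1, if_pos h1]
        have e : 2 ^ (ζ (ty i) + Z (k - r + τ)) * 3 ^ (M k - M (k - r + τ + 1)) * y t =
            2 ^ ζ (ty i) * A (k - r + τ) := by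
          rw [hA, h2, pow_add]
          ring
        rw [e]
        exact Nat.mul_le_mul (le_max_left _ _) (hle _ (Finset.mem_Ico.2 ⟨by omega, by omega⟩))
      · rw [if_neg h1] at hτ
        by_cases h2 : E ≤ (τ : ℕ) ∧ (τ : ℕ) < E + r
        · rw [if_pos h2] at hτ
          have h3 : ty (i + (τ - E)) = t := by
            by_contra h
            rw [if_neg h] at hτ
            exact hτ rfl
          rw [hα, hβ, if_neg h1, if_neg h1, if_pos h2, if_pos h2]
          have e : 2 ^ Z (i + (τ - E)) * 3 ^ (μ (ty i) + (M k - M (i + (τ - E) + 1))) * y t =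
              3 ^ μ (ty i) * A (i + (τ - E)) := by
            rw [hA, h3, pow_add]
            ring
          rw [e]
          exact Nat.mul_le_mul (le_max_right _ _) (hle _ (Finset.mem_Ico.2 ⟨by omega, by omega⟩))
        · rw [if_neg h2] at hτ
          exact absurd rfl hτ
  · have hc : ∀ τ : ℕ, ∑ t, ε t τ * 2 ^ α τ * 3 ^ β τ * (y t : ℤ) =
        if τ < r then (2 : ℤ) ^ ζ (ty i) * A (k - r + τ) else
          if E ≤ τ ∧ τ < E + r then -((3 : ℤ) ^ μ (ty i) * A (i + (τ - E))) else 0 := by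
      intro τ
      by_cases h1 : τ < r
      · rw [if_pos h1, Finset.sum_eq_single (ty (k - r + τ))]
        · rw [hε, hα, hβ, if_pos h1, if_pos h1, if_pos h1, if_pos rfl, hA, pow_add]
          push_cast
          ring
        · intro t _ ht
          rw [hε, if_pos h1, if_neg (Ne.symm ht)]
          ring
        · intro h
          exact absurd (Finset.mem_univ _) h
      · rw [if_neg h1]
        by_cases h2 : E ≤ τ ∧ τ < E + r
        · rw [if_pos h2, Finset.sum_eq_single (ty (i + (τ - E)))]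
          · rw [hε, hα, hβ, if_neg h1, if_neg h1, if_neg h1, if_pos h2, if_pos h2, if_pos h2,
              if_pos rfl, hA, pow_add]
            push_cast
            ring
          · intro t _ ht
            rw [hε, if_neg h1, if_pos h2, if_neg (Ne.symm ht)]
            ring
          · intro h
            exact absurd (Finset.mem_univ _) h
        · rw [if_neg h2]
          refine Finset.sum_eq_zero fun t _ => ?_
          rw [hε, if_neg h1, if_neg h2]
          ring
    have hF : ∑ t, (∑ τ : Fin (2 * E), ε t τ * 2 ^ α τ * 3 ^ β τ) * (y t : ℤ) =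
        2 ^ ζ (ty i) * ∑ a ∈ Finset.range r, (A (k - r + a) : ℤ) -
          3 ^ μ (ty i) * ∑ a ∈ Finset.range r, (A (i + a) : ℤ) := by
      have e1 : ∑ t, (∑ τ : Fin (2 * E), ε t τ * 2 ^ α τ * 3 ^ β τ) * (y t : ℤ) =
          ∑ τ : Fin (2 * E), ∑ t, ε t τ * 2 ^ α τ * 3 ^ β τ * (y t : ℤ) := by
        rw [Finset.sum_comm]
        exact Finset.sum_congr rfl fun t _ => Finset.sum_mul _ _ _
      rw [e1, Fin.sum_univ_eq_sum_range (fun τ => ∑ t, ε t τ * 2 ^ α τ * 3 ^ β τ * (y t : ℤ)),
        two_mul, Finset.sum_range_add]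
      have e2 : ∑ τ ∈ Finset.range E, ∑ t, ε t τ * 2 ^ α τ * 3 ^ β τ * (y t : ℤ) =
          2 ^ ζ (ty i) * ∑ a ∈ Finset.range r, (A (k - r + a) : ℤ) := by
        rw [Finset.mul_sum]
        symm
        rw [← Finset.sum_subset (Finset.range_subset_range.2 hrE)]
        · refine Finset.sum_congr rfl fun a ha => ?_
          rw [hc, if_pos (Finset.mem_range.1 ha)]
        · intro a ha hna
          rw [Finset.mem_range] at ha hna
          rw [hc, if_neg hna, if_neg (by omega)]
      have e3 : ∑ τ ∈ Finset.range E, ∑ t, ε t (E + τ) * 2 ^ α (E + τ) * 3 ^ β (E + τ) *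
          (y t : ℤ) = -(3 ^ μ (ty i) * ∑ a ∈ Finset.range r, (A (i + a) : ℤ)) := by
        rw [Finset.mul_sum, ← Finset.sum_neg_distrib]
        symm
        rw [← Finset.sum_subset (Finset.range_subset_range.2 hrE)]
        · refine Finset.sum_congr rfl fun a ha => ?_
          rw [Finset.mem_range] at ha
          rw [hc, if_neg (by omega), if_pos ⟨by omega, by omega⟩, Nat.add_sub_cancel_left]
        · intro a ha hna
          rw [Finset.mem_range] at ha hna
          rw [hc, if_neg (by omega), if_neg (by omega)]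
      rw [e2, e3]
      ring
    have hsum' := congrArg (fun z : ℕ => (z : ℤ)) hsum
    push_cast at hsum'
    have hS' : ((∑ l ∈ Finset.Ico i k, 3 ^ (M k - M (l + 1)) * 2 ^ Z l * y (ty l) : ℕ) : ℤ) =
        ∑ l ∈ Finset.Ico i k, (A l : ℤ) := by
      rw [hS]
      push_cast
      rfl
    rw [hF]
    push_cast at hS' ⊢
    rw [hS']
    linarith

end Pool.Agent.CLX
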