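import Pool.Agent.CLX.UFK
import Pool.Agent.CLX.COL

/-!
# Consequences for cycles and for unbounded trajectories
-/

set_option autoImplicit false

namespace Pool.Agent.CLX

open Filter Pool.Agent.SBT

namespace CYU_

/-- one step of the trajectory -/
theorem step (k x : ℤ) (hk : Odd k) (j : ℕ) :
    (2 : ℤ) ^ ze (par k x) (j + 1) * (col k)^[j + 1] x =
      3 ^ par k x j * (2 ^ ze (par k x) j * (col k)^[j] x) +
        (par k x j : ℤ) * k * 2 ^ ze (par k x) j :=
  (col_proof k x hk).1 j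

/-- the ratios `a j = 2^(ze j) x_j / 3^(on j)` change slowly -/
theorem ratio (k x : ℤ) (hk : Odd k) (η : ℝ) (hη : 0 ≤ η) (q : ℕ)
    (h : ∀ i < q, |(k : ℝ)| ≤ 3 * η * |((col k)^[i] x : ℝ)|) (j : ℕ) (hj : j ≤ q) :
    |(2 : ℝ) ^ ze (par k x) j * ((col k)^[j] x : ℤ) / 3 ^ on (par k x) j - x| ≤
      |(x : ℝ)| * ((1 + η) ^ j - 1) := by
  induction j with
  | zero => simp [ze, on]
  | succ j ih =>
    have h0 := ih (by omega)
    have h1 := h j (by omega)
    have h2 := step k x hk j
    have h2' : (2 : ℝ) ^ ze (par k x) (j + 1) * ((col k)^[j + 1] x : ℤ) =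
      3 ^ par k x j * (2 ^ ze (par k x) j * ((col k)^[j] x : ℤ)) +
        (par k x j : ℝ) * k * 2 ^ ze (par k x) j := by exact_mod_cast h2
    have hon : on (par k x) (j + 1) = on (par k x) j + par k x j := by
      unfold on
      rw [Finset.sum_range_succ]
    set a : ℝ := (2 : ℝ) ^ ze (par k x) j * ((col k)^[j] x : ℤ) / 3 ^ on (par k x) j with ha
    have h3 : |a| ≤ |(x : ℝ)| * (1 + η) ^ j := by
      have : |a| ≤ |a - x| + |(x : ℝ)| := by
        have := abs_add_le (a - x) x
        simpa using this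
      linarith
    have h4 : (2 : ℝ) ^ ze (par k x) (j + 1) * ((col k)^[j + 1] x : ℤ) /
        3 ^ on (par k x) (j + 1) =
        a + (par k x j : ℝ) * k * 2 ^ ze (par k x) j / 3 ^ on (par k x) (j + 1) := by
      rw [h2', hon, ha, pow_add]
      have e1 : (3 : ℝ) ^ on (par k x) j ≠ 0 := by positivity
      have e2 : (3 : ℝ) ^ par k x j ≠ 0 := by positivity
      field_simp
    have h5 : |(par k x j : ℝ) * k * 2 ^ ze (par k x) j / 3 ^ on (par k x) (j + 1)| ≤
        η * |a| := by
      rw [ha, hon, pow_add]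
      have hp : par k x j = 0 ∨ par k x j = 1 := by
        unfold par
        split_ifs <;> simp
      rcases hp with hp | hp
      · rw [hp]
        simp only [Nat.cast_zero, zero_mul, zero_div, abs_zero]
        positivity
      · rw [hp, pow_one]
        rw [abs_div, abs_div, abs_mul, abs_mul]
        have e1 : |(3 : ℝ) ^ on (par k x) j| = 3 ^ on (par k x) j := abs_of_pos (by positivity)
        have e2 : |(3 : ℝ) ^ on (par k x) j * 3| = 3 ^ on (par k x) j * 3 :=
          abs_of_pos (by positivity)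
        have e3 : |(2 : ℝ) ^ ze (par k x) j| = 2 ^ ze (par k x) j := abs_of_pos (by positivity)
        rw [abs_mul (2 ^ ze (par k x) j : ℝ), e1, e2, e3, Nat.cast_one, abs_one, one_mul]
        rw [← mul_div_assoc, div_le_div_iff₀ (by positivity) (by positivity)]
        have e4 : (0 : ℝ) < 3 ^ on (par k x) j := by positivity
        have e5 : (0 : ℝ) < 2 ^ ze (par k x) j := by positivity
        calc |(k : ℝ)| * 2 ^ ze (par k x) j * 3 ^ on (par k x) j
            ≤ (3 * η * |((col k)^[j] x : ℝ)|) * 2 ^ ze (par k x) j * 3 ^ on (par k x) j := by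
              gcongr
          _ = _ := by ring
    rw [h4]
    calc |a + (par k x j : ℝ) * k * 2 ^ ze (par k x) j / 3 ^ on (par k x) (j + 1) - x|
        ≤ |a - x| + |(par k x j : ℝ) * k * 2 ^ ze (par k x) j / 3 ^ on (par k x) (j + 1)| := by
          rw [show a + (par k x j : ℝ) * k * 2 ^ ze (par k x) j / 3 ^ on (par k x) (j + 1) - x =
            (a - x) + (par k x j : ℝ) * k * 2 ^ ze (par k x) j / 3 ^ on (par k x) (j + 1) by ring]
          exact abs_add_le _ _
      _ ≤ |(x : ℝ)| * ((1 + η) ^ j - 1) + η * (|(x : ℝ)| * (1 + η) ^ j) := by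
          refine add_le_add h0 (h5.trans ?_)
          gcongr
      _ = |(x : ℝ)| * ((1 + η) ^ (j + 1) - 1) := by ring

/-- a long cycle has an element that is not exponentially large -/
theorem minb (hRDT : Stmt_RDT) (k : ℤ) (hk : Odd k) (δ : ℝ) (hδ : 0 < δ) :
    ∃ q₀ : ℕ, ∀ q ≥ q₀, ∀ x : ℤ, (col k)^[q] x = x →
      ∃ i < q, |((col k)^[i] x : ℝ)| ≤ Real.exp (δ * q) := by
  by_contra hcon
  push Not at hcon
  choose q hq x hx hbig using hcon
  obtain ⟨U, hU⟩ : ∃ U : Ultrafilter ℕ, (U : Filter ℕ) ≤ atTop :=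
    ⟨hyperfilter ℕ, Nat.hyperfilter_le_atTop⟩
  have hqT : Tendsto q atTop atTop := tendsto_atTop_mono hq tendsto_id
  have hqR : Tendsto (fun n => (q n : ℝ)) atTop atTop := tendsto_natCast_atTop_atTop.comp hqT
  have hsum : ∀ (u : ℕ → ℕ) (j : ℕ), (∀ i, u i < 2) → ze u j + on u j = j := by
    intro u j hu
    induction j with
    | zero => simp [ze, on]
    | succ j ih =>
      have e1 : ze u (j + 1) = ze u j + (1 - u j) := by
        unfold ze
        rw [Finset.sum_range_succ]
      have e2 : on u (j + 1) = on u j + u j := by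
        unfold on
        rw [Finset.sum_range_succ]
      have := hu j
      omega
  have hlt : ∀ n i, par k (x n) i < 2 := fun n i => (col_proof k (x n) hk).2.1 i
  have hR := hRDT U (fun n => (q n : ℝ)) (fun n => ze (par k (x n)) (q n))
    (fun n => on (par k (x n)) (q n)) 1 (δ / 2) (hqR.mono_left hU) (by positivity) (by
      have h1 : ∀ᶠ n in (U : Filter ℕ), 1 ≤ q n := hU (hqT.eventually_ge_atTop 1)
      filter_upwards [h1] with n hn
      have := hsum (par k (x n)) (q n) (hlt n)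
      refine ⟨by omega, ?_, ?_⟩
      · rw [one_mul]
        exact_mod_cast (by omega : ze (par k (x n)) (q n) ≤ q n)
      · rw [one_mul]
        exact_mod_cast (by omega : on (par k (x n)) (q n) ≤ q n))
  have hlim : Tendsto (fun n => (4 * |(k : ℝ)| / (3 * δ)) * ((δ / 2 * q n) ^ 1 *
      Real.exp (-(δ / 2 * q n)))) atTop (nhds ((4 * |(k : ℝ)| / (3 * δ)) * 0)) := by
    refine Tendsto.const_mul _ ?_
    exact (Real.tendsto_pow_mul_exp_neg_atTop_nhds_zero 1).comp
      (hqR.const_mul_atTop (by positivity))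
  rw [mul_zero] at hlim
  have hsmall : ∀ᶠ n in (U : Filter ℕ), (4 * |(k : ℝ)| / (3 * δ)) * ((δ / 2 * q n) ^ 1 *
      Real.exp (-(δ / 2 * q n))) < 1 :=
    hU (hlim.eventually (gt_mem_nhds (show (0 : ℝ) < 1 by norm_num)))
  have hge : ∀ᶠ n in (U : Filter ℕ), 1 ≤ q n := hU (hqT.eventually_ge_atTop 1)
  obtain ⟨n, h1, h2, h3⟩ := (hR.and (hsmall.and hge)).exists
  -- the contradiction
  have hxn := hbig n
  set Q : ℝ := (q n : ℝ) with hQ
  have hQ1 : 1 ≤ Q := by rw [hQ]; exact_mod_cast h3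
  set η : ℝ := |(k : ℝ)| / 3 * Real.exp (-(δ * Q)) with hη
  have hη0 : 0 ≤ η := by positivity
  have hr := ratio k (x n) hk η hη0 (q n) (fun i hi => by
    have := (hxn i hi).le
    have e1 : |(k : ℝ)| = 3 * η * Real.exp (δ * Q) := by
      rw [hη, show 3 * (|(k : ℝ)| / 3 * Real.exp (-(δ * Q))) * Real.exp (δ * Q) =
        |(k : ℝ)| * (Real.exp (-(δ * Q)) * Real.exp (δ * Q)) by ring, ← Real.exp_add]
      simp
    calc |(k : ℝ)| = 3 * η * Real.exp (δ * Q) := e1
      _ ≤ _ := by gcongr) (q n) le_rfl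
  rw [hx n] at hr
  have hx0 : (0 : ℝ) < |(x n : ℝ)| := by
    have := hxn 0 (by omega)
    rw [Function.iterate_zero, id] at this
    exact lt_trans (Real.exp_pos _) this
  set A : ℝ := (2 : ℝ) ^ ze (par k (x n)) (q n) with hA
  set D : ℝ := (3 : ℝ) ^ on (par k (x n)) (q n) with hD
  have hD0 : 0 < D := by positivity
  have hr2 : |A / D - 1| ≤ (1 + η) ^ (q n) - 1 := by
    have e1 : A * (x n : ℝ) / D - x n = (x n : ℝ) * (A / D - 1) := by ring
    rw [e1, abs_mul] at hr
    exact le_of_mul_le_mul_left hr hx0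
  have hr3 : |A - D| ≤ D * ((1 + η) ^ (q n) - 1) := by
    have e1 : A - D = D * (A / D - 1) := by
      field_simp
    rw [e1, abs_mul, abs_of_pos hD0]
    gcongr
  have hηQ : 4 * η * Q * Real.exp (δ / 2 * Q) < 1 * 2 := by
    have e1 : 4 * |(k : ℝ)| / (3 * δ) * ((δ / 2 * Q) ^ 1 * Real.exp (-(δ / 2 * Q))) =
      2 * η * Q * Real.exp (δ / 2 * Q) := by
      rw [hη]
      have e2 : Real.exp (-(δ / 2 * Q)) = Real.exp (-(δ * Q)) * Real.exp (δ / 2 * Q) := by
        rw [← Real.exp_add]
        ring_nf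
      rw [e2]
      field_simp
      ring
    rw [e1] at h2
    linarith
  have hex1 : 1 ≤ Real.exp (δ / 2 * Q) := Real.one_le_exp (by positivity)
  have hηQ2 : η * Q ≤ 1 := by
    have : η * Q * 1 ≤ η * Q * Real.exp (δ / 2 * Q) := by gcongr
    nlinarith
  have hpow : (1 + η) ^ (q n) - 1 ≤ 2 * (η * Q) := by
    have e1 : (1 + η) ^ (q n) ≤ Real.exp (η * Q) := by
      have : 1 + η ≤ Real.exp η := by
        have := Real.add_one_le_exp η
        linarith
      calc (1 + η) ^ (q n) ≤ (Real.exp η) ^ (q n) := by gcongr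
        _ = Real.exp (η * Q) := by rw [← Real.exp_nat_mul, mul_comm]
    have e2 : |Real.exp (η * Q) - 1| ≤ 2 * |η * Q| := by
      have := Real.abs_exp_sub_one_le (x := η * Q) (by
        rw [abs_of_nonneg (by positivity)]
        exact hηQ2)
      exact this
    rw [abs_of_nonneg (a := η * Q) (by positivity)] at e2
    have := le_abs_self (Real.exp (η * Q) - 1)
    linarith
  have hfin : D ≤ Real.exp (δ / 2 * Q) * (D * (2 * (η * Q))) := by
    calc D ≤ max A D := le_max_right _ _
      _ ≤ Real.exp (δ / 2 * Q) * |A - D| := h1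
      _ ≤ Real.exp (δ / 2 * Q) * (D * (2 * (η * Q))) := by
        have := hr3.trans (mul_le_mul_of_nonneg_left hpow hD0.le)
        gcongr
  have e3 : Real.exp (δ / 2 * Q) * (D * (2 * (η * Q))) =
      D * (4 * η * Q * Real.exp (δ / 2 * Q) / 2) := by ring
  rw [e3] at hfin
  have e4 : D * (4 * η * Q * Real.exp (δ / 2 * Q) / 2) < D * 1 := by
    apply mul_lt_mul_of_pos_left _ hD0
    linarith
  linarith

theorem bv_le (u : ℕ → ℕ) (hu : ∀ i, u i < 2) (j : ℕ) : bv u j ≤ 4 ^ j ∧ ze u j ≤ j := by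
  induction j with
  | zero => simp [bv, ze]
  | succ j ih =>
    obtain ⟨h1, h2⟩ := ih
    have e1 : ze u (j + 1) = ze u j + (1 - u j) := by
      unfold ze
      rw [Finset.sum_range_succ]
    have h3 := hu j
    refine ⟨?_, by omega⟩
    rw [bv]
    have h4 : 3 ^ u j ≤ 3 ^ 1 := Nat.pow_le_pow_right (by norm_num) (by omega)
    have h5 : 2 ^ ze u j ≤ 2 ^ j := Nat.pow_le_pow_right (by norm_num) h2
    have h6 : 2 ^ j ≤ 4 ^ j := Nat.pow_le_pow_left (by norm_num) j
    have h7 : u j * 2 ^ ze u j ≤ 1 * 4 ^ j := Nat.mul_le_mul (by omega) (h5.trans h6)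
    have h8 : 3 ^ u j * bv u j ≤ 3 * 4 ^ j := Nat.mul_le_mul (by simpa using h4) h1
    rw [pow_succ]
    omega

/-- there are finitely many cycles of a given length -/
theorem fin_len (k : ℤ) (hk : Odd k) (q : ℕ) (hq : 1 ≤ q) :
    {x : ℤ | (col k)^[q] x = x}.Finite := by
  refine (Set.finite_Icc (-(|k| * 4 ^ q)) (|k| * 4 ^ q)).subset ?_
  intro x hx
  rw [Set.mem_setOf_eq] at hx
  have h1 := UFN_.val_eq k x (par k x) (col_proof k x hk).1 q
  rw [hx] at h1
  have hu := (col_proof k x hk).2.1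
  obtain ⟨h2, h3⟩ := bv_le (par k x) hu q
  have hne : (2 : ℤ) ^ ze (par k x) q - 3 ^ on (par k x) q ≠ 0 := by
    intro h
    have h4 : (2 : ℤ) ^ ze (par k x) q = 3 ^ on (par k x) q := by linarith
    have h5 : ze (par k x) q = 0 := by
      by_contra h6
      have : Even ((2 : ℤ) ^ ze (par k x) q) := (Int.even_pow.2 ⟨by decide, h6⟩)
      rw [h4] at this
      have h7 : Odd ((3 : ℤ) ^ on (par k x) q) := Odd.pow (by decide)
      exact (Int.not_even_iff_odd.2 h7) this
    rw [h5, pow_zero] at h4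
    have h8 : on (par k x) q = 0 := by
      by_contra h6
      have : (3 : ℤ) ^ 1 ≤ 3 ^ on (par k x) q := pow_le_pow_right₀ (by norm_num) (by omega)
      linarith
    have h9 : ∀ j, ze (par k x) j + on (par k x) j = j := by
      intro j
      induction j with
      | zero => simp [ze, on]
      | succ j ih =>
        have e1 : ze (par k x) (j + 1) = ze (par k x) j + (1 - par k x j) := by
          unfold ze
          rw [Finset.sum_range_succ]
        have e2 : on (par k x) (j + 1) = on (par k x) j + par k x j := by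
          unfold on
          rw [Finset.sum_range_succ]
        have := hu j
        omega
    have := h9 q
    omega
  have h4 : ((2 : ℤ) ^ ze (par k x) q - 3 ^ on (par k x) q) * x = k * bv (par k x) q := by
    linarith
  have h5 : |x| ≤ |k| * 4 ^ q := by
    calc |x| = 1 * |x| := by ring
      _ ≤ |(2 : ℤ) ^ ze (par k x) q - 3 ^ on (par k x) q| * |x| := by
        gcongr
        exact Int.one_le_abs hne
      _ = |k * bv (par k x) q| := by rw [← abs_mul, h4]
      _ = |k| * bv (par k x) q := by rw [abs_mul, Nat.abs_cast]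
      _ ≤ |k| * 4 ^ q := by
        gcongr
        exact_mod_cast h2
  exact Set.mem_Icc.2 (abs_le.1 h5)

/-- the number of words of length `n` in the sequence `u` -/
theorem nbl_le_range (u : ℕ → ℕ) (hu : ∀ i, u i < 2) (n X : ℕ) :
    nbl u n X ≤ (Set.range (blk u n)).ncard := by
  unfold nbl
  refine Set.ncard_le_ncard (Set.image_subset_range _ _) ?_
  have h : {f : Fin n → ℕ | ∀ i, f i ∈ Set.Iio 2}.Finite := Set.Finite.pi' fun _ =>
    Set.finite_Iio 2
  refine h.subset ?_
  rintro _ ⟨i, rfl⟩ t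
  exact hu _

/-- a repeated value makes the set of values finite -/
theorem distinct_of_infinite (k x : ℤ) (h : (Set.range fun i => (col k)^[i] x).Infinite)
    (i j : ℕ) (hij : i < j) : (col k)^[i] x ≠ (col k)^[j] x := by
  intro he
  refine h (((Set.finite_Iio j).image fun i => (col k)^[i] x).subset ?_)
  rintro _ ⟨m, rfl⟩
  induction m using Nat.strong_induction_on with
  | _ m ih =>
    by_cases hm : m < j
    · exact ⟨m, hm, rfl⟩
    · have h1 : (col k)^[m] x = (col k)^[m - (j - i)] x := by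
        have e1 : m = (m - j) + j := by omega
        have e2 : m - (j - i) = (m - j) + i := by omega
        rw [e2, Function.iterate_add_apply, he, ← Function.iterate_add_apply, ← e1]
      show (col k)^[m] x ∈ _
      rw [h1]
      exact ih _ (by omega)

end CYU_

open CYU_

/-- the number of words of the parities of an infinite trajectory -/
theorem unb_proof (hUFK : Stmt_UFK) (k x : ℤ) (hk : Odd k)
    (h : (Set.range fun i => (col k)^[i] x).Infinite) :
    Tendsto (fun n : ℕ => ((Set.range (blk (par k x) n)).ncard : ℝ) / n) atTop atTop := by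
  rw [tendsto_atTop]
  intro R
  obtain ⟨Λ, n₀, hn₀⟩ := hUFK ⌈R⌉₊ 1
  have hb : ∀ a : ℤ, ∀ᶠ n : ℕ in atTop, a ≤ 2 ^ n := by
    intro a
    have h1 : Tendsto (fun n : ℕ => (2 : ℤ) ^ n) atTop atTop :=
      tendsto_pow_atTop_atTop_of_one_lt (by norm_num)
    exact h1.eventually_ge_atTop a
  filter_upwards [eventually_ge_atTop n₀, hb (|k| ^ 16), hb |x|, eventually_ge_atTop 1]
    with n h1 h2 h3 h4
  have h5 := hn₀ n h1 k x hk h2 (by rwa [one_mul])
    (fun i j hij _ => distinct_of_infinite k x h i j hij)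
  have h6 := nbl_le_range (par k x) (col_proof k x hk).2.1 n (Λ * n)
  have h7 : (⌈R⌉₊ * n : ℕ) ≤ (Set.range (blk (par k x) n)).ncard := h5.le.trans h6
  have h8 : (0 : ℝ) < n := by exact_mod_cast h4
  rw [le_div_iff₀ h8]
  calc R * n ≤ ⌈R⌉₊ * n := by
        gcongr
        exact Nat.le_ceil R
    _ ≤ _ := by exact_mod_cast h7

/-- the number of words of the parities of a cycle -/
theorem cyc_proof (hUFK : Stmt_UFK) (hRDT : Stmt_RDT) (c : ℕ) :
    ∃ ε : ℝ, 0 < ε ∧ ∀ k : ℤ, Odd k → ∀ δ : ℝ, 0 < δ →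
      {x : ℤ | ∃ q : ℕ, 0 < q ∧ (col k)^[q] x = x ∧ (∀ i, 0 < i → i < q → (col k)^[i] x ≠ x) ∧
        ∃ n : ℕ, δ * q ≤ n ∧ n ≤ ε * q ∧
          (Set.range (blk (par k x) n)).ncard ≤ c * n}.Finite := by
  obtain ⟨Λ, n₀, hn₀⟩ := hUFK c 1
  refine ⟨1 / (Λ + 1), by positivity, fun k hk δ hδ => ?_⟩
  have hl2 : 0 < Real.log 2 := Real.log_pos (by norm_num)
  obtain ⟨q₀, hq₀⟩ := minb hRDT k hk (δ * Real.log 2) (by positivity)
  obtain ⟨n₁, hn₁⟩ : ∃ n₁ : ℕ, ∀ n ≥ n₁, |k| ^ 16 ≤ (2 : ℤ) ^ n := by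
    have h1 : Tendsto (fun n : ℕ => (2 : ℤ) ^ n) atTop atTop :=
      tendsto_pow_atTop_atTop_of_one_lt (by norm_num)
    exact eventually_atTop.1 (h1.eventually_ge_atTop (|k| ^ 16))
  obtain ⟨q₁, hq₁⟩ : ∃ q₁ : ℕ, ∀ q ≥ q₁, ((n₀ + n₁ : ℕ) : ℝ) ≤ δ * q := by
    have h1 : Tendsto (fun q : ℕ => δ * (q : ℝ)) atTop atTop :=
      tendsto_natCast_atTop_atTop.const_mul_atTop hδ
    exact eventually_atTop.1 (h1.eventually_ge_atTop _)
  have hfin : (⋃ q ∈ Finset.Icc 1 (q₀ + q₁), {x : ℤ | (col k)^[q] x = x}).Finite := by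
    refine Set.Finite.biUnion (Finset.finite_toSet _) ?_
    intro q hq
    exact fin_len k hk q (Finset.mem_Icc.1 hq).1
  refine hfin.subset ?_
  rintro x ⟨q, hq, hx, hmin, n, hn1, hn2, hn3⟩
  by_contra hnot
  have hqb : q₀ + q₁ < q := by
    by_contra hle
    refine hnot (Set.mem_biUnion (Finset.mem_coe.2 (Finset.mem_Icc.2 ⟨hq, not_lt.1 hle⟩)) hx)
  obtain ⟨i, hi, hy⟩ := hq₀ q (by omega) x hx
  have hnn : n₀ + n₁ ≤ n := by
    have := (hq₁ q (by omega)).trans hn1
    exact_mod_cast this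
  have hyn : |(col k)^[i] x| ≤ 2 ^ (1 * n) := by
    have h1 : |((col k)^[i] x : ℝ)| ≤ 2 ^ n := by
      refine hy.trans ?_
      have h2 : (2 : ℝ) ^ n = Real.exp (Real.log 2 * n) := by
        rw [Real.exp_mul, Real.exp_log (by norm_num), Real.rpow_natCast]
      rw [h2]
      apply Real.exp_le_exp.2
      have := mul_le_mul_of_nonneg_right hn1 hl2.le
      linarith
    rw [one_mul]
    exact_mod_cast h1
  have hlam : Λ * n < q := by
    have h1 : ((Λ : ℝ) + 1) * n ≤ q := by
      rw [div_mul_eq_mul_div, one_mul] at hn2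
      have := (le_div_iff₀ (by positivity)).1 hn2
      linarith
    have h2 : (Λ + 1) * n ≤ q := by exact_mod_cast h1
    rcases Nat.eq_zero_or_pos n with h3 | h3
    · rw [h3]
      simpa using hq
    · have h4 : (Λ + 1) * n = Λ * n + n := by ring
      omega
  -- periodicity
  have hper : ∀ m : ℕ, (col k)^[q * m] x = x := by
    intro m
    rw [Function.iterate_mul]
    exact Function.iterate_fixed hx m
  have hdist : ∀ a b, a < b → b ≤ Λ * n →
      (col k)^[a] ((col k)^[i] x) ≠ (col k)^[b] ((col k)^[i] x) := by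
    intro a b hab hb he
    rw [← Function.iterate_add_apply, ← Function.iterate_add_apply] at he
    have h1 := congrArg ((col k)^[q * (a + i) - (a + i)]) he
    rw [← Function.iterate_add_apply, ← Function.iterate_add_apply] at h1
    have h2 : a + i ≤ q * (a + i) := Nat.le_mul_of_pos_left _ hq
    rw [Nat.sub_add_cancel h2, hper] at h1
    have h3 : q * (a + i) - (a + i) + (b + i) = (b - a) + q * (a + i) := by omega
    rw [h3, Function.iterate_add_apply, hper] at h1
    exact hmin (b - a) (by omega) (by omega) h1.symm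
  have h5 := hn₀ n (by omega) k ((col k)^[i] x) hk (hn₁ n (by omega)) hyn hdist
  have h6 : nbl (par k ((col k)^[i] x)) n (Λ * n) ≤ nbl (par k x) n (i + Λ * n) :=
    UFN_.nbl_shift (par k x) _ n i _ _ (fun t => UFN_.par_shift k x i t) le_rfl
  have h7 := nbl_le_range (par k x) (col_proof k x hk).2.1 n (i + Λ * n)
  omega

end Pool.Agent.CLX
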