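import Pool.Agent.SBT.StmtsG

/-!
# Collatz trajectories and block complexity (MP_d02c56_nt): definitions
-/

set_option autoImplicit false

namespace Pool.Agent.CLX

open Filter Pool.Agent.SBT

/-- the map `x ↦ x/2` for even `x`, `x ↦ 3x + k` for odd `x` -/
def col (k x : ℤ) : ℤ := if Even x then x / 2 else 3 * x + k

/-- the parity (0 or 1) of the `i`-th term of the trajectory of `x` -/
def par (k x : ℤ) (i : ℕ) : ℕ := if Even ((col k)^[i] x) then 0 else 1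

/-- the number of zeros among `u 0, ..., u (j - 1)` -/
def ze (u : ℕ → ℕ) (j : ℕ) : ℕ := ∑ i ∈ Finset.range j, (1 - u i)

/-- the number of ones among `u 0, ..., u (j - 1)` -/
def on (u : ℕ → ℕ) (j : ℕ) : ℕ := ∑ i ∈ Finset.range j, u i

/-- the values: `P i = 2^(zeros) * (i-th term)` for a trajectory with parities `u` -/
def Val (u : ℕ → ℕ) (k : ℤ) (P : ℕ → ℤ) : Prop :=
  ∀ i, P (i + 1) = 3 ^ u i * P i + (u i : ℤ) * k * 2 ^ ze u i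

/-- `F` is a sum of `N` terms `ε 2^α 3^β` with `|ε| ≤ 1`, such that the exponents `(α, β)` differ
by at most `B` from a point `(Z j, M L - M j)`, `j ≤ L`, of the path -/
def Rpc (Z M : ℕ → ℕ) (N B L : ℕ) (F : ℤ) : Prop :=
  ∃ (ε : Fin N → ℤ) (α β j : Fin N → ℕ), (∀ t, |ε t| ≤ 1) ∧
    (∀ t, j t ≤ L ∧ |(α t : ℤ) - Z (j t)| ≤ B ∧ |(β t : ℤ) - ((M L : ℤ) - M (j t))| ≤ B) ∧
    F = ∑ t, ε t * 2 ^ α t * 3 ^ β t

/-- `F` is a sum of `N` terms `ε 2^α 3^β` with `|ε| ≤ 1`, `α ≤ B`, `β ≤ B` -/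
def Rps (N B : ℕ) (F : ℤ) : Prop :=
  ∃ (ε : Fin N → ℤ) (α β : Fin N → ℕ), (∀ t, |ε t| ≤ 1) ∧ (∀ t, α t ≤ B ∧ β t ≤ B) ∧
    F = ∑ t, ε t * 2 ^ α t * 3 ^ β t

/-- the primes 2 and 3 -/
def S23 : Finset ℕ := {2, 3}

/-- the sequences `2^(Z j) 3^(M L - M j)`, `j = j(n) ≤ L(n)` -/
def Pth (Z M : ℕ → ℕ → ℕ) (L : ℕ → ℕ) : Set (ℕ → ℚ) :=
  {w | ∃ j : ℕ → ℕ, (∀ n, j n ≤ L n) ∧
    ∀ n, w n = 2 ^ Z n (j n) * 3 ^ (M n (L n) - M n (j n))}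

end Pool.Agent.CLX
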