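import Pool.Agent.CLX.Defs

/-!
# Collatz trajectories and block complexity, second part: definitions
-/

set_option autoImplicit false

namespace Pool.Agent.CLX

open Filter Pool.Agent.SBT

/-- the value of the first `j` letters: the `j`-th term of the trajectory of `x` with parities `u`
is `(3^(on u j) x + k bv u j) / 2^(ze u j)` -/
def bv (u : ℕ → ℕ) : ℕ → ℕ
  | 0 => 0
  | j + 1 => 3 ^ u j * bv u j + u j * 2 ^ ze u j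

/-- as `Rpc`; moreover `2^α 3^β v ≤ W` for all terms with nonzero coefficient -/
def Rpw (Z M : ℕ → ℕ) (N B L W v : ℕ) (F : ℤ) : Prop :=
  ∃ (ε : Fin N → ℤ) (α β j : Fin N → ℕ), (∀ t, |ε t| ≤ 1) ∧
    (∀ t, j t ≤ L ∧ |(α t : ℤ) - Z (j t)| ≤ B ∧ |(β t : ℤ) - ((M L : ℤ) - M (j t))| ≤ B) ∧
    (∀ t, ε t ≠ 0 → 2 ^ α t * 3 ^ β t * v ≤ W) ∧
    F = ∑ t, ε t * 2 ^ α t * 3 ^ β t

/-- the product of the maxima of `2^ζ` and `3^μ` -/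
def mx {s : ℕ} (ζ μ : Fin s → ℕ) : ℕ := ∏ i, max (2 ^ ζ i) (3 ^ μ i)

/-- independent over all unit sums -/
def IndU (U : Ultrafilter ℕ) (S : Finset ℕ) (T : ℕ → ℝ) {d : ℕ} (Z : Fin d → ℕ → ℤ) : Prop :=
  ∀ H : Fin d → ℕ → ℚ, (∀ i, Lc U (Un U S T) (H i)) →
    (∀ᶠ n in (U : Filter ℕ), ∑ i, H i n * (Z i n : ℚ) = 0) →
    ∀ i, ∀ᶠ n in (U : Filter ℕ), H i n = 0

/-- the combinations `e i = ∑ a i j Z j` -/
def lc {d : ℕ} (a : Fin d → Fin d → ℕ → ℚ) (Z : Fin d → ℕ → ℤ) (i : Fin d) (n : ℕ) : ℚ :=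
  ∑ j, a i j n * (Z j n : ℚ)

/-- `ε`-orthogonality of the `e i` at infinity over the unit sums -/
def Orth (U : Ultrafilter ℕ) (S : Finset ℕ) (T : ℕ → ℝ) {d : ℕ} (e : Fin d → ℕ → ℚ) (ε : ℝ) :
    Prop :=
  ∀ b : Fin d → ℕ → ℚ, (∀ i, Lc U (Un U S T) (b i)) → ∀ᶠ n in (U : Filter ℕ), ∀ i,
    av 0 (b i n * e i n) ≤ Real.exp (ε * T n) * av 0 (∑ i, b i n * e i n)

/-- the limit object: words `u n` at the scale `T n`, whose trajectories stay large -/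
structure Lim (U : Ultrafilter ℕ) (T : ℕ → ℕ) (s B κ : ℕ) (N : ℕ → ℕ) (u : ℕ → ℕ → ℕ)
    (k x : ℕ → ℤ) (ζ μ : Fin s → ℕ → ℕ) (y : Fin s → ℕ → ℕ) : Prop where
  lim : Tendsto T (U : Filter ℕ) atTop
  two : ∀ n i, u n i < 2
  gap : ∀ n i, u n i = 1 → u n (i + 1) = 0
  kb : ∀ᶠ n in (U : Filter ℕ), |k n| ^ 16 ≤ 2 ^ T n
  xb : ∀ᶠ n in (U : Filter ℕ), |x n| ≤ 2 ^ (κ * T n)
  div : ∀ᶠ n in (U : Filter ℕ), ∀ j,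
    (2 : ℤ) ^ ze (u n) j ∣ 3 ^ on (u n) j * x n + k n * bv (u n) j
  big : ∀ G : ℕ, ∀ᶠ n in (U : Filter ℕ), ∀ j ≤ G * T n,
    2 ^ (ze (u n) j + T n / 8) ≤ |3 ^ on (u n) j * x n + k n * bv (u n) j|
  per : ∀ᶠ n in (U : Filter ℕ), ∀ i, 1 ≤ ζ i n + μ i n ∧ ζ i n ≤ B * T n ∧ μ i n ≤ B * T n
  yb : ∀ᶠ n in (U : Filter ℕ), ∀ i, y i n ≤ 4 ^ (B * T n)
  desc : ∀ G : ℕ, ∀ᶠ n in (U : Filter ℕ), ∃ L, G * T n ≤ L ∧ L ≤ (G + B) * T n ∧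
    ∃ F : Fin s → ℤ, (∀ i, Rpw (ze (u n)) (on (u n)) (N G) (B * T n) L
      (mx (fun i => ζ i n) (fun i => μ i n) * bv (u n) L) (y i n) (F i)) ∧
      (∏ i, ((2 : ℤ) ^ ζ i n - 3 ^ μ i n)) * bv (u n) L = ∑ i, F i * y i n

end Pool.Agent.CLX
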