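import Pool.Agent.CLX.Main2
import Pool.Agent.CLX.CYU

/-!
# The three parts of the theorem
-/

set_option autoImplicit false

namespace Pool.Agent.CLX

open Filter Pool.Agent.SBT

theorem UNB_ (k x : ℤ) (hk : Odd k) (h : (Set.range fun i => (col k)^[i] x).Infinite) :
    Tendsto (fun n : ℕ => ((Set.range (blk (par k x) n)).ncard : ℝ) / n) atTop atTop :=
  unb_proof UFK_ k x hk h

theorem CYC_ (c : ℕ) :
    ∃ ε : ℝ, 0 < ε ∧ ∀ k : ℤ, Odd k → ∀ δ : ℝ, 0 < δ →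
      {x : ℤ | ∃ q : ℕ, 0 < q ∧ (col k)^[q] x = x ∧ (∀ i, 0 < i → i < q → (col k)^[i] x ≠ x) ∧
        ∃ n : ℕ, δ * q ≤ n ∧ n ≤ ε * q ∧
          (Set.range (blk (par k x) n)).ncard ≤ c * n}.Finite :=
  cyc_proof UFK_ RDT_ c

end Pool.Agent.CLX
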