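import Pool.Agent.CLX.Stmts
import Pool.Agent.SBT.ING

/-!
# INH: the first description, for any set of sequences (copy of ING)
-/

set_option autoImplicit false

namespace Pool.Agent.CLX

open Filter MvPolynomial Pool.Agent.SBT Pool.Agent.SBT.ING_

theorem inh_proof : Stmt_INH := by
  intro U S T r s g Γ y R f₀ f B hGd hB h1 h2 hne hEq
  obtain ⟨N₀, c₀, u₀, hu₀, hf₀⟩ := h1
  choose N c u hu hf using h2
  have hG₀ := fun t => (hu₀ t).2
  have hG := fun i t => (hu i t).2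
  choose κ₀ e₀ hκ₀ he₀ using hG₀
  choose κ e hκ he using hG
  have hPS := hGd.prime
  set ρ : Fin r →₀ ℕ := Finsupp.equivFunOnFinite.symm
    (fun i => ∑ t, (e₀ t i).natAbs + ∑ j, ∑ t, (e j t i).natAbs) with hρ
  have hρi : ∀ i, ρ i = ∑ t, (e₀ t i).natAbs + ∑ j, ∑ t, (e j t i).natAbs := fun i => rfl
  have hρ₀ : ∀ t i, 0 ≤ e₀ t i + ρ i := by
    intro t i
    have a1 : (e₀ t i).natAbs ≤ ∑ t, (e₀ t i).natAbs :=
      Finset.single_le_sum (f := fun t => (e₀ t i).natAbs) (fun _ _ => Nat.zero_le _)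
        (Finset.mem_univ t)
    have a2 := hρi i
    omega
  have hρ₁ : ∀ j t i, 0 ≤ e j t i + ρ i := by
    intro j t i
    have a1 : (e j t i).natAbs ≤ ∑ t, (e j t i).natAbs :=
      Finset.single_le_sum (f := fun t => (e j t i).natAbs) (fun _ _ => Nat.zero_le _)
        (Finset.mem_univ t)
    have a3 : ∑ t, (e j t i).natAbs ≤ ∑ j, ∑ t, (e j t i).natAbs :=
      Finset.single_le_sum (f := fun j => ∑ t, (e j t i).natAbs) (fun _ _ => Nat.zero_le _)
        (Finset.mem_univ j)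
    have a2 := hρi i
    omega
  have hν : ∀ n, mon g ρ n ≠ 0 := by
    intro n
    unfold mon
    exact Finset.prod_ne_zero_iff.2 fun i _ => pow_ne_zero _ (hGd.unit i n).ne_zero
  have hg0 : ∀ n i, g i n ≠ 0 := fun n i => (hGd.unit i n).ne_zero
  have hval₀ : ∀ᶠ n in (U : Filter ℕ),
      ev g n (∑ t, monomial (sh (e₀ t) ρ) ((c₀ t : ℚ) * κ₀ t)) = mon g ρ n * f₀ n := by
    have hall : ∀ᶠ n in (U : Filter ℕ), ∀ t, u₀ t n = κ₀ t * ∏ i, g i n ^ e₀ t i :=
      eventually_all.2 he₀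
    filter_upwards [hall, hf₀] with n hn hn'
    rw [ev_sum, hn', Finset.mul_sum]
    refine Finset.sum_congr rfl fun t _ => ?_
    rw [mon_sh g n (hg0 n) _ _ (hρ₀ t), hn t]
    ring
  have hval : ∀ᶠ n in (U : Filter ℕ), ∀ j,
      ev g n (∑ t, monomial (sh (e j t) ρ) ((c j t : ℚ) * κ j t)) = mon g ρ n * f j n := by
    have hall : ∀ᶠ n in (U : Filter ℕ), ∀ j t,
        u j t n = κ j t * ∏ i, g i n ^ e j t i :=
      eventually_all.2 fun j => eventually_all.2 (he j)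
    filter_upwards [hall, eventually_all.2 hf] with n hn hn' j
    rw [ev_sum, hn' j, Finset.mul_sum]
    refine Finset.sum_congr rfl fun t _ => ?_
    rw [mon_sh g n (hg0 n) _ _ (hρ₁ j t), hn j t]
    ring
  refine ⟨∑ t, monomial (sh (e₀ t) ρ) ((c₀ t : ℚ) * κ₀ t),
    fun j => ∑ t, monomial (sh (e j t) ρ) ((c j t : ℚ) * κ j t), fun n => mon g ρ n,
    ?_, ?_, ?_, ?_, ?_⟩
  · intro h0
    obtain ⟨n, hn1, hn2⟩ := (hval₀.and hne).exists
    rw [h0] at hn1
    unfold ev at hn1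
    rw [map_zero] at hn1
    rcases mul_eq_zero.1 hn1.symm with h | h
    · exact hν n h
    · exact hn2 h
  · intro n
    exact isU_prod hPS _ _ fun i _ => (hGd.unit i n).pow hPS _
  · filter_upwards [hval₀, hval, hEq] with n hn1 hn2 hn3
    rw [hn1]
    have e1 : ∑ i, ev g n (∑ t, monomial (sh (e i t) ρ) ((c i t : ℚ) * κ i t)) * (y i n : ℚ) =
        mon g ρ n * ∑ i, f i n * (y i n : ℚ) := by
      rw [Finset.mul_sum]
      refine Finset.sum_congr rfl fun i _ => ?_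
      rw [hn2 i]
      ring
    rw [e1, mul_assoc, hn3]
  · intro f' hf'
    obtain ⟨t, rfl⟩ := supp_sum _ _ f' hf'
    filter_upwards [size hGd (hκ₀ t) (he₀ t) (hρ₀ t), (hu₀ t).1.2] with n hn1 hn2 v hv
    have hv' := place_of_mem hPS hv
    refine comb (hn1 v hv) ?_
    rw [av_mul hv']
    exact mul_le_mul_of_nonneg_right (hn2 v hv) (av_nonneg _ _)
  · intro j f' hf'
    obtain ⟨t, rfl⟩ := supp_sum _ _ f' hf'
    obtain ⟨w, hw, hw2⟩ := (hu j t).1
    refine ⟨w, hw, ?_⟩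
    filter_upwards [size hGd (hκ j t) (he j t) (hρ₁ j t), hw2] with n hn1 hn2 v hv
    have hv' := place_of_mem hPS hv
    refine comb (hn1 v hv) ?_
    rw [av_mul hv', av_mul hv', ← mul_assoc]
    exact mul_le_mul_of_nonneg_right (hn2 v hv) (av_nonneg _ _)

end Pool.Agent.CLX
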