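import Pool.Agent.CLX.Stmts2
import Pool.Agent.SBT.Api

set_option autoImplicit false

namespace Pool.Agent.CLX

open Filter Pool.Agent.SBT

namespace LBE_

variable {U : Ultrafilter ℕ} {S : Finset ℕ} {T : ℕ → ℝ}

theorem Un_one : (1 : ℕ → ℚ) ∈ Un U S T :=
  ⟨fun _ => isU_one S, 0, Eventually.of_forall fun n v _ => by simp⟩

theorem Un_mul (hS : PS S) {u u' : ℕ → ℚ} (h : u ∈ Un U S T) (h' : u' ∈ Un U S T) :
    u * u' ∈ Un U S T := by
  obtain ⟨h1, C, hC⟩ := h
  obtain ⟨h2, C', hC'⟩ := h'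
  refine ⟨fun n => (h1 n).mul hS (h2 n), C + C', ?_⟩
  filter_upwards [hC, hC'] with n ha hb v hv
  rw [Pi.mul_apply, av_mul (place_of_mem hS hv), add_mul, Real.exp_add]
  exact mul_le_mul (ha v hv) (hb v hv) (av_nonneg _ _) (Real.exp_pos _).le

theorem Lc_mul (hLCC : Stmt_LCC) (hS : PS S) {f g : ℕ → ℚ} (hf : Lc U (Un U S T) f)
    (hg : Lc U (Un U S T) g) : Lc U (Un U S T) (f * g) :=
  (hLCC U).2.2.1 _ _ _ f g hf hg (fun _ hu _ hu' => Un_mul hS hu hu')

theorem Lc_one (hLCC : Stmt_LCC) : Lc U (Un U S T) (1 : ℕ → ℚ) :=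
  (hLCC U).2.2.2.2.2.1 _ _ Un_one

theorem Lc_sum (hLCC : Stmt_LCC) {Γ : Set (ℕ → ℚ)} {ι : Type} (s : Finset ι) (f : ι → ℕ → ℚ)
    (h : ∀ i ∈ s, Lc U Γ (f i)) : Lc U Γ (∑ i ∈ s, f i) := by
  classical
  induction s using Finset.induction_on with
  | empty => simpa using (hLCC U).1 Γ
  | insert a s ha ih =>
    rw [Finset.sum_insert ha]
    exact (hLCC U).2.1 Γ _ _ (h a (Finset.mem_insert_self a s))
      (ih fun i hi => h i (Finset.mem_insert_of_mem hi))

theorem Lc_prod (hLCC : Stmt_LCC) (hS : PS S) {ι : Type} (s : Finset ι) (f : ι → ℕ → ℚ)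
    (h : ∀ i ∈ s, Lc U (Un U S T) (f i)) : Lc U (Un U S T) (∏ i ∈ s, f i) := by
  classical
  induction s using Finset.induction_on with
  | empty => simpa using Lc_one hLCC
  | insert a s ha ih =>
    rw [Finset.prod_insert ha]
    exact Lc_mul hLCC hS (h a (Finset.mem_insert_self a s))
      (ih fun i hi => h i (Finset.mem_insert_of_mem hi))

theorem Lc_det (hLCC : Stmt_LCC) (hS : PS S) {d : ℕ} (a : Fin d → Fin d → ℕ → ℚ)
    (h : ∀ i j, Lc U (Un U S T) (a i j)) :
    Lc U (Un U S T) (fun n => (Matrix.of fun i j => a i j n).det) := by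
  have e : (fun n => (Matrix.of fun i j => a i j n).det) =
      ∑ σ : Equiv.Perm (Fin d), (fun n => (((Equiv.Perm.sign σ : ℤ)) : ℚ) *
        (∏ i, a (σ i) i) n) := by
    funext n
    simp [Matrix.det_apply', Finset.sum_apply, Finset.prod_apply]
  rw [e]
  refine Lc_sum hLCC _ _ (fun σ _ => ?_)
  exact (hLCC U).2.2.2.2.1 _ _ (Equiv.Perm.sign σ : ℤ)
    (Lc_prod hLCC hS _ _ (fun i _ => h (σ i) i))

/-- common index set -/
theorem pad {Γ : Set (ℕ → ℚ)} (u₀ : ℕ → ℚ) (hu₀ : u₀ ∈ Γ) {d : ℕ} (f : Fin d → ℕ → ℚ)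
    (h : ∀ j, Lc U Γ (f j)) :
    ∃ (K : ℕ) (c : Fin d → Fin K → ℤ) (u : Fin d → Fin K → ℕ → ℚ), (∀ j t, u j t ∈ Γ) ∧
      ∀ j, ∀ᶠ n in (U : Filter ℕ), f j n = ∑ t, (c j t : ℚ) * u j t n := by
  choose N c u hu hf using h
  refine ⟨∑ j, N j, fun j t => if h : (t : ℕ) < N j then c j ⟨t, h⟩ else 0,
    fun j t => if h : (t : ℕ) < N j then u j ⟨t, h⟩ else u₀, ?_, ?_⟩
  · intro j t
    dsimp only
    split
    · exact hu _ _
    · exact hu₀
  · intro j
    filter_upwards [hf j] with n hn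
    rw [hn]
    have hle : N j ≤ ∑ j, N j := Finset.single_le_sum (fun i _ => Nat.zero_le _) (Finset.mem_univ j)
    set g : ℕ → ℚ := fun m => if h : m < N j then (c j ⟨m, h⟩ : ℚ) * u j ⟨m, h⟩ n else 0 with hg
    have e1 : ∑ t : Fin (N j), (c j t : ℚ) * u j t n = ∑ m ∈ Finset.range (N j), g m := by
      rw [Finset.sum_range]
      refine Finset.sum_congr rfl (fun t _ => ?_)
      simp [hg, t.2]
    have e2 : ∑ m ∈ Finset.range (N j), g m = ∑ m ∈ Finset.range (∑ j, N j), g m := by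
      refine Finset.sum_subset (Finset.range_mono hle) (fun m _ hm => ?_)
      simp only [Finset.mem_range, not_lt] at hm
      simp [hg, not_lt.2 hm]
    rw [e1, e2, Finset.sum_range]
    refine Finset.sum_congr rfl (fun t _ => ?_)
    by_cases ht : (t : ℕ) < N j
    · simp [hg, ht]
    · simp [hg, ht]

/-- upper bound for unit sums -/
theorem upper (hS : PS S) (hT : Tendsto T (U : Filter ℕ) atTop) {w : ℕ} (hw : w ∈ pl S)
    {f : ℕ → ℚ} (hf : Lc U (Un U S T) f) :
    ∃ C : ℝ, 0 ≤ C ∧ ∀ᶠ n in (U : Filter ℕ), av w (f n) ≤ Real.exp (C * T n) := by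
  obtain ⟨N, c, u, hu, hf⟩ := hf
  choose hu1 C hC using hu
  have hw' := place_of_mem hS hw
  set D : ℝ := ∑ t, av w (c t : ℚ) with hD
  have hD0 : 0 ≤ D := Finset.sum_nonneg fun t _ => av_nonneg _ _
  set E : ℝ := ∑ t, |C t| with hE
  have hE0 : 0 ≤ E := Finset.sum_nonneg fun t _ => abs_nonneg _
  refine ⟨E + 1, by positivity, ?_⟩
  have hall : ∀ᶠ n in (U : Filter ℕ), ∀ t, ∀ v ∈ pl S, av v (u t n) ≤ Real.exp (C t * T n) :=
    eventually_all.2 hC
  filter_upwards [hf, hall, hT.eventually_ge_atTop (max 0 (Real.log (D + 1)))] with n hn ha hTn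
  have hT0 : 0 ≤ T n := (le_max_left _ _).trans hTn
  have hTD : Real.log (D + 1) ≤ T n := (le_max_right _ _).trans hTn
  have hTD' : D + 1 ≤ Real.exp (T n) := by
    calc D + 1 = Real.exp (Real.log (D + 1)) := (Real.exp_log (by positivity)).symm
      _ ≤ _ := Real.exp_le_exp.2 hTD
  rw [hn]
  calc av w (∑ t, (c t : ℚ) * u t n) ≤ ∑ t, av w ((c t : ℚ) * u t n) := av_sum_le hw' _ _
    _ ≤ ∑ t, av w (c t : ℚ) * Real.exp (E * T n) := by
        refine Finset.sum_le_sum fun t _ => ?_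
        rw [av_mul hw']
        refine mul_le_mul_of_nonneg_left ((ha t w hw).trans ?_) (av_nonneg _ _)
        apply Real.exp_le_exp.2
        refine mul_le_mul_of_nonneg_right ?_ hT0
        exact (le_abs_self _).trans
          (Finset.single_le_sum (f := fun t => |C t|) (fun i _ => abs_nonneg _) (Finset.mem_univ t))
    _ = D * Real.exp (E * T n) := by rw [← Finset.sum_mul]
    _ ≤ Real.exp (T n) * Real.exp (E * T n) := by
        refine mul_le_mul_of_nonneg_right ?_ (Real.exp_pos _).le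
        linarith
    _ = Real.exp ((E + 1) * T n) := by
        rw [← Real.exp_add]
        congr 1
        ring

/-- bound for a determinant -/
theorem av_det {w : ℕ} (hw : w = 0 ∨ w.Prime) {d : ℕ} (M : Matrix (Fin d) (Fin d) ℚ) (X : ℝ)
    (hX : ∀ i j, av w (M i j) ≤ X) : av w M.det ≤ d.factorial * X ^ d := by
  rw [Matrix.det_apply']
  refine (av_sum_le hw _ _).trans ?_
  have h : ∀ σ : Equiv.Perm (Fin d), av w ((((Equiv.Perm.sign σ : ℤ)) : ℚ) * ∏ i, M (σ i) i) ≤
      X ^ d := by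
    intro σ
    have h1 : av w (((Equiv.Perm.sign σ : ℤ)) : ℚ) = 1 := by
      rcases Int.units_eq_one_or (Equiv.Perm.sign σ) with h | h
      · rw [h]; simp
      · rw [h]; simp [av_neg]
    rw [av_mul hw, h1, one_mul, av_prod hw]
    calc ∏ i, av w (M (σ i) i) ≤ ∏ _i : Fin d, X :=
          Finset.prod_le_prod (fun i _ => av_nonneg _ _) (fun i _ => hX _ _)
      _ = X ^ d := by simp
  calc ∑ σ : Equiv.Perm (Fin d), av w ((((Equiv.Perm.sign σ : ℤ)) : ℚ) * ∏ i, M (σ i) i)
      ≤ ∑ _σ : Equiv.Perm (Fin d), X ^ d := Finset.sum_le_sum fun σ _ => h σ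
    _ = d.factorial * X ^ d := by
        rw [Finset.sum_const, Finset.card_univ, Fintype.card_perm, Fintype.card_fin, nsmul_eq_mul]

/-- bound for an entry of the adjugate -/
theorem av_adj {w : ℕ} (hw : w = 0 ∨ w.Prime) {d : ℕ} (M : Matrix (Fin d) (Fin d) ℚ) (X : ℝ)
    (hX1 : 1 ≤ X) (hX : ∀ i j, av w (M i j) ≤ X) (i j : Fin d) :
    av w (M.adjugate i j) ≤ d.factorial * X ^ d := by
  rw [Matrix.adjugate_apply]
  refine av_det hw _ X (fun k l => ?_)
  by_cases hk : k = j
  · subst hk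
    rw [Matrix.updateRow_self]
    by_cases hl : l = i
    · subst hl
      simpa using hX1
    · rw [Pi.single_eq_of_ne hl]
      simp only [av_zero]
      linarith
  · rw [Matrix.updateRow_ne hk]
    exact hX k l

end LBE_

open LBE_ in
theorem lbe_proof (hS2U : Stmt_S2U) (hLCC : Stmt_LCC) (hLBU : Stmt_LBU) : Stmt_LBE := by
  intro U S T d Z B w a hS hT hB hw hZ hI ha hdet
  have hw' := place_of_mem hS hw
  -- bounds for the entries
  choose C hC0 hC using fun i j => upper hS hT hw (ha i j)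
  obtain ⟨K₁, hK₁⟩ := hLBU U S T w _ hS hT hw (Lc_det hLCC hS a ha) hdet
  set E : ℝ := ∑ i, ∑ j, C i j with hE
  have hE0 : 0 ≤ E := Finset.sum_nonneg fun i _ => Finset.sum_nonneg fun j _ => hC0 i j
  have hCE : ∀ i j, C i j ≤ E := by
    intro i j
    calc C i j ≤ ∑ j, C i j :=
          Finset.single_le_sum (f := fun j => C i j) (fun k _ => hC0 i k) (Finset.mem_univ j)
      _ ≤ E := Finset.single_le_sum (f := fun i => ∑ j, C i j)
          (fun k _ => Finset.sum_nonneg fun j _ => hC0 k j) (Finset.mem_univ i)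
  refine ⟨K₁ + (d * B + 1) + d * E + 1, ?_⟩
  intro G hG
  -- the coefficients of the `Z j`
  set G' : Fin d → ℕ → ℚ := fun j => ∑ i, G i * a i j with hG'
  have hG'L : ∀ j, Lc U (Un U S T) (G' j) := fun j =>
    Lc_sum hLCC _ _ (fun i _ => Lc_mul hLCC hS (hG i) (ha i j))
  obtain ⟨N, c, u, hu, hc⟩ := pad (U := U) (1 : ℕ → ℚ) (Un_one (U := U) (S := S) (T := T)) G' hG'L
  have hs := hS2U U S T d Z B 1 w hS hT hB one_pos hw hZ hI N c u hu
  have hs' : ∀ᶠ n in (U : Filter ℕ), ∀ i, av w (∑ t, (c i t : ℚ) * u i t n) ≤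
      Real.exp ((d * B + 1) * T n) * av w (∑ i, (∑ t, (c i t : ℚ) * u i t n) * (Z i n : ℚ)) :=
    eventually_all.2 fun i => hs i Finset.univ (fun t _ t' _ => Finset.mem_univ t')
  have hc' : ∀ᶠ n in (U : Filter ℕ), ∀ j, G' j n = ∑ t, (c j t : ℚ) * u j t n :=
    eventually_all.2 hc
  have hCall : ∀ᶠ n in (U : Filter ℕ), ∀ i j, av w (a i j n) ≤ Real.exp (C i j * T n) :=
    eventually_all.2 fun i => eventually_all.2 fun j => hC i j
  filter_upwards [hs', hc', hCall, hK₁, hdet,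
    hT.eventually_ge_atTop (max 0 (Real.log (d * d.factorial + 1)))] with n h1 h2 h3 h4 h5 hTn
  have hT0 : 0 ≤ T n := (le_max_left _ _).trans hTn
  have hTD : ((d : ℝ) * d.factorial + 1) ≤ Real.exp (T n) := by
    calc ((d : ℝ) * d.factorial + 1) = Real.exp (Real.log (d * d.factorial + 1)) :=
          (Real.exp_log (by positivity)).symm
      _ ≤ _ := Real.exp_le_exp.2 ((le_max_right _ _).trans hTn)
  intro i
  set A : Matrix (Fin d) (Fin d) ℚ := Matrix.of fun i j => a i j n with hA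
  set V : ℚ := ∑ i, G i n * lc a Z i n with hV
  have hV' : V = ∑ j, G' j n * (Z j n : ℚ) := by
    rw [hV]
    simp only [lc, hG', Finset.mul_sum, Finset.sum_apply, Pi.mul_apply, Finset.sum_mul]
    rw [Finset.sum_comm]
    refine Finset.sum_congr rfl fun j _ => Finset.sum_congr rfl fun k _ => ?_
    ring
  have h6 : ∀ j, av w (G' j n) ≤ Real.exp ((d * B + 1) * T n) * av w V := by
    intro j
    have := h1 j
    simp only [← h2] at this
    rw [hV']
    exact this
  -- Cramer's rule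
  have h7 : A.det * G i n = ∑ j, G' j n * A.adjugate j i := by
    have e1 : Matrix.vecMul (Matrix.vecMul (fun i => G i n) A) A.adjugate =
        A.det • (fun i => G i n) := by
      rw [Matrix.vecMul_vecMul, Matrix.mul_adjugate, Matrix.vecMul_smul, Matrix.vecMul_one]
    have e2 := congrFun e1 i
    rw [Pi.smul_apply, smul_eq_mul] at e2
    rw [← e2]
    unfold Matrix.vecMul dotProduct
    refine Finset.sum_congr rfl fun j _ => ?_
    congr 1
    simp [hG', hA, Finset.sum_apply]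
  have hX1 : (1 : ℝ) ≤ Real.exp (E * T n) := Real.one_le_exp (by positivity)
  have hXe : ∀ i j, av w (A i j) ≤ Real.exp (E * T n) := by
    intro i j
    refine (h3 i j).trans (Real.exp_le_exp.2 ?_)
    exact mul_le_mul_of_nonneg_right (hCE i j) hT0
  have h8 : av w A.det * av w (G i n) ≤
      d * d.factorial * (Real.exp ((d * B + 1) * T n) * av w V * Real.exp (E * T n) ^ d) := by
    rw [← av_mul hw', h7]
    refine (av_sum_le hw' _ _).trans ?_
    calc ∑ j, av w (G' j n * A.adjugate j i)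
        ≤ ∑ _j : Fin d, (Real.exp ((d * B + 1) * T n) * av w V) *
            (d.factorial * Real.exp (E * T n) ^ d) := by
          refine Finset.sum_le_sum fun j _ => ?_
          rw [av_mul hw']
          refine mul_le_mul (h6 j) (av_adj hw' A _ hX1 hXe j i) (av_nonneg _ _) ?_
          exact mul_nonneg (Real.exp_pos _).le (av_nonneg _ _)
      _ = _ := by
          rw [Finset.sum_const, Finset.card_univ, Fintype.card_fin, nsmul_eq_mul]
          ring
  have hdl : Real.exp (-(K₁ * T n)) ≤ av w A.det := h4.1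
  have h9 : Real.exp (-(K₁ * T n)) * av w (G i n) ≤
      Real.exp (T n) * (Real.exp ((d * B + 1) * T n) * av w V * Real.exp (E * T n) ^ d) := by
    refine (mul_le_mul_of_nonneg_right hdl (av_nonneg _ _)).trans (h8.trans ?_)
    refine mul_le_mul_of_nonneg_right (by linarith) ?_
    have := av_nonneg w V
    positivity
  have h10 : av w (G i n) = Real.exp (K₁ * T n) * (Real.exp (-(K₁ * T n)) * av w (G i n)) := by
    rw [← mul_assoc, ← Real.exp_add, add_neg_cancel, Real.exp_zero, one_mul]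
  rw [h10]
  refine (mul_le_mul_of_nonneg_left h9 (Real.exp_pos _).le).trans (le_of_eq ?_)
  have e3 : Real.exp ((K₁ + (d * B + 1) + d * E + 1) * T n) = Real.exp (K₁ * T n) *
      (Real.exp (T n) * (Real.exp ((d * B + 1) * T n) * Real.exp (E * T n) ^ d)) := by
    rw [← Real.exp_nat_mul, ← Real.exp_add, ← Real.exp_add, ← Real.exp_add]
    congr 1
    ring
  rw [e3]
  ring

end Pool.Agent.CLX
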