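import Pool.Agent.CLX.Stmts2
import Pool.Agent.SBT.Api

/-!
# CLX, module LBU: nonzero unit sums are not small (MP_d02c56_nt)
-/

set_option autoImplicit false

namespace Pool.Agent.CLX

open Filter Pool.Agent.SBT

namespace LBU_

/-- the inverse of an `S`-unit -/
theorem unit_ge {S : Finset ℕ} (hS : PS S) {w : ℕ} (hw : w ∈ pl S) {x : ℚ} (hx : IsU S x) {N : ℝ}
    (hN : 1 ≤ N) (hb : ∀ v ∈ pl S, av v x ≤ N) : (N ^ (pl S).card)⁻¹ ≤ av w x := by
  have hN0 : 0 < N := by linarith
  have h1 : av w x * ∏ v ∈ (pl S).erase w, av v x = 1 := by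
    rw [Finset.mul_prod_erase (pl S) (fun v => av v x) hw]
    exact hx.2
  have h2 : ∏ v ∈ (pl S).erase w, av v x ≤ N ^ (pl S).card := by
    calc ∏ v ∈ (pl S).erase w, av v x ≤ ∏ _v ∈ (pl S).erase w, N :=
          Finset.prod_le_prod (fun v _ => av_nonneg v x)
            (fun v hv => hb v (Finset.mem_of_mem_erase hv))
      _ = N ^ ((pl S).erase w).card := by rw [Finset.prod_const]
      _ ≤ N ^ (pl S).card := pow_le_pow_right₀ hN (Finset.card_le_card (Finset.erase_subset _ _))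
  have h3 : 0 ≤ av w x := av_nonneg w x
  have h4 : 0 < N ^ (pl S).card := pow_pos hN0 _
  rw [inv_le_iff_one_le_mul₀ h4, ← h1, mul_comm]
  rw [mul_comm]
  exact mul_le_mul_of_nonneg_left h2 h3

theorem upper {U : Ultrafilter ℕ} {S : Finset ℕ} {T : ℕ → ℝ} {w : ℕ} {f : ℕ → ℚ} (hS : PS S)
    (hT : Tendsto T (U : Filter ℕ) atTop) (hw : w ∈ pl S) (hf : Lc U (Un U S T) f) :
    ∃ K : ℝ, ∀ᶠ n in (U : Filter ℕ), av w (f n) ≤ Real.exp (K * T n) := by
  obtain ⟨N, c, u, hu, hfe⟩ := hf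
  have hpl := place_of_mem hS hw
  choose C hC using fun t => (hu t).2
  -- one constant
  obtain ⟨C', hC'0, hC'⟩ : ∃ C' : ℝ, 0 ≤ C' ∧ ∀ t, C t ≤ C' := by
    refine ⟨∑ t, |C t|, Finset.sum_nonneg (fun t _ => abs_nonneg _), fun t => ?_⟩
    exact (le_abs_self _).trans (Finset.single_le_sum (f := fun t => |C t|)
      (fun t _ => abs_nonneg _) (Finset.mem_univ t))
  set A : ℝ := ∑ t, |(c t : ℝ)| with hA
  have hall : ∀ᶠ n in (U : Filter ℕ), ∀ t, ∀ v ∈ pl S, av v (u t n) ≤ Real.exp (C t * T n) := by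
    rw [eventually_all]
    exact hC
  refine ⟨C' + 1, ?_⟩
  filter_upwards [hfe, hall, hT.eventually_ge_atTop (max 0 (Real.log (A + 1)))] with n h1 h2 h3
  have hA0 : 0 ≤ A := Finset.sum_nonneg (fun t _ => abs_nonneg _)
  have hT0 : 0 ≤ T n := (le_max_left _ _).trans h3
  have hTA : A ≤ Real.exp (T n) := by
    have : Real.log (A + 1) ≤ T n := (le_max_right _ _).trans h3
    have h4 := Real.exp_le_exp.2 this
    rw [Real.exp_log (by linarith)] at h4
    linarith
  rw [h1]
  calc av w (∑ t, (c t : ℚ) * u t n) ≤ ∑ t, av w ((c t : ℚ) * u t n) := av_sum_le hpl _ _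
    _ ≤ ∑ t, |(c t : ℝ)| * Real.exp (C' * T n) := by
        apply Finset.sum_le_sum
        intro t _
        rw [av_mul hpl]
        apply mul_le_mul (av_int_le_abs hpl _) _ (av_nonneg _ _) (abs_nonneg _)
        exact (h2 t w hw).trans (Real.exp_le_exp.2 (mul_le_mul_of_nonneg_right (hC' t) hT0))
    _ = A * Real.exp (C' * T n) := by rw [← Finset.sum_mul]
    _ ≤ Real.exp (T n) * Real.exp (C' * T n) :=
        mul_le_mul_of_nonneg_right hTA (Real.exp_pos _).le
    _ = Real.exp ((C' + 1) * T n) := by rw [← Real.exp_add]; ring_nf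

theorem lower (hS2U : Stmt_S2U) {U : Ultrafilter ℕ} {S : Finset ℕ} {T : ℕ → ℝ} {w : ℕ} {f : ℕ → ℚ}
    (hS : PS S) (hT : Tendsto T (U : Filter ℕ) atTop) (hw : w ∈ pl S) (hf : Lc U (Un U S T) f)
    (hne : ∀ᶠ n in (U : Filter ℕ), f n ≠ 0) :
    ∃ K : ℝ, ∀ᶠ n in (U : Filter ℕ), Real.exp (-(K * T n)) ≤ av w (f n) := by
  classical
  obtain ⟨N, c, u, hu, hfe⟩ := hf
  have hpl := place_of_mem hS hw
  have hpos : ∀ t n, u t n ≠ 0 := fun t n => ((hu t).1 n).ne_zero
  -- proportionality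
  let R : Setoid (Fin N) :=
    { r := fun t t' => ∃ κ : ℚ, ∀ᶠ n in (U : Filter ℕ), u t' n = κ * u t n
      iseqv :=
        { refl := fun t => ⟨1, Eventually.of_forall fun n => by rw [one_mul]⟩
          symm := by
            rintro t t' ⟨κ, hκ⟩
            refine ⟨κ⁻¹, ?_⟩
            have hκ0 : κ ≠ 0 := by
              rintro rfl
              obtain ⟨n, hn⟩ := hκ.exists
              rw [zero_mul] at hn
              exact hpos _ _ hn
            filter_upwards [hκ] with n hn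
            rw [hn, ← mul_assoc, inv_mul_cancel₀ hκ0, one_mul]
          trans := by
            rintro t t' t'' ⟨κ, hκ⟩ ⟨κ', hκ'⟩
            refine ⟨κ' * κ, ?_⟩
            filter_upwards [hκ, hκ'] with n hn hn'
            rw [hn', hn, mul_assoc] } }
  have hR : ∀ t t', R.r t t' ↔ ∃ κ : ℚ, ∀ᶠ n in (U : Filter ℕ), u t' n = κ * u t n :=
    fun _ _ => Iff.rfl
  -- some class sum is nonzero
  obtain ⟨t₀, ht₀⟩ : ∃ t₀ : Fin N, ¬ ∀ᶠ n in (U : Filter ℕ),
      ∑ s ∈ Finset.univ.filter (fun s => R.r t₀ s), (c s : ℚ) * u s n = 0 := by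
    by_contra hcon
    push Not at hcon
    have hall : ∀ᶠ n in (U : Filter ℕ), ∀ t₀ : Fin N,
        ∑ s ∈ Finset.univ.filter (fun s => R.r t₀ s), (c s : ℚ) * u s n = 0 := by
      rw [eventually_all]
      exact hcon
    obtain ⟨n, hn1, hn2, hn3⟩ := (hall.and (hfe.and hne)).exists
    apply hn3
    rw [hn2]
    rw [Finset.sum_partition R]
    apply Finset.sum_eq_zero
    intro q hq
    obtain ⟨t, -, rfl⟩ := Finset.mem_image.1 hq
    rw [← hn1 t]
    apply Finset.sum_congr _ (fun _ _ => rfl)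
    ext s
    simp only [Finset.mem_filter, Finset.mem_univ, true_and]
    constructor
    · intro h
      exact R.iseqv.symm (Quotient.exact h)
    · intro h
      exact Quotient.sound (R.iseqv.symm h)
  have ht₀' : ∀ᶠ n in (U : Filter ℕ),
      ∑ s ∈ Finset.univ.filter (fun s => R.r t₀ s), (c s : ℚ) * u s n ≠ 0 :=
    Ultrafilter.eventually_not.2 ht₀
  -- it is a multiple of `u t₀`
  have hprop : ∀ s, ∃ κ : ℚ, R.r t₀ s → ∀ᶠ n in (U : Filter ℕ), u s n = κ * u t₀ n := by
    intro s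
    by_cases h : R.r t₀ s
    · obtain ⟨κ, hκ⟩ := h
      exact ⟨κ, fun _ => hκ⟩
    · exact ⟨0, fun h' => absurd h' h⟩
  choose κ hκ using hprop
  set a : ℚ := ∑ s ∈ Finset.univ.filter (fun s => R.r t₀ s), (c s : ℚ) * κ s with ha
  have hsum : ∀ᶠ n in (U : Filter ℕ),
      ∑ s ∈ Finset.univ.filter (fun s => R.r t₀ s), (c s : ℚ) * u s n = a * u t₀ n := by
    have hall : ∀ᶠ n in (U : Filter ℕ), ∀ s, R.r t₀ s → u s n = κ s * u t₀ n := by
      rw [eventually_all]
      intro s
      by_cases h : R.r t₀ s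
      · filter_upwards [hκ s h] with n hn _
        exact hn
      · exact Eventually.of_forall fun n h' => absurd h' h
    filter_upwards [hall] with n hn
    rw [ha, Finset.sum_mul]
    apply Finset.sum_congr rfl
    intro s hs
    rw [hn s (Finset.mem_filter.1 hs).2, mul_assoc]
  have ha0 : a ≠ 0 := by
    intro h0
    obtain ⟨n, hn1, hn2⟩ := (ht₀'.and hsum).exists
    rw [hn2, h0, zero_mul] at hn1
    exact hn1 rfl
  -- S2U with `d = 1`
  have hkey := hS2U U S T 1 (fun _ _ => 1) 0 1 w hS hT le_rfl one_pos hw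
    (Eventually.of_forall fun n i => by simp)
    (by
      intro H _ hH i
      filter_upwards [hH] with n hn
      simp only [Int.cast_one, mul_one, Fin.sum_univ_one] at hn
      rw [Subsingleton.elim i 0]
      exact hn)
    N (fun _ => c) (fun _ => u) (fun _ t => hu t) 0 (Finset.univ.filter (fun s => R.r t₀ s))
    (by
      intro t ht t' htt'
      rw [Finset.mem_filter] at ht ⊢
      exact ⟨Finset.mem_univ _, R.iseqv.trans ht.2 htt'⟩)
  obtain ⟨C, hC⟩ := (hu t₀).2
  set k : ℕ := (pl S).card with hk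
  have hapos : 0 < av w a := av_pos hpl ha0
  refine ⟨k * |C| + 2, ?_⟩
  filter_upwards [hkey, hsum, hfe, hC, hT.eventually_ge_atTop (max 0 (-Real.log (av w a)))] with
    n h1 h2 h3 h4 h5
  have hT0 : 0 ≤ T n := (le_max_left _ _).trans h5
  have hTa : Real.exp (-T n) ≤ av w a := by
    have h6 : -T n ≤ Real.log (av w a) := by
      have := (le_max_right _ _).trans h5
      linarith
    calc Real.exp (-T n) ≤ Real.exp (Real.log (av w a)) := Real.exp_le_exp.2 h6
      _ = av w a := Real.exp_log hapos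
  have hu1 : Real.exp (-(k * |C| * T n)) ≤ av w (u t₀ n) := by
    have hN : (1 : ℝ) ≤ Real.exp (|C| * T n) := Real.one_le_exp (by positivity)
    have h6 := unit_ge hS hw ((hu t₀).1 n) hN (fun v hv => (h4 v hv).trans
      (Real.exp_le_exp.2 (mul_le_mul_of_nonneg_right (le_abs_self C) hT0)))
    refine le_trans (le_of_eq ?_) h6
    rw [← Real.exp_nat_mul, ← Real.exp_neg]
    congr 1
    ring
  simp only [Fin.sum_univ_one, Int.cast_one, mul_one, Nat.cast_one, mul_zero, zero_add,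
    one_mul] at h1
  rw [h2, ← h3, av_mul hpl] at h1
  have h7 : Real.exp (-T n) * Real.exp (-(k * |C| * T n)) ≤ Real.exp (T n) * av w (f n) :=
    (mul_le_mul hTa hu1 (Real.exp_pos _).le hapos.le).trans h1
  have h8 : Real.exp (-T n) * (Real.exp (-T n) * Real.exp (-(k * |C| * T n))) ≤
      Real.exp (-T n) * (Real.exp (T n) * av w (f n)) :=
    mul_le_mul_of_nonneg_left h7 (Real.exp_pos _).le
  have h9 : Real.exp (-T n) * (Real.exp (T n) * av w (f n)) = av w (f n) := by
    rw [← mul_assoc, ← Real.exp_add, neg_add_cancel, Real.exp_zero, one_mul]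
  rw [h9] at h8
  refine le_trans (le_of_eq ?_) h8
  rw [← Real.exp_add, ← Real.exp_add]
  congr 1
  ring

end LBU_

theorem lbu_proof (hS2U : Stmt_S2U) : Stmt_LBU := by
  intro U S T w f hS hT hw hf hne
  obtain ⟨K₁, h₁⟩ := LBU_.lower hS2U hS hT hw hf hne
  obtain ⟨K₂, h₂⟩ := LBU_.upper hS hT hw hf
  refine ⟨max K₁ K₂, ?_⟩
  filter_upwards [h₁, h₂, hT.eventually_ge_atTop 0] with n a b hT0
  constructor
  · refine le_trans (Real.exp_le_exp.2 ?_) a
    have := mul_le_mul_of_nonneg_right (le_max_left K₁ K₂) hT0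
    linarith
  · refine b.trans (Real.exp_le_exp.2 ?_)
    exact mul_le_mul_of_nonneg_right (le_max_right K₁ K₂) hT0

end Pool.Agent.CLX
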