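import Pool.Agent.CLX.Stmts2
import Pool.Agent.SBT.Api

/-!
# Squad CLX, module LIM: there is no limit object
-/

set_option autoImplicit false

namespace Pool.Agent.CLX

open Filter Pool.Agent.SBT

namespace LIM_

theorem ps23 : PS S23 := by
  intro p hp
  simp only [S23, Finset.mem_insert, Finset.mem_singleton] at hp
  rcases hp with rfl | rfl
  · exact Nat.prime_two
  · exact Nat.prime_three

theorem un_mul {U : Ultrafilter ℕ} {S : Finset ℕ} {T : ℕ → ℝ} (hS : PS S) {u u' : ℕ → ℚ}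
    (h : u ∈ Un U S T) (h' : u' ∈ Un U S T) : u * u' ∈ Un U S T := by
  obtain ⟨h1, C, h2⟩ := h
  obtain ⟨h1', C', h2'⟩ := h'
  refine ⟨fun n => (h1 n).mul hS (h1' n), C + C', ?_⟩
  filter_upwards [h2, h2'] with n a b v hv
  rw [Pi.mul_apply, av_mul (place_of_mem hS hv), add_mul, Real.exp_add]
  exact mul_le_mul (a v hv) (b v hv) (av_nonneg _ _) (Real.exp_pos _).le

theorem un_one {U : Ultrafilter ℕ} {S : Finset ℕ} {T : ℕ → ℝ} : (1 : ℕ → ℚ) ∈ Un U S T :=
  ⟨fun _ => isU_one S, 0, Eventually.of_forall fun n v _ => by simp⟩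

/-- the ring of unit sums -/
def rg (hLCC : Stmt_LCC) (U : Ultrafilter ℕ) (S : Finset ℕ) (T : ℕ → ℝ) (hS : PS S) :
    Subring (ℕ → ℚ) where
  carrier := {f | Lc U (Un U S T) f}
  mul_mem' := fun ha hb => (hLCC U).2.2.1 _ _ _ _ _ ha hb fun u hu u' hu' => un_mul hS hu hu'
  one_mem' := (hLCC U).2.2.2.2.2.1 _ _ un_one
  add_mem' := fun ha hb => (hLCC U).2.1 _ _ _ ha hb
  zero_mem' := (hLCC U).1 _
  neg_mem' := by
    intro f hf
    have h := (hLCC U).2.2.2.2.1 _ _ (-1) hf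
    have e : (fun n => ((-1 : ℤ) : ℚ) * f n) = -f := by
      funext n
      simp
    rw [e] at h
    exact h

theorem det_mem {R : Subring (ℕ → ℚ)} {d : ℕ} (M : Matrix (Fin d) (Fin d) (ℕ → ℚ))
    (h : ∀ i j, M i j ∈ R) : M.det ∈ R := by
  rw [Matrix.det_apply]
  refine Subring.sum_mem _ fun σ _ => ?_
  rw [Units.smul_def]
  exact zsmul_mem (Subring.prod_mem _ fun i _ => h _ _) _

theorem adj_mem {R : Subring (ℕ → ℚ)} {d : ℕ} (M : Matrix (Fin d) (Fin d) (ℕ → ℚ))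
    (h : ∀ i j, M i j ∈ R) (i j : Fin d) : M.adjugate i j ∈ R := by
  rw [Matrix.adjugate_apply]
  refine det_mem _ ?_
  intro a b
  by_cases ha : a = j
  · subst ha
    rw [Matrix.updateRow_self]
    by_cases hb : b = i
    · subst hb
      rw [Pi.single_eq_same]
      exact R.one_mem
    · rw [Pi.single_eq_of_ne hb]
      exact R.zero_mem
  · rw [Matrix.updateRow_ne ha]
    exact h a b

theorem adj_id {d : ℕ} (M : Matrix (Fin d) (Fin d) ℚ) (z : Fin d → ℚ) (j : Fin d) :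
    M.det * z j = ∑ i, M.adjugate j i * ∑ l, M i l * z l := by
  have h : (M.adjugate * M).mulVec z = (M.det • (1 : Matrix (Fin d) (Fin d) ℚ)).mulVec z := by
    rw [Matrix.adjugate_mul]
  rw [← Matrix.mulVec_mulVec, Matrix.smul_mulVec, Matrix.one_mulVec] at h
  have h' := congrFun h j
  rw [Pi.smul_apply, smul_eq_mul] at h'
  exact h'.symm

theorem det_eval {d : ℕ} (a : Fin d → Fin d → ℕ → ℚ) (n : ℕ) :
    (Matrix.of a : Matrix (Fin d) (Fin d) (ℕ → ℚ)).det n = (Matrix.of fun i j => a i j n).det := by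
  have h := RingHom.map_det (Pi.evalRingHom (fun _ : ℕ => ℚ) n)
    (Matrix.of a : Matrix (Fin d) (Fin d) (ℕ → ℚ))
  exact h

theorem adj_eval {d : ℕ} (a : Fin d → Fin d → ℕ → ℚ) (n : ℕ) (i j : Fin d) :
    (Matrix.of a : Matrix (Fin d) (Fin d) (ℕ → ℚ)).adjugate i j n =
      (Matrix.of fun i j => a i j n).adjugate i j := by
  have h := RingHom.map_adjugate (Pi.evalRingHom (fun _ : ℕ => ℚ) n)
    (Matrix.of a : Matrix (Fin d) (Fin d) (ℕ → ℚ))
  exact congrFun (congrFun h i) j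

theorem two_pow_le (a : ℕ) : (2 : ℝ) ^ a ≤ Real.exp a := by
  have h : (2 : ℝ) ≤ Real.exp 1 := by
    have := Real.add_one_le_exp (1 : ℝ)
    linarith
  calc (2 : ℝ) ^ a ≤ (Real.exp 1) ^ a := pow_le_pow_left₀ (by norm_num) h a
    _ = Real.exp a := by rw [← Real.exp_nat_mul, mul_one]

theorem three_pow_le (a : ℕ) : (3 : ℝ) ^ a ≤ Real.exp (2 * a) := by
  have h : (3 : ℝ) ≤ Real.exp 2 := by
    have := Real.add_one_le_exp (2 : ℝ)
    linarith
  calc (3 : ℝ) ^ a ≤ (Real.exp 2) ^ a := pow_le_pow_left₀ (by norm_num) h a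
    _ = Real.exp (2 * a) := by rw [← Real.exp_nat_mul, mul_comm]

theorem isU23 (a b : ℕ) : IsU S23 ((2 : ℚ) ^ a * 3 ^ b) := by
  have h2 : IsU S23 ((2 : ℕ) : ℚ) := by
    refine isU_nat ps23 (by norm_num) fun p hp hd => ?_
    rw [(Nat.prime_dvd_prime_iff_eq hp Nat.prime_two).1 hd]
    simp [S23]
  have h3 : IsU S23 ((3 : ℕ) : ℚ) := by
    refine isU_nat ps23 (by norm_num) fun p hp hd => ?_
    rw [(Nat.prime_dvd_prime_iff_eq hp Nat.prime_three).1 hd]
    simp [S23]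
  exact (h2.pow ps23 a).mul ps23 (h3.pow ps23 b)

theorem un23 {U : Ultrafilter ℕ} {T : ℕ → ℕ} (a b : ℕ → ℕ) (C : ℕ)
    (h : ∀ᶠ n in (U : Filter ℕ), a n ≤ C * T n ∧ b n ≤ C * T n) :
    (fun n => (2 : ℚ) ^ a n * 3 ^ b n) ∈ Un U S23 (fun n => (T n : ℝ)) := by
  refine ⟨fun n => isU23 _ _, 3 * C, ?_⟩
  filter_upwards [h] with n hn v hv
  have ha : (a n : ℝ) ≤ C * T n := by exact_mod_cast hn.1
  have hb : (b n : ℝ) ≤ C * T n := by exact_mod_cast hn.2
  have hT : 0 ≤ (C : ℝ) * T n := by positivity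
  rcases mem_pl.1 hv with h0 | h1
  · subst h0
    rw [av_zero_eq]
    push_cast
    rw [abs_of_pos (by positivity)]
    calc (2 : ℝ) ^ a n * 3 ^ b n ≤ Real.exp (a n) * Real.exp (2 * b n) :=
          mul_le_mul (two_pow_le _) (three_pow_le _) (by positivity) (Real.exp_pos _).le
      _ = Real.exp (a n + 2 * b n) := (Real.exp_add _ _).symm
      _ ≤ Real.exp (3 * C * T n) := Real.exp_le_exp.mpr (by nlinarith)
  · have h2 := av_int_le_one (ps23 v h1) (2 ^ a n * 3 ^ b n)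
    push_cast at h2
    exact h2.trans (Real.one_le_exp (by positivity))

theorem ze_le (u : ℕ → ℕ) (j : ℕ) : ze u j ≤ j := by
  unfold ze
  calc ∑ i ∈ Finset.range j, (1 - u i) ≤ ∑ i ∈ Finset.range j, 1 :=
        Finset.sum_le_sum fun i _ => Nat.sub_le _ _
    _ = j := by simp

theorem on_le (u : ℕ → ℕ) (hu : ∀ i, u i < 2) (j : ℕ) : on u j ≤ j := by
  unfold on
  calc ∑ i ∈ Finset.range j, u i ≤ ∑ i ∈ Finset.range j, 1 :=
        Finset.sum_le_sum fun i _ => Nat.lt_succ_iff.1 (hu i)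
    _ = j := by simp

theorem ze_ge (u : ℕ → ℕ) (hu : ∀ i, u i < 2) (hg : ∀ i, u i = 1 → u (i + 1) = 0) :
    ∀ L, L ≤ 2 * ze u L + 1
  | 0 => by omega
  | 1 => by omega
  | L + 2 => by
    have ih := ze_ge u hu hg L
    have e : ze u (L + 2) = ze u L + (1 - u L) + (1 - u (L + 1)) := by
      unfold ze
      rw [Finset.sum_range_succ, Finset.sum_range_succ]
    have h1 := hu L
    have h2 := hu (L + 1)
    have h3 := hg L
    by_cases h4 : u L = 1
    · have := h3 h4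
      omega
    · omega

theorem const_int (U : Ultrafilter ℕ) (e : ℕ → ℤ) (h : ∀ᶠ n in (U : Filter ℕ), |e n| ≤ 1) :
    ∃ c : ℤ, |c| ≤ 1 ∧ ∀ᶠ n in (U : Filter ℕ), e n = c := by
  have h1 : ∀ᶠ n in (U : Filter ℕ), e n = -1 ∨ e n = 0 ∨ e n = 1 := by
    filter_upwards [h] with n hn
    have := abs_le.1 hn
    omega
  rw [Ultrafilter.eventually_or, Ultrafilter.eventually_or] at h1
  rcases h1 with h1 | h1 | h1
  · exact ⟨-1, by norm_num, h1⟩
  · exact ⟨0, by norm_num, h1⟩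
  · exact ⟨1, by norm_num, h1⟩

/-- the description with functions instead of existence -/
theorem unpack {u : ℕ → ℕ} (hu : ∀ i, u i < 2) {s K L G B T W : ℕ} {y : Fin s → ℕ} {F : Fin s → ℤ}
    {D : ℤ} {b : ℕ} (hL : L ≤ (G + B) * T)
    (h : ∀ i, Rpw (ze u) (on u) K (B * T) L W (y i) (F i)) (hD : D * b = ∑ i, F i * y i) :
    ∃ z : (Fin s → Fin K → ℤ) × (Fin s → Fin K → ℕ) × (Fin s → Fin K → ℕ),
      (∀ i t, |z.1 i t| ≤ 1) ∧ (∀ i t, z.2.1 i t ≤ (G + 2 * B) * T ∧ z.2.2 i t ≤ (G + 2 * B) * T) ∧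
      (∀ i t, z.1 i t ≠ 0 → 2 ^ z.2.1 i t * 3 ^ z.2.2 i t * y i ≤ W) ∧
      D * b = ∑ i, (∑ t, z.1 i t * 2 ^ z.2.1 i t * 3 ^ z.2.2 i t) * y i := by
  choose ε α β j h1 h2 h3 h4 using h
  refine ⟨(ε, α, β), h1, fun i t => ?_, h3, ?_⟩
  · obtain ⟨a1, a2, a3⟩ := h2 i t
    have b1 := ze_le u (j i t)
    have b2 := on_le u hu L
    have a2' := abs_le.1 a2
    have a3' := abs_le.1 a3
    have e : (G + 2 * B) * T = (G + B) * T + B * T := by ring
    rw [e]
    dsimp only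
    constructor
    · omega
    · omega
  · rw [hD]
    exact Finset.sum_congr rfl fun i _ => by rw [h4 i]

/-- the sum of the left side -/
theorem sumid {d s K : ℕ} (v D F x k : ℚ) (X : Fin d → ℚ) (Y : Fin s → Fin d → ℚ) (e : Fin d → ℚ)
    (c : Fin s → Fin K → ℤ) (ν : Fin s → Fin K → ℚ) (y : Fin s → ℚ) (b : ℚ)
    (hX : F * x = ∑ i, X i * e i) (hY : ∀ t, F * (k * y t) = ∑ i, Y t i * e i)
    (hb : D * b = ∑ t, (∑ τ, (c t τ : ℚ) * ν t τ) * y t) :
    ∑ i, (v * (D * X i) + ∑ t, ∑ τ, (c t τ : ℚ) * ν t τ * Y t i) * e i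
      = F * D * (v * x + k * b) := by
  have h1 : ∑ i, (v * (D * X i) + ∑ t, ∑ τ, (c t τ : ℚ) * ν t τ * Y t i) * e i
      = v * D * ∑ i, X i * e i + ∑ t, (∑ τ, (c t τ : ℚ) * ν t τ) * ∑ i, Y t i * e i := by
    have h2 : ∀ i, (v * (D * X i) + ∑ t, ∑ τ, (c t τ : ℚ) * ν t τ * Y t i) * e i
        = v * D * (X i * e i) + ∑ t, (∑ τ, (c t τ : ℚ) * ν t τ) * (Y t i * e i) := by
      intro i
      rw [add_mul, Finset.sum_mul]
      congr 1
      · ring
      · refine Finset.sum_congr rfl fun t _ => ?_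
        rw [Finset.sum_mul, Finset.sum_mul]
        exact Finset.sum_congr rfl fun τ _ => by ring
    rw [Finset.sum_congr rfl fun i _ => h2 i, Finset.sum_add_distrib, ← Finset.mul_sum,
      Finset.sum_comm]
    congr 1
    exact Finset.sum_congr rfl fun t _ => by rw [← Finset.mul_sum]
  rw [h1, ← hX]
  have h3 : ∑ t, (∑ τ, (c t τ : ℚ) * ν t τ) * ∑ i, Y t i * e i = F * k * (D * b) := by
    rw [hb, Finset.mul_sum]
    refine Finset.sum_congr rfl fun t _ => ?_
    rw [← hY t]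
    ring
  rw [h3]
  ring

end LIM_

open LIM_ in
theorem lim_proof (hLCC : Stmt_LCC) (_hS2U : Stmt_S2U) (hBSE : Stmt_BSE) (hLBU : Stmt_LBU)
    (hORT : Stmt_ORT) (hTRN : Stmt_TRN) (hRDT : Stmt_RDT) (hBSM : Stmt_BSM) : Stmt_LIM := by
  intro U T s B κ N u k x ζ μ y h
  have hTlim : Tendsto (fun n => (T n : ℝ)) (U : Filter ℕ) atTop :=
    tendsto_natCast_atTop_atTop.comp h.lim
  have hPS : PS S23 := ps23
  obtain ⟨yy, hyy0, hyys⟩ : ∃ yy : Fin (s + 1) → ℕ → ℤ, yy 0 = x ∧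
      ∀ t : Fin s, yy t.succ = fun n => k n * y t n :=
    ⟨Fin.cons x fun t n => k n * y t n, rfl, fun t => rfl⟩
  obtain ⟨d, σ, F, H, -, hInd, hF, hF0, hH, hFy⟩ :=
    hBSE U S23 (fun n => (T n : ℝ)) (s + 1) yy hPS hTlim
  obtain ⟨Z, hZ⟩ : ∃ Z : Fin d → ℕ → ℤ, Z = fun i => yy (σ i) := ⟨_, rfl⟩
  rw [← hZ] at hInd
  have hkb : ∀ᶠ n in (U : Filter ℕ), |(k n : ℝ)| ≤ 2 ^ T n := by
    filter_upwards [h.kb] with n hn
    have h1 : |k n| ≤ |k n| ^ 16 := by
      rcases eq_or_ne (k n) 0 with h0 | h0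
      · rw [h0]
        norm_num
      · exact le_self_pow₀ (Int.one_le_abs h0) (by norm_num)
    have h2 := h1.trans hn
    exact_mod_cast h2
  obtain ⟨B₁, hB₁⟩ : ∃ B₁ : ℝ, B₁ = κ + 2 * B + 1 := ⟨_, rfl⟩
  have hB₁0 : 0 ≤ B₁ := by
    rw [hB₁]
    positivity
  have hZb : ∀ᶠ n in (U : Filter ℕ), ∀ i, |(Z i n : ℝ)| ≤ Real.exp (B₁ * T n) := by
    filter_upwards [hkb, h.xb, h.yb] with n h1 h2 h3 i
    have hall : ∀ t : Fin (s + 1), |((yy t n : ℤ) : ℝ)| ≤ Real.exp (B₁ * T n) := by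
      intro t
      refine Fin.cases ?_ (fun t => ?_) t
      · rw [hyy0]
        have h4 : |(x n : ℝ)| ≤ 2 ^ (κ * T n) := by exact_mod_cast h2
        refine h4.trans ((two_pow_le _).trans (Real.exp_le_exp.mpr ?_))
        push_cast
        rw [hB₁]
        have : 0 ≤ (2 * B + 1 : ℝ) * T n := by positivity
        nlinarith
      · rw [hyys]
        push_cast
        rw [abs_mul]
        have h4 : |((y t n : ℕ) : ℝ)| ≤ 2 ^ (2 * (B * T n)) := by
          rw [abs_of_nonneg (by positivity), pow_mul]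
          norm_num
          exact_mod_cast h3 t
        calc |(k n : ℝ)| * |((y t n : ℕ) : ℝ)| ≤ 2 ^ T n * 2 ^ (2 * (B * T n)) :=
              mul_le_mul h1 h4 (abs_nonneg _) (by positivity)
          _ = 2 ^ (T n + 2 * (B * T n)) := by rw [pow_add]
          _ ≤ Real.exp ((T n + 2 * (B * T n) : ℕ) : ℝ) := two_pow_le _
          _ ≤ Real.exp (B₁ * T n) := by
              refine Real.exp_le_exp.mpr ?_
              push_cast
              rw [hB₁]
              have : 0 ≤ (κ : ℝ) * T n := by positivity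
              nlinarith
    rw [hZ]
    exact hall (σ i)
  obtain ⟨a, ha, hdet, hOrth⟩ := hORT U S23 (fun n => (T n : ℝ)) d Z B₁ (1 / 400) hPS hTlim hB₁0
    (by norm_num) hZb hInd
  -- the ring
  obtain ⟨R, hR⟩ : ∃ R : Subring (ℕ → ℚ), ∀ f, f ∈ R ↔ Lc U (Un U S23 (fun n => (T n : ℝ))) f :=
    ⟨rg hLCC U S23 (fun n => (T n : ℝ)) hPS, fun f => Iff.rfl⟩
  obtain ⟨A, hA⟩ : ∃ A : Matrix (Fin d) (Fin d) (ℕ → ℚ), A = Matrix.of a := ⟨_, rfl⟩
  have hAR : ∀ i j, A i j ∈ R := by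
    intro i j
    rw [hA, hR]
    exact ha i j
  obtain ⟨XX, hXX⟩ : ∃ XX : Fin (s + 1) → Fin d → ℕ → ℚ,
      XX = fun t i => ∑ j, H t j * A.adjugate j i := ⟨_, rfl⟩
  have hXR : ∀ t i, XX t i ∈ R := by
    intro t i
    rw [hXX]
    exact Subring.sum_mem _ fun j _ => R.mul_mem ((hR _).2 (hH t j)) (adj_mem A hAR j i)
  obtain ⟨F', hF'⟩ : ∃ F' : ℕ → ℚ, F' = F * A.det := ⟨_, rfl⟩
  have hF'R : F' ∈ R := by
    rw [hF']
    exact R.mul_mem ((hR _).2 hF) (det_mem A hAR)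
  have hF'0 : ∀ᶠ n in (U : Filter ℕ), F' n ≠ 0 := by
    filter_upwards [hF0, hdet] with n h1 h2
    rw [hF', Pi.mul_apply, hA, det_eval]
    exact mul_ne_zero h1 h2
  have hrep : ∀ t, ∀ᶠ n in (U : Filter ℕ), F' n * (yy t n : ℚ) = ∑ i, XX t i n * lc a Z i n := by
    intro t
    filter_upwards [hFy t] with n h1
    have h2 : ∀ j, (Matrix.of fun i j => a i j n).det * (Z j n : ℚ) =
        ∑ i, (Matrix.of fun i j => a i j n).adjugate j i * lc a Z i n := fun j =>
      adj_id (Matrix.of fun i j => a i j n) (fun l => (Z l n : ℚ)) j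
    have h3 : F' n * (yy t n : ℚ) = (Matrix.of fun i j => a i j n).det * (F n * (yy t n : ℚ)) := by
      rw [hF', Pi.mul_apply, hA, det_eval]
      ring
    rw [h3, h1, Finset.mul_sum]
    have h4 : ∀ j, (Matrix.of fun i j => a i j n).det * (H t j n * (yy (σ j) n : ℚ)) =
        ∑ i, H t j n * (Matrix.of fun i j => a i j n).adjugate j i * lc a Z i n := by
      intro j
      have h5 := h2 j
      rw [hZ] at h5
      have h6 : (Matrix.of fun i j => a i j n).det * (H t j n * (yy (σ j) n : ℚ)) =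
          H t j n * ((Matrix.of fun i j => a i j n).det * (yy (σ j) n : ℚ)) := by ring
      rw [h6, h5, Finset.mul_sum]
      refine Finset.sum_congr rfl fun i _ => ?_
      rw [hZ]
      ring
    rw [Finset.sum_congr rfl fun j _ => h4 j, Finset.sum_comm]
    refine Finset.sum_congr rfl fun i _ => ?_
    rw [← Finset.sum_mul, hXX]
    congr 1
    show _ = (∑ j, H t j * A.adjugate j i) n
    rw [Finset.sum_apply]
    refine Finset.sum_congr rfl fun j _ => ?_
    rw [Pi.mul_apply, hA, adj_eval]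
  -- the product of the differences
  obtain ⟨D, hD⟩ : ∃ D : ℕ → ℚ, D = ∏ i, fun n => ((2 : ℚ) ^ ζ i n - 3 ^ μ i n) := ⟨_, rfl⟩
  have hDn : ∀ n, D n = ∏ i, ((2 : ℚ) ^ ζ i n - 3 ^ μ i n) := by
    intro n
    rw [hD, Finset.prod_apply]
  have hDR : D ∈ R := by
    rw [hD]
    refine Subring.prod_mem _ fun i _ => ?_
    have e1 : (fun n => (2 : ℚ) ^ ζ i n) ∈ R := by
      rw [hR]
      refine (hLCC U).2.2.2.2.2.1 _ _ ?_
      have := un23 (U := U) (T := T) (ζ i) (fun _ => 0) B (by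
        filter_upwards [h.per] with n hn
        exact ⟨(hn i).2.1, Nat.zero_le _⟩)
      simpa using this
    have e2 : (fun n => (3 : ℚ) ^ μ i n) ∈ R := by
      rw [hR]
      refine (hLCC U).2.2.2.2.2.1 _ _ ?_
      have := un23 (U := U) (T := T) (fun _ => 0) (μ i) B (by
        filter_upwards [h.per] with n hn
        exact ⟨Nat.zero_le _, (hn i).2.2⟩)
      simpa using this
    exact R.sub_mem e1 e2
  obtain ⟨Θ, hΘ⟩ := hTRN U S23 (fun n => (T n : ℝ)) d s Z B₁ (1 / 400) 2 a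
    (fun i n => D n * XX 0 i n) (fun t i => XX t.succ i) hPS hTlim hB₁0 (by norm_num)
    (by simp [S23]) hZb hInd ha hdet hOrth (fun i => (hR _).1 (R.mul_mem hDR (hXR 0 i)))
    (fun t i => (hR _).1 (hXR _ _))
  obtain ⟨K₂, hK₂⟩ := hLBU U S23 (fun n => (T n : ℝ)) 2 F' hPS hTlim
    (mem_pl_of_mem (by simp [S23])) ((hR _).1 hF'R) hF'0
  obtain ⟨G, hG⟩ := exists_nat_ge (4 * (K₂ + Θ) + 1)
  -- the description
  have hdesc : ∀ᶠ n in (U : Filter ℕ), ∃ z : ℕ × ((Fin s → Fin (N G) → ℤ) ×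
      (Fin s → Fin (N G) → ℕ) × (Fin s → Fin (N G) → ℕ)),
      (G * T n ≤ z.1 ∧ z.1 ≤ (G + B) * T n) ∧
      (∀ i t, |z.2.1 i t| ≤ 1) ∧
      (∀ i t, z.2.2.1 i t ≤ (G + 2 * B) * T n ∧ z.2.2.2 i t ≤ (G + 2 * B) * T n) ∧
      (∀ i t, z.2.1 i t ≠ 0 → 2 ^ z.2.2.1 i t * 3 ^ z.2.2.2 i t * y i n ≤
        mx (fun i => ζ i n) (fun i => μ i n) * bv (u n) z.1) ∧
      (∏ i, ((2 : ℤ) ^ ζ i n - 3 ^ μ i n)) * bv (u n) z.1 =
        ∑ i, (∑ t, z.2.1 i t * 2 ^ z.2.2.1 i t * 3 ^ z.2.2.2 i t) * y i n := by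
    filter_upwards [h.desc G] with n hn
    obtain ⟨L, hL1, hL2, F₁, h1, h2⟩ := hn
    obtain ⟨z, hz⟩ := unpack (h.two n) hL2 h1 h2
    exact ⟨(L, z), ⟨hL1, hL2⟩, hz⟩
  obtain ⟨z, hz⟩ := hdesc.choice
  have hcc : ∀ i t, ∃ c : ℤ, |c| ≤ 1 ∧ ∀ᶠ n in (U : Filter ℕ), (z n).2.1 i t = c := fun i t =>
    const_int U (fun n => (z n).2.1 i t) (by
      filter_upwards [hz] with n hn
      exact hn.2.1 i t)
  choose c hc1 hc2 using hcc
  have hc3 : ∀ᶠ n in (U : Filter ℕ), ∀ i t, (z n).2.1 i t = c i t := by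
    rw [eventually_all]
    intro i
    rw [eventually_all]
    exact hc2 i
  obtain ⟨ν, hν⟩ : ∃ ν : Fin s → Fin (N G) → ℕ → ℚ,
      ν = fun i t n => (2 : ℚ) ^ (z n).2.2.1 i t * 3 ^ (z n).2.2.2 i t := ⟨_, rfl⟩
  obtain ⟨v, hv⟩ : ∃ v : ℕ → ℚ, v = fun n => (3 : ℚ) ^ on (u n) (z n).1 := ⟨_, rfl⟩
  have hνU : ∀ i t, ν i t ∈ Un U S23 (fun n => (T n : ℝ)) := by
    intro i t
    rw [hν]
    refine un23 _ _ (G + 2 * B) ?_
    filter_upwards [hz] with n hn
    exact hn.2.2.1 i t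
  have hvU : v ∈ Un U S23 (fun n => (T n : ℝ)) := by
    have := un23 (U := U) (T := T) (fun _ => 0) (fun n => on (u n) (z n).1) (G + B) (by
      filter_upwards [hz] with n hn
      exact ⟨Nat.zero_le _, (on_le (u n) (h.two n) _).trans hn.1.2⟩)
    rw [hv]
    simpa using this
  have hv1 : ∀ n, av 2 (v n) = 1 := by
    intro n
    rw [hv]
    have := av_of_ne Nat.prime_two Nat.prime_three (by norm_num)
    rw [av_pow (Or.inr Nat.prime_two)]
    have e : ((3 : ℕ) : ℚ) = 3 := by norm_num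
    rw [e] at this
    rw [this, one_pow]
  -- the identity
  have hid : ∀ᶠ n in (U : Filter ℕ), ∑ i, (v n * (D n * XX 0 i n) +
      ∑ t, ∑ τ, (c t τ : ℚ) * ν t τ n * XX t.succ i n) * lc a Z i n =
      F' n * D n * (v n * x n + k n * bv (u n) (z n).1) := by
    filter_upwards [hrep 0, eventually_all.2 fun t : Fin s => hrep t.succ, hz, hc3] with n h0 h1 h2 h3
    refine sumid (v n) (D n) (F' n) (x n) (k n) (fun i => XX 0 i n) (fun t i => XX t.succ i n)
      (fun i => lc a Z i n) c (fun t τ => ν t τ n) (fun t => (y t n : ℚ)) (bv (u n) (z n).1)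
      ?_ ?_ ?_
    · rw [← h0, hyy0]
    · intro t
      rw [← h1 t, hyys]
      push_cast
      ring
    · have h4 := h2.2.2.2.2
      have h5 : (((∏ i, ((2 : ℤ) ^ ζ i n - 3 ^ μ i n)) * bv (u n) (z n).1 : ℤ) : ℚ) =
          ((∑ i, (∑ t, (z n).2.1 i t * 2 ^ (z n).2.2.1 i t * 3 ^ (z n).2.2.2 i t) * y i n : ℤ) : ℚ) := by
        rw [h4]
      push_cast at h5
      rw [hDn, h5]
      refine Finset.sum_congr rfl fun i _ => ?_
      congr 1
      refine Finset.sum_congr rfl fun t _ => ?_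
      rw [h3 i t, hν]
      ring
  have hsmall : ∀ᶠ n in (U : Filter ℕ), av 2 (∑ i, (v n * (D n * XX 0 i n) +
      ∑ t, ∑ τ, (c t τ : ℚ) * ν t τ n * XX t.succ i n) * lc a Z i n) ≤
      Real.exp (-(Θ * T n)) := by
    filter_upwards [hid, hz, h.div, hK₂, hTlim.eventually_ge_atTop 1] with n h1 h2 h3 h4 h5
    rw [h1, av_mul (Or.inr Nat.prime_two), av_mul (Or.inr Nat.prime_two)]
    have a1 : av 2 (F' n) ≤ Real.exp (K₂ * T n) := h4.2
    have a2 : av 2 (D n) ≤ 1 := by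
      have := av_int_le_one Nat.prime_two (∏ i, ((2 : ℤ) ^ ζ i n - 3 ^ μ i n))
      push_cast at this
      rw [hDn]
      exact this
    have a3 : av 2 (v n * x n + k n * bv (u n) (z n).1) ≤ ((2 : ℝ) ^ ze (u n) (z n).1)⁻¹ := by
      have h6 := (av_le_iff_dvd Nat.prime_two (ze (u n) (z n).1)
        (3 ^ on (u n) (z n).1 * x n + k n * bv (u n) (z n).1)).2 (by
          have := h3 (z n).1
          push_cast
          exact this)
      push_cast at h6
      rw [hv]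
      exact h6
    have a4 : ((2 : ℝ) ^ ze (u n) (z n).1)⁻¹ ≤ Real.exp (-((G * T n - 1) / 4)) := by
      have b1 := ze_ge (u n) (h.two n) (h.gap n) (z n).1
      have b2 := h2.1.1
      have b3 : (G * T n : ℝ) ≤ 2 * ze (u n) (z n).1 + 1 := by exact_mod_cast b2.trans b1
      have b4 : Real.exp (1 / 2) ≤ 2 := by
        have c1 : Real.exp (1 / 2) ^ 2 = Real.exp 1 := by
          rw [← Real.exp_nat_mul]
          norm_num
        have c2 := Real.exp_one_lt_d9
        have c3 := Real.exp_pos (1 / 2)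
        nlinarith
      have b5 : Real.exp ((ze (u n) (z n).1 : ℝ) * (1 / 2)) ≤ 2 ^ ze (u n) (z n).1 := by
        rw [Real.exp_nat_mul]
        exact pow_le_pow_left₀ (Real.exp_pos _).le b4 _
      rw [Real.exp_neg]
      refine inv_anti₀ (Real.exp_pos _) (le_trans (Real.exp_le_exp.mpr ?_) b5)
      linarith
    calc av 2 (F' n) * av 2 (D n) * av 2 (v n * x n + k n * bv (u n) (z n).1)
        ≤ Real.exp (K₂ * T n) * 1 * Real.exp (-((G * T n - 1) / 4)) :=
          mul_le_mul (mul_le_mul a1 a2 (av_nonneg _ _) (Real.exp_pos _).le) (a3.trans a4)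
            (av_nonneg _ _) (by positivity)
      _ = Real.exp (K₂ * T n + -((G * T n - 1) / 4)) := by rw [mul_one, Real.exp_add]
      _ ≤ Real.exp (-(Θ * T n)) := by
          refine Real.exp_le_exp.mpr ?_
          have c1 : (4 * (K₂ + Θ) + 1) * (T n : ℝ) ≤ G * T n :=
            mul_le_mul_of_nonneg_right hG (by linarith)
          linarith
  have hfin := hΘ (N G) v c ν hvU (Eventually.of_forall hv1) hνU hsmall
  -- the differences are not small
  have hmx : ∀ᶠ n in (U : Filter ℕ), ∀ i, max ((2 : ℝ) ^ ζ i n) (3 ^ μ i n) ≤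
      Real.exp (1 / (400 * (s + 1)) * T n) * |(2 : ℝ) ^ ζ i n - 3 ^ μ i n| := by
    rw [eventually_all]
    intro i
    refine hRDT U (fun n => (T n : ℝ)) (ζ i) (μ i) B _ hTlim (by positivity) ?_
    filter_upwards [h.per] with n hn
    refine ⟨(hn i).1, ?_, ?_⟩
    · exact_mod_cast (hn i).2.1
    · exact_mod_cast (hn i).2.2
  have hmx2 : ∀ᶠ n in (U : Filter ℕ), ((mx (fun i => ζ i n) (fun i => μ i n) : ℕ) : ℝ) ≤
      Real.exp (1 / 400 * T n) * |(D n : ℝ)| := by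
    filter_upwards [hmx] with n hn
    unfold mx
    push_cast
    calc ∏ i, max ((2 : ℝ) ^ ζ i n) (3 ^ μ i n)
        ≤ ∏ i, (Real.exp (1 / (400 * (s + 1)) * T n) * |(2 : ℝ) ^ ζ i n - 3 ^ μ i n|) :=
          Finset.prod_le_prod (fun i _ => by positivity) fun i _ => hn i
      _ = Real.exp (1 / (400 * (s + 1)) * T n) ^ s * |(D n : ℝ)| := by
          rw [Finset.prod_mul_distrib, Finset.prod_const, Finset.card_univ, Fintype.card_fin,
            ← Finset.abs_prod, hDn]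
          push_cast
          rfl
      _ ≤ Real.exp (1 / 400 * T n) * |(D n : ℝ)| := by
          refine mul_le_mul_of_nonneg_right ?_ (abs_nonneg _)
          rw [← Real.exp_nat_mul]
          refine Real.exp_le_exp.mpr ?_
          have hT : (0 : ℝ) ≤ T n := by positivity
          have e : (s : ℝ) * (1 / (400 * (s + 1)) * T n) = 1 / 400 * T n * (s / (s + 1)) := by
            field_simp
          rw [e]
          have e2 : (s : ℝ) / (s + 1) ≤ 1 := by
            rw [div_le_one (by positivity)]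
            linarith
          have e3 : 0 ≤ 1 / 400 * (T n : ℝ) := by positivity
          nlinarith
  obtain ⟨n, h0, h1, h2, h3, h4, h5, h6, h7, h8, h9⟩ := (hfin.and ((hrep 0).and
    ((eventually_all.2 fun t : Fin s => hrep t.succ).and (hz.and (hc3.and (hmx2.and
    ((hBSM U T s B κ N u k x ζ μ y h (G + B)).and ((h.big 0).and
    (hF'0.and (hTlim.eventually_ge_atTop ((400 / 7) * (s * N G)))))))))))).exists
  have hT : (0 : ℝ) ≤ T n := by positivity
  obtain ⟨L, hL⟩ : ∃ L, L = (z n).1 := ⟨_, rfl⟩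
  have hx0 : 1 ≤ |(x n : ℝ)| := by
    have e1 := h7 0 (Nat.zero_le _)
    have e2 : ze (u n) 0 = 0 := by simp [ze]
    have e3 : on (u n) 0 = 0 := by simp [on]
    have e4 : bv (u n) 0 = 0 := rfl
    rw [e2, e3, e4] at e1
    have e5 : (2 : ℤ) ^ (0 + T n / 8) ≤ |x n| := by simpa using e1
    have e6 : (1 : ℤ) ≤ 2 ^ (0 + T n / 8) := one_le_pow₀ (by norm_num)
    exact_mod_cast e6.trans e5
  have hD0 : 0 < |(D n : ℝ)| := by
    have e1 : (1 : ℝ) ≤ ((mx (fun i => ζ i n) (fun i => μ i n) : ℕ) : ℝ) := by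
      have : 1 ≤ mx (fun i => ζ i n) (fun i => μ i n) := by
        unfold mx
        exact Finset.one_le_prod' fun i _ => (Nat.one_le_two_pow).trans (le_max_left _ _)
      exact_mod_cast this
    have e2 := e1.trans h5
    have e3 := Real.exp_pos (1 / 400 * (T n : ℝ))
    by_contra hcon
    have e4 : |(D n : ℝ)| = 0 := le_antisymm (not_lt.1 hcon) (abs_nonneg _)
    rw [e4, mul_zero] at e2
    linarith
  have hF0' : 0 < |(F' n : ℝ)| := abs_pos.2 (by exact_mod_cast h8)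
  have h3on : (0 : ℝ) < 3 ^ on (u n) L := by positivity
  -- left side
  have hl : av 0 (v n * ∑ i, D n * XX 0 i n * lc a Z i n) =
      3 ^ on (u n) L * (|(D n : ℝ)| * (|(F' n : ℝ)| * |(x n : ℝ)|)) := by
    have e1 : ∑ i, D n * XX 0 i n * lc a Z i n = D n * (F' n * x n) := by
      have e2 : (yy 0 n : ℚ) = x n := by rw [hyy0]
      rw [← e2, h1, Finset.mul_sum]
      exact Finset.sum_congr rfl fun i _ => by ring
    rw [e1, av_zero_eq, hv, hL]
    push_cast
    rw [abs_mul, abs_mul, abs_mul, abs_of_pos (by positivity : (0 : ℝ) < 3 ^ on (u n) (z n).1)]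
  -- right side
  have hr : ∑ t, ∑ τ, |(c t τ : ℝ)| * av 0 (ν t τ n) * av 0 (∑ i, XX t.succ i n * lc a Z i n) ≤
      (s * N G) * (|(F' n : ℝ)| * (((mx (fun i => ζ i n) (fun i => μ i n) : ℕ) : ℝ) *
        (|(k n : ℝ)| * bv (u n) L))) := by
    have e0 : ∀ t τ, |(c t τ : ℝ)| * av 0 (ν t τ n) * av 0 (∑ i, XX t.succ i n * lc a Z i n) ≤
        |(F' n : ℝ)| * (((mx (fun i => ζ i n) (fun i => μ i n) : ℕ) : ℝ) *
        (|(k n : ℝ)| * bv (u n) L)) := by
      intro t τ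
      have e1 : av 0 (∑ i, XX t.succ i n * lc a Z i n) =
          |(F' n : ℝ)| * (|(k n : ℝ)| * y t n) := by
        rw [← h2 t, av_zero_eq, hyys]
        push_cast
        rw [abs_mul, abs_mul, abs_of_nonneg (by positivity : (0 : ℝ) ≤ (y t n : ℝ))]
      have e2 : av 0 (ν t τ n) = 2 ^ (z n).2.2.1 t τ * 3 ^ (z n).2.2.2 t τ := by
        rw [av_zero_eq, hν]
        push_cast
        exact abs_of_pos (by positivity)
      rw [e1, e2]
      by_cases hc0 : c t τ = 0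
      · rw [hc0]
        simp only [Int.cast_zero, abs_zero, zero_mul]
        positivity
      · have e3 := h3.2.2.2.1 t τ (by rw [h4 t τ]; exact hc0)
        have e4 : (2 : ℝ) ^ (z n).2.2.1 t τ * 3 ^ (z n).2.2.2 t τ * y t n ≤
            ((mx (fun i => ζ i n) (fun i => μ i n) : ℕ) : ℝ) * bv (u n) L := by
          rw [hL]
          exact_mod_cast e3
        have e5 : |(c t τ : ℝ)| ≤ 1 := by exact_mod_cast hc1 t τ
        calc |(c t τ : ℝ)| * (2 ^ (z n).2.2.1 t τ * 3 ^ (z n).2.2.2 t τ) *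
              (|(F' n : ℝ)| * (|(k n : ℝ)| * y t n))
            ≤ 1 * (2 ^ (z n).2.2.1 t τ * 3 ^ (z n).2.2.2 t τ) *
              (|(F' n : ℝ)| * (|(k n : ℝ)| * y t n)) := by
              refine mul_le_mul_of_nonneg_right ?_ (by positivity)
              exact mul_le_mul_of_nonneg_right e5 (by positivity)
          _ = |(F' n : ℝ)| * |(k n : ℝ)| *
              ((2 : ℝ) ^ (z n).2.2.1 t τ * 3 ^ (z n).2.2.2 t τ * y t n) := by ring
          _ ≤ |(F' n : ℝ)| * |(k n : ℝ)| *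
              (((mx (fun i => ζ i n) (fun i => μ i n) : ℕ) : ℝ) * bv (u n) L) :=
              mul_le_mul_of_nonneg_left e4 (by positivity)
          _ = _ := by ring
    calc ∑ t, ∑ τ, |(c t τ : ℝ)| * av 0 (ν t τ n) * av 0 (∑ i, XX t.succ i n * lc a Z i n)
        ≤ ∑ t : Fin s, ∑ τ : Fin (N G), |(F' n : ℝ)| *
          (((mx (fun i => ζ i n) (fun i => μ i n) : ℕ) : ℝ) * (|(k n : ℝ)| * bv (u n) L)) :=
          Finset.sum_le_sum fun t _ => Finset.sum_le_sum fun τ _ => e0 t τ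
      _ = _ := by
          rw [Finset.sum_const, Finset.sum_const, Finset.card_univ, Finset.card_univ,
            Fintype.card_fin, Fintype.card_fin, nsmul_eq_mul, nsmul_eq_mul]
          ring
  have h6' := h6 L (by rw [hL]; exact h3.1.2)
  obtain ⟨W, hW⟩ : ∃ W : ℝ, W = 3 ^ on (u n) L * (|(D n : ℝ)| * (|(F' n : ℝ)| * |(x n : ℝ)|)) :=
    ⟨_, rfl⟩
  have hW0 : 0 < W := by
    rw [hW]
    have : 0 < |(x n : ℝ)| := by linarith
    positivity
  have hmain : W ≤ (s * N G) * Real.exp (-((7 / 400) * T n)) * W := by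
    have e1 : av 0 (v n * ∑ i, D n * XX 0 i n * lc a Z i n) ≤
      Real.exp (2 * (1 / 400) * T n) * ∑ t, ∑ τ, |(c t τ : ℝ)| * av 0 (ν t τ n) *
          av 0 (∑ i, XX t.succ i n * lc a Z i n) := h0
    rw [hl, ← hW] at e1
    have hk0 : 0 ≤ |(k n : ℝ)| * bv (u n) L := by positivity
    calc W ≤ Real.exp (2 * (1 / 400) * T n) * ((s * N G) * (|(F' n : ℝ)| *
          (((mx (fun i => ζ i n) (fun i => μ i n) : ℕ) : ℝ) * (|(k n : ℝ)| * bv (u n) L)))) :=
          e1.trans (mul_le_mul_of_nonneg_left hr (Real.exp_pos _).le)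
      _ ≤ Real.exp (2 * (1 / 400) * T n) * ((s * N G) * (|(F' n : ℝ)| *
          ((Real.exp (1 / 400 * T n) * |(D n : ℝ)|) *
            (Real.exp (-((T n : ℝ) / 40)) * (3 ^ on (u n) L * |(x n : ℝ)|))))) := by
          refine mul_le_mul_of_nonneg_left ?_ (Real.exp_pos _).le
          refine mul_le_mul_of_nonneg_left ?_ (by positivity)
          refine mul_le_mul_of_nonneg_left ?_ (by positivity)
          exact mul_le_mul h5 h6' hk0 (by positivity)
      _ = (s * N G) * (Real.exp (2 * (1 / 400) * T n) * Real.exp (1 / 400 * T n) *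
          Real.exp (-((T n : ℝ) / 40))) * W := by
          rw [hW]
          ring
      _ = (s * N G) * Real.exp (-((7 / 400) * T n)) * W := by
          rw [← Real.exp_add, ← Real.exp_add]
          congr 3
          ring
  have hlt : (s * N G : ℝ) * Real.exp (-((7 / 400) * T n)) < 1 := by
    have e1 := Real.add_one_le_exp ((7 / 400) * (T n : ℝ))
    have e2 : (s * N G : ℝ) ≤ (7 / 400) * T n := by linarith
    have e3 : (s * N G : ℝ) < Real.exp ((7 / 400) * T n) := by linarith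
    rw [Real.exp_neg, ← div_eq_mul_inv, div_lt_one (Real.exp_pos _)]
    exact e3
  nlinarith

end Pool.Agent.CLX
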