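import Pool.Agent.CLX.Stmts2
import Pool.Agent.SBT.Api

/-!
# RDT: `2^ζ - 3^μ` is not small
-/

set_option autoImplicit false

namespace Pool.Agent.CLX

open Filter Pool.Agent.SBT

namespace RDT_

theorem ps23 : PS S23 := by
  intro p hp
  simp only [S23, Finset.mem_insert, Finset.mem_singleton] at hp
  rcases hp with rfl | rfl
  · exact Nat.prime_two
  · exact Nat.prime_three

theorem isU_two (k : ℕ) : IsU S23 ((2 : ℚ) ^ k) := by
  have h := isU_nat_pow ps23 (a := 2) (by norm_num) (by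
    intro p hp hd
    rw [(Nat.prime_dvd_prime_iff_eq hp Nat.prime_two).1 hd]
    simp [S23]) k
  exact_mod_cast h

theorem isU_three (k : ℕ) : IsU S23 ((3 : ℚ) ^ k) := by
  have h := isU_nat_pow ps23 (a := 3) (by norm_num) (by
    intro p hp hd
    rw [(Nat.prime_dvd_prime_iff_eq hp Nat.prime_three).1 hd]
    simp [S23]) k
  exact_mod_cast h

theorem pow_bd (z : ℕ) (hz : (z : ℝ) ≤ Real.exp 2) (k : ℕ) (v : ℕ) (hv : v = 0 ∨ v.Prime) :
    av v ((z : ℚ) ^ k) ≤ Real.exp (2 * k) := by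
  have h := av_int_le_abs hv ((z : ℤ) ^ k)
  push_cast at h
  refine h.trans ?_
  rw [abs_pow, Nat.abs_cast, mul_comm, Real.exp_nat_mul]
  exact pow_le_pow_left₀ (Nat.cast_nonneg z) hz k

theorem exp_two : (3 : ℝ) ≤ Real.exp 2 := by
  have := Real.add_one_le_exp (2 : ℝ)
  linarith

theorem two_ne_three (a b : ℕ) (h : 1 ≤ a + b) : (2 : ℕ) ^ a ≠ 3 ^ b := by
  intro e
  rcases Nat.eq_zero_or_pos a with rfl | ha
  · have hb : 1 ≤ b := by omega
    have : 1 < 3 ^ b := Nat.one_lt_pow (by omega) (by norm_num)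
    rw [pow_zero] at e
    omega
  · have h2 : 2 ∣ 3 ^ b := by
      rw [← e]
      exact dvd_pow_self 2 (by omega)
    have := Nat.Prime.dvd_of_dvd_pow Nat.prime_two h2
    omega

end RDT_

open RDT_

theorem rdt_proof (hS2U : Stmt_S2U) : Stmt_RDT := by
  classical
  intro U T ζ μ C δ hT hδ hb
  have hT0 : ∀ᶠ n in (U : Filter ℕ), 0 ≤ T n := hT.eventually_ge_atTop 0
  set u₁ : ℕ → ℚ := fun n => 2 ^ ζ n with hu₁
  set u₂ : ℕ → ℚ := fun n => 3 ^ μ n with hu₂
  have m₁ : u₁ ∈ Un U S23 T := by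
    refine ⟨fun n => isU_two _, 2 * C, ?_⟩
    filter_upwards [hb] with n h v hv
    have h1 := pow_bd 2 (by have := exp_two; push_cast; linarith) (ζ n) v (place_of_mem ps23 hv)
    push_cast at h1
    refine h1.trans (Real.exp_le_exp.mpr ?_)
    nlinarith [h.2.1]
  have m₂ : u₂ ∈ Un U S23 T := by
    refine ⟨fun n => isU_three _, 2 * C, ?_⟩
    filter_upwards [hb] with n h v hv
    have h1 := pow_bd 3 (by have := exp_two; push_cast; linarith) (μ n) v (place_of_mem ps23 hv)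
    push_cast at h1
    refine h1.trans (Real.exp_le_exp.mpr ?_)
    nlinarith [h.2.2]
  by_cases hp : ∃ κ : ℚ, ∀ᶠ n in (U : Filter ℕ), u₂ n = κ * u₁ n
  · obtain ⟨κ, hκ⟩ := hp
    have hκ1 : κ ≠ 1 := by
      rintro rfl
      obtain ⟨n, h1, h2⟩ := (hκ.and hb).exists
      rw [one_mul] at h1
      refine two_ne_three (ζ n) (μ n) h2.1 ?_
      have : ((2 : ℚ)) ^ ζ n = 3 ^ μ n := h1.symm
      exact_mod_cast this
    have hd : 0 < |(1 : ℝ) - κ| := by
      rw [abs_pos, sub_ne_zero]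
      intro h
      apply hκ1
      exact_mod_cast h.symm
    have hlim := hT.eventually_ge_atTop (Real.log ((1 + |(κ : ℝ)|) / |(1 : ℝ) - κ|) / δ)
    filter_upwards [hκ, hlim] with n h1 h2
    have e1 : (3 : ℝ) ^ μ n = κ * 2 ^ ζ n := by
      have : (3 : ℚ) ^ μ n = κ * 2 ^ ζ n := h1
      exact_mod_cast this
    have hpos : 0 < (1 + |(κ : ℝ)|) / |(1 : ℝ) - κ| := by positivity
    have e2 : (1 + |(κ : ℝ)|) / |(1 : ℝ) - κ| ≤ Real.exp (δ * T n) := by
      rw [← Real.exp_log hpos]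
      apply Real.exp_le_exp.mpr
      rw [div_le_iff₀ hδ] at h2
      linarith
    rw [div_le_iff₀ hd] at e2
    have p2 : (0 : ℝ) < 2 ^ ζ n := by positivity
    have e3 : |(2 : ℝ) ^ ζ n - 3 ^ μ n| = |(1 : ℝ) - κ| * 2 ^ ζ n := by
      rw [e1, ← abs_of_pos p2, ← abs_mul, abs_of_pos p2]
      congr 1
      ring
    rw [e3]
    calc max ((2 : ℝ) ^ ζ n) (3 ^ μ n) ≤ (1 + |(κ : ℝ)|) * 2 ^ ζ n := by
          refine max_le ?_ ?_
          · nlinarith [abs_nonneg (κ : ℝ)]
          · rw [e1]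
            refine mul_le_mul_of_nonneg_right ?_ p2.le
            have := le_abs_self (κ : ℝ)
            linarith
      _ ≤ (Real.exp (δ * T n) * |(1 : ℝ) - κ|) * 2 ^ ζ n := mul_le_mul_of_nonneg_right e2 p2.le
      _ = Real.exp (δ * T n) * (|(1 : ℝ) - κ| * 2 ^ ζ n) := by ring
  · have hp' : ¬ ∃ κ : ℚ, ∀ᶠ n in (U : Filter ℕ), u₁ n = κ * u₂ n := by
      rintro ⟨κ, hκ⟩
      apply hp
      have hκ0 : κ ≠ 0 := by
        rintro rfl
        obtain ⟨n, h1⟩ := hκ.exists
        rw [zero_mul] at h1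
        exact (pow_ne_zero (ζ n) (two_ne_zero (α := ℚ))) h1
      refine ⟨κ⁻¹, ?_⟩
      filter_upwards [hκ] with n h
      rw [h, inv_mul_cancel_left₀ hκ0]
    have hZ : ∀ᶠ n in (U : Filter ℕ), ∀ i : Fin 1, |(((fun _ _ => 1 : Fin 1 → ℕ → ℤ) i n : ℤ) : ℝ)| ≤
        Real.exp (0 * T n) := Eventually.of_forall fun n i => by simp
    have hI : IndU U S23 T (fun _ _ => 1 : Fin 1 → ℕ → ℤ) := by
      intro H _ h i
      filter_upwards [h] with n h1
      simpa [Subsingleton.elim i 0] using h1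
    have key := hS2U U S23 T 1 (fun _ _ => 1) 0 δ 0 ps23 hT le_rfl hδ (zero_mem_pl _) hZ hI 2
      (fun _ => ![1, -1]) (fun _ => ![u₁, u₂]) (by
        intro i t
        fin_cases t
        · exact m₁
        · exact m₂) 0
    have k1 := key {0} (by
      intro t ht t' h
      rw [Finset.mem_singleton] at ht
      subst ht
      fin_cases t'
      · simp
      · exact absurd h hp)
    have k2 := key {1} (by
      intro t ht t' h
      rw [Finset.mem_singleton] at ht
      subst ht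
      fin_cases t'
      · exact absurd h hp'
      · simp)
    filter_upwards [k1, k2] with n h1 h2
    simp [av_zero_eq, Fin.sum_univ_two] at h1 h2
    have e1 : ((u₁ n : ℚ) : ℝ) = 2 ^ ζ n := by simp [hu₁]
    have e2 : ((u₂ n : ℚ) : ℝ) = 3 ^ μ n := by simp [hu₂]
    rw [e1, e2] at h1 h2
    have p1 : (0 : ℝ) < 2 ^ ζ n := by positivity
    have p2 : (0 : ℝ) < 3 ^ μ n := by positivity
    rw [← sub_eq_add_neg] at h1 h2
    refine max_le ?_ ?_
    · simpa [abs_of_pos p1] using h1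
    · simpa [abs_of_pos p2] using h2

end Pool.Agent.CLX
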