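import Pool.Agent.CLX.Stmts2
import Pool.Agent.SBT.Api
import Pool.Agent.SBT.ING

/-!
# S2U: a linear form in independent integers with coefficients unit sums is not small
-/

set_option autoImplicit false

namespace Pool.Agent.CLX

open Filter Pool.Agent.SBT MvPolynomial

namespace S2U_

/-- monomials in units are units -/
theorem mon_un {U : Ultrafilter ℕ} {S : Finset ℕ} {T : ℕ → ℝ} {r : ℕ} {g : Fin r → ℕ → ℚ}
    (hGd : Gd U S T g) (e : Fin r →₀ ℕ) : mon g e ∈ Un U S T := by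
  refine ⟨fun n => isU_prod hGd.prime _ _ fun i _ => (hGd.unit i n).pow hGd.prime _, ?_⟩
  obtain ⟨C, hC⟩ := hGd.height
  refine ⟨∑ i, (e i : ℝ) * C, ?_⟩
  filter_upwards [hC] with n hn v hv
  have hv' := place_of_mem hGd.prime hv
  unfold mon
  rw [av_prod hv', Finset.sum_mul, Real.exp_sum]
  refine Finset.prod_le_prod (fun i _ => av_nonneg _ _) fun i _ => ?_
  rw [av_pow hv', mul_assoc, Real.exp_nat_mul]
  exact pow_le_pow_left₀ (av_nonneg _ _) (hn i v hv) _

/-- integral combinations of monomials -/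
theorem lc_sum {U : Ultrafilter ℕ} {S : Finset ℕ} {T : ℕ → ℝ} {r : ℕ} {g : Fin r → ℕ → ℚ}
    (hGd : Gd U S T g) (E : Finset (Fin r →₀ ℕ)) (z : (Fin r →₀ ℕ) → ℤ) :
    Lc U (Un U S T) (fun n => ∑ e ∈ E, (z e : ℚ) * mon g e n) := by
  refine ⟨E.card, fun t => z (E.equivFin.symm t), fun t => mon g (E.equivFin.symm t),
    fun t => mon_un hGd _, Eventually.of_forall fun n => ?_⟩
  show ∑ e ∈ E, (z e : ℚ) * mon g e n =
    ∑ t : Fin E.card, (z (E.equivFin.symm t) : ℚ) * mon g (E.equivFin.symm t) n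
  rw [← Finset.sum_coe_sort E]
  exact (Equiv.sum_comp E.equivFin.symm (fun e : E => (z e : ℚ) * mon g e n)).symm

theorem ev_eq {r : ℕ} (g : Fin r → ℕ → ℚ) (n : ℕ) (H : MvPolynomial (Fin r) ℚ) :
    ev g n H = ∑ e ∈ H.support, coeff e H * mon g e n := by
  unfold ev mon
  rw [eval_eq']

/-- common denominator -/
theorem den {r d : ℕ} (H : Fin d → MvPolynomial (Fin r) ℚ) :
    ∃ q : ℤ, q ≠ 0 ∧ ∃ z : Fin d → (Fin r →₀ ℕ) → ℤ, ∀ i, ∀ e ∈ (H i).support,
      (z i e : ℚ) = q * coeff e (H i) := by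
  classical
  set q : ℤ := ∏ i, ∏ e ∈ (H i).support, ((coeff e (H i)).den : ℤ) with hq
  refine ⟨q, ?_, ?_⟩
  · rw [hq]
    refine Finset.prod_ne_zero_iff.2 fun i _ => Finset.prod_ne_zero_iff.2 fun e _ => ?_
    exact_mod_cast (coeff e (H i)).den_nz
  · have key : ∀ i e, ∃ y : ℤ, e ∈ (H i).support → (y : ℚ) = q * coeff e (H i) := by
      intro i e
      by_cases he : e ∈ (H i).support
      · have h1 : ((coeff e (H i)).den : ℤ) ∣ q :=
          (Finset.dvd_prod_of_mem (fun e => ((coeff e (H i)).den : ℤ)) he).trans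
            (Finset.dvd_prod_of_mem (fun i => ∏ e ∈ (H i).support, ((coeff e (H i)).den : ℤ))
              (Finset.mem_univ i))
        obtain ⟨k, hk⟩ := h1
        refine ⟨k * (coeff e (H i)).num, fun _ => ?_⟩
        rw [hk]
        push_cast
        have h2 := Rat.den_mul_eq_num (coeff e (H i))
        rw [← h2]
        ring
      · exact ⟨0, fun h => absurd h he⟩
    choose z hz using key
    exact ⟨z, fun i e he => hz i e he⟩

theorem indp (hUNI : Stmt_UNI) {U : Ultrafilter ℕ} {S : Finset ℕ} {T : ℕ → ℝ} {r d : ℕ}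
    {g : Fin r → ℕ → ℚ} {Z : Fin d → ℕ → ℤ} (hGd : Gd U S T g) (hI : IndU U S T Z) :
    Indp U g Z := by
  intro H hH
  obtain ⟨q, hq, z, hz⟩ := den H
  have hev : ∀ i n, ∑ e ∈ (H i).support, (z i e : ℚ) * mon g e n = q * ev g n (H i) := by
    intro i n
    rw [ev_eq, Finset.mul_sum]
    refine Finset.sum_congr rfl fun e he => ?_
    rw [hz i e he]
    ring
  have h1 := hI (fun i n => ∑ e ∈ (H i).support, (z i e : ℚ) * mon g e n)
    (fun i => lc_sum hGd _ _) (by
      filter_upwards [hH] with n hn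
      have e1 : ∑ i, (∑ e ∈ (H i).support, (z i e : ℚ) * mon g e n) * (Z i n : ℚ) =
          q * ∑ i, ev g n (H i) * (Z i n : ℚ) := by
        rw [Finset.mul_sum]
        refine Finset.sum_congr rfl fun i _ => ?_
        rw [hev]
        ring
      rw [e1, hn, mul_zero])
  funext i
  refine hUNI U S r g hGd.prime hGd.unit hGd.ind (H i) ?_
  filter_upwards [h1 i] with n hn
  rw [hev] at hn
  rcases mul_eq_zero.1 hn with h | h
  · exact absurd (by exact_mod_cast h) hq
  · exact h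

end S2U_

open S2U_

theorem s2u_proof (hUNI : Pool.Agent.SBT.Stmt_UNI) (hBAG : Pool.Agent.SBT.Stmt_BAG)
    (hS2V : Stmt_S2V) : Stmt_S2U := by
  classical
  intro U S T d Z B δ w hS hT hB hδ hw hZ hI K c u hu i₀ P hP
  have hw' := place_of_mem hS hw
  obtain ⟨r, g, hGd, hG⟩ := hBAG U S T (d * K)
    (fun k => u (finProdFinEquiv.symm k).1 (finProdFinEquiv.symm k).2) hS hT (fun k => hu _ _)
  have hG' : ∀ i t, u i t ∈ Gg U g := by
    intro i t
    have := hG (finProdFinEquiv (i, t))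
    simpa using this
  choose κ e hκ he using hG'
  have hg0 : ∀ n i, g i n ≠ 0 := fun n i => (hGd.unit i n).ne_zero
  set ρ : Fin r →₀ ℕ := Finsupp.equivFunOnFinite.symm
    (fun i => ∑ j, ∑ t, (e j t i).natAbs) with hρ
  have hρi : ∀ i, ρ i = ∑ j, ∑ t, (e j t i).natAbs := fun i => rfl
  have hρ₁ : ∀ j t i, 0 ≤ e j t i + ρ i := by
    intro j t i
    have a1 : (e j t i).natAbs ≤ ∑ t, (e j t i).natAbs :=
      Finset.single_le_sum (f := fun t => (e j t i).natAbs) (fun _ _ => Nat.zero_le _)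
        (Finset.mem_univ t)
    have a3 : ∑ t, (e j t i).natAbs ≤ ∑ j, ∑ t, (e j t i).natAbs :=
      Finset.single_le_sum (f := fun j => ∑ t, (e j t i).natAbs) (fun _ _ => Nat.zero_le _)
        (Finset.mem_univ j)
    have a2 := hρi i
    omega
  have hν : ∀ n, mon g ρ n ≠ 0 := by
    intro n
    unfold mon
    exact Finset.prod_ne_zero_iff.2 fun i _ => pow_ne_zero _ (hGd.unit i n).ne_zero
  set D : Fin d → MvPolynomial (Fin r) ℚ :=
    fun j => ∑ t, monomial (ING_.sh (e j t) ρ) ((c j t : ℚ) * κ j t) with hD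
  have hall : ∀ᶠ n in (U : Filter ℕ), ∀ j t, u j t n = κ j t * ∏ i, g i n ^ e j t i :=
    eventually_all.2 fun j => eventually_all.2 (he j)
  have hval : ∀ᶠ n in (U : Filter ℕ), ∀ j,
      ev g n (D j) = mon g ρ n * ∑ t, (c j t : ℚ) * u j t n := by
    filter_upwards [hall] with n hn j
    rw [hD]
    simp only
    rw [ING_.ev_sum, Finset.mul_sum]
    refine Finset.sum_congr rfl fun t _ => ?_
    rw [ING_.mon_sh g n (hg0 n) _ _ (hρ₁ j t), hn j t]
    ring
  have hInd := indp hUNI hGd hI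
  have key := hS2V U S T r d g Z B (δ / 2) D w hGd hB (half_pos hδ) hw hZ hInd i₀
  -- the exponents of `P`
  set X : Finset (Fin r →₀ ℕ) := P.image fun t => ING_.sh (e i₀ t) ρ with hX
  have hcl : ∀ f ∈ X, ∀ t, ING_.sh (e i₀ t) ρ = f → t ∈ P := by
    intro f hf t ht
    obtain ⟨t₁, ht₁, hf₁⟩ := Finset.mem_image.1 hf
    refine hP t₁ ht₁ t ⟨κ i₀ t / κ i₀ t₁, ?_⟩
    filter_upwards [hall] with n hn
    have h1 := ING_.mon_sh g n (hg0 n) _ _ (hρ₁ i₀ t)
    have h2 := ING_.mon_sh g n (hg0 n) _ _ (hρ₁ i₀ t₁)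
    rw [ht] at h1
    rw [hf₁, h1] at h2
    have h3 := mul_right_cancel₀ (hν n) h2
    rw [hn i₀ t, hn i₀ t₁, h3]
    have := (hκ i₀ t₁).ne'
    field_simp
  have hcoeff : ∀ f ∈ X, coeff f (D i₀) =
      ∑ t ∈ P with ING_.sh (e i₀ t) ρ = f, (c i₀ t : ℚ) * κ i₀ t := by
    intro f hf
    rw [hD]
    simp only
    rw [coeff_sum]
    simp only [coeff_monomial]
    rw [← Finset.sum_filter]
    refine Finset.sum_congr ?_ fun _ _ => rfl
    ext t
    simp only [Finset.mem_filter, Finset.mem_univ, true_and]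
    exact ⟨fun h => ⟨hcl f hf t h, h⟩, fun h => h.2⟩
  have hsum : ∀ᶠ n in (U : Filter ℕ), mon g ρ n * ∑ t ∈ P, (c i₀ t : ℚ) * u i₀ t n =
      ∑ f ∈ X, coeff f (D i₀) * mon g f n := by
    filter_upwards [hall] with n hn
    have h1 : ∑ f ∈ X, coeff f (D i₀) * mon g f n =
        ∑ f ∈ X, ∑ t ∈ P with ING_.sh (e i₀ t) ρ = f,
          (c i₀ t : ℚ) * κ i₀ t * mon g (ING_.sh (e i₀ t) ρ) n := by
      refine Finset.sum_congr rfl fun f hf => ?_
      rw [hcoeff f hf, Finset.sum_mul]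
      refine Finset.sum_congr rfl fun t ht => ?_
      rw [(Finset.mem_filter.1 ht).2]
    rw [h1, Finset.sum_fiberwise_of_maps_to (fun t ht => Finset.mem_image_of_mem _ ht),
      Finset.mul_sum]
    refine Finset.sum_congr rfl fun t _ => ?_
    rw [ING_.mon_sh g n (hg0 n) _ _ (hρ₁ i₀ t), hn i₀ t]
    ring
  have hkey : ∀ᶠ n in (U : Filter ℕ), ∀ f : (D i₀).support,
      av w (mon g f n) ≤
        Real.exp ((d * B + δ / 2) * T n) * av w (∑ i, ev g n (D i) * (Z i n : ℚ)) :=
    eventually_all.2 fun f => key f f.2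
  filter_upwards [hval, hsum, hkey,
    ev_const_le_exp hT (half_pos hδ) (∑ f ∈ X, av w (coeff f (D i₀)))] with n h1 h2 h3 h4
  have hSg : ∑ i, ev g n (D i) * (Z i n : ℚ) =
      mon g ρ n * ∑ i, (∑ t, (c i t : ℚ) * u i t n) * (Z i n : ℚ) := by
    rw [Finset.mul_sum]
    refine Finset.sum_congr rfl fun i _ => ?_
    rw [h1 i]
    ring
  set F : ℝ := av w (∑ i, (∑ t, (c i t : ℚ) * u i t n) * (Z i n : ℚ)) with hF
  have hF0 : 0 ≤ F := av_nonneg _ _
  have hmp : 0 < av w (mon g ρ n) := av_pos hw' (hν n)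
  have h5 : av w (mon g ρ n) * av w (∑ t ∈ P, (c i₀ t : ℚ) * u i₀ t n) ≤
      av w (mon g ρ n) * (Real.exp ((d * B + δ) * T n) * F) := by
    rw [← av_mul hw', h2]
    calc av w (∑ f ∈ X, coeff f (D i₀) * mon g f n)
        ≤ ∑ f ∈ X, av w (coeff f (D i₀) * mon g f n) := av_sum_le hw' _ _
      _ ≤ ∑ f ∈ X, av w (coeff f (D i₀)) *
          (Real.exp ((d * B + δ / 2) * T n) * (av w (mon g ρ n) * F)) := by
          refine Finset.sum_le_sum fun f _ => ?_
          by_cases hf : f ∈ (D i₀).support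
          · rw [av_mul hw']
            refine mul_le_mul_of_nonneg_left ?_ (av_nonneg _ _)
            have := h3 ⟨f, hf⟩
            rw [hSg, av_mul hw'] at this
            exact this
          · rw [notMem_support_iff.1 hf, zero_mul, av_zero, zero_mul]
      _ = (∑ f ∈ X, av w (coeff f (D i₀))) *
          (Real.exp ((d * B + δ / 2) * T n) * (av w (mon g ρ n) * F)) := by
          rw [Finset.sum_mul]
      _ ≤ Real.exp (δ / 2 * T n) *
          (Real.exp ((d * B + δ / 2) * T n) * (av w (mon g ρ n) * F)) := by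
          refine mul_le_mul_of_nonneg_right h4 ?_
          positivity
      _ = av w (mon g ρ n) * (Real.exp ((d * B + δ) * T n) * F) := by
          have e1 : Real.exp ((d * B + δ) * T n) =
              Real.exp (δ / 2 * T n) * Real.exp ((d * B + δ / 2) * T n) := by
            rw [← Real.exp_add]
            congr 1
            ring
          rw [e1]
          ring
  exact le_of_mul_le_mul_left h5 hmp

end Pool.Agent.CLX
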