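import Pool.Agent.CLX.Stmts
import Pool.Agent.SBT.S2T

/-!
# S2V: a linear form in independent integers with unit coefficients is not small, at any place
-/

set_option autoImplicit false

namespace Pool.Agent.CLX

open Filter Pool.Agent.SBT

namespace S2V_

open S2Tp

/-- the leading term -/
theorem core (hSBB : Stmt_SBB) (hSIM : Stmt_SIM) (hLTM : Stmt_LTM) (U : Ultrafilter ℕ)
    (S : Finset ℕ) (T : ℕ → ℝ) (r d : ℕ) (g : Fin r → ℕ → ℚ) (Z : Fin d → ℕ → ℤ) (B δ : ℝ)
    (D : Fin d → MvPolynomial (Fin r) ℚ) (hG : Gd U S T g) (hB : 0 ≤ B) (hδ : 0 < δ)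
    (hZ : ∀ᶠ n in (U : Filter ℕ), ∀ i, |(Z i n : ℝ)| ≤ Real.exp (B * T n))
    (hI : Indp U g Z) (w : ℕ) (hw : w ∈ pl S) (lt : (Fin r →₀ ℕ) → (Fin r →₀ ℕ) → Prop)
    (hlt : IsStrictTotalOrder (Fin r →₀ ℕ) lt)
    (hadd : ∀ e e' f, lt e e' → lt (e + f) (e' + f)) (i₀ : Fin d) (a : Fin r →₀ ℕ)
    (ha : a ∈ (D i₀).support) (hmax : ∀ e ∈ (D i₀).support, e = a ∨ lt e a) :
    ∀ᶠ n in (U : Filter ℕ), av w (mon g a n) ≤
        Real.exp ((d * B + δ) * T n) * av w (∑ i, ev g n (D i) * (Z i n : ℚ)) := by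
  classical
  have hS := hG.prime
  have hwp := place_of_mem hS hw
  obtain ⟨q, hq, hqD⟩ := exq D
  obtain ⟨m, hm⟩ : ∃ m : ℕ, ∀ i, ∀ e ∈ (D i).support, ∑ j, e j ≤ m := by
    refine ⟨Finset.univ.sup fun i => (D i).support.sup fun e => ∑ j, e j, fun i e he => ?_⟩
    exact (Finset.le_sup (f := fun e : Fin r →₀ ℕ => ∑ j, e j) he).trans
      (Finset.le_sup (f := fun i => (D i).support.sup fun e : Fin r →₀ ℕ => ∑ j, e j)
        (Finset.mem_univ i))
  have hdB : 0 ≤ (d : ℝ) * B := by positivity
  set δ' : ℝ := δ / (4 * (d * B + 1)) with hδ'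
  have hδ'p : 0 < δ' := by positivity
  obtain ⟨h, hh⟩ := hSIM.2 r m δ' hδ'p
  have hcard := hh h le_rfl
  set E := Exs r (h + m) with hE
  set F := Exs r h with hF
  have hEm : ∀ e, e ∈ E ↔ ∑ i, e i ≤ h + m := fun e => hSIM.1 r (h + m) e
  have hFm : ∀ e, e ∈ F ↔ ∑ i, e i ≤ h := fun e => hSIM.1 r h e
  have hFpos : 0 < F.card := by
    refine Finset.card_pos.mpr ⟨0, (hFm 0).mpr (by simp)⟩
  -- the coefficients
  set A : (Fin d × {e // e ∈ E}) ⊕ {f // f ∈ F} → (Fin d × {e // e ∈ E}) → ℚ :=
    Sum.elim (fun k k' => if k' = k then 1 else 0)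
      (fun f k => MvPolynomial.coeff k.2.1 (MvPolynomial.monomial f.1 (q : ℚ) * D k.1)) with hA
  set x : (Fin d × {e // e ∈ E}) ⊕ {f // f ∈ F} → ℕ → ℚ :=
    fun j n => ∑ k, A j k * y E g Z k n with hx
  have hxl : ∀ k n, x (Sum.inl k) n = y E g Z k n := by
    intro k n
    simp [hx, hA]
  have hsub : ∀ (f : {f // f ∈ F}) (i : Fin d),
      (MvPolynomial.monomial f.1 (q : ℚ) * D i).support ⊆ E := by
    intro f i e he
    rw [MvPolynomial.mem_support_iff, MvPolynomial.coeff_monomial_mul'] at he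
    by_cases hfe : f.1 ≤ e
    · rw [if_pos hfe] at he
      have h1 : e - f.1 ∈ (D i).support := by
        rw [MvPolynomial.mem_support_iff]
        exact right_ne_zero_of_mul he
      have h2 := hm i _ h1
      have h3 := (hFm f.1).mp f.2
      rw [hEm]
      have h4 : ∑ j, e j = ∑ j, f.1 j + ∑ j, (e - f.1) j := by
        rw [← Finset.sum_add_distrib]
        refine Finset.sum_congr rfl fun j _ => ?_
        have := hfe j
        rw [Finsupp.tsub_apply]
        omega
      omega
    · rw [if_neg hfe] at he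
      exact absurd rfl he
  have hxr : ∀ (f : {f // f ∈ F}) n, x (Sum.inr f) n =
      (q : ℚ) * mon g f.1 n * ∑ i, ev g n (D i) * (Z i n : ℚ) := by
    intro f n
    have h1 : x (Sum.inr f) n = ∑ i, ev g n (pol (fun k => A (Sum.inr f) k) i) * (Z i n : ℚ) :=
      y_sum g Z (fun k => A (Sum.inr f) k) n
    rw [h1, Finset.mul_sum]
    refine Finset.sum_congr rfl fun i _ => ?_
    have h2 : ev g n (pol (fun k => A (Sum.inr f) k) i) =
        ev g n (MvPolynomial.monomial f.1 (q : ℚ) * D i) := by
      rw [ev_pol, ev_eq g n _ E (hsub f i), ← Finset.sum_coe_sort E]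
      rfl
    rw [h2, ev_mul, ev_monomial]
    ring
  have hAint : ∀ j k, ∃ z : ℤ, A j k = z := by
    rintro (k' | f) k
    · by_cases hk : k = k'
      · exact ⟨1, by simp [hA, hk]⟩
      · exact ⟨0, by simp [hA, hk]⟩
    · simp only [hA, Sum.elim_inr, MvPolynomial.coeff_monomial_mul']
      split
      · exact hqD k.1 _
      · exact ⟨0, by simp⟩
  -- independence
  have hyI : ∀ c : Fin d × {e // e ∈ E} → ℚ,
      (∀ᶠ n in (U : Filter ℕ), ∑ k, c k * y E g Z k n = 0) → ∀ k, c k = 0 :=
    fun c hc k => y_ind hI c hc k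
  have haE : ∀ f : {f // f ∈ F}, a + f.1 ∈ E := by
    intro f
    rw [hEm]
    have h2 := hm i₀ _ ha
    have h3 := (hFm f.1).mp f.2
    have h4 : ∑ j, (a + f.1) j = ∑ j, a j + ∑ j, f.1 j := by
      rw [← Finset.sum_add_distrib]
      rfl
    omega
  set sp : Finset (Fin d × {e // e ∈ E}) :=
    Finset.univ.image (fun f : {f // f ∈ F} => (i₀, (⟨a + f.1, haE f⟩ : {e // e ∈ E}))) with hsp
  have hspinj : Function.Injective
      (fun f : {f // f ∈ F} => ((i₀, (⟨a + f.1, haE f⟩ : {e // e ∈ E})) :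
        Fin d × {e // e ∈ E})) := by
    intro f f' hff
    have h1 : a + f.1 = a + f'.1 := congrArg (fun z => z.2.1) hff
    exact Subtype.ext (add_left_cancel h1)
  have hspcard : sp.card = F.card := by
    rw [hsp, Finset.card_image_of_injective _ hspinj, Finset.card_univ, Fintype.card_coe]
  set B0 : Finset ((Fin d × {e // e ∈ E}) ⊕ {f // f ∈ F}) :=
    (Finset.univ \ sp).disjSum Finset.univ with hB0
  set B1 : Finset ((Fin d × {e // e ∈ E}) ⊕ {f // f ∈ F}) :=
    (Finset.univ : Finset (Fin d × {e // e ∈ E})).disjSum ∅ with hB1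
  have hKcard : Fintype.card (Fin d × {e // e ∈ E}) = d * E.card := by
    rw [Fintype.card_prod, Fintype.card_fin, Fintype.card_coe]
  have hspK : sp.card ≤ d * E.card := by
    rw [← hKcard]
    exact Finset.card_le_univ sp
  have hB0card : B0.card = d * E.card := by
    rw [hB0, Finset.card_disjSum, Finset.card_sdiff_of_subset (Finset.subset_univ sp),
      Finset.card_univ, hKcard, Finset.card_univ, Fintype.card_coe]
    omega
  have hB1card : B1.card = d * E.card := by
    rw [hB1, Finset.card_disjSum, Finset.card_univ, hKcard, Finset.card_empty]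
    omega
  have hLI1 : LI U x B1 := by
    refine LI_of hyI A x (fun j n => rfl) B1 ?_
    intro c hc j hj
    rw [hB1, Finset.mem_disjSum] at hj
    rcases hj with ⟨k, -, rfl⟩ | ⟨f, hf, -⟩
    · have h1 := hc k
      rw [hB1, Finset.sum_disjSum, Finset.sum_empty, add_zero] at h1
      simpa [hA] using h1
    · exact absurd hf (Finset.notMem_empty f)
  have hLI0 : LI U x B0 := by
    refine LI_of hyI A x (fun j n => rfl) B0 ?_
    intro c hc
    have hc' : ∀ k, (∑ k' ∈ Finset.univ \ sp, c (Sum.inl k') * A (Sum.inl k') k) +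
        ∑ f, c (Sum.inr f) * A (Sum.inr f) k = 0 := by
      intro k
      have h1 := hc k
      rw [hB0, Finset.sum_disjSum] at h1
      exact h1
    -- the second part vanishes
    have hr : ∀ f, c (Sum.inr f) = 0 := by
      by_contra hcon
      push Not at hcon
      obtain ⟨f₁, hf₁⟩ := hcon
      set P : MvPolynomial (Fin r) ℚ :=
        ∑ f : {f // f ∈ F}, MvPolynomial.monomial f.1 (c (Sum.inr f)) with hP
      have hPc : ∀ f : {f // f ∈ F}, MvPolynomial.coeff f.1 P = c (Sum.inr f) := by
        intro f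
        rw [hP, MvPolynomial.coeff_sum, Finset.sum_eq_single f]
        · rw [MvPolynomial.coeff_monomial, if_pos rfl]
        · intro e' _ hne
          rw [MvPolynomial.coeff_monomial, if_neg fun h => hne (Subtype.ext h)]
        · intro h
          exact absurd (Finset.mem_univ f) h
      have hPs : ∀ e ∈ P.support, e ∈ F := by
        intro e he
        by_contra hne
        rw [MvPolynomial.mem_support_iff, hP, MvPolynomial.coeff_sum] at he
        apply he
        refine Finset.sum_eq_zero fun f _ => ?_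
        rw [MvPolynomial.coeff_monomial, if_neg]
        rintro rfl
        exact hne f.2
      have hPne : P.support.Nonempty := by
        refine ⟨f₁.1, ?_⟩
        rw [MvPolynomial.mem_support_iff, hPc]
        exact hf₁
      obtain ⟨e, heP, hemax⟩ := exmax hlt P.support hPne
      have heF := hPs e heP
      have h1 := hLTM r lt hlt hadd (D i₀) P a e hmax hemax
      have h2 : MvPolynomial.coeff (a + e) (D i₀ * P) ≠ 0 := by
        rw [h1]
        exact mul_ne_zero (MvPolynomial.mem_support_iff.mp ha)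
          (MvPolynomial.mem_support_iff.mp heP)
      -- evaluate the relation
      set k : Fin d × {e // e ∈ E} := (i₀, ⟨a + e, haE ⟨e, heF⟩⟩) with hk
      have hksp : k ∈ sp := by
        rw [hsp, Finset.mem_image]
        exact ⟨⟨e, heF⟩, Finset.mem_univ _, rfl⟩
      have h3 := hc' k
      have h4 : ∑ k' ∈ Finset.univ \ sp, c (Sum.inl k') * A (Sum.inl k') k = 0 := by
        refine Finset.sum_eq_zero fun k' hk' => ?_
        have h5 : k ≠ k' := by
          rintro rfl
          exact (Finset.mem_sdiff.mp hk').2 hksp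
        simp [hA, h5]
      rw [h4, zero_add] at h3
      have h6 : ∑ f, c (Sum.inr f) * A (Sum.inr f) k =
          q * MvPolynomial.coeff (a + e) (D i₀ * P) := by
        rw [hP, Finset.mul_sum, MvPolynomial.coeff_sum, Finset.mul_sum]
        refine Finset.sum_congr rfl fun f _ => ?_
        have h7 : D i₀ * MvPolynomial.monomial f.1 (c (Sum.inr f)) =
            MvPolynomial.monomial f.1 (c (Sum.inr f)) * D i₀ := mul_comm _ _
        rw [h7, MvPolynomial.coeff_monomial_mul']
        have h8 : A (Sum.inr f) k =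
            if f.1 ≤ a + e then (q : ℚ) * MvPolynomial.coeff (a + e - f.1) (D i₀) else 0 := by
          simp only [hA, Sum.elim_inr, hk]
          rw [MvPolynomial.coeff_monomial_mul']
        rw [h8]
        split <;> ring
      rw [h6] at h3
      have hq0 : (q : ℚ) ≠ 0 := by exact_mod_cast hq.ne'
      exact h2 ((mul_eq_zero.mp h3).resolve_left hq0)
    intro j hj
    rw [hB0, Finset.mem_disjSum] at hj
    rcases hj with ⟨k, hk, rfl⟩ | ⟨f, hf, rfl⟩
    · have h1 := hc' k
      have h2 : ∑ f, c (Sum.inr f) * A (Sum.inr f) k = 0 :=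
        Finset.sum_eq_zero fun f _ => by rw [hr f, zero_mul]
      rw [h2, add_zero, Finset.sum_eq_single k] at h1
      · simpa [hA] using h1
      · intro k' _ hne
        simp [hA, Ne.symm hne]
      · intro h
        exact absurd hk h
    · exact hr f
  -- the Subspace theorem
  obtain ⟨C, hC0, hC⟩ := mon_le hG (h + m)
  have hyle : ∀ᶠ n in (U : Filter ℕ), ∀ k, ∀ v ∈ pl S,
      av v (y E g Z k n) ≤ Real.exp ((C + B) * T n) := by
    filter_upwards [hC, hZ] with n hn hZn k v hv
    have hp := place_of_mem hS hv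
    unfold y
    rw [av_mul hp, add_mul, Real.exp_add]
    refine mul_le_mul (hn k.2.1 ((hEm _).mp k.2.2) v hv) ?_ (av_nonneg _ _)
      (Real.exp_pos _).le
    exact (av_int_le_abs hp _).trans (hZn k.1)
  have hxle := fam_le hS hG.lim (y E g Z) A x (fun j n => rfl) (C + B) hyle
  have hint : ∀ᶠ n in (U : Filter ℕ), ∀ j, ∀ p : ℕ, p.Prime → p ∉ S →
      padicNorm p (x j n) ≤ 1 := by
    refine Filter.Eventually.of_forall fun n j => ?_
    refine SInt.sum _ _ fun k _ => ?_
    obtain ⟨z, hz⟩ := hAint j k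
    rw [hz]
    refine (sInt_int S z).mul ?_
    exact ((mon_isU hS hG.unit _ _).sInt hS).mul (sInt_int S _)
  have hsbb := hSBB S U T ((Fin d × {e // e ∈ E}) ⊕ {f // f ∈ F}) x
    (fun v => if v = w then B0 else B1) (d * E.card) (C + B + 1) (δ / 4) hS hG.lim hint hxle
    (by
      intro v _
      by_cases hv0 : v = w
      · simp only [hv0, if_true]
        exact ⟨hLI0, hB0card⟩
      · simp only [hv0, if_false]
        exact ⟨hLI1, hB1card⟩)
    (by
      intro B' hB'
      have := LI_card (y E g Z) A x (fun j n => rfl) B' hB'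
      rw [hKcard] at this
      exact this) (by positivity)
  filter_upwards [hsbb, hZ, ev_const_le_exp hG.lim (by positivity : 0 < δ / 4) (q : ℝ),
    ev_pos hG.lim] with n hn hZn hqn hTn
  set Dn : ℝ := av w (∑ i, ev g n (D i) * (Z i n : ℚ)) with hDn
  have hDn0 : 0 ≤ Dn := av_nonneg _ _
  set G0 : ℕ → (Fin r →₀ ℕ) → ℝ := fun v e => av v (mon g e n) with hG0
  have hmne : ∀ e, mon g e n ≠ 0 := fun e => (mon_isU hS hG.unit e n).ne_zero
  have hG0pos : ∀ v ∈ pl S, ∀ e, 0 < G0 v e := fun v hv e => av_pos (place_of_mem hS hv) (hmne e)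
  have hGw : ∀ e, 0 < G0 w e := hG0pos w hw
  have hBT : 0 ≤ B * T n := mul_nonneg hB hTn.le
  set c : ℕ → ℝ := fun v => if v = 0 then Real.exp (B * T n) else 1 with hc
  have hc1 : ∀ v, 1 ≤ c v := by
    intro v
    simp only [hc]
    split
    · exact Real.one_le_exp hBT
    · exact le_rfl
  have hc0 : ∀ v, 0 < c v := fun v => lt_of_lt_of_le one_pos (hc1 v)
  have hcZ : ∀ v ∈ pl S, ∀ i, av v (Z i n : ℚ) ≤ c v := by
    intro v hv i
    by_cases hv0 : v = 0
    · simp only [hc, hv0, if_true]
      exact (av_int_le_abs (Or.inl rfl) _).trans (hZn i)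
    · simp only [hc, if_neg hv0]
      rcases place_of_mem hS hv with h | h
      · exact absurd h hv0
      · exact av_int_le_one h _
  have hcprod : ∏ v ∈ pl S, c v = Real.exp (B * T n) := by
    rw [prod_pl hS]
    have h1 : ∏ p ∈ S, c p = 1 := Finset.prod_eq_one fun p hp => by
      simp only [hc, if_neg (hS p hp).ne_zero]
    rw [h1, mul_one]
    simp only [hc, if_true]
  set X : ℝ := (q : ℝ) * Dn / G0 w a with hX
  have hX0 : 0 ≤ X := div_nonneg (by positivity) (hGw a).le
  -- the place `w`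
  have hinf : ∏ j ∈ B0, av w (x j n) ≤
      (∏ k : Fin d × {e // e ∈ E}, G0 w k.2.1) * (c w ^ (d * E.card) * X ^ F.card) := by
    rw [hB0, Finset.prod_disjSum]
    have h1 : ∏ k ∈ Finset.univ \ sp, av w (x (Sum.inl k) n) ≤
        (∏ k ∈ Finset.univ \ sp, G0 w k.2.1) * c w ^ (d * E.card) := by
      calc ∏ k ∈ Finset.univ \ sp, av w (x (Sum.inl k) n)
          ≤ ∏ k ∈ Finset.univ \ sp, (G0 w k.2.1 * c w) := by
            refine Finset.prod_le_prod (fun k _ => av_nonneg _ _) fun k _ => ?_
            rw [hxl]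
            unfold y
            rw [av_mul hwp]
            exact mul_le_mul_of_nonneg_left (hcZ w hw k.1) (hGw _).le
        _ = (∏ k ∈ Finset.univ \ sp, G0 w k.2.1) * c w ^ (d * E.card - F.card) := by
            rw [Finset.prod_mul_distrib, Finset.prod_const,
              Finset.card_sdiff_of_subset (Finset.subset_univ sp), Finset.card_univ, hKcard,
              hspcard]
        _ ≤ _ := by
            refine mul_le_mul_of_nonneg_left ?_ (Finset.prod_nonneg fun k _ => (hGw _).le)
            exact pow_le_pow_right₀ (hc1 w) (Nat.sub_le _ _)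
    have h2 : ∏ f : {f // f ∈ F}, av w (x (Sum.inr f) n) ≤
        (∏ k ∈ sp, G0 w k.2.1) * X ^ F.card := by
      have h3 : ∏ k ∈ sp, G0 w k.2.1 = ∏ f : {f // f ∈ F}, (G0 w a * G0 w f.1) := by
        rw [hsp, Finset.prod_image fun _ _ _ _ h => hspinj h]
        refine Finset.prod_congr rfl fun f _ => ?_
        show av w (mon g (a + f.1) n) = _
        rw [mon_add, av_mul hwp]
      have h4 : X ^ F.card = ∏ f : {f // f ∈ F}, X := by
        rw [Finset.prod_const, Finset.card_univ, Fintype.card_coe]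
      rw [h3, h4, ← Finset.prod_mul_distrib]
      refine Finset.prod_le_prod (fun f _ => av_nonneg _ _) fun f _ => ?_
      rw [hxr, av_mul hwp, av_mul hwp]
      have h5 : av w (q : ℚ) ≤ q := by
        have h51 := av_int_le_abs hwp (q : ℤ)
        simpa using h51
      have h7 := (hGw a).ne'
      calc av w (q : ℚ) * av w (mon g f.1 n) * Dn ≤ (q : ℝ) * G0 w f.1 * Dn :=
            mul_le_mul_of_nonneg_right (mul_le_mul_of_nonneg_right h5 (av_nonneg _ _)) hDn0
        _ = G0 w a * G0 w f.1 * X := by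
            rw [hX]
            field_simp
    have h8 : ∏ k : Fin d × {e // e ∈ E}, G0 w k.2.1 =
        (∏ k ∈ Finset.univ \ sp, G0 w k.2.1) * ∏ k ∈ sp, G0 w k.2.1 :=
      (Finset.prod_sdiff (Finset.subset_univ sp)).symm
    rw [h8]
    calc (∏ k ∈ Finset.univ \ sp, av w (x (Sum.inl k) n)) *
          ∏ f : {f // f ∈ F}, av w (x (Sum.inr f) n)
        ≤ ((∏ k ∈ Finset.univ \ sp, G0 w k.2.1) * c w ^ (d * E.card)) *
          ((∏ k ∈ sp, G0 w k.2.1) * X ^ F.card) :=
          mul_le_mul h1 h2 (Finset.prod_nonneg fun f _ => av_nonneg _ _)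
            (mul_nonneg (Finset.prod_nonneg fun k _ => (hGw _).le)
              (pow_nonneg (hc0 w).le _))
      _ = _ := by ring
  -- the other places
  have hfin : ∀ v ∈ pl S, ∏ j ∈ B1, av v (x j n) ≤
      (∏ k : Fin d × {e // e ∈ E}, G0 v k.2.1) * c v ^ (d * E.card) := by
    intro v hv
    have hvp := place_of_mem hS hv
    rw [hB1, Finset.prod_disjSum, Finset.prod_empty, mul_one]
    calc ∏ k : Fin d × {e // e ∈ E}, av v (x (Sum.inl k) n)
        ≤ ∏ k : Fin d × {e // e ∈ E}, (G0 v k.2.1 * c v) := by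
          refine Finset.prod_le_prod (fun k _ => av_nonneg _ _) fun k _ => ?_
          rw [hxl]
          unfold y
          rw [av_mul hvp]
          exact mul_le_mul_of_nonneg_left (hcZ v hv k.1) (av_nonneg _ _)
      _ = _ := by
          rw [Finset.prod_mul_distrib, Finset.prod_const, Finset.card_univ, hKcard]
  have hone : ∏ v ∈ pl S, ∏ k : Fin d × {e // e ∈ E}, G0 v k.2.1 = 1 := by
    rw [Finset.prod_comm]
    exact Finset.prod_eq_one fun k _ => (mon_isU hS hG.unit k.2.1 n).2
  have htot : Real.exp (-(δ / 4) * T n) ≤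
      Real.exp (B * T n) ^ (d * E.card) * X ^ F.card := by
    refine hn.trans ?_
    calc ∏ v ∈ pl S, ∏ j ∈ (if v = w then B0 else B1), av v (x j n)
        ≤ ∏ v ∈ pl S, (((∏ k : Fin d × {e // e ∈ E}, G0 v k.2.1) * c v ^ (d * E.card)) *
          (if v = w then X ^ F.card else 1)) := by
          refine Finset.prod_le_prod
            (fun v _ => Finset.prod_nonneg fun j _ => av_nonneg _ _) fun v hv => ?_
          by_cases hvw : v = w
          · rw [if_pos hvw, if_pos hvw, hvw, mul_assoc]
            exact hinf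
          · rw [if_neg hvw, if_neg hvw, mul_one]
            exact hfin v hv
      _ = Real.exp (B * T n) ^ (d * E.card) * X ^ F.card := by
          rw [Finset.prod_mul_distrib, Finset.prod_mul_distrib, hone, one_mul,
            Finset.prod_pow, hcprod, Finset.prod_ite_eq' , if_pos hw]
  -- the root
  have hFr : (1 : ℝ) ≤ F.card := by exact_mod_cast hFpos
  have hroot : Real.exp (-(δ / 4 + d * B * (1 + δ')) * T n) ≤ X := by
    refine le_of_pow_le_pow_left₀ hFpos.ne' hX0 ?_
    have h1 : Real.exp (B * T n) ^ (d * E.card) ≤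
        Real.exp (d * B * (1 + δ') * T n * F.card) := by
      rw [← Real.exp_nat_mul]
      apply Real.exp_le_exp.mpr
      push_cast
      calc (d : ℝ) * E.card * (B * T n)
          ≤ d * ((1 + δ') * F.card) * (B * T n) := by
            refine mul_le_mul_of_nonneg_right ?_ hBT
            exact mul_le_mul_of_nonneg_left hcard (by positivity)
        _ = d * B * (1 + δ') * T n * F.card := by ring
    have h4 : Real.exp (-(δ / 4) * T n) ≤ Real.exp (d * B * (1 + δ') * T n * F.card) *
        X ^ F.card :=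
      htot.trans (mul_le_mul_of_nonneg_right h1 (by positivity))
    rw [← Real.exp_nat_mul]
    have h5 : Real.exp ((F.card : ℝ) * (-(δ / 4 + d * B * (1 + δ')) * T n)) ≤
        Real.exp (-(δ / 4) * T n) * Real.exp (-(d * B * (1 + δ') * T n * F.card)) := by
      rw [← Real.exp_add]
      apply Real.exp_le_exp.mpr
      have h6 : 0 ≤ δ / 4 * T n := by positivity
      nlinarith
    refine h5.trans ?_
    rw [Real.exp_neg, ← div_eq_mul_inv, div_le_iff₀ (Real.exp_pos _)]
    calc Real.exp (-(δ / 4) * T n) ≤ _ := h4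
      _ = _ := by ring
  -- conclusion
  have hGa := hGw a
  rw [hX, le_div_iff₀ hGa] at hroot
  show G0 w a ≤ Real.exp ((d * B + δ) * T n) * Dn
  have h1 : G0 w a ≤ Real.exp ((δ / 4 + d * B * (1 + δ')) * T n) * ((q : ℝ) * Dn) := by
    have h2 := mul_le_mul_of_nonneg_left hroot
      (Real.exp_pos ((δ / 4 + d * B * (1 + δ')) * T n)).le
    rw [← mul_assoc, ← Real.exp_add] at h2
    have h3 : (δ / 4 + d * B * (1 + δ')) * T n + -(δ / 4 + d * B * (1 + δ')) * T n = 0 := by
      ring
    rw [h3, Real.exp_zero, one_mul] at h2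
    exact h2
  refine h1.trans ?_
  have h4 : d * B * δ' ≤ δ / 4 := by
    rw [hδ']
    rw [mul_div_assoc', div_le_div_iff₀ (by positivity) (by norm_num)]
    nlinarith
  calc Real.exp ((δ / 4 + d * B * (1 + δ')) * T n) * ((q : ℝ) * Dn)
      ≤ Real.exp ((δ / 4 + d * B * (1 + δ')) * T n) * (Real.exp (δ / 4 * T n) * Dn) := by
        refine mul_le_mul_of_nonneg_left ?_ (Real.exp_pos _).le
        exact mul_le_mul_of_nonneg_right hqn hDn0
    _ = Real.exp ((δ / 4 + d * B * (1 + δ')) * T n + δ / 4 * T n) * Dn := by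
        rw [Real.exp_add]; ring
    _ ≤ Real.exp ((d * B + δ) * T n) * Dn := by
        refine mul_le_mul_of_nonneg_right ?_ hDn0
        apply Real.exp_le_exp.mpr
        nlinarith

end S2V_

open S2Tp (exmax)

/-- module S2V -/
theorem s2v_proof (hSBB : Stmt_SBB) (hSIM : Stmt_SIM) (hVOR : Stmt_VOR) (hLTM : Stmt_LTM) :
    Stmt_S2V := by
  intro U S T r d g Z B δ D w hG hB hδ hw hZ hI i e he
  obtain ⟨lt, hlt, hadd, hle⟩ := hVOR U w r g (place_of_mem hG.prime hw)
    fun i n => (hG.unit i n).pos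
  obtain ⟨a, ha, hmax⟩ := exmax hlt (D i).support ⟨e, he⟩
  have h1 := S2V_.core hSBB hSIM hLTM U S T r d g Z B δ D hG hB hδ hZ hI w hw lt hlt hadd i a ha hmax
  rcases hmax e he with rfl | hea
  · exact h1
  · filter_upwards [h1, hle e a hea] with n hn hn2
    exact hn2.trans hn

end Pool.Agent.CLX
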