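import Pool.Agent.CLX.Stmts2
import Pool.Agent.SBT.Api

/-!
# CLX, module TRN: truncation
-/

set_option autoImplicit false

namespace Pool.Agent.CLX

open Filter Pool.Agent.SBT

namespace TRN_

variable {U : Ultrafilter ℕ} {S : Finset ℕ} {T : ℕ → ℝ}

/-- S2U for `d = 1`, `Z = 1`, and an arbitrary finite index type -/
theorem s1 (hS2U : Stmt_S2U) (hS : PS S) (hT : Tendsto T (U : Filter ℕ) atTop) {δ : ℝ} (hδ : 0 < δ)
    {w : ℕ} (hw : w ∈ pl S) {ι : Type} [Fintype ι] (c : ι → ℤ) (u : ι → ℕ → ℚ)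
    (hu : ∀ t, u t ∈ Un U S T) (P : Finset ι)
    (hP : ∀ t ∈ P, ∀ t', (∃ κ : ℚ, ∀ᶠ n in (U : Filter ℕ), u t' n = κ * u t n) → t' ∈ P) :
    ∀ᶠ n in (U : Filter ℕ), av w (∑ t ∈ P, (c t : ℚ) * u t n) ≤
      Real.exp (δ * T n) * av w (∑ t, (c t : ℚ) * u t n) := by
  classical
  let e := Fintype.equivFin ι
  have hI : IndU U S T (fun (_ : Fin 1) (_ : ℕ) => (1 : ℤ)) := by
    intro H _ h i
    have hi : i = 0 := Subsingleton.elim _ _
    subst hi
    filter_upwards [h] with n hn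
    simpa using hn
  have h := hS2U U S T 1 (fun _ _ => 1) 0 δ w hS hT le_rfl hδ hw
    (Eventually.of_forall fun n i => by simp) hI (Fintype.card ι) (fun _ t => c (e.symm t))
    (fun _ t => u (e.symm t)) (fun _ t => hu _) 0 (P.map e.toEmbedding) (by
      intro t ht t' h
      rw [Finset.mem_map_equiv] at ht ⊢
      exact hP _ ht _ h)
  filter_upwards [h] with n hn
  have e1 : ∑ t ∈ P.map e.toEmbedding, (c (e.symm t) : ℚ) * u (e.symm t) n =
      ∑ t ∈ P, (c t : ℚ) * u t n := by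
    rw [Finset.sum_map]
    refine Finset.sum_congr rfl fun t _ => ?_
    simp
  have e2 : ∑ t, (c (e.symm t) : ℚ) * u (e.symm t) n = ∑ t, (c t : ℚ) * u t n :=
    Equiv.sum_comp e.symm (fun t => (c t : ℚ) * u t n)
  simp only [Fin.sum_univ_one, Int.cast_one, mul_one, Nat.cast_one, one_mul] at hn
  rw [e1, e2] at hn
  simpa using hn

/-- `Lc` from an arbitrary finite index type -/
theorem lc_of {Γ : Set (ℕ → ℚ)} {ι : Type} [Fintype ι] (c : ι → ℤ) (u : ι → ℕ → ℚ)
    (hu : ∀ t, u t ∈ Γ) {f : ℕ → ℚ}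
    (hf : ∀ᶠ n in (U : Filter ℕ), f n = ∑ t, (c t : ℚ) * u t n) : Lc U Γ f := by
  let e := Fintype.equivFin ι
  refine ⟨Fintype.card ι, fun t => c (e.symm t), fun t => u (e.symm t), fun t => hu _, ?_⟩
  filter_upwards [hf] with n hn
  rw [hn]
  exact (Equiv.sum_comp e.symm (fun t => (c t : ℚ) * u t n)).symm

theorem un_mul (hS : PS S) {f g : ℕ → ℚ} (hf : f ∈ Un U S T) (hg : g ∈ Un U S T) :
    (fun n => f n * g n) ∈ Un U S T := by
  obtain ⟨hf1, C, hf2⟩ := hf
  obtain ⟨hg1, D, hg2⟩ := hg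
  refine ⟨fun n => (hf1 n).mul hS (hg1 n), C + D, ?_⟩
  filter_upwards [hf2, hg2] with n h1 h2 v hv
  rw [av_mul (place_of_mem hS hv), add_mul, Real.exp_add]
  exact mul_le_mul (h1 v hv) (h2 v hv) (av_nonneg _ _) (Real.exp_pos _).le

/-- units are not small -/
theorem unit_lower (hS : PS S) (hT : Tendsto T (U : Filter ℕ) atTop) {w : ℕ} (hw : w ∈ pl S)
    {f : ℕ → ℚ} (hf : f ∈ Un U S T) :
    ∃ θ : ℝ, 0 ≤ θ ∧ ∀ᶠ n in (U : Filter ℕ), Real.exp (-(θ * T n)) ≤ av w (f n) := by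
  classical
  obtain ⟨hf1, C, hf2⟩ := hf
  refine ⟨|C| * (pl S).card, by positivity, ?_⟩
  filter_upwards [hf2, ev_pos hT] with n hn hTn
  have h1 := (hf1 n).2
  rw [← Finset.mul_prod_erase _ _ hw] at h1
  have h2 : ∏ v ∈ (pl S).erase w, av v (f n) ≤ Real.exp (|C| * (pl S).card * T n) := by
    calc ∏ v ∈ (pl S).erase w, av v (f n) ≤ ∏ _v ∈ (pl S).erase w, Real.exp (|C| * T n) := by
          apply Finset.prod_le_prod
          · intro v _
            exact av_nonneg _ _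
          · intro v hv
            refine (hn v (Finset.mem_of_mem_erase hv)).trans (Real.exp_le_exp.2 ?_)
            exact mul_le_mul_of_nonneg_right (le_abs_self C) hTn.le
      _ = Real.exp (((pl S).erase w).card * (|C| * T n)) := by
          rw [Finset.prod_const, ← Real.exp_nat_mul]
      _ ≤ _ := by
          apply Real.exp_le_exp.2
          have h3 : ((((pl S).erase w).card : ℕ) : ℝ) ≤ (pl S).card := by
            exact_mod_cast Finset.card_le_card (Finset.erase_subset _ _)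
          have h4 : 0 ≤ |C| * T n := by positivity
          nlinarith
  have h3 : 0 < av w (f n) := av_pos (place_of_mem hS hw) (hf1 n).ne_zero
  have h4 : 1 ≤ av w (f n) * Real.exp (|C| * (pl S).card * T n) := by
    rw [← h1]
    exact mul_le_mul_of_nonneg_left h2 h3.le
  rw [Real.exp_neg, inv_le_iff_one_le_mul₀ (Real.exp_pos _)]
  exact h4

/-- a unit is low -/
def Low (U : Ultrafilter ℕ) (T : ℕ → ℝ) (w : ℕ) (θ : ℝ) (f : ℕ → ℚ) : Prop :=
  ∃ c₀ : ℝ, 0 < c₀ ∧ ∀ᶠ n in (U : Filter ℕ), Real.exp (-(θ * T n)) ≤ c₀ * av w (f n)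

theorem Low.prop (hS : PS S) {w : ℕ} (hw : w ∈ pl S) {θ : ℝ} {f f' : ℕ → ℚ} (hf' : ∀ n, f' n ≠ 0)
    (h : Low U T w θ f) {κ : ℚ} (hκ : ∀ᶠ n in (U : Filter ℕ), f' n = κ * f n) :
    Low U T w θ f' := by
  obtain ⟨c₀, hc₀, h⟩ := h
  have hκ0 : κ ≠ 0 := by
    rintro rfl
    obtain ⟨n, hn⟩ := hκ.exists
    exact hf' n (by rw [hn, zero_mul])
  have hpl := place_of_mem hS hw
  have hk : 0 < av w κ := av_pos hpl hκ0
  refine ⟨c₀ / av w κ, by positivity, ?_⟩
  filter_upwards [h, hκ] with n h1 h2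
  rw [h2, av_mul hpl]
  have e : c₀ / av w κ * (av w κ * av w (f n)) = c₀ * av w (f n) := by
    field_simp
  rw [e]
  exact h1

/-- the sum of all low terms of a small unit sum vanishes -/
theorem low_zero (hS2U : Stmt_S2U) (hS : PS S) (hT : Tendsto T (U : Filter ℕ) atTop) {w : ℕ}
    (hw : w ∈ pl S) {ι : Type} [Fintype ι] (c : ι → ℤ) (u : ι → ℕ → ℚ)
    (hu : ∀ t, u t ∈ Un U S T) {θ : ℝ} (P : Finset ι) (hP : ∀ t, t ∈ P ↔ Low U T w θ (u t))
    (hsm : ∀ᶠ n in (U : Filter ℕ), av w (∑ t, (c t : ℚ) * u t n) ≤ Real.exp (-((θ + 3) * T n))) :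
    ∀ᶠ n in (U : Filter ℕ), ∑ t ∈ P, (c t : ℚ) * u t n = 0 := by
  classical
  have hpl := place_of_mem hS hw
  have hne : ∀ t n, u t n ≠ 0 := fun t n => ((hu t).1 n).ne_zero
  -- proportionality
  let R : Setoid ι :=
    { r := fun t t' => ∃ κ : ℚ, ∀ᶠ n in (U : Filter ℕ), u t' n = κ * u t n
      iseqv :=
        { refl := fun t => ⟨1, Eventually.of_forall fun n => (one_mul _).symm⟩
          symm := by
            rintro t t' ⟨κ, hκ⟩
            have hκ0 : κ ≠ 0 := by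
              rintro rfl
              obtain ⟨n, hn⟩ := hκ.exists
              exact hne t' n (by rw [hn, zero_mul])
            refine ⟨κ⁻¹, ?_⟩
            filter_upwards [hκ] with n hn
            rw [hn]
            field_simp
          trans := by
            rintro t t' t'' ⟨κ, hκ⟩ ⟨κ', hκ'⟩
            refine ⟨κ' * κ, ?_⟩
            filter_upwards [hκ, hκ'] with n h1 h2
            rw [h2, h1]
            ring } }
  have hcls : ∀ t₀ ∈ P, ∀ᶠ n in (U : Filter ℕ),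
      ∑ t ∈ P with (⟦t⟧ : Quotient R) = ⟦t₀⟧, (c t : ℚ) * u t n = 0 := by
    intro t₀ ht₀
    have hlow := (hP t₀).1 ht₀
    have hrel : ∀ t, (⟦t⟧ : Quotient R) = ⟦t₀⟧ ↔ ∃ κ : ℚ, ∀ᶠ n in (U : Filter ℕ), u t n = κ * u t₀ n := by
      intro t
      rw [Quotient.eq]
      constructor
      · intro h
        exact R.symm' h
      · intro h
        exact R.symm' h
    -- the ratio
    have hκ : ∀ t, ∃ κ : ℚ, (⟦t⟧ : Quotient R) = ⟦t₀⟧ → ∀ᶠ n in (U : Filter ℕ), u t n = κ * u t₀ n := by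
      intro t
      by_cases h : (⟦t⟧ : Quotient R) = ⟦t₀⟧
      · obtain ⟨κ, hκ⟩ := (hrel t).1 h
        exact ⟨κ, fun _ => hκ⟩
      · exact ⟨0, fun h' => absurd h' h⟩
    choose κ hκ using hκ
    set a : ℚ := ∑ t ∈ P with (⟦t⟧ : Quotient R) = ⟦t₀⟧, (c t : ℚ) * κ t with ha
    have hsum : ∀ᶠ n in (U : Filter ℕ),
        ∑ t ∈ P with (⟦t⟧ : Quotient R) = ⟦t₀⟧, (c t : ℚ) * u t n = a * u t₀ n := by
      have hall : ∀ᶠ n in (U : Filter ℕ), ∀ t ∈ P.filter (fun t => (⟦t⟧ : Quotient R) = ⟦t₀⟧),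
          u t n = κ t * u t₀ n := by
        rw [Filter.eventually_all_finset]
        intro t ht
        exact hκ t (Finset.mem_filter.1 ht).2
      filter_upwards [hall] with n hn
      rw [ha, Finset.sum_mul]
      refine Finset.sum_congr rfl fun t ht => ?_
      rw [hn t ht]
      ring
    have hbd := s1 hS2U hS hT one_pos hw c u hu (P.filter (fun t => (⟦t⟧ : Quotient R) = ⟦t₀⟧)) (by
      intro t ht t' ht'
      rw [Finset.mem_filter] at ht ⊢
      have h1 : (⟦t'⟧ : Quotient R) = ⟦t₀⟧ := by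
        rw [← ht.2]
        exact Quotient.sound (R.symm' ht')
      refine ⟨?_, h1⟩
      rw [hP]
      obtain ⟨κ', hκ'⟩ := ht'
      exact ((hP t).1 ht.1).prop hS hw (hne t') hκ')
    by_cases ha0 : a = 0
    · filter_upwards [hsum] with n hn
      rw [hn, ha0, zero_mul]
    · exfalso
      obtain ⟨c₀, hc₀, hlow⟩ := hlow
      have haw : 0 < av w a := av_pos hpl ha0
      obtain ⟨n, h1, h2, h3, h4, h5, h6⟩ := (hsum.and (hbd.and (hlow.and (hsm.and
        ((ev_const_le_exp hT one_pos (c₀ / av w a)).and (ev_pos hT)))))).exists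
      rw [h1, av_mul hpl, one_mul] at h2
      have h7 : av w a * av w (u t₀ n) ≤ Real.exp (T n) * Real.exp (-((θ + 3) * T n)) :=
        h2.trans (mul_le_mul_of_nonneg_left h4 (Real.exp_pos _).le)
      rw [one_mul] at h5
      -- e^{-θT} ≤ c₀ av u ≤ (c₀/av a) e^{T - (θ+3)T} ≤ e^{2T-(θ+3)T}
      have h8 : Real.exp (-(θ * T n)) ≤ Real.exp (T n) * (Real.exp (T n) *
          Real.exp (-((θ + 3) * T n))) := by
        calc Real.exp (-(θ * T n)) ≤ c₀ * av w (u t₀ n) := h3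
          _ = c₀ / av w a * (av w a * av w (u t₀ n)) := by field_simp
          _ ≤ c₀ / av w a * (Real.exp (T n) * Real.exp (-((θ + 3) * T n))) :=
              mul_le_mul_of_nonneg_left h7 (by positivity)
          _ ≤ _ := mul_le_mul_of_nonneg_right h5 (by positivity)
      rw [← Real.exp_add, ← Real.exp_add, Real.exp_le_exp] at h8
      nlinarith
  have hall : ∀ᶠ n in (U : Filter ℕ), ∀ q ∈ P.image (fun t => (⟦t⟧ : Quotient R)),
      ∑ t ∈ P with (⟦t⟧ : Quotient R) = q, (c t : ℚ) * u t n = 0 := by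
    rw [Filter.eventually_all_finset]
    intro q hq
    obtain ⟨t₀, ht₀, rfl⟩ := Finset.mem_image.1 hq
    exact hcls t₀ ht₀
  filter_upwards [hall] with n hn
  rw [← Finset.sum_fiberwise_of_maps_to (s := P) (t := P.image (fun t => (⟦t⟧ : Quotient R)))
    (g := fun t => (⟦t⟧ : Quotient R)) (fun t ht => Finset.mem_image_of_mem _ ht)]
  exact Finset.sum_eq_zero fun q hq => hn q hq

end TRN_

open TRN_ in
theorem trn_proof (hS2U : Stmt_S2U) (_hLCC : Stmt_LCC) (hLBE : Stmt_LBE) : Stmt_TRN := by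
  classical
  intro U S T d s Z B ε w a X Y hS hT hB hε hwS hZ hI ha hdet hO hX hY
  have hw : w ∈ pl S := mem_pl_of_mem hwS
  have h0 : (0 : ℕ) ∈ pl S := zero_mem_pl S
  have hpl := place_of_mem hS hw
  obtain ⟨K, hK⟩ := hLBE U S T d Z B w a hS hT hB hw hZ hI ha hdet
  choose NX cX uX huX hXe using hX
  choose NY cY uY huY hYe using hY
  -- the threshold
  have hθ0 : ∀ i, ∀ ρ : Fin (NX i), ∃ θ : ℝ, 0 ≤ θ ∧
      ∀ᶠ n in (U : Filter ℕ), Real.exp (-(θ * T n)) ≤ av w (uX i ρ n) := fun i ρ =>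
    unit_lower hS hT hw (huX i ρ)
  choose θX hθX0 hθX using hθ0
  set θ : ℝ := ∑ i, ∑ ρ, θX i ρ with hθ
  have hθle : ∀ i ρ, θX i ρ ≤ θ := by
    intro i ρ
    calc θX i ρ ≤ ∑ ρ, θX i ρ :=
          Finset.single_le_sum (f := fun ρ => θX i ρ) (fun ρ _ => hθX0 i ρ) (Finset.mem_univ ρ)
      _ ≤ θ := Finset.single_le_sum (f := fun i => ∑ ρ, θX i ρ)
          (fun i _ => Finset.sum_nonneg fun ρ _ => hθX0 i ρ) (Finset.mem_univ i)
  have hθX' : ∀ i ρ, ∀ᶠ n in (U : Filter ℕ), Real.exp (-(θ * T n)) ≤ av w (uX i ρ n) := by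
    intro i ρ
    filter_upwards [hθX i ρ, ev_pos hT] with n h1 h2
    refine le_trans (Real.exp_le_exp.2 ?_) h1
    have := mul_le_mul_of_nonneg_right (hθle i ρ) h2.le
    linarith
  refine ⟨θ + K + 3, ?_⟩
  intro K0 v c μ hv hvw hμ hV
  -- the combined family
  let ι : Fin d → Type := fun i => Fin (NX i) ⊕ ((t : Fin s) × (Fin K0 × Fin (NY t i)))
  let cc : ∀ i, ι i → ℤ := fun i x => Sum.elim (fun ρ => cX i ρ)
    (fun y => c y.1 y.2.1 * cY y.1 i y.2.2) x
  let uu : ∀ i, ι i → ℕ → ℚ := fun i x => Sum.elim (fun ρ => fun n => v n * uX i ρ n)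
    (fun y => fun n => μ y.1 y.2.1 n * uY y.1 i y.2.2 n) x
  have huu : ∀ i x, uu i x ∈ Un U S T := by
    intro i x
    rcases x with ρ | y
    · exact un_mul hS hv (huX i ρ)
    · exact un_mul hS (hμ _ _) (huY _ _ _)
  have hsplit : ∀ i n, ∑ x, (cc i x : ℚ) * uu i x n =
      v n * (∑ ρ, (cX i ρ : ℚ) * uX i ρ n) +
        ∑ t, ∑ τ, (c t τ : ℚ) * μ t τ n * ∑ ρ, (cY t i ρ : ℚ) * uY t i ρ n := by
    intro i n
    rw [Fintype.sum_sum_type]
    congr 1
    · rw [Finset.mul_sum]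
      refine Finset.sum_congr rfl fun ρ _ => ?_
      simp only [cc, uu, Sum.elim_inl]
      ring
    · rw [Fintype.sum_sigma]
      refine Finset.sum_congr rfl fun t _ => ?_
      rw [Fintype.sum_prod_type]
      refine Finset.sum_congr rfl fun τ _ => ?_
      rw [Finset.mul_sum]
      refine Finset.sum_congr rfl fun ρ _ => ?_
      simp only [cc, uu, Sum.elim_inr]
      push_cast
      ring
  have hXall : ∀ᶠ n in (U : Filter ℕ), ∀ i, X i n = ∑ ρ, (cX i ρ : ℚ) * uX i ρ n :=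
    eventually_all.2 hXe
  have hYall : ∀ᶠ n in (U : Filter ℕ), ∀ t i, Y t i n = ∑ ρ, (cY t i ρ : ℚ) * uY t i ρ n :=
    eventually_all.2 fun t => eventually_all.2 (hYe t)
  have hG : ∀ᶠ n in (U : Filter ℕ), ∀ i, v n * X i n +
      ∑ t, ∑ τ, (c t τ : ℚ) * μ t τ n * Y t i n = ∑ x, (cc i x : ℚ) * uu i x n := by
    filter_upwards [hXall, hYall] with n h1 h2 i
    rw [hsplit, h1 i]
    congr 1
    refine Finset.sum_congr rfl fun t _ => Finset.sum_congr rfl fun τ _ => ?_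
    rw [h2 t i]
  have hLc : ∀ i, Lc U (Un U S T) (fun n => v n * X i n +
      ∑ t, ∑ τ, (c t τ : ℚ) * μ t τ n * Y t i n) := by
    intro i
    refine lc_of (cc i) (uu i) (huu i) ?_
    filter_upwards [hG] with n hn
    exact hn i
  -- small
  have hsm : ∀ i, ∀ᶠ n in (U : Filter ℕ), av w (∑ x, (cc i x : ℚ) * uu i x n) ≤
      Real.exp (-((θ + 3) * T n)) := by
    intro i
    filter_upwards [hK _ hLc, hV, hG] with n h1 h2 h3
    have h4 := (h1 i).trans (mul_le_mul_of_nonneg_left h2 (Real.exp_pos _).le)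
    rw [← Real.exp_add] at h4
    rw [← h3 i]
    refine h4.trans (Real.exp_le_exp.2 ?_)
    linarith
  -- the low terms
  let P : ∀ i, Finset (ι i) := fun i => Finset.univ.filter fun x => Low U T w θ (uu i x)
  have hPiff : ∀ i x, x ∈ P i ↔ Low U T w θ (uu i x) := by
    intro i x
    simp [P]
  have hlow0 : ∀ i, ∀ᶠ n in (U : Filter ℕ), ∑ x ∈ P i, (cc i x : ℚ) * uu i x n = 0 := fun i =>
    low_zero hS2U hS hT hw (cc i) (uu i) (huu i) (P i) (hPiff i) (hsm i)
  have hlowX : ∀ i (ρ : Fin (NX i)), Low U T w θ (uu i (Sum.inl ρ)) := by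
    intro i ρ
    refine ⟨1, one_pos, ?_⟩
    filter_upwards [hθX' i ρ, hvw] with n h1 h2
    show _ ≤ 1 * av w (v n * uX i ρ n)
    rw [av_mul hpl, h2, one_mul, one_mul]
    exact h1
  let Q : ∀ (t : Fin s) (τ : Fin K0) (i : Fin d), Finset (Fin (NY t i)) := fun t τ i =>
    Finset.univ.filter fun ρ => Low U T w θ (fun n => μ t τ n * uY t i ρ n)
  have hlowsum : ∀ i n, ∑ x ∈ P i, (cc i x : ℚ) * uu i x n =
      v n * (∑ ρ, (cX i ρ : ℚ) * uX i ρ n) +
        ∑ t, ∑ τ, (c t τ : ℚ) * μ t τ n * ∑ ρ ∈ Q t τ i, (cY t i ρ : ℚ) * uY t i ρ n := by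
    intro i n
    rw [Finset.sum_filter, Fintype.sum_sum_type]
    congr 1
    · rw [Finset.mul_sum]
      refine Finset.sum_congr rfl fun ρ _ => ?_
      rw [if_pos (hlowX i ρ)]
      simp only [cc, uu, Sum.elim_inl]
      ring
    · rw [Fintype.sum_sigma]
      refine Finset.sum_congr rfl fun t _ => ?_
      rw [Fintype.sum_prod_type]
      refine Finset.sum_congr rfl fun τ _ => ?_
      rw [Finset.sum_filter, Finset.mul_sum]
      refine Finset.sum_congr rfl fun ρ _ => ?_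
      have e : uu i (Sum.inr ⟨t, (τ, ρ)⟩) = fun n => μ t τ n * uY t i ρ n := rfl
      rw [e]
      split_ifs with h
      · simp only [cc, Sum.elim_inr]
        push_cast
        ring
      · rw [mul_zero]
  -- partial sums are not larger
  have hpart : ∀ t τ i, ∀ᶠ n in (U : Filter ℕ),
      av 0 (∑ ρ ∈ Q t τ i, (cY t i ρ : ℚ) * uY t i ρ n) ≤
        Real.exp (ε / 2 * T n) * av 0 (Y t i n) := by
    intro t τ i
    have h1 := s1 hS2U hS hT (half_pos hε) h0 (cY t i) (uY t i) (huY t i) (Q t τ i) (by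
      intro ρ hρ ρ' hρ'
      obtain ⟨κ, hκ⟩ := hρ'
      have h2 := (Finset.mem_filter.1 hρ).2
      refine Finset.mem_filter.2 ⟨Finset.mem_univ _, ?_⟩
      refine h2.prop hS hw (κ := κ) ?_ ?_
      · intro n
        exact mul_ne_zero ((hμ t τ).1 n).ne_zero ((huY t i ρ').1 n).ne_zero
      · filter_upwards [hκ] with n hn
        rw [hn]
        ring)
    filter_upwards [h1, hYe t i] with n h2 h3
    rw [h3]
    exact h2
  have hpart' : ∀ᶠ n in (U : Filter ℕ), ∀ t τ i,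
      av 0 (∑ ρ ∈ Q t τ i, (cY t i ρ : ℚ) * uY t i ρ n) ≤
        Real.exp (ε / 2 * T n) * av 0 (Y t i n) :=
    eventually_all.2 fun t => eventually_all.2 fun τ => eventually_all.2 (hpart t τ)
  have hO' : ∀ᶠ n in (U : Filter ℕ), ∀ t i, av 0 (Y t i n * lc a Z i n) ≤
      Real.exp (ε * T n) * av 0 (∑ i, Y t i n * lc a Z i n) := by
    refine eventually_all.2 fun t => ?_
    refine hO (Y t) fun i => ?_
    exact ⟨NY t i, cY t i, uY t i, huY t i, hYe t i⟩
  have h00 : (0 : ℕ) = 0 ∨ (0 : ℕ).Prime := Or.inl rfl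
  filter_upwards [eventually_all.2 hlow0, hXall, hpart', hO',
    ev_const_le_exp hT (half_pos hε) (d : ℝ)] with n n1 n2 n3 n4 n5
  have hid : ∀ i, v n * X i n = -∑ t, ∑ τ, (c t τ : ℚ) * μ t τ n *
      ∑ ρ ∈ Q t τ i, (cY t i ρ : ℚ) * uY t i ρ n := by
    intro i
    have h1 := n1 i
    rw [hlowsum, ← n2 i] at h1
    exact eq_neg_of_add_eq_zero_left h1
  have hfin : v n * ∑ i, X i n * lc a Z i n = -∑ t, ∑ τ, (c t τ : ℚ) * μ t τ n *
      ∑ i, (∑ ρ ∈ Q t τ i, (cY t i ρ : ℚ) * uY t i ρ n) * lc a Z i n := by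
    rw [Finset.mul_sum]
    calc ∑ i, v n * (X i n * lc a Z i n) = ∑ i, (v n * X i n) * lc a Z i n :=
          Finset.sum_congr rfl fun i _ => by ring
      _ = ∑ i, -(∑ t, ∑ τ, (c t τ : ℚ) * μ t τ n *
            (∑ ρ ∈ Q t τ i, (cY t i ρ : ℚ) * uY t i ρ n) * lc a Z i n) := by
          refine Finset.sum_congr rfl fun i _ => ?_
          rw [hid i, neg_mul, Finset.sum_mul]
          congr 1
          exact Finset.sum_congr rfl fun t _ => Finset.sum_mul _ _ _
      _ = _ := by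
          rw [Finset.sum_neg_distrib, Finset.sum_comm]
          congr 1
          refine Finset.sum_congr rfl fun t _ => ?_
          rw [Finset.sum_comm]
          refine Finset.sum_congr rfl fun τ _ => ?_
          rw [Finset.mul_sum]
          exact Finset.sum_congr rfl fun i _ => by ring
  rw [hfin, av_neg]
  refine (av_sum_le h00 _ _).trans ?_
  rw [Finset.mul_sum]
  refine Finset.sum_le_sum fun t _ => ?_
  refine (av_sum_le h00 _ _).trans ?_
  rw [Finset.mul_sum]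
  refine Finset.sum_le_sum fun τ _ => ?_
  rw [av_mul h00, av_mul h00]
  have e1 : av 0 ((c t τ : ℤ) : ℚ) = |(c t τ : ℝ)| := by
    rw [av_zero_eq]
    norm_num
  rw [e1]
  have h5 : av 0 (∑ i, (∑ ρ ∈ Q t τ i, (cY t i ρ : ℚ) * uY t i ρ n) * lc a Z i n) ≤
      Real.exp (2 * ε * T n) * av 0 (∑ i, Y t i n * lc a Z i n) := by
    refine (av_sum_le h00 _ _).trans ?_
    calc ∑ i, av 0 ((∑ ρ ∈ Q t τ i, (cY t i ρ : ℚ) * uY t i ρ n) * lc a Z i n)
        ≤ ∑ _i : Fin d, Real.exp (ε / 2 * T n) * (Real.exp (ε * T n) *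
            av 0 (∑ i, Y t i n * lc a Z i n)) := by
          refine Finset.sum_le_sum fun i _ => ?_
          rw [av_mul h00]
          refine (mul_le_mul_of_nonneg_right (n3 t τ i) (av_nonneg _ _)).trans ?_
          rw [mul_assoc, ← av_mul h00]
          exact mul_le_mul_of_nonneg_left (n4 t i) (Real.exp_pos _).le
      _ = d * (Real.exp (ε / 2 * T n) * Real.exp (ε * T n) *
            av 0 (∑ i, Y t i n * lc a Z i n)) := by
          rw [Finset.sum_const, Finset.card_univ, Fintype.card_fin, nsmul_eq_mul]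
          ring
      _ ≤ Real.exp (ε / 2 * T n) * (Real.exp (ε / 2 * T n) * Real.exp (ε * T n) *
            av 0 (∑ i, Y t i n * lc a Z i n)) := by
          refine mul_le_mul_of_nonneg_right n5 ?_
          have := av_nonneg 0 (∑ i, Y t i n * lc a Z i n)
          positivity
      _ = _ := by
          rw [← mul_assoc, ← mul_assoc, ← Real.exp_add, ← Real.exp_add]
          congr 2
          ring
  calc |(c t τ : ℝ)| * av 0 (μ t τ n) *
        av 0 (∑ i, (∑ ρ ∈ Q t τ i, (cY t i ρ : ℚ) * uY t i ρ n) * lc a Z i n)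
      ≤ |(c t τ : ℝ)| * av 0 (μ t τ n) * (Real.exp (2 * ε * T n) *
          av 0 (∑ i, Y t i n * lc a Z i n)) := by
        refine mul_le_mul_of_nonneg_left h5 ?_
        have := av_nonneg 0 (μ t τ n)
        positivity
    _ = _ := by ring

end Pool.Agent.CLX
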