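import Pool.Agent.CLX.UFN

/-!
# UFK: as UFN, with starting values up to `2^(κ n)`
-/

set_option autoImplicit false

namespace Pool.Agent.CLX

open Filter Pool.Agent.SBT

/-- UFN with starting values up to `2^(κ n)` -/
def Stmt_UFK : Prop :=
  ∀ C κ : ℕ, ∃ Λ n₀ : ℕ, ∀ n ≥ n₀, ∀ k x : ℤ, Odd k → |k| ^ 16 ≤ 2 ^ n → |x| ≤ 2 ^ (κ * n) →
    (∀ i j, i < j → j ≤ Λ * n → (col k)^[i] x ≠ (col k)^[j] x) →
    C * n < nbl (par k x) n (Λ * n)

open UFN_

theorem ufk_proof (hCSH : Stmt_CSH) (hLIM : Stmt_LIM) (hVIS : Stmt_VIS) (hCOL : Stmt_COL) :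
    Stmt_UFK := by
  intro C κ
  by_contra hcon
  have key : ∀ l : ℕ, ∃ (n : ℕ) (k x : ℤ), l + 8 ≤ n ∧ Odd k ∧ |k| ^ 16 ≤ 2 ^ n ∧ |x| ≤ 2 ^ (κ * n) ∧
      (∀ i j, i < j → j ≤ l * n → (col k)^[i] x ≠ (col k)^[j] x) ∧
      nbl (par k x) n (l * n) ≤ C * n := by
    intro l
    by_contra h
    refine hcon ⟨l, l + 8, fun n hn k x hk hkn hxn hd => ?_⟩
    by_contra h2
    exact h ⟨n, k, x, hn, hk, hkn, hxn, hd, not_lt.1 h2⟩
  choose T k x hT hk hkT hxT hdis hnb using key
  obtain ⟨U, hU⟩ : ∃ U : Ultrafilter ℕ, (U : Filter ℕ) ≤ atTop :=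
    ⟨hyperfilter ℕ, Nat.hyperfilter_le_atTop⟩
  have hTlim : Tendsto T (U : Filter ℕ) atTop := by
    refine Tendsto.mono_left ?_ hU
    exact tendsto_atTop_mono (fun n => (by have := hT n; omega : n ≤ T n)) tendsto_id
  obtain ⟨l₀, hl₀⟩ := hVIS U T C k x hU hTlim hk hkT hdis hnb
  -- the shifted word
  set x' : ℕ → ℤ := fun n => (col (k n))^[l₀ * T n] (x n) with hx'
  have hit : ∀ n i, (col (k n))^[i] (x' n) = (col (k n))^[l₀ * T n + i] (x n) := by
    intro n i
    rw [hx', Nat.add_comm, Function.iterate_add_apply]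
  have hnb' : ∀ n, nbl (par (k n) (x' n)) (T n) ((n - l₀) * T n) ≤ C * T n := by
    intro n
    rcases le_or_gt l₀ n with h | h
    · refine le_trans (nbl_shift (par (k n) (x n)) _ _ (l₀ * T n) _ (n * T n) ?_ ?_) (hnb n)
      · intro i
        exact par_shift _ _ _ _
      · rw [← Nat.add_mul]
        apply Nat.mul_le_mul_right
        omega
    · have h0 : n - l₀ = 0 := by omega
      rw [h0, Nat.zero_mul]
      unfold nbl
      have : Set.Iio 0 = (∅ : Set ℕ) := by
        ext i
        simp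
      rw [this, Set.image_empty, Set.ncard_empty]
      exact Nat.zero_le _
  obtain ⟨s, B, N, hS⟩ := hCSH C
  have key2 : ∀ n, ∃ (m : ℕ) (ζ μ y : Fin s → ℕ), m ≤ T n ∧
      (∀ i, 1 ≤ ζ i + μ i ∧ ζ i ≤ B * T n ∧ μ i ≤ B * T n) ∧ (∀ i, y i ≤ 4 ^ (B * T n)) ∧
      (∀ G z, Spe (par (k n) (x' n)) m ((n - l₀) * T n) z → z < G * T n → ∃ F : Fin s → ℤ,
        (∀ i, Rpw (ze (par (k n) (x' n))) (on (par (k n) (x' n))) (N G) (B * T n) (z + m)
          (mx ζ μ * bv (par (k n) (x' n)) (z + m)) (y i) (F i)) ∧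
        (∏ i, ((2 : ℤ) ^ ζ i - 3 ^ μ i)) * bv (par (k n) (x' n)) (z + m) = ∑ i, F i * y i) ∧
      ∀ z, z + B * T n < (n - l₀) * T n →
        (∃ z', z ≤ z' ∧ z' ≤ z + B * T n ∧ Spe (par (k n) (x' n)) m ((n - l₀) * T n) z') ∨
        ∃ per, 1 ≤ per ∧ per ≤ B * T n ∧
          ∀ i, z + B * T n ≤ i → i + per < (n - l₀) * T n →
            par (k n) (x' n) i = par (k n) (x' n) (i + per) := by
    intro n
    refine hS (n - l₀) (T n) (par (k n) (x' n)) (by have := hT n; omega) ?_ (hnb' n)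
    exact (hCOL (k n) (x' n) (hk n)).2.1
  choose m ζ μ y hm hζ hy hdesc hspe using key2
  have hkabs : ∀ n, |k n| ≤ 2 ^ T n := fun n => abs_k_le (hkT n)
  have hT1 : ∀ n, 1 ≤ T n := fun n => by have := hT n; omega
  -- size of the new starting point
  have hxb : ∀ n, |x' n| ≤ 2 ^ ((2 * l₀ + κ + 2) * T n) := by
    intro n
    have h1 := (hCOL (k n) (x n) (hk n)).2.2.2.1 0 (l₀ * T n)
    rw [Nat.zero_add, Function.iterate_zero, id] at h1
    have h2 := grow (κ := κ + 1) (by omega) h1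
      ((hxT n).trans (pow_le_pow_right₀ (by norm_num) (Nat.mul_le_mul_right _ (by omega))))
      (hkabs n)
    refine h2.trans (pow_le_pow_right₀ (by norm_num) ?_)
    have h3 := hT1 n
    have h4 : (2 * l₀ + κ + 2) * T n = 2 * (l₀ * T n) + (κ + 1) * T n + T n := by ring
    omega
  have hval : ∀ n j, 3 ^ on (par (k n) (x' n)) j * x' n + k n * bv (par (k n) (x' n)) j =
      2 ^ ze (par (k n) (x' n)) j * (col (k n))^[j] (x' n) := by
    intro n j
    exact val_eq (k n) (x' n) _ (hCOL (k n) (x' n) (hk n)).1 j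
  refine hLIM U T s (B + 1) (2 * l₀ + κ + 2) (fun G => N (G + B + 1)) (fun n => par (k n) (x' n)) k x'
    (fun i n => ζ n i) (fun i n => μ n i) (fun i n => y n i) ?_
  refine ⟨hTlim, ?_, ?_, Eventually.of_forall hkT, Eventually.of_forall hxb, ?_, ?_, ?_, ?_, ?_⟩
  · intro n i
    exact (hCOL (k n) (x' n) (hk n)).2.1 i
  · intro n i
    exact (hCOL (k n) (x' n) (hk n)).2.2.1 i
  · refine Eventually.of_forall fun n j => ?_
    rw [hval n j]
    exact Dvd.intro _ rfl
  · intro G
    filter_upwards [hl₀ (l₀ + G)] with n hn j hj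
    rw [hval n j, hit n j, abs_mul, pow_add, abs_of_nonneg (by positivity : (0 : ℤ) ≤ 2 ^ _)]
    refine mul_le_mul_of_nonneg_left ?_ (by positivity)
    refine hn _ (Nat.le_add_right _ _) ?_
    rw [Nat.add_mul]
    omega
  · refine Eventually.of_forall fun n i => ?_
    obtain ⟨h1, h2, h3⟩ := hζ n i
    have h4 : B * T n ≤ (B + 1) * T n := Nat.mul_le_mul_right _ (by omega)
    exact ⟨h1, h2.trans h4, h3.trans h4⟩
  · refine Eventually.of_forall fun n i => ?_
    exact (hy n i).trans (Nat.pow_le_pow_right (by norm_num) (Nat.mul_le_mul_right _ (by omega)))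
  · intro G
    -- the exponent of the congruence
    obtain ⟨E, hE⟩ : ∃ E : ℕ, E = 2 * G + 4 * B + (2 * l₀ + κ + 2) + 3 := ⟨_, rfl⟩
    have hlarge : ∀ᶠ n : ℕ in (U : Filter ℕ), l₀ + G + 2 * B + 2 * E + 1 ≤ n :=
      hU (eventually_ge_atTop _)
    filter_upwards [hlarge] with n hn
    have hTn := hT1 n
    have e1 : (G + 2 * B + 2 * E + 1) * T n ≤ (n - l₀) * T n :=
      Nat.mul_le_mul_right _ (by omega)
    have e2 : (G + 2 * B + 2 * E + 1) * T n = G * T n + 2 * (B * T n) + 2 * (E * T n) + T n := by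
      ring
    rcases hspe n (G * T n) (by omega) with ⟨z, hz1, hz2, hz3⟩ | ⟨per, hp1, hp2, hp3⟩
    · obtain ⟨F, hF1, hF2⟩ := hdesc n (G + B + 1) z hz3 (by
        have : (G + B + 1) * T n = G * T n + B * T n + T n := by ring
        omega)
      have hmn := hm n
      refine ⟨z + m n, by omega, ?_, F, ?_, hF2⟩
      · have : (G + (B + 1)) * T n = G * T n + B * T n + T n := by ring
        omega
      · intro i
        exact rpw_mono (hF1 i) (Nat.mul_le_mul_right _ (by omega))
    · exfalso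
      have hblk : blk (par (k n) (x' n)) (2 * (E * T n)) (G * T n + B * T n) =
          blk (par (k n) (x' n)) (2 * (E * T n)) (G * T n + B * T n + per) := by
        funext t
        have ht := t.2
        simp only [blk]
        rw [hp3 (G * T n + B * T n + t) (by omega) (by omega)]
        congr 1
        omega
      have hdvd := (hCOL (k n) (x' n) (hk n)).2.2.2.2 _ _ _ hblk
      have hb1 : ∀ t, t ≤ G * T n + 2 * (B * T n) →
          |(col (k n))^[t] (x' n)| ≤ 2 ^ (E * T n - 2) := by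
        intro t ht
        have h1 := (hCOL (k n) (x' n) (hk n)).2.2.2.1 0 t
        rw [Nat.zero_add, Function.iterate_zero, id] at h1
        have h2 := grow (by omega) h1 (hxb n) (hkabs n)
        refine h2.trans (pow_le_pow_right₀ (by norm_num) ?_)
        have h3 : E * T n = 2 * (G * T n) + 4 * (B * T n) + (2 * l₀ + κ + 2) * T n + 3 * T n := by
          rw [hE]
          ring
        omega
      have hlt : |(col (k n))^[G * T n + B * T n] (x' n) -
          (col (k n))^[G * T n + B * T n + per] (x' n)| < 2 ^ (E * T n) := by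
        have h1 := hb1 (G * T n + B * T n) (by omega)
        have h2 := hb1 (G * T n + B * T n + per) (by omega)
        have h3 : (2 : ℤ) ^ (E * T n) = 2 ^ (E * T n - 2) * 4 := by
          have h4 : 2 ≤ E * T n := by
            have : 1 * 1 ≤ E * T n := Nat.mul_le_mul (by omega) hTn
            have : 3 * 1 ≤ E * T n := Nat.mul_le_mul (by omega) hTn
            omega
          conv_lhs => rw [show E * T n = (E * T n - 2) + 2 by omega]
          rw [pow_add]
          norm_num
        have h5 : (0 : ℤ) < 2 ^ (E * T n - 2) := by positivity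
        calc _ ≤ |(col (k n))^[G * T n + B * T n] (x' n)| +
              |(col (k n))^[G * T n + B * T n + per] (x' n)| := abs_sub _ _
          _ ≤ 2 ^ (E * T n - 2) + 2 ^ (E * T n - 2) := add_le_add h1 h2
          _ < _ := by rw [h3]; linarith
      have h0 := Int.eq_zero_of_abs_lt_dvd hdvd hlt
      have heq : (col (k n))^[G * T n + B * T n] (x' n) =
          (col (k n))^[G * T n + B * T n + per] (x' n) := by linarith
      rw [hit, hit] at heq
      refine hdis n _ _ ?_ ?_ heq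
      · omega
      · have h3 : (l₀ + (G + 2 * B + 2 * E + 1)) * T n ≤ n * T n :=
          Nat.mul_le_mul_right _ (by omega)
        rw [Nat.add_mul, e2] at h3
        omega

end Pool.Agent.CLX
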