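import Pool.Agent.CLX.Stmts2

/-!
# VIS: small terms occur only at the beginning
-/

set_option autoImplicit false

namespace Pool.Agent.CLX

open Filter Pool.Agent.SBT

namespace VIS_

/-- equal blocks at two small terms give equal terms -/
theorem eq_of_blk (hCOL : Stmt_COL) (k x : ℤ) (hk : Odd k) (T i j : ℕ)
    (hb : blk (par k x) T i = blk (par k x) T j)
    (hi : |(col k)^[i] x| < 2 ^ (T / 2 - 1)) (hj : |(col k)^[j] x| < 2 ^ (T / 2 - 1))
    (hT : 2 ≤ T) : (col k)^[i] x = (col k)^[j] x := by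
  have h1 : blk (par k x) (2 * (T / 2)) i = blk (par k x) (2 * (T / 2)) j := by
    funext l
    have h2 : (l : ℕ) < T := by
      have := l.2
      omega
    exact congrFun hb ⟨l, h2⟩
  have h3 := (hCOL k x hk).2.2.2.2 i j (T / 2) h1
  have h4 : |(col k)^[i] x - (col k)^[j] x| < 2 ^ (T / 2) := by
    have h5 : |(col k)^[i] x - (col k)^[j] x| ≤ |(col k)^[i] x| + |(col k)^[j] x| := abs_sub _ _
    have h6 : (2 : ℤ) ^ (T / 2) = 2 ^ (T / 2 - 1) + 2 ^ (T / 2 - 1) := by
      have : T / 2 = (T / 2 - 1) + 1 := by omega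
      conv_lhs => rw [this, pow_succ]
      ring
    linarith
  have h7 : (col k)^[i] x - (col k)^[j] x = 0 := by
    by_contra hne
    exact absurd (Int.le_of_dvd (abs_pos.2 hne) ((dvd_abs _ _).2 h3)) (not_le.2 h4)
  linarith

/-- after a visit the next terms are small -/
theorem small (hCOL : Stmt_COL) (k x : ℤ) (hk : Odd k) (T j t : ℕ) (hT : 16 ≤ T)
    (hkT : |k| ^ 16 ≤ 2 ^ T) (hj : |(col k)^[j] x| < 2 ^ (T / 8)) (ht : t ≤ T / 16) :
    |(col k)^[j + t] x| < 2 ^ (T / 2 - 1) := by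
  have h1 := (hCOL k x hk).2.2.2.1 j t
  have h2 : |k| < 2 ^ (T / 16 + 1) := by
    by_contra hcon
    push Not at hcon
    have h3 : ((2 : ℤ) ^ (T / 16 + 1)) ^ 16 ≤ |k| ^ 16 := pow_le_pow_left₀ (by positivity) hcon 16
    rw [← pow_mul] at h3
    have h4 : (2 : ℤ) ^ T < 2 ^ ((T / 16 + 1) * 16) :=
      pow_lt_pow_right₀ (by norm_num) (by omega)
    linarith
  have h3 : (4 : ℤ) ^ t ≤ 2 ^ (2 * (T / 16)) := by
    rw [pow_mul]
    exact pow_le_pow_right₀ (by norm_num) ht
  have h4 : (2 : ℤ) ^ (T / 16 + 1) ≤ 2 ^ (T / 8) := pow_le_pow_right₀ (by norm_num) (by omega)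
  have h5 : |(col k)^[j] x| + |k| < 2 ^ (T / 8 + 1) := by
    rw [pow_succ]
    linarith
  calc |(col k)^[j + t] x| ≤ 4 ^ t * (|(col k)^[j] x| + |k|) := h1
    _ ≤ 2 ^ (2 * (T / 16)) * (|(col k)^[j] x| + |k|) :=
        mul_le_mul_of_nonneg_right h3 (by positivity)
    _ < 2 ^ (2 * (T / 16)) * 2 ^ (T / 8 + 1) := mul_lt_mul_of_pos_left h5 (by positivity)
    _ = 2 ^ (2 * (T / 16) + (T / 8 + 1)) := (pow_add _ _ _).symm
    _ ≤ 2 ^ (T / 2 - 1) := pow_le_pow_right₀ (by norm_num) (by omega)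

end VIS_

open VIS_ in
theorem vis_proof (hCOL : Stmt_COL) : Stmt_VIS := by
  intro U T C k x hU hT hk hkT hne hnbl
  by_contra hcon
  push Not at hcon
  have hfr : ∀ l : ℕ, ∃ G : ℕ, ∀ᶠ n in (U : Filter ℕ), ∃ j, l * T n ≤ j ∧ j ≤ G * T n ∧
      |(col (k n))^[j] (x n)| < 2 ^ (T n / 8) := by
    intro l
    obtain ⟨G, hG⟩ := hcon l
    exact ⟨G, hG⟩
  choose G hG using hfr
  -- the sequence of scales
  set ls : ℕ → ℕ := fun i => Nat.rec 0 (fun _ l => max l (G l) + 1) i with hls
  have hls1 : ∀ i, ls (i + 1) = max (ls i) (G (ls i)) + 1 := fun i => rfl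
  have hlsmono : ∀ i i', i ≤ i' → ls i ≤ ls i' := by
    intro i i' h
    induction i', h using Nat.le_induction with
    | base => exact le_rfl
    | succ m _ ih =>
      rw [hls1]
      omega
  set J : ℕ := 16 * C + 1 with hJ
  have hall : ∀ᶠ n in (U : Filter ℕ), ∀ i : Fin J, ∃ j, ls i * T n ≤ j ∧ j ≤ G (ls i) * T n ∧
      |(col (k n))^[j] (x n)| < 2 ^ (T n / 8) :=
    Filter.eventually_all.2 fun i => hG (ls i)
  obtain ⟨n, hn, hnT, hnn⟩ := (hall.and ((hT.eventually (eventually_ge_atTop 16)).and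
    (hU (eventually_ge_atTop (ls J + 1))))).exists
  choose j hj1 hj2 hj3 using hn
  set τ : ℕ := T n / 16 with hτ
  have hτT : τ < T n := by omega
  -- the places of the `i`-th group are before the next scale
  have hend : ∀ (i : Fin J) (t : Fin (τ + 1)), j i + t < ls (i + 1) * T n := by
    intro i t
    have h1 : (t : ℕ) ≤ τ := by
      have := t.2
      omega
    have h2 : (G (ls i) + 1) * T n ≤ ls (i + 1) * T n := by
      apply Nat.mul_le_mul_right
      rw [hls1]
      omega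
    have h3 := hj2 i
    rw [add_mul, one_mul] at h2
    omega
  have hlt : ∀ (i : Fin J) (t : Fin (τ + 1)), j i + t < n * T n := by
    intro i t
    have h1 := hend i t
    have h2 : ls ((i : ℕ) + 1) ≤ ls J := hlsmono ((i : ℕ) + 1) J (by have := i.2; omega)
    have h3 : ls (i + 1) * T n ≤ n * T n := Nat.mul_le_mul_right _ (by omega)
    omega
  set F : Fin J × Fin (τ + 1) → (Fin (T n) → ℕ) :=
    fun p => blk (par (k n) (x n)) (T n) (j p.1 + p.2) with hF
  have hinj : Function.Injective F := by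
    rintro ⟨i, t⟩ ⟨i', t'⟩ h
    simp only [hF] at h
    have hsm : ∀ (i : Fin J) (t : Fin (τ + 1)),
        |(col (k n))^[j i + t] (x n)| < 2 ^ (T n / 2 - 1) := fun i t =>
      small hCOL (k n) (x n) (hk n) (T n) (j i) t hnT (hkT n) (hj3 i) (by have := t.2; omega)
    have heq := eq_of_blk hCOL (k n) (x n) (hk n) (T n) _ _ h (hsm i t) (hsm i' t') (by omega)
    have hidx : j i + t = j i' + t' := by
      rcases lt_trichotomy (j i + t) (j i' + t') with h1 | h1 | h1
      · exact absurd heq (hne n _ _ h1 (hlt i' t').le)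
      · exact h1
      · exact absurd heq.symm (hne n _ _ h1 (hlt i t).le)
    have hii : i = i' := by
      rcases lt_trichotomy i i' with h1 | h1 | h1
      · exfalso
        have h2 := hend i t
        have h3 : ls ((i : ℕ) + 1) ≤ ls (i' : ℕ) := hlsmono ((i : ℕ) + 1) (i' : ℕ) (by omega)
        have h4 : ls (i + 1) * T n ≤ ls i' * T n := Nat.mul_le_mul_right _ h3
        have h5 := hj1 i'
        omega
      · exact h1
      · exfalso
        have h2 := hend i' t'
        have h3 : ls ((i' : ℕ) + 1) ≤ ls (i : ℕ) := hlsmono ((i' : ℕ) + 1) (i : ℕ) (by omega)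
        have h4 : ls (i' + 1) * T n ≤ ls i * T n := Nat.mul_le_mul_right _ h3
        have h5 := hj1 i
        omega
    subst hii
    have htt : t = t' := by
      apply Fin.ext
      omega
    rw [htt]
  have hcard : J * (τ + 1) ≤ nbl (par (k n) (x n)) (T n) (n * T n) := by
    have h1 : (Set.range F).ncard = J * (τ + 1) := by
      rw [← Set.image_univ, Set.InjOn.ncard_image hinj.injOn, Set.ncard_univ]
      simp
    rw [← h1]
    refine Set.ncard_le_ncard ?_ ((Set.finite_Iio _).image _)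
    rintro w ⟨⟨i, t⟩, rfl⟩
    exact ⟨j i + t, hlt i t, rfl⟩
  have h1 := hcard.trans (hnbl n)
  have h2 : T n < 16 * (τ + 1) := by omega
  have h3 : C * T n ≤ C * (16 * (τ + 1)) := Nat.mul_le_mul_left _ h2.le
  rw [hJ] at h1
  nlinarith

end Pool.Agent.CLX
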