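import Pool.Agent.SBT.Main
import Pool.Agent.SBT.BAG
import Pool.Agent.SBT.BAS
import Pool.Agent.SBT.LCC
import Pool.Agent.SBT.TYC
import Pool.Agent.SBT.DTM
import Pool.Agent.SBT.SPX
import Pool.Agent.SBT.PCS
import Pool.Agent.SBT.SIM
import Pool.Agent.SBT.VOR
import Pool.Agent.SBT.LTM
import Pool.Agent.CLX.S2V
import Pool.Agent.CLX.CVQ
import Pool.Agent.CLX.CSW
import Pool.Agent.CLX.CSH
import Pool.Agent.CLX.S2U
import Pool.Agent.CLX.BSE
import Pool.Agent.CLX.LBU
import Pool.Agent.CLX.ORT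
import Pool.Agent.CLX.LBE
import Pool.Agent.CLX.TRN
import Pool.Agent.CLX.RDT
import Pool.Agent.CLX.BSM
import Pool.Agent.CLX.LIM
import Pool.Agent.CLX.VIS
import Pool.Agent.CLX.COL
import Pool.Agent.CLX.UFK

/-!
# The theorem on block complexity of Collatz trajectories, second part: the assembly
-/

set_option autoImplicit false

namespace Pool.Agent.CLX

open Filter Pool.Agent.SBT

theorem S2V2_ : Stmt_S2V := s2v_proof SBB_ sim_proof vor_proof ltm_proof

theorem S2U_ : Stmt_S2U := s2u_proof UNI_ (bag_proof bas_proof) S2V2_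

theorem BSE_ : Stmt_BSE := bse_proof lcc_proof

theorem LBU_ : Stmt_LBU := lbu_proof S2U_

theorem ORT_ : Stmt_ORT := ort_proof S2U_ lcc_proof LBU_

theorem LBE_ : Stmt_LBE := lbe_proof S2U_ lcc_proof LBU_

theorem TRN_ : Stmt_TRN := trn_proof S2U_ lcc_proof LBE_

theorem RDT_ : Stmt_RDT := rdt_proof S2U_

theorem LIM_ : Stmt_LIM := lim_proof lcc_proof S2U_ BSE_ LBU_ ORT_ TRN_ RDT_ bsm_proof

theorem CSW_ : Stmt_CSW := csw_proof cvq_proof pcs_proof

theorem CSH_ : Stmt_CSH := csh_proof tyc_proof dtm_proof spx_proof RTN_ CSW_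

theorem VIS_ : Stmt_VIS := vis_proof col_proof

theorem UFK_ : Stmt_UFK := ufk_proof CSH_ LIM_ VIS_ col_proof

end Pool.Agent.CLX
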