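import Pool.Agent.CLX.StmtsT
import Pool.Agent.SBT.Api

/-!
# Squad CLX, section T, module TCR: the terms are small
-/

set_option autoImplicit false

namespace Pool.Agent.CLX

open Filter Pool.Agent.SBT

namespace TCR_

theorem ps23 : PS S23 := by
  intro p hp
  simp only [S23, Finset.mem_insert, Finset.mem_singleton] at hp
  rcases hp with rfl | rfl
  · exact Nat.prime_two
  · exact Nat.prime_three

theorem mem2 : 2 ∈ pl S23 := mem_pl_of_mem (by simp [S23])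
theorem mem3 : 3 ∈ pl S23 := mem_pl_of_mem (by simp [S23])

theorem prod3 {x : ℚ} (h : IsU S23 x) : av 0 x * (av 2 x * av 3 x) = 1 := by
  have h1 := h.2
  rw [prod_pl ps23] at h1
  rw [S23, Finset.prod_insert (by simp), Finset.prod_singleton] at h1
  exact h1

theorem isU_mon {r : ℕ} {g : Fin r → ℕ → ℚ} (hg : ∀ i n, IsU S23 (g i n)) (e : Fin r →₀ ℕ)
    (n : ℕ) : IsU S23 (mon g e n) :=
  isU_prod ps23 _ _ fun i _ => (hg i n).pow ps23 _

theorem ev_expand {r : ℕ} (g : Fin r → ℕ → ℚ) (n : ℕ) (H : MvPolynomial (Fin r) ℚ) :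
    ev g n H = ∑ e ∈ H.support, MvPolynomial.coeff e H * mon g e n := by
  unfold ev mon
  rw [MvPolynomial.eval_eq']

theorem ev_bound {r : ℕ} {U : Ultrafilter ℕ} (g : Fin r → ℕ → ℚ) {v : ℕ} (hv : v = 0 ∨ v.Prime)
    (H : MvPolynomial (Fin r) ℚ) : ∃ K : ℝ, 0 ≤ K ∧ ∀ t : ℕ → ℝ,
    (∀ e ∈ H.support, ∀ᶠ n in (U : Filter ℕ), av v (mon g e n) ≤ t n) →
    ∀ᶠ n in (U : Filter ℕ), av v (ev g n H) ≤ K * t n := by
  refine ⟨∑ e ∈ H.support, av v (MvPolynomial.coeff e H),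
    Finset.sum_nonneg fun e _ => av_nonneg _ _, ?_⟩
  intro t ht
  rw [← eventually_all_finset] at ht
  filter_upwards [ht] with n hn
  rw [ev_expand, Finset.sum_mul]
  refine (av_sum_le hv _ _).trans (Finset.sum_le_sum fun e he => ?_)
  rw [av_mul hv]
  exact mul_le_mul_of_nonneg_left (hn e he) (av_nonneg _ _)

theorem av_u (a b : ℕ) : av 0 ((2 : ℚ) ^ a * 3 ^ b) * av 3 ((2 : ℚ) ^ a * 3 ^ b) = 2 ^ a ∧
    av 0 ((2 : ℚ) ^ a * 3 ^ b) = 2 ^ a * 3 ^ b := by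
  have h0 : av 0 ((2 : ℚ) ^ a * 3 ^ b) = 2 ^ a * 3 ^ b := by
    rw [av_zero_eq]
    push_cast
    exact abs_of_pos (by positivity)
  have h3 : av 3 ((2 : ℚ) ^ a * 3 ^ b) = (3 ^ b : ℝ)⁻¹ := by
    have e2 : av 3 (2 : ℚ) = 1 := by
      have := av_of_ne Nat.prime_three Nat.prime_two (by norm_num)
      exact_mod_cast this
    have e3 : av 3 (3 : ℚ) = (3 : ℝ)⁻¹ := by
      have := av_self Nat.prime_three
      exact_mod_cast this
    rw [av_mul (Or.inr Nat.prime_three), av_pow (Or.inr Nat.prime_three),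
      av_pow (Or.inr Nat.prime_three), e2, e3, one_pow, one_mul, inv_pow]
  refine ⟨?_, h0⟩
  rw [h0, h3]
  have : (3 : ℝ) ^ b ≠ 0 := by positivity
  field_simp

theorem const_le {U : Ultrafilter ℕ} (hU : (U : Filter ℕ) ≤ atTop) (K : ℝ) :
    ∀ᶠ n : ℕ in (U : Filter ℕ), K ≤ Real.exp ((n : ℕ) : ℝ) := by
  have h : ∀ᶠ n : ℕ in atTop, K ≤ ((n : ℕ) : ℝ) :=
    tendsto_natCast_atTop_atTop.eventually_ge_atTop K
  filter_upwards [h.filter_mono hU] with n hn
  have := Real.add_one_le_exp ((n : ℕ) : ℝ)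
  linarith

end TCR_

open TCR_

theorem tcr_proof (hUNI : Stmt_UNI) (hS2V : Stmt_S2V) (hTLD : Stmt_TLD) : Stmt_TCR := by
  classical
  intro s B N G U Z δ ζ μ y R X hU hZ hδ hy hF hRX
  obtain ⟨r, g, d, Y, hG, hds, hYb, hInd, hDsg⟩ := hTLD s B N G U Z δ ζ μ y R hU hZ hδ hy hF
  obtain ⟨P₀, P, ν, hP₀, hν, hid, hs0, hs1⟩ := hDsg
  set E₁ : ℝ := 3 * (s + 1) ^ 2 * (B + 1) with hE₁
  have hE₁0 : 0 ≤ E₁ := by positivity
  have hν3 : ∀ n, av 0 (ν n) * (av 2 (ν n) * av 3 (ν n)) = 1 := fun n => prod3 (hν n)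
  have hνp : ∀ n v, v = 0 ∨ v.Prime → 0 < av v (ν n) := fun n v hv => av_pos hv (hν n).ne_zero
  have hmp : ∀ e n v, v = 0 ∨ v.Prime → 0 < av v (mon g e n) := fun e n v hv =>
    av_pos hv (isU_mon hG.unit e n).ne_zero
  have p0 : (0 : ℕ) = 0 ∨ (0 : ℕ).Prime := Or.inl rfl
  have p2 : (2 : ℕ) = 0 ∨ (2 : ℕ).Prime := Or.inr Nat.prime_two
  have p3 : (3 : ℕ) = 0 ∨ (3 : ℕ).Prime := Or.inr Nat.prime_three
  -- a monomial of `P₀`
  obtain ⟨e₀, he₀⟩ : ∃ e₀, e₀ ∈ P₀.support := by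
    by_contra h
    push Not at h
    exact hP₀ (MvPolynomial.support_eq_empty.1 (Finset.eq_empty_of_forall_notMem h))
  have hInd1 : Indp U g (fun (_ : Fin 1) (_ : ℕ) => (1 : ℤ)) := by
    intro H hH
    have h1 : H 0 = 0 := by
      apply hUNI U S23 r g ps23 hG.unit hG.ind
      filter_upwards [hH] with n hn
      simpa using hn
    funext i
    rw [Subsingleton.elim i 0, h1]
    rfl
  have h5 : ∀ᶠ n : ℕ in (U : Filter ℕ), Real.exp (-(2 * E₁ + 1) * n) * av 0 (ν n) ≤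
      av 0 (ev g n P₀) := by
    have h6 := hS2V U S23 (fun n => (n : ℝ)) r 1 g (fun _ _ => 1) 0 1 (fun _ => P₀) 0 hG le_rfl
      one_pos (zero_mem_pl S23) (by
        apply Eventually.of_forall
        intro n i
        simp) hInd1 0 e₀ he₀
    filter_upwards [h6, hs0 e₀ he₀] with n hn1 hn2
    have q2 := hn2 2 mem2
    have q3 := hn2 3 mem3
    have q4 : av 0 (mon g e₀ n) ≤ Real.exp n * av 0 (ev g n P₀) := by
      have e : ((1 : ℕ) : ℝ) * 0 + 1 = 1 := by norm_num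
      rw [e, one_mul] at hn1
      simpa using hn1
    have q5 := prod3 (isU_mon hG.unit e₀ n)
    have m0 := hmp e₀ n 0 p0
    have m2 := hmp e₀ n 2 p2
    have m3 := hmp e₀ n 3 p3
    have n0 := hνp n 0 p0
    have n2 := hνp n 2 p2
    have n3 := hνp n 3 p3
    have q6 : av 2 (mon g e₀ n) * av 3 (mon g e₀ n) ≤
        Real.exp (2 * E₁ * n) * (av 2 (ν n) * av 3 (ν n)) := by
      calc av 2 (mon g e₀ n) * av 3 (mon g e₀ n) ≤
          (Real.exp (E₁ * n) * av 2 (ν n)) * (Real.exp (E₁ * n) * av 3 (ν n)) :=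
            mul_le_mul q2 q3 m3.le (by positivity)
        _ = (Real.exp (E₁ * n) * Real.exp (E₁ * n)) * (av 2 (ν n) * av 3 (ν n)) := by ring
        _ = Real.exp (2 * E₁ * n) * (av 2 (ν n) * av 3 (ν n)) := by
          rw [← Real.exp_add]
          congr 2
          ring
    have q7 : av 0 (ν n) ≤ Real.exp (2 * E₁ * n) * av 0 (mon g e₀ n) := by
      have q8 := hν3 n
      calc av 0 (ν n) = av 0 (ν n) * (av 0 (mon g e₀ n) *
            (av 2 (mon g e₀ n) * av 3 (mon g e₀ n))) := by rw [q5, mul_one]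
        _ ≤ av 0 (ν n) * (av 0 (mon g e₀ n) *
            (Real.exp (2 * E₁ * n) * (av 2 (ν n) * av 3 (ν n)))) :=
            mul_le_mul_of_nonneg_left (mul_le_mul_of_nonneg_left q6 m0.le) n0.le
        _ = (av 0 (ν n) * (av 2 (ν n) * av 3 (ν n))) *
            (Real.exp (2 * E₁ * n) * av 0 (mon g e₀ n)) := by ring
        _ = Real.exp (2 * E₁ * n) * av 0 (mon g e₀ n) := by rw [q8, one_mul]
    have q9 : Real.exp (-(2 * E₁ + 1) * n) * (Real.exp (2 * E₁ * n) * Real.exp n) = 1 := by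
      rw [← Real.exp_add, ← Real.exp_add, Real.exp_eq_one_iff]
      ring
    calc Real.exp (-(2 * E₁ + 1) * n) * av 0 (ν n) ≤ Real.exp (-(2 * E₁ + 1) * n) *
          (Real.exp (2 * E₁ * n) * (Real.exp n * av 0 (ev g n P₀))) :=
          mul_le_mul_of_nonneg_left (q7.trans (mul_le_mul_of_nonneg_left q4
            (Real.exp_pos _).le)) (Real.exp_pos _).le
      _ = (Real.exp (-(2 * E₁ + 1) * n) * (Real.exp (2 * E₁ * n) * Real.exp n)) *
          av 0 (ev g n P₀) := by ring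
      _ = av 0 (ev g n P₀) := by rw [q9, one_mul]
  -- the monomials of `P i`
  obtain ⟨K₂, hK₂0, hK₂⟩ := ev_bound (U := U) g p2 P₀
  have hK₂' := hK₂ (fun n => Real.exp (E₁ * n) * av 2 (ν n)) (by
    intro e he
    filter_upwards [hs0 e he] with n hn
    exact hn 2 mem2)
  set E₂ : ℝ := 3 * E₁ + d * B + 2 with hE₂
  have hmon : ∀ i, ∀ e ∈ (P i).support, ∀ᶠ n in (U : Filter ℕ),
      av 0 (mon g e n) ≤ Real.exp ((E₁ + E₂) * n) * 2 ^ Z n * av 0 (ν n) := by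
    intro i e he
    have h6 := hS2V U S23 (fun n => (n : ℝ)) r d g Y B 1 P 2 hG (Nat.cast_nonneg _) one_pos mem2
      hYb hInd i e he
    obtain ⟨u, ⟨α, β, hαβ, hu⟩, hub⟩ := hs1 i e he
    filter_upwards [h6, hub, hid, hRX, hK₂', const_le hU K₂] with n hn1 hn2 hn3 hn4 hn5 hn6
    have q0 := hn2 0 (zero_mem_pl S23)
    have q3 := hn2 3 mem3
    have m0 := hmp e n 0 p0
    have m2 := hmp e n 2 p2
    have m3 := hmp e n 3 p3
    have n0 := hνp n 0 p0
    have n2 := hνp n 2 p2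
    have n3 := hνp n 3 p3
    rw [av_mul p0] at q0
    rw [av_mul p3] at q3
    rw [hu n] at q0 q3
    obtain ⟨u03, u0⟩ := av_u (α n) (β n)
    have hR2 : av 2 (R n : ℚ) ≤ ((2 : ℝ) ^ Z n)⁻¹ := by
      rw [hn4]
      push_cast
      rw [av_mul p2, av_pow p2]
      have e2 : av 2 (2 : ℚ) = (2 : ℝ)⁻¹ := by
        have := av_self Nat.prime_two
        exact_mod_cast this
      rw [e2, inv_pow]
      have := av_int_le_one Nat.prime_two (X n)
      exact mul_le_of_le_one_right (by positivity) this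
    have q2 : av 2 (mon g e n) ≤ Real.exp ((d * B + 1) * n) *
        (K₂ * (Real.exp (E₁ * n) * av 2 (ν n)) * ((2 : ℝ) ^ Z n)⁻¹) := by
      refine hn1.trans (mul_le_mul_of_nonneg_left ?_ (Real.exp_pos _).le)
      rw [← hn3, av_mul p2]
      exact mul_le_mul hn5 hR2 (av_nonneg _ _) (by positivity)
    have q5 := prod3 (isU_mon hG.unit e n)
    have hex : Real.exp ((d * B + 1) * n) * Real.exp (E₁ * n) * Real.exp (E₁ * n) *
        Real.exp (E₁ * n) = Real.exp ((3 * E₁ + d * B + 1) * n) := by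
      rw [← Real.exp_add, ← Real.exp_add, ← Real.exp_add]
      congr 1
      ring
    have hu3p : 0 < av 3 ((2 : ℚ) ^ α n * 3 ^ β n) := av_pos p3 (by positivity)
    have hu0p : 0 < av 0 ((2 : ℚ) ^ α n * 3 ^ β n) := av_pos p0 (by positivity)
    -- the product formula
    have q7 : (1 : ℝ) ≤ K₂ * Real.exp ((3 * E₁ + d * B + 1) * n) * 2 ^ α n *
        ((2 : ℝ) ^ Z n)⁻¹ := by
      calc (1 : ℝ) = av 0 (mon g e n) * (av 2 (mon g e n) * av 3 (mon g e n)) := q5.symm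
        _ ≤ (Real.exp (E₁ * n) * (av 0 ((2 : ℚ) ^ α n * 3 ^ β n) * av 0 (ν n))) *
            ((Real.exp ((d * B + 1) * n) *
              (K₂ * (Real.exp (E₁ * n) * av 2 (ν n)) * ((2 : ℝ) ^ Z n)⁻¹)) *
            (Real.exp (E₁ * n) * (av 3 ((2 : ℚ) ^ α n * 3 ^ β n) * av 3 (ν n)))) := by
            apply mul_le_mul q0 _ (by positivity) (by positivity)
            exact mul_le_mul q2 q3 m3.le (by positivity)
        _ = K₂ * (Real.exp ((d * B + 1) * n) * Real.exp (E₁ * n) * Real.exp (E₁ * n) *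
            Real.exp (E₁ * n)) * (av 0 ((2 : ℚ) ^ α n * 3 ^ β n) *
            av 3 ((2 : ℚ) ^ α n * 3 ^ β n)) * ((2 : ℝ) ^ Z n)⁻¹ *
            (av 0 (ν n) * (av 2 (ν n) * av 3 (ν n))) := by ring
        _ = K₂ * Real.exp ((3 * E₁ + d * B + 1) * n) * 2 ^ α n * ((2 : ℝ) ^ Z n)⁻¹ := by
          rw [hex, u03, hν3 n, mul_one]
    have hαZ : α n + β n ≤ Z n := hαβ n
    obtain ⟨t, ht⟩ : ∃ t, Z n = α n + t := ⟨Z n - α n, by omega⟩
    have q8 : (2 : ℝ) ^ t ≤ Real.exp (E₂ * n) := by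
      have h2a : (0 : ℝ) < 2 ^ α n := by positivity
      have h2t : (0 : ℝ) < 2 ^ t := by positivity
      have e1 : K₂ * Real.exp ((3 * E₁ + d * B + 1) * n) * 2 ^ α n * ((2 : ℝ) ^ Z n)⁻¹ =
          K₂ * Real.exp ((3 * E₁ + d * B + 1) * n) * ((2 : ℝ) ^ t)⁻¹ := by
        rw [ht, pow_add, mul_inv]
        field_simp
      rw [e1, ← div_eq_mul_inv, le_div_iff₀ h2t, one_mul] at q7
      refine q7.trans ?_
      calc K₂ * Real.exp ((3 * E₁ + d * B + 1) * n) ≤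
          Real.exp n * Real.exp ((3 * E₁ + d * B + 1) * n) :=
            mul_le_mul_of_nonneg_right hn6 (Real.exp_pos _).le
        _ = Real.exp (E₂ * n) := by
          rw [← Real.exp_add, hE₂]
          congr 1
          ring
    have q9 : av 0 ((2 : ℚ) ^ α n * 3 ^ β n) ≤ Real.exp (E₂ * n) * 2 ^ Z n := by
      rw [u0]
      have hβt : β n ≤ t := by omega
      calc (2 : ℝ) ^ α n * 3 ^ β n ≤ 2 ^ α n * 4 ^ t := by
            apply mul_le_mul_of_nonneg_left _ (by positivity)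
            calc (3 : ℝ) ^ β n ≤ 4 ^ β n := pow_le_pow_left₀ (by norm_num) (by norm_num) _
              _ ≤ 4 ^ t := pow_le_pow_right₀ (by norm_num) hβt
        _ = 2 ^ t * 2 ^ Z n := by
          rw [ht, pow_add]
          have : (4 : ℝ) ^ t = 2 ^ t * 2 ^ t := by
            rw [← mul_pow]
            norm_num
          rw [this]
          ring
        _ ≤ Real.exp (E₂ * n) * 2 ^ Z n := mul_le_mul_of_nonneg_right q8 (by positivity)
    calc av 0 (mon g e n) ≤ Real.exp (E₁ * n) *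
          (av 0 ((2 : ℚ) ^ α n * 3 ^ β n) * av 0 (ν n)) := q0
      _ ≤ Real.exp (E₁ * n) * ((Real.exp (E₂ * n) * 2 ^ Z n) * av 0 (ν n)) :=
          mul_le_mul_of_nonneg_left (mul_le_mul_of_nonneg_right q9 n0.le) (Real.exp_pos _).le
      _ = (Real.exp (E₁ * n) * Real.exp (E₂ * n)) * 2 ^ Z n * av 0 (ν n) := by ring
      _ = Real.exp ((E₁ + E₂) * n) * 2 ^ Z n * av 0 (ν n) := by
          rw [← Real.exp_add]
          congr 3
          ring
  have hK : ∀ i, ∃ K : ℝ, 0 ≤ K ∧ ∀ᶠ n in (U : Filter ℕ), av 0 (ev g n (P i)) ≤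
      K * (Real.exp ((E₁ + E₂) * n) * 2 ^ Z n * av 0 (ν n)) := by
    intro i
    obtain ⟨K, hK0, hK1⟩ := ev_bound (U := U) g p0 (P i)
    exact ⟨K, hK0, hK1 _ (hmon i)⟩
  choose K hK0 hK1 using hK
  have hK1' : ∀ᶠ n in (U : Filter ℕ), ∀ i, av 0 (ev g n (P i)) ≤
      K i * (Real.exp ((E₁ + E₂) * n) * 2 ^ Z n * av 0 (ν n)) := eventually_all.2 hK1
  filter_upwards [hK1', hYb, hid, hRX, h5, const_le hU (∑ i, K i)] with n hn1 hn2 hn3 hn4 hn5 hn6
  have n0 := hνp n 0 p0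
  have hsum : av 0 (∑ i, ev g n (P i) * (Y i n : ℚ)) ≤
      (∑ i, K i) * ((Real.exp ((E₁ + E₂) * n) * 2 ^ Z n * av 0 (ν n)) * Real.exp (B * n)) := by
    rw [Finset.sum_mul]
    refine (av_sum_le p0 _ _).trans (Finset.sum_le_sum fun i _ => ?_)
    rw [av_mul p0]
    have h7 : av 0 ((Y i n : ℤ) : ℚ) ≤ Real.exp (B * n) := by
      rw [av_zero_eq]
      push_cast
      exact hn2 i
    calc av 0 (ev g n (P i)) * av 0 ((Y i n : ℤ) : ℚ) ≤
        (K i * (Real.exp ((E₁ + E₂) * n) * 2 ^ Z n * av 0 (ν n))) * Real.exp (B * n) :=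
          mul_le_mul (hn1 i) h7 (av_nonneg _ _) (mul_nonneg (hK0 i) (by positivity))
      _ = _ := by ring
  rw [← hn3, av_mul p0] at hsum
  have hRabs : av 0 ((R n : ℤ) : ℚ) = 2 ^ Z n * |(X n : ℝ)| := by
    rw [hn4, av_zero_eq]
    push_cast
    rw [abs_mul, abs_of_pos (by positivity : (0 : ℝ) < 2 ^ Z n)]
  rw [hRabs] at hsum
  have h2Z : (0 : ℝ) < 2 ^ Z n := by positivity
  have hX0 : 0 ≤ |(X n : ℝ)| := abs_nonneg _
  have h8 : Real.exp (-(2 * E₁ + 1) * n) * |(X n : ℝ)| * (av 0 (ν n) * 2 ^ Z n) ≤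
      ((∑ i, K i) * (Real.exp ((E₁ + E₂) * n) * Real.exp (B * n))) *
        (av 0 (ν n) * 2 ^ Z n) := by
    calc Real.exp (-(2 * E₁ + 1) * n) * |(X n : ℝ)| * (av 0 (ν n) * 2 ^ Z n) =
        (Real.exp (-(2 * E₁ + 1) * n) * av 0 (ν n)) * (2 ^ Z n * |(X n : ℝ)|) := by ring
      _ ≤ av 0 (ev g n P₀) * (2 ^ Z n * |(X n : ℝ)|) :=
          mul_le_mul_of_nonneg_right hn5 (by positivity)
      _ ≤ _ := hsum
      _ = _ := by ring
  have h9 : Real.exp (-(2 * E₁ + 1) * n) * |(X n : ℝ)| ≤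
      (∑ i, K i) * (Real.exp ((E₁ + E₂) * n) * Real.exp (B * n)) :=
    le_of_mul_le_mul_right h8 (by positivity)
  have h10 : |(X n : ℝ)| ≤ Real.exp ((3 * E₁ + E₂ + B + 2) * n) := by
    have e1 : |(X n : ℝ)| = Real.exp ((2 * E₁ + 1) * n) *
        (Real.exp (-(2 * E₁ + 1) * n) * |(X n : ℝ)|) := by
      rw [← mul_assoc, ← Real.exp_add]
      have : (2 * E₁ + 1) * (n : ℝ) + -(2 * E₁ + 1) * n = 0 := by ring
      rw [this, Real.exp_zero, one_mul]
    rw [e1]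
    calc Real.exp ((2 * E₁ + 1) * n) * (Real.exp (-(2 * E₁ + 1) * n) * |(X n : ℝ)|) ≤
        Real.exp ((2 * E₁ + 1) * n) *
          ((∑ i, K i) * (Real.exp ((E₁ + E₂) * n) * Real.exp (B * n))) :=
          mul_le_mul_of_nonneg_left h9 (Real.exp_pos _).le
      _ ≤ Real.exp ((2 * E₁ + 1) * n) *
          (Real.exp n * (Real.exp ((E₁ + E₂) * n) * Real.exp (B * n))) :=
          mul_le_mul_of_nonneg_left (mul_le_mul_of_nonneg_right hn6 (by positivity))
            (Real.exp_pos _).le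
      _ = Real.exp ((3 * E₁ + E₂ + B + 2) * n) := by
        rw [← Real.exp_add, ← Real.exp_add, ← Real.exp_add]
        congr 1
        ring
  have h11 : (3 * E₁ + E₂ + B + 2 : ℝ) ≤ 100 * (s + 1) ^ 2 * (B + 1) * Real.log 2 := by
    have hl : (0.69 : ℝ) ≤ Real.log 2 := by
      have := Real.log_two_gt_d9
      linarith
    have hd : (d : ℝ) ≤ s := by exact_mod_cast hds
    have hs0' : (0 : ℝ) ≤ s := Nat.cast_nonneg _
    have hB0 : (0 : ℝ) ≤ B := Nat.cast_nonneg _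
    have hq : (1 : ℝ) ≤ (s + 1) ^ 2 := by nlinarith
    have hq2 : (s : ℝ) ≤ (s + 1) ^ 2 := by nlinarith
    have h12 : (d : ℝ) * B ≤ (s + 1) ^ 2 * B :=
      mul_le_mul_of_nonneg_right (hd.trans hq2) hB0
    have h13 : (B : ℝ) ≤ (s + 1) ^ 2 * B := le_mul_of_one_le_left hB0 hq
    have h14 : (100 * (s + 1) ^ 2 * (B + 1) * 0.69 : ℝ) ≤
        100 * (s + 1) ^ 2 * (B + 1) * Real.log 2 :=
      mul_le_mul_of_nonneg_left hl (by positivity)
    refine le_trans ?_ h14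
    rw [hE₂, hE₁]
    nlinarith
  have h12 : |(X n : ℝ)| ≤ 2 ^ (100 * (s + 1) ^ 2 * (B + 1) * n) := by
    have e1 : (2 : ℝ) ^ (100 * (s + 1) ^ 2 * (B + 1) * n) =
        Real.exp ((100 * (s + 1) ^ 2 * (B + 1) * Real.log 2) * n) := by
      have : (2 : ℝ) ^ (100 * (s + 1) ^ 2 * (B + 1) * n) =
          Real.exp (((100 * (s + 1) ^ 2 * (B + 1) * n : ℕ) : ℝ) * Real.log 2) := by
        rw [← Real.log_pow, Real.exp_log (by positivity)]
      rw [this]
      congr 1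
      push_cast
      ring
    rw [e1]
    exact h10.trans (Real.exp_le_exp.mpr (mul_le_mul_of_nonneg_right h11 (Nat.cast_nonneg _)))
  exact_mod_cast h12

end Pool.Agent.CLX
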