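import Pool.Agent.CLX.TST

/-!
# TER: the values of a word with errors by few integers
-/

set_option autoImplicit false

namespace Pool.Agent.CLX

open Filter Pool.Agent.SBT

namespace TER_

/-- the values of a word -/
def pv (u : ℕ → ℕ) (κ p0 : ℤ) : ℕ → ℤ
  | 0 => p0
  | i + 1 => 3 ^ u i * pv u κ p0 i + (u i : ℤ) * κ * 2 ^ ze u i

theorem pv_val (u : ℕ → ℕ) (κ p0 : ℤ) : Val u κ (pv u κ p0) := fun _ => rfl

theorem growth {u : ℕ → ℕ} {κ : ℤ} {P : ℕ → ℤ} (hu : ∀ i, u i < 2) (hP : Val u κ P) :
    ∀ i, |P i| + 2 ^ i * |κ| ≤ 4 ^ i * (|P 0| + |κ|) := by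
  intro i
  induction i with
  | zero => simp
  | succ i ih =>
    have h1 : ze u i ≤ i := by
      have := TST_.ze_on hu i
      omega
    have h2 : (2 : ℤ) ^ ze u i ≤ 2 ^ i := pow_le_pow_right₀ (by norm_num) h1
    have h3 : |P (i + 1)| ≤ 3 * |P i| + |κ| * 2 ^ i := by
      rw [hP i]
      have hui : u i = 0 ∨ u i = 1 := by
        have := hu i
        omega
      rcases hui with h | h
      · rw [h]
        have h4 : (3 : ℤ) ^ 0 * P i + ((0 : ℕ) : ℤ) * κ * 2 ^ ze u i = P i := by simp
        rw [h4]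
        have := abs_nonneg (P i)
        have : 0 ≤ |κ| * 2 ^ i := by positivity
        linarith
      · rw [h]
        have h4 : (3 : ℤ) ^ 1 * P i + ((1 : ℕ) : ℤ) * κ * 2 ^ ze u i =
            3 * P i + κ * 2 ^ ze u i := by simp
        rw [h4]
        calc |3 * P i + κ * 2 ^ ze u i| ≤ |3 * P i| + |κ * 2 ^ ze u i| := abs_add_le _ _
          _ = 3 * |P i| + |κ| * 2 ^ ze u i := by
              rw [abs_mul, abs_mul, abs_of_nonneg (show (0 : ℤ) ≤ 3 by norm_num),
                abs_of_nonneg (show (0 : ℤ) ≤ 2 ^ ze u i by positivity)]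
          _ ≤ 3 * |P i| + |κ| * 2 ^ i := by
              have := mul_le_mul_of_nonneg_left h2 (abs_nonneg κ)
              linarith
    have h5 := abs_nonneg (P i)
    calc |P (i + 1)| + 2 ^ (i + 1) * |κ| ≤ 3 * |P i| + |κ| * 2 ^ i + 2 ^ (i + 1) * |κ| := by
          linarith
      _ = 3 * |P i| + 3 * (2 ^ i * |κ|) := by rw [pow_succ]; ring
      _ ≤ 4 * (|P i| + 2 ^ i * |κ|) := by
          have : 0 ≤ 2 ^ i * |κ| := by positivity
          linarith
      _ ≤ 4 * (4 ^ i * (|P 0| + |κ|)) := by linarith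
      _ = 4 ^ (i + 1) * (|P 0| + |κ|) := by rw [pow_succ]; ring

/-- no two consecutive ones -/
theorem gap {w : ℕ → ℕ} (hw : ∀ i, w i < 2) (hg : ∀ i, w i = 1 → w (i + 1) = 0) (a : ℕ) :
    ∀ b, a ≤ b → on w b + ze w a ≤ on w a + ze w b + 1 ∧
      (w b = 1 → on w b + ze w a ≤ on w a + ze w b) := by
  intro b hb
  induction b, hb using Nat.le_induction with
  | base => exact ⟨by omega, fun _ => by omega⟩
  | succ b _ ih =>
    rw [TST_.on_succ, TST_.ze_succ]
    have h1 := hw b
    have h2 : w b = 0 ∨ w b = 1 := by omega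
    rcases h2 with h2 | h2
    · rw [h2]
      exact ⟨by omega, fun _ => by omega⟩
    · have h3 := ih.2 h2
      rw [h2]
      refine ⟨by omega, fun h4 => ?_⟩
      rw [hg b h2] at h4
      exact absurd h4 (by norm_num)

/-- the numbers of zeros and ones change by at most the number of errors -/
theorem err {w u : ℕ → ℕ} (hw : ∀ i, w i < 2) (hu : ∀ i, u i < 2) (a : ℕ) :
    ∀ b, a ≤ b →
      on u b + on w a ≤ on u a + on w b +
        ((Finset.range b).filter fun i => a ≤ i ∧ w i ≠ u i).card ∧
      ze w b + ze u a ≤ ze w a + ze u b +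
        ((Finset.range b).filter fun i => a ≤ i ∧ w i ≠ u i).card ∧
      ze u b + ze w a ≤ ze u a + ze w b +
        ((Finset.range b).filter fun i => a ≤ i ∧ w i ≠ u i).card := by
  intro b hb
  induction b, hb using Nat.le_induction with
  | base => exact ⟨by omega, by omega, by omega⟩
  | succ b hb ih =>
    obtain ⟨h1, h2, h3⟩ := ih
    have h4 := hw b
    have h5 := hu b
    by_cases h : w b = u b
    · have e : (Finset.range (b + 1)).filter (fun i => a ≤ i ∧ w i ≠ u i) =
          (Finset.range b).filter fun i => a ≤ i ∧ w i ≠ u i := by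
        rw [Finset.range_add_one, Finset.filter_insert, if_neg (fun h' => h'.2 h)]
      rw [e]
      simp only [TST_.on_succ, TST_.ze_succ]
      rw [h]
      refine ⟨by omega, by omega, by omega⟩
    · have e : ((Finset.range (b + 1)).filter (fun i => a ≤ i ∧ w i ≠ u i)).card =
          ((Finset.range b).filter fun i => a ≤ i ∧ w i ≠ u i).card + 1 := by
        rw [Finset.range_add_one, Finset.filter_insert, if_pos ⟨hb, h⟩,
          Finset.card_insert_of_notMem]
        simp
      rw [e]
      simp only [TST_.on_succ, TST_.ze_succ]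
      refine ⟨by omega, by omega, by omega⟩

theorem sum_fin {N c W m : ℕ} (F : Fin m → ℤ) (h : ∀ j, Rpt N c W (F j)) :
    Rpt (m * N) c W (∑ j, F j) := by
  induction m with
  | zero =>
    rw [Finset.univ_eq_empty, Finset.sum_empty]
    exact TST_.zero _ _ _
  | succ m ih =>
    rw [Fin.sum_univ_succ]
    have h1 := TST_.add (h 0) (ih (fun j => F j.succ) (fun j => h j.succ))
    refine TST_.mono ?_ le_rfl le_rfl h1
    have : (m + 1) * N = N + m * N := by ring
    omega

/-- the telescoping formula -/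
theorem tele {w u : ℕ → ℕ} {κ : ℤ} {P Q : ℕ → ℤ} (hP : Val w κ P) (hQ : Val u κ Q)
    (δ n : ℕ) : ∀ L, n ≤ L → (∀ i ≤ L, ze u i ≤ ze w i + δ) →
    2 ^ δ * P L = 2 ^ (ze w L + δ - ze u L) * Q L +
      3 ^ (on w L - on w n) * (2 ^ δ * P n - 2 ^ (ze w n + δ - ze u n) * Q n) +
      ∑ i ∈ (Finset.range L).filter (fun i => n ≤ i ∧ w i ≠ u i),
        ((w i : ℤ) * (2 ^ (δ + ze w i) * 3 ^ (on w L - on w (i + 1))) * κ +
          2 ^ (ze w i + δ - ze u i) * 3 ^ (on w L - on w i) * Q i -
          2 ^ (ze w (i + 1) + δ - ze u (i + 1)) * 3 ^ (on w L - on w (i + 1)) * Q (i + 1)) := by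
  intro L hL
  induction L, hL using Nat.le_induction with
  | base =>
    intro _
    have e : (Finset.range n).filter (fun i => n ≤ i ∧ w i ≠ u i) = ∅ := by
      apply Finset.filter_eq_empty_iff.2
      intro i hi h
      rw [Finset.mem_range] at hi
      omega
    rw [e, Finset.sum_empty, Nat.sub_self]
    ring
  | succ L hL ih =>
    intro hz
    have ih' := ih (fun i hi => hz i (by omega))
    have hzL := hz L (by omega)
    have hzL1 := hz (L + 1) le_rfl
    -- the powers of three
    have hon : ∀ x ≤ L, (3 : ℤ) ^ (on w (L + 1) - on w x) = 3 ^ w L * 3 ^ (on w L - on w x) := by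
      intro x hx
      rw [← pow_add]
      congr 1
      have := TST_.on_mono w hx
      rw [TST_.on_succ]
      omega
    have hsum : ∑ i ∈ (Finset.range L).filter (fun i => n ≤ i ∧ w i ≠ u i),
        ((w i : ℤ) * (2 ^ (δ + ze w i) * 3 ^ (on w (L + 1) - on w (i + 1))) * κ +
          2 ^ (ze w i + δ - ze u i) * 3 ^ (on w (L + 1) - on w i) * Q i -
          2 ^ (ze w (i + 1) + δ - ze u (i + 1)) * 3 ^ (on w (L + 1) - on w (i + 1)) *
            Q (i + 1)) =
        3 ^ w L * ∑ i ∈ (Finset.range L).filter (fun i => n ≤ i ∧ w i ≠ u i),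
        ((w i : ℤ) * (2 ^ (δ + ze w i) * 3 ^ (on w L - on w (i + 1))) * κ +
          2 ^ (ze w i + δ - ze u i) * 3 ^ (on w L - on w i) * Q i -
          2 ^ (ze w (i + 1) + δ - ze u (i + 1)) * 3 ^ (on w L - on w (i + 1)) *
            Q (i + 1)) := by
      rw [Finset.mul_sum]
      refine Finset.sum_congr rfl fun i hi => ?_
      rw [Finset.mem_filter, Finset.mem_range] at hi
      rw [hon (i + 1) (by omega), hon i (by omega)]
      ring
    have hPL := hP L
    have hpow : (2 : ℤ) ^ (δ + ze w L) = 2 ^ (ze w L + δ - ze u L) * 2 ^ ze u L := by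
      rw [← pow_add]
      congr 1
      omega
    by_cases h : w L = u L
    · have e : (Finset.range (L + 1)).filter (fun i => n ≤ i ∧ w i ≠ u i) =
          (Finset.range L).filter fun i => n ≤ i ∧ w i ≠ u i := by
        rw [Finset.range_add_one, Finset.filter_insert, if_neg (fun h' => h'.2 h)]
      rw [e, hsum, hon n hL]
      have e2 : ze w (L + 1) + δ - ze u (L + 1) = ze w L + δ - ze u L := by
        simp only [TST_.ze_succ]
        rw [h]
        omega
      rw [e2, hQ L, hPL, ← h]
      have e3 : (2 : ℤ) ^ δ * (3 ^ w L * P L + (w L : ℤ) * κ * 2 ^ ze w L) =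
          3 ^ w L * (2 ^ δ * P L) + (w L : ℤ) * κ * 2 ^ (δ + ze w L) := by
        rw [pow_add]
        ring
      rw [e3, ih', hpow]
      ring
    · have e : (Finset.range (L + 1)).filter (fun i => n ≤ i ∧ w i ≠ u i) =
          insert L ((Finset.range L).filter fun i => n ≤ i ∧ w i ≠ u i) := by
        rw [Finset.range_add_one, Finset.filter_insert, if_pos ⟨hL, h⟩]
      have hni : L ∉ (Finset.range L).filter fun i => n ≤ i ∧ w i ≠ u i := by simp
      rw [e, Finset.sum_insert hni, hsum, hon n hL, hon L le_rfl, Nat.sub_self, Nat.sub_self, hPL]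
      have e3 : (2 : ℤ) ^ δ * (3 ^ w L * P L + (w L : ℤ) * κ * 2 ^ ze w L) =
          3 ^ w L * (2 ^ δ * P L) + (w L : ℤ) * κ * 2 ^ (δ + ze w L) := by
        rw [pow_add]
        ring
      rw [e3, ih']
      ring

/-- an enumeration of a small set -/
theorem enum (E : Finset ℕ) (M n : ℕ) (hE : E.card ≤ M) :
    ∃ (e : Fin M → ℕ) (ω : Fin M → ℤ), (∀ j, ω j = 0 ∧ e j = n ∨ ω j = 1 ∧ e j ∈ E) ∧
      ∀ g : ℕ → ℤ, ∑ i ∈ E, g i = ∑ j, ω j * g (e j) := by
  classical
  induction M generalizing E with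
  | zero =>
    have h : E = ∅ := by
      rw [← Finset.card_eq_zero]
      omega
    subst h
    exact ⟨fun _ => 0, fun _ => 0, fun j => j.elim0, fun g => by simp⟩
  | succ M ih =>
    rcases E.eq_empty_or_nonempty with h | ⟨a, ha⟩
    · subst h
      exact ⟨fun _ => n, fun _ => 0, fun j => Or.inl ⟨rfl, rfl⟩, fun g => by simp⟩
    · obtain ⟨e, ω, h1, h2⟩ := ih (E.erase a) (by
        rw [Finset.card_erase_of_mem ha]
        omega)
      refine ⟨Fin.cons a e, Fin.cons 1 ω, ?_, ?_⟩
      · intro j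
        refine Fin.cases ?_ (fun i => ?_) j
        · right
          simp [ha]
        · rcases h1 i with h3 | h3
          · left
            simpa using h3
          · right
            simp only [Fin.cons_succ]
            exact ⟨h3.1, Finset.mem_of_mem_erase h3.2⟩
      · intro g
        rw [← Finset.add_sum_erase E g ha, h2 g, Fin.sum_univ_succ]
        simp

end TER_

open TER_ in
theorem ter_proof (hTST : Stmt_TST) : Stmt_TER := by
  intro M G
  obtain ⟨R, hR⟩ := hTST M ((M + 1) + (M + 1)) G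
  refine ⟨((M + 1) + (M + 1)) * R + (M + 1) * 2 ^ (M + 1), ?_⟩
  intro N k n L κ w u p P hn hw hg hu hP hp hnL hLN hLG hcp hce hcN
  set Q : ℕ → ℤ := pv u κ (P 0) with hQ
  have hQv : Val u κ Q := pv_val u κ (P 0)
  set E := (Finset.range L).filter (fun i => n ≤ i ∧ w i ≠ u i) with hE
  set δ : ℕ := ((Finset.range L).filter fun i => w i ≠ u i).card with hδ
  have hδn : δ ≤ n := by
    refine le_trans (Finset.card_le_card ?_) hcN
    intro i hi
    rw [Finset.mem_filter, Finset.mem_range] at hi ⊢
    exact ⟨by omega, hi.2⟩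
  have hze : ∀ i ≤ L, ze u i ≤ ze w i + δ := by
    intro i hi
    have h1 := (err hw hu 0 i (Nat.zero_le _)).2.2
    have h2 : ((Finset.range i).filter fun j => 0 ≤ j ∧ w j ≠ u j).card ≤ δ := by
      refine Finset.card_le_card ?_
      intro j hj
      rw [Finset.mem_filter, Finset.mem_range] at hj ⊢
      exact ⟨by omega, hj.2.2⟩
    have h3 : ze u 0 = 0 := by simp [ze]
    have h4 : ze w 0 = 0 := by simp [ze]
    omega
  have htele := tele hP hQv δ n L hnL hze
  obtain ⟨e, ω, he, hsum⟩ := enum E M n hce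
  have heL : ∀ j, ω j = 1 → n ≤ e j ∧ e j < L := by
    intro j hj
    rcases he j with h | h
    · rw [h.1] at hj
      exact absurd hj (by norm_num)
    · have := h.2
      rw [hE, Finset.mem_filter, Finset.mem_range] at this
      exact ⟨this.2.1, this.1⟩
  set e1 : Fin M → ℕ := fun j => if ω j = 0 then n else e j + 1 with he1
  -- the places
  set x : Fin ((M + 1) + (M + 1)) → ℕ :=
    Fin.append (Fin.cons L e : Fin (M + 1) → ℕ) (Fin.cons n e1 : Fin (M + 1) → ℕ) with hx
  set c : Fin ((M + 1) + (M + 1)) → ℤ :=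
    Fin.append
      (Fin.cons (2 ^ (ze w L + δ - ze u L) * 3 ^ 0)
        (fun j => ω j * (2 ^ (ze w (e j) + δ - ze u (e j)) * 3 ^ (on w L - on w (e j)))) :
        Fin (M + 1) → ℤ)
      (Fin.cons (-(2 ^ (ze w n + δ - ze u n) * 3 ^ (on w L - on w n)))
        (fun j => -(ω j * (2 ^ (ze w (e1 j) + δ - ze u (e1 j)) *
          3 ^ (on w L - on w (e1 j))))) : Fin (M + 1) → ℤ) with hc
  set kk : ℤ := ∑ j, ω j * ((w (e j) : ℤ) *
    (2 ^ (δ + ze w (e j)) * 3 ^ (on w L - on w (e j + 1)))) with hkk
  have he1' : ∀ j, ω j = 1 → e1 j = e j + 1 := by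
    intro j hj
    simp only [he1]
    rw [if_neg (by rw [hj]; norm_num)]
  have heq : 2 ^ δ * P L = ∑ t, c t * Q (x t) + 3 ^ (on w L - on w n) * 2 ^ δ * P n + kk * κ := by
    rw [htele, hsum, hkk, Finset.sum_mul, Fin.sum_univ_add]
    simp only [hx, hc, Fin.append_left, Fin.append_right]
    rw [Fin.sum_univ_succ, Fin.sum_univ_succ]
    simp only [Fin.cons_zero, Fin.cons_succ]
    have h1 : ∑ j, ω j * ((w (e j) : ℤ) * (2 ^ (δ + ze w (e j)) *
          3 ^ (on w L - on w (e j + 1))) * κ +
          2 ^ (ze w (e j) + δ - ze u (e j)) * 3 ^ (on w L - on w (e j)) * Q (e j) -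
          2 ^ (ze w (e j + 1) + δ - ze u (e j + 1)) * 3 ^ (on w L - on w (e j + 1)) *
            Q (e j + 1)) =
        (∑ j, ω j * (2 ^ (ze w (e j) + δ - ze u (e j)) * 3 ^ (on w L - on w (e j))) *
          Q (e j)) +
        (∑ j, -(ω j * (2 ^ (ze w (e1 j) + δ - ze u (e1 j)) * 3 ^ (on w L - on w (e1 j)))) *
          Q (e1 j)) +
        ∑ j, ω j * ((w (e j) : ℤ) * (2 ^ (δ + ze w (e j)) *
          3 ^ (on w L - on w (e j + 1)))) * κ := by
      rw [← Finset.sum_add_distrib, ← Finset.sum_add_distrib]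
      refine Finset.sum_congr rfl fun j _ => ?_
      rcases he j with h | h
      · rw [h.1]
        ring
      · rw [he1' j h.1]
        ring
    rw [h1]
    ring
  -- the potentials
  have hpot : ∀ i, n ≤ i → i ≤ L →
      (ze w i + δ - ze u i) + (on w L - on w i) + ze u i ≤ ze w L + 1 + δ := by
    intro i _ hi2
    have h1 := (gap hw hg i L hi2).1
    have h2 := hze i hi2
    have h3 := TST_.on_mono w hi2
    omega
  have hxL : ∀ t, n ≤ x t ∧ x t ≤ L := by
    intro t
    simp only [hx]
    refine Fin.addCases (fun i => ?_) (fun i => ?_) t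
    · rw [Fin.append_left]
      refine Fin.cases ?_ (fun j => ?_) i
      · rw [Fin.cons_zero]
        exact ⟨hnL, le_rfl⟩
      · rw [Fin.cons_succ]
        rcases he j with h | h
        · rw [h.2]
          exact ⟨le_rfl, hnL⟩
        · have := heL j h.1
          exact ⟨this.1, this.2.le⟩
    · rw [Fin.append_right]
      refine Fin.cases ?_ (fun j => ?_) i
      · rw [Fin.cons_zero]
        exact ⟨le_rfl, hnL⟩
      · rw [Fin.cons_succ]
        rcases he j with h | h
        · simp only [he1]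
          rw [if_pos h.1]
          exact ⟨le_rfl, hnL⟩
        · have := heL j h.1
          rw [he1' j h.1]
          exact ⟨by omega, by omega⟩
  have hcR : ∀ t, Rpt 1 (ze u (x t)) (ze w L + 1 + δ) (c t) := by
    intro t
    simp only [hx, hc]
    refine Fin.addCases (fun i => ?_) (fun i => ?_) t
    · rw [Fin.append_left, Fin.append_left]
      refine Fin.cases ?_ (fun j => ?_) i
      · rw [Fin.cons_zero, Fin.cons_zero]
        refine TST_.pw ?_
        have := hpot L hnL le_rfl
        omega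
      · rw [Fin.cons_succ, Fin.cons_succ]
        rcases he j with h | h
        · rw [h.1, zero_mul]
          exact TST_.zero _ _ _
        · rw [h.1, one_mul]
          have := heL j h.1
          exact TST_.pw (hpot _ this.1 this.2.le)
    · rw [Fin.append_right, Fin.append_right]
      refine Fin.cases ?_ (fun j => ?_) i
      · rw [Fin.cons_zero, Fin.cons_zero]
        exact TST_.neg (TST_.pw (hpot n le_rfl hnL))
      · rw [Fin.cons_succ, Fin.cons_succ]
        rcases he j with h | h
        · rw [h.1, zero_mul, neg_zero]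
          exact TST_.zero _ _ _
        · rw [h.1, one_mul]
          have := heL j h.1
          have h2 := he1' j h.1
          exact TST_.neg (TST_.pw (hpot _ (by omega) (by omega)))
  have hkkR : Rpt (M * 1) 0 (ze w L + 1 + δ) kk := by
    rw [hkk]
    refine sum_fin _ fun j => ?_
    rcases he j with h | h
    · rw [h.1, zero_mul]
      exact TST_.zero _ _ _
    · rw [h.1, one_mul]
      have h1 := hw (e j)
      have h2 : w (e j) = 0 ∨ w (e j) = 1 := by omega
      rcases h2 with h2 | h2
      · rw [h2, Nat.cast_zero, zero_mul]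
        exact TST_.zero _ _ _
      · rw [h2, Nat.cast_one, one_mul]
        refine TST_.pw ?_
        have h3 := heL j h.1
        have h4 := (gap hw hg (e j) L h3.2.le).1
        have h5 := TST_.on_mono w (show e j + 1 ≤ L by omega)
        have h6 := TST_.on_mono w (show e j ≤ e j + 1 by omega)
        omega
  -- the structure without errors
  have hK : ∀ a b, a ≤ b → b ≤ N → on u b + ze u a ≤ on u a + ze u b + (2 * n + 1) := by
    intro a b hab hbN
    have h1 := err hw hu a b hab
    have h2 := (gap hw hg a b hab).1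
    have h3 : ((Finset.range b).filter fun i => a ≤ i ∧ w i ≠ u i).card ≤ n := by
      refine le_trans (Finset.card_le_card ?_) hcN
      intro i hi
      rw [Finset.mem_filter, Finset.mem_range] at hi ⊢
      exact ⟨by omega, hi.2.2⟩
    omega
  obtain ⟨ζ, μ, y, F, F₀, h1, h2, h3, h4, h5⟩ := hR N k n (2 * n + 1) κ u p Q x hn hu hQv hp
    (fun t => ⟨(hxL t).2.trans hLN, (hxL t).2.trans hLG⟩) hK
    (fun t => by
      refine le_trans (Finset.card_le_card ?_) hcp
      intro j hj
      rw [Finset.mem_filter] at hj ⊢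
      have := (hxL t).2
      exact ⟨hj.1, hj.2.1, by omega⟩)
  set D : ℤ := ∏ i, ((2 : ℤ) ^ ζ i - 3 ^ μ i) with hD
  have hDR : Rpt (2 ^ (M + 1)) 0 ((M + 1) * n) D := TST_.prd ζ μ fun i => (h1 i).2
  set W : ℕ := ze w L + 10 * (M + 1) * n with hW
  have hWb : ze w L + 1 + δ + (M + 1) * (n + (2 * n + 1)) ≤ W := by
    have h6 : (M + 1) * (n + (2 * n + 1)) ≤ (M + 1) * (4 * n) := Nat.mul_le_mul_left _ (by omega)
    have h7 : 1 + δ ≤ (M + 1) * (2 * n) := by
      calc 1 + δ ≤ 2 * n := by omega
        _ = 1 * (2 * n) := by ring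
        _ ≤ (M + 1) * (2 * n) := Nat.mul_le_mul_right _ (by omega)
    have h8 : 10 * (M + 1) * n = (M + 1) * (4 * n) + (M + 1) * (2 * n) + (M + 1) * (4 * n) := by
      ring
    omega
  have hWb2 : ze w L + 1 + δ + (M + 1) * n ≤ W := by
    refine le_trans ?_ hWb
    have : (M + 1) * n ≤ (M + 1) * (n + (2 * n + 1)) := Nat.mul_le_mul_left _ (by omega)
    omega
  -- the coefficients
  set FF : Fin (((M + 1) + (M + 1) + 2 * (M + 1)) + 2) → ℤ :=
    Fin.append (fun i => ∑ t, c t * F t i)
      (Fin.cons (3 ^ (on w L - on w n) * 2 ^ δ * D)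
        (fun _ => kk * D + ∑ t, c t * F₀ t) : Fin 2 → ℤ) with hFF
  set yy : Fin (((M + 1) + (M + 1) + 2 * (M + 1)) + 2) → ℤ :=
    Fin.append (fun i => Q (y i)) (Fin.cons (P n) (fun _ => κ) : Fin 2 → ℤ) with hyy
  have hfin : 2 ^ δ * D * P L = ∑ i, FF i * yy i := by
    have e3 : 2 ^ δ * D * P L = D * (2 ^ δ * P L) := by ring
    have e7 : ∑ i, FF i * yy i = (∑ i, (∑ t, c t * F t i) * Q (y i)) +
        (3 ^ (on w L - on w n) * 2 ^ δ * D * P n + (kk * D + ∑ t, c t * F₀ t) * κ) := by
      rw [Fin.sum_univ_add]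
      simp only [hFF, hyy, Fin.append_left, Fin.append_right]
      rw [Fin.sum_univ_two]
      rfl
    rw [e3, heq, e7]
    have e4 : D * ∑ t, c t * Q (x t) =
        (∑ i, (∑ t, c t * F t i) * Q (y i)) + (∑ t, c t * F₀ t) * κ := by
      rw [Finset.mul_sum]
      have e5 : ∀ t, D * (c t * Q (x t)) =
          (∑ i, c t * F t i * Q (y i)) + c t * F₀ t * κ := by
        intro t
        have e6 : D * (c t * Q (x t)) = c t * (D * Q (x t)) := by ring
        rw [e6, h5 t, mul_add, Finset.mul_sum]
        congr 1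
        · refine Finset.sum_congr rfl fun i _ => ?_
          ring
        · ring
      simp only [e5]
      rw [Finset.sum_add_distrib, Finset.sum_comm, Finset.sum_mul]
      congr 1
      refine Finset.sum_congr rfl fun i _ => ?_
      rw [Finset.sum_mul]
    rw [mul_add, mul_add, e4]
    ring
  have hFR : ∀ i, Rpt (((M + 1) + (M + 1)) * R + (M + 1) * 2 ^ (M + 1)) 0 W (FF i) := by
    intro i
    have hA : ∀ t i, Rpt (1 * R) 0 W (c t * F t i) := fun t i =>
      TST_.mono le_rfl le_rfl hWb (TST_.mul (hcR t) (h3 t i))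
    have hB : ∀ t, Rpt (1 * R) 0 W (c t * F₀ t) := fun t =>
      TST_.mono le_rfl le_rfl hWb (TST_.mul (hcR t) (h4 t))
    simp only [hFF]
    refine Fin.addCases (fun i => ?_) (fun i => ?_) i
    · rw [Fin.append_left]
      have h6 := sum_fin (fun t => c t * F t i) (fun t => hA t i)
      refine TST_.mono ?_ le_rfl le_rfl h6
      rw [one_mul]
      exact Nat.le_add_right _ _
    · rw [Fin.append_right]
      refine Fin.cases ?_ (fun j => ?_) i
      · rw [Fin.cons_zero]
        have h6 : Rpt 1 0 (ze w L + 1 + δ) (2 ^ δ * 3 ^ (on w L - on w n)) := by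
          refine TST_.pw ?_
          have h7 := (gap hw hg n L hnL).1
          have h8 := TST_.on_mono w hnL
          omega
        have h7 : Rpt (2 ^ (M + 1)) 0 (0 + (M + 1) * n) D := by
          rw [Nat.zero_add]
          exact hDR
        have h8 := TST_.mul h6 h7
        have e3 : (3 : ℤ) ^ (on w L - on w n) * 2 ^ δ * D =
            2 ^ δ * 3 ^ (on w L - on w n) * D := by ring
        rw [e3]
        refine TST_.mono ?_ le_rfl hWb2 h8
        have h9 : 1 * 2 ^ (M + 1) ≤ (M + 1) * 2 ^ (M + 1) := Nat.mul_le_mul_right _ (by omega)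
        omega
      · rw [Fin.cons_succ]
        have h7 : Rpt (2 ^ (M + 1)) 0 (0 + (M + 1) * n) D := by
          rw [Nat.zero_add]
          exact hDR
        have h8 := TST_.mul hkkR h7
        have h9 := sum_fin (fun t => c t * F₀ t) hB
        have h10 := TST_.add (TST_.mono le_rfl le_rfl hWb2 h8) h9
        refine TST_.mono ?_ le_rfl le_rfl h10
        have h11 : M * 1 * 2 ^ (M + 1) ≤ (M + 1) * 2 ^ (M + 1) :=
          Nat.mul_le_mul_right _ (by omega)
        rw [one_mul]
        omega
  have hyR : ∀ i, |yy i| ≤ 4 ^ n * (|P 0| + |κ|) := by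
    intro i
    have h6 : ∀ m ≤ n, (4 : ℤ) ^ m * (|P 0| + |κ|) ≤ 4 ^ n * (|P 0| + |κ|) := by
      intro m hm
      exact mul_le_mul_of_nonneg_right (pow_le_pow_right₀ (by norm_num) hm) (by positivity)
    simp only [hyy]
    refine Fin.addCases (fun i => ?_) (fun i => ?_) i
    · rw [Fin.append_left]
      have h7 := growth hu hQv (y i)
      have h8 : Q 0 = P 0 := rfl
      rw [h8] at h7
      have h9 : 0 ≤ (2 : ℤ) ^ y i * |κ| := by positivity
      have h10 := h6 (y i) (h2 i)
      linarith
    · rw [Fin.append_right]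
      refine Fin.cases ?_ (fun j => ?_) i
      · rw [Fin.cons_zero]
        have h7 := growth hw hP n
        have h9 : 0 ≤ (2 : ℤ) ^ n * |κ| := by positivity
        linarith
      · rw [Fin.cons_succ]
        have h7 := h6 0 (Nat.zero_le _)
        rw [pow_zero, one_mul] at h7
        have := abs_nonneg (P 0)
        linarith
  -- the final form
  have eN : ((M + 1) + (M + 1) + 2 * (M + 1)) + 2 = 4 * M + 6 := by ring
  have eN2 : (M + 1) + (3 * M + 5) = 4 * M + 6 := by ring
  set zz : Fin ((M + 1) + (3 * M + 5)) → ℕ := Fin.append ζ (fun _ => 1) with hzz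
  set mm : Fin ((M + 1) + (3 * M + 5)) → ℕ := Fin.append μ (fun _ => 0) with hmm
  have hprod : ∏ i, ((2 : ℤ) ^ zz i - 3 ^ mm i) = D := by
    rw [Fin.prod_univ_add]
    simp only [hzz, hmm, Fin.append_left, Fin.append_right]
    simp [hD]
  have hzm : ∀ i, 1 ≤ zz i + mm i ∧ zz i + mm i ≤ n := by
    intro i
    simp only [hzz, hmm]
    refine Fin.addCases (fun i => ?_) (fun i => ?_) i
    · rw [Fin.append_left, Fin.append_left]
      exact h1 i
    · rw [Fin.append_right, Fin.append_right]
      exact ⟨by omega, by omega⟩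
  refine ⟨δ, fun i => zz (Fin.cast eN2.symm i), fun i => mm (Fin.cast eN2.symm i),
    fun i => yy (Fin.cast eN.symm i), fun i => FF (Fin.cast eN.symm i), hδn,
    fun i => hzm _, fun i => hyR _, fun i => hFR _, ?_⟩
  have q1 : ∏ i : Fin (4 * M + 6), ((2 : ℤ) ^ zz (Fin.cast eN2.symm i) -
      3 ^ mm (Fin.cast eN2.symm i)) = D := by
    rw [← hprod]
    exact Equiv.prod_comp (finCongr eN2.symm) (fun i => (2 : ℤ) ^ zz i - 3 ^ mm i)
  have q2 : ∑ i : Fin (4 * M + 6), FF (Fin.cast eN.symm i) * yy (Fin.cast eN.symm i) =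
      ∑ i, FF i * yy i :=
    Equiv.sum_comp (finCongr eN.symm) (fun i => FF i * yy i)
  rw [q1, q2]
  exact hfin

end Pool.Agent.CLX
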