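import Pool.Agent.CLX.StmtsT
import Pool.Agent.CLX.CLD

/-!
# TLD: the description of the value at a place, section T
-/

set_option autoImplicit false

namespace Pool.Agent.CLX

open Filter Pool.Agent.SBT

namespace TLD_

open CLD_

theorem dsg_mono {U : Ultrafilter ℕ} {S : Finset ℕ} {T : ℕ → ℝ} {r d : ℕ} {g : Fin r → ℕ → ℚ}
    {Γ : Set (ℕ → ℚ)} {Z : Fin d → ℕ → ℤ} {R : ℕ → ℤ} {B B' : ℝ} (hT : ∀ n, 0 ≤ T n)
    (hB : B ≤ B') (h : Dsg U S T g Γ Z R B) : Dsg U S T g Γ Z R B' := by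
  obtain ⟨P₀, P, ν, h1, h2, h3, h4, h5⟩ := h
  have hexp : ∀ n, Real.exp (B * T n) ≤ Real.exp (B' * T n) := fun n =>
    Real.exp_le_exp.2 (mul_le_mul_of_nonneg_right hB (hT n))
  refine ⟨P₀, P, ν, h1, h2, h3, ?_, ?_⟩
  · intro e he
    filter_upwards [h4 e he] with n hn v hv
    exact (hn v hv).trans (mul_le_mul_of_nonneg_right (hexp n) (av_nonneg _ _))
  · intro i e he
    obtain ⟨u, hu, h6⟩ := h5 i e he
    refine ⟨u, hu, ?_⟩
    filter_upwards [h6] with n hn v hv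
    exact (hn v hv).trans (mul_le_mul_of_nonneg_right (hexp n) (av_nonneg _ _))

end TLD_

open CLD_ TLD_

theorem tld_proof (hLCC : Stmt_LCC) (hBAG : Stmt_BAG) (hINH : Stmt_INH) (hEGM : Stmt_EGM) :
    Stmt_TLD := by
  intro s B N G U Z δ ζ μ y R hU hZ hζμ hy hF
  have hs0 : (0 : ℝ) ≤ s := Nat.cast_nonneg s
  have hB0 : (0 : ℝ) ≤ B := Nat.cast_nonneg B
  set B₁ : ℝ := 2 * B + (s : ℝ) * (2 * B) with hB₁
  have hB₁0 : 0 ≤ B₁ := by positivity
  set T : ℕ → ℝ := fun n => (n : ℝ) with hT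
  have hTT : Tendsto T (U : Filter ℕ) atTop := tendsto_natCast_atTop_atTop.mono_left hU
  -- choose the data
  have h0 : ∀ n : ℕ, ∃ (ε : Fin s → Fin N → ℤ) (α β : Fin s → Fin N → ℕ),
      (∀ i t, |ε i t| ≤ 1) ∧ (∀ i t, α i t + β i t ≤ Z n + B * n) ∧
      ((∃ F : Fin s → ℤ, (∀ i, Rpt N 0 (Z n + B * n) (F i)) ∧
        2 ^ δ n * (∏ i, ((2 : ℤ) ^ ζ i n - 3 ^ μ i n)) * R n = ∑ i, F i * y i n) →
        2 ^ δ n * (∏ i, ((2 : ℤ) ^ ζ i n - 3 ^ μ i n)) * R n =
          ∑ i, (∑ t, ε i t * 2 ^ α i t * 3 ^ β i t) * y i n) := by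
    intro n
    by_cases hn : ∃ F : Fin s → ℤ, (∀ i, Rpt N 0 (Z n + B * n) (F i)) ∧
        2 ^ δ n * (∏ i, ((2 : ℤ) ^ ζ i n - 3 ^ μ i n)) * R n = ∑ i, F i * y i n
    · obtain ⟨F, hF1, hF2⟩ := hn
      choose ε α β h1 h2 h3 using hF1
      refine ⟨ε, fun i t => if ε i t = 0 then 0 else α i t,
        fun i t => if ε i t = 0 then 0 else β i t, h1, ?_, fun _ => ?_⟩
      · intro i t
        change (if ε i t = 0 then 0 else α i t) + (if ε i t = 0 then 0 else β i t) ≤ _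
        by_cases h4 : ε i t = 0
        · rw [if_pos h4, if_pos h4]
          exact Nat.zero_le _
        · rw [if_neg h4, if_neg h4]
          have := h2 i t h4
          omega
      · rw [hF2]
        refine Finset.sum_congr rfl fun i _ => ?_
        rw [h3 i]
        congr 1
        refine Finset.sum_congr rfl fun t _ => ?_
        by_cases h4 : ε i t = 0
        · rw [h4]
          simp
        · simp [h4]
    · exact ⟨fun _ _ => 0, fun _ _ => 0, fun _ _ => 0, fun _ _ => by norm_num,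
        fun _ _ => Nat.zero_le _, fun h => absurd h hn⟩
  choose ε α β h1 h3 h4 using h0
  have hc0 : ∀ (i : Fin s) (t : Fin N), ∃ c : ℤ, ∀ᶠ n in (U : Filter ℕ), ε n i t = c := by
    intro i t
    obtain ⟨c, -, hc⟩ := ult_const_set U (fun n => ε n i t) (Set.finite_Icc (-1 : ℤ) 1)
      (Eventually.of_forall fun n => Set.mem_Icc.2 (abs_le.1 (h1 n i t)))
    exact ⟨c, hc⟩
  choose c hc using hc0
  have hc' : ∀ᶠ n in (U : Filter ℕ), ∀ i t, ε n i t = c i t := by
    rw [eventually_all]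
    intro i
    rw [eventually_all]
    exact hc i
  -- the units
  have hud : (fun n => (2 : ℚ) ^ δ n) ∈ Sm U S23 T (2 * B) := by
    refine ⟨fun n => isU_two _, ?_⟩
    filter_upwards [hζμ] with n hn v hv
    refine (two_pow (place_of_mem ps23 hv) _ _ hn.1).trans (Real.exp_le_exp.2 ?_)
    have : (0 : ℝ) ≤ B * n := by positivity
    simp only [hT]
    push_cast
    nlinarith
  have hu2 : ∀ i, (fun n => (2 : ℚ) ^ ζ i n) ∈ Sm U S23 T (2 * B) := by
    intro i
    refine ⟨fun n => isU_two _, ?_⟩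
    filter_upwards [hζμ] with n hn v hv
    have h5 := (hn.2 i).2
    refine (two_pow (place_of_mem ps23 hv) _ (B * n) (by omega)).trans (Real.exp_le_exp.2 ?_)
    have : (0 : ℝ) ≤ B * n := by positivity
    simp only [hT]
    push_cast
    nlinarith
  have hu3 : ∀ i, (fun n => (3 : ℚ) ^ μ i n) ∈ Sm U S23 T (2 * B) := by
    intro i
    refine ⟨fun n => isU_three _, ?_⟩
    filter_upwards [hζμ] with n hn v hv
    have h5 := (hn.2 i).2
    refine (three_pow (place_of_mem ps23 hv) _ (B * n) (by omega)).trans (Real.exp_le_exp.2 ?_)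
    simp only [hT]
    push_cast
    nlinarith
  have hum : ∀ i t, (fun n => (2 : ℚ) ^ α n i t * 3 ^ β n i t) ∈ Un U S23 T := by
    intro i t
    refine ⟨fun n => isU_mono _ _, 3 * ((G : ℝ) + B), ?_⟩
    filter_upwards [hZ] with n hn v hv
    have hv' := place_of_mem ps23 hv
    have h5 := h3 n i t
    have h6 : Z n + B * n ≤ (G + B) * n := by
      rw [add_mul]
      omega
    rw [av_mul hv']
    calc av v ((2 : ℚ) ^ α n i t) * av v ((3 : ℚ) ^ β n i t)
        ≤ Real.exp (1 * ((G + B) * n : ℕ)) * Real.exp (2 * ((G + B) * n : ℕ)) :=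
          mul_le_mul (two_pow hv' _ _ (by omega)) (three_pow hv' _ _ (by omega))
            (av_nonneg _ _) (Real.exp_pos _).le
      _ = Real.exp (3 * ((G : ℝ) + B) * T n) := by
          rw [← Real.exp_add]
          congr 1
          simp only [hT]
          push_cast
          ring
  -- the basis
  let ι := Unit ⊕ (Fin s) ⊕ (Fin s) ⊕ (Fin s × Fin N)
  let fam : ι → ℕ → ℚ := Sum.elim (fun _ n => (2 : ℚ) ^ δ n) (Sum.elim (fun i n => (2 : ℚ) ^ ζ i n)
    (Sum.elim (fun i n => (3 : ℚ) ^ μ i n) (fun p n => (2 : ℚ) ^ α n p.1 p.2 * 3 ^ β n p.1 p.2)))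
  have hfam : ∀ x : ι, fam x ∈ Un U S23 T := by
    rintro (_ | i | i | ⟨i, t⟩)
    · exact ⟨hud.1, _, hud.2⟩
    · exact ⟨(hu2 i).1, _, (hu2 i).2⟩
    · exact ⟨(hu3 i).1, _, (hu3 i).2⟩
    · exact hum i t
  let eqv := Fintype.equivFin ι
  obtain ⟨r, g, hGd, hGg⟩ := hBAG U S23 T (Fintype.card ι) (fun k => fam (eqv.symm k)) ps23 hTT
    (fun k => hfam _)
  have hGg' : ∀ x : ι, fam x ∈ Gg U g := by
    intro x
    have := hGg (eqv x)
    simpa only [Equiv.symm_apply_apply] using this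
  -- the coefficient of `R`
  obtain ⟨-, hadd, hmul, hsub, hcm, hmem, -, -⟩ := hLCC U
  have hf1 : ∀ i, Lc U (Sm U S23 T (2 * B) ∩ Gg U g)
      (fun n => (2 : ℚ) ^ ζ i n - 3 ^ μ i n) := by
    intro i
    have a1 := hmem (Sm U S23 T (2 * B) ∩ Gg U g) (fun n => (2 : ℚ) ^ ζ i n)
      ⟨hu2 i, hGg' (Sum.inr (Sum.inl i))⟩
    have a2 := hcm _ _ (-1) (hmem (Sm U S23 T (2 * B) ∩ Gg U g) (fun n => (3 : ℚ) ^ μ i n)
      ⟨hu3 i, hGg' (Sum.inr (Sum.inr (Sum.inl i)))⟩)
    have a3 := hadd _ _ _ a1 a2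
    have e : (fun n => (2 : ℚ) ^ ζ i n - 3 ^ μ i n) =
        (fun n => (2 : ℚ) ^ ζ i n) + fun n => ((-1 : ℤ) : ℚ) * (3 : ℚ) ^ μ i n := by
      funext n
      simp only [Pi.add_apply]
      push_cast
      ring
    rw [e]
    exact a3
  have hf2 := lc_prod hLCC hGd _ hf1 Finset.univ
  rw [Finset.card_univ, Fintype.card_fin] at hf2
  have hf₀ : Lc U (Sm U S23 T B₁ ∩ Gg U g)
      (fun n => 2 ^ δ n * ∏ i, ((2 : ℚ) ^ ζ i n - 3 ^ μ i n)) := by
    have a1 := hmem (Sm U S23 T (2 * B) ∩ Gg U g) (fun n => (2 : ℚ) ^ δ n)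
      ⟨hud, hGg' (Sum.inl ())⟩
    exact hmul _ _ (Sm U S23 T B₁ ∩ Gg U g) _ _ a1 hf2 fun u hu u' hu' =>
      ⟨sm_mul ps23 hu.1 hu'.1, gg_mul hGd hu.2 hu'.2⟩
  -- the coefficients of the `y i`
  have hf : ∀ i, Lc U ({u | ∃ w ∈ Gmw Z, ∀ᶠ n in (U : Filter ℕ), ∀ v ∈ pl S23,
      av v (u n) ≤ Real.exp (B₁ * T n) * av v (w n)} ∩ Gg U g)
      (fun n => ∑ t, (c i t : ℚ) * ((2 : ℚ) ^ α n i t * 3 ^ β n i t)) := by
    intro i
    have hs1 : (1 : ℝ) ≤ s := by
      have : 1 ≤ s := by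
        have := i.isLt
        omega
      exact_mod_cast this
    refine ⟨N, c i, fun t n => (2 : ℚ) ^ α n i t * 3 ^ β n i t, fun t => ⟨?_,
      hGg' (Sum.inr (Sum.inr (Sum.inr (i, t))))⟩, Eventually.of_forall fun n => rfl⟩
    refine ⟨fun n => 2 ^ (min (α n i t) (Z n)) *
        3 ^ (min (β n i t) (Z n - min (α n i t) (Z n))),
      ⟨fun n => min (α n i t) (Z n), fun n => min (β n i t) (Z n - min (α n i t) (Z n)),
        fun n => by dsimp only; omega, fun n => rfl⟩, ?_⟩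
    refine Eventually.of_forall fun n v hv => ?_
    have h5 := h3 n i t
    refine (ratio (place_of_mem ps23 hv) (α n i t) (β n i t) (min (α n i t) (Z n))
      (min (β n i t) (Z n - min (α n i t) (Z n))) (B * n) ?_ ?_).trans ?_
    · rw [abs_le]
      constructor <;> omega
    · rw [abs_le]
      constructor <;> omega
    · apply mul_le_mul_of_nonneg_right _ (av_nonneg _ _)
      apply Real.exp_le_exp.2
      rw [hB₁]
      simp only [hT]
      push_cast
      have h6 : (0 : ℝ) ≤ B * n := by positivity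
      nlinarith
  -- the description
  have hD1 : Dsg U S23 T g (Gmw Z) y R (B₁ + 1) := by
    refine hINH U S23 T r s g (Gmw Z) y R _ _ B₁ hGd hB₁0 hf₀ hf ?_ ?_
    · filter_upwards [hζμ] with n hn
      refine mul_ne_zero (pow_ne_zero _ (by norm_num)) ?_
      rw [Finset.prod_ne_zero_iff]
      intro i _ h0
      apply ne_pow _ _ (hn.2 i).1
      exact_mod_cast h0
    · filter_upwards [hF, hc'] with n hn hcn
      have h5 := h4 n hn
      have h6 := congrArg (fun z : ℤ => (z : ℚ)) h5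
      push_cast at h6
      rw [h6]
      refine Finset.sum_congr rfl fun i _ => ?_
      congr 1
      refine Finset.sum_congr rfl fun t _ => ?_
      rw [hcn i t]
      ring
  have hy' : ∀ᶠ n in (U : Filter ℕ), ∀ i, |(y i n : ℝ)| ≤ Real.exp (B * T n) := by
    filter_upwards [hy] with n hn i
    have a1 : |(y i n : ℝ)| ≤ (2 : ℝ) ^ (B * n) := by
      rw [← Int.cast_abs]
      exact_mod_cast hn i
    refine a1.trans ?_
    have a2 : (2 : ℝ) ≤ Real.exp 1 := by
      have := Real.add_one_le_exp (1 : ℝ)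
      linarith
    calc (2 : ℝ) ^ (B * n) ≤ (Real.exp 1) ^ (B * n) := pow_le_pow_left₀ (by norm_num) a2 _
      _ = Real.exp (B * T n) := by
          rw [← Real.exp_nat_mul]
          congr 1
          simp only [hT]
          push_cast
          ring
  obtain ⟨d', Z', hd', hZ', hind', hD2⟩ := hEGM U S23 T r s Unit g
    (fun _ => Gmw Z) y (fun _ => R) B (B₁ + 1) hGd hB0 hy' (fun _ => hD1)
  refine ⟨r, g, d', Z', hGd, hd', hZ', hind', dsg_mono (fun n => Nat.cast_nonneg n) ?_ (hD2 ())⟩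
  rw [hB₁]
  nlinarith [mul_nonneg (mul_nonneg hs0 hs0) hB0, mul_nonneg hs0 hB0, mul_nonneg hs0 hs0]

end Pool.Agent.CLX
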