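import Pool.Agent.CLX.StmtsT

set_option autoImplicit false

namespace Pool.Agent.CLX

open Filter Pool.Agent.SBT

namespace TPG_

/-- pigeonhole for consecutive blocks -/
theorem pig (S : Finset ℕ) (M c L : ℕ) (h : S.card ≤ M) :
    ∃ r ≤ M, ∀ i < L, c + r * L + i ∉ S := by
  classical
  by_contra hcon
  push Not at hcon
  have h1 : ∀ r : ℕ, ∃ i, r ≤ M → (i < L ∧ c + r * L + i ∈ S) := by
    intro r
    by_cases hr : r ≤ M
    · obtain ⟨i, hi, hi2⟩ := hcon r hr
      exact ⟨i, fun _ => ⟨hi, hi2⟩⟩
    · exact ⟨0, fun h => absurd h hr⟩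
  choose f hf using h1
  have h2 : (Finset.range (M + 1)).card ≤ S.card := by
    apply Finset.card_le_card_of_injOn (fun r => c + r * L + f r)
    · intro r hr
      have hr' : r ≤ M := Nat.lt_succ_iff.1 (Finset.mem_range.1 hr)
      exact (hf r hr').2
    · intro r hr r' hr' heq
      have hrM : r ≤ M := Nat.lt_succ_iff.1 (Finset.mem_range.1 hr)
      have hrM' : r' ≤ M := Nat.lt_succ_iff.1 (Finset.mem_range.1 hr')
      have e1 := (hf r hrM).1
      have e2 := (hf r' hrM').1
      have hL : 0 < L := by omega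
      have heq2 : r * L + f r = r' * L + f r' := by
        have : c + r * L + f r = c + r' * L + f r' := heq
        omega
      have q1 : (r * L + f r) / L = r := by
        rw [Nat.add_comm, Nat.add_mul_div_right _ _ hL, Nat.div_eq_of_lt e1]
        omega
      have q2 : (r' * L + f r') / L = r' := by
        rw [Nat.add_comm, Nat.add_mul_div_right _ _ hL, Nat.div_eq_of_lt e2]
        omega
      rw [← q1, ← q2, heq2]
  rw [Finset.card_range] at h2
  omega

end TPG_

open TPG_

theorem tpg_proof : Stmt_TPG := by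
  classical
  intro M A G n N k w u p hG hn hP hGN hp he
  obtain ⟨hp0, hpk, hph⟩ := hP
  set E : Finset ℕ := (Finset.range (G * n)).filter fun i => n ≤ i ∧ w i ≠ u i with hE
  set Q : Finset ℕ := ((Finset.range k).filter fun j => n ≤ p j ∧ p j < G * n).image p with hQ
  have hQc : Q.card ≤ M := Finset.card_image_le.trans hp
  have hS : (Q ∪ E).card ≤ 2 * M := by
    refine (Finset.card_union_le _ _).trans ?_
    omega
  have hn1 : 1 ≤ n := by omega
  obtain ⟨t, ht, htS⟩ := pig (Q ∪ E) (2 * M) n (4 * (M + 1) * (A + 2) * n) hS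
  set L : ℕ := 4 * (M + 1) * (A + 2) * n with hL
  set g : ℕ := n + t * L with hg
  -- the block ends before `G n`
  have hgl : g + L ≤ G * n := by
    have h1 : t * L ≤ (2 * M) * L := Nat.mul_le_mul_right _ ht
    have h2 : 8 * (M + 1) ^ 2 * (A + 2) * n ≤ G * n := Nat.mul_le_mul_right _ hG
    have h3 : 8 * (M + 1) ^ 2 * (A + 2) * n = (2 * M) * L + 2 * L := by
      rw [hL]; ring
    have h4 : n ≤ L := by
      rw [hL]
      have : 1 ≤ 4 * (M + 1) * (A + 2) := by nlinarith
      nlinarith
    omega
  have hLn : n + (M + 1) * (A * n) + 2 ≤ L := by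
    rw [hL]
    have h1 : 4 * (M + 1) * (A + 2) * n = 4 * ((M + 1) * (A * n)) + 8 * ((M + 1) * n) := by ring
    have h2 : n ≤ (M + 1) * n := by nlinarith
    omega
  have hnotQ : ∀ j < k, ¬ (g ≤ p j ∧ p j < g + L) := by
    rintro j hj ⟨h1, h2⟩
    have h3 := htS (p j - g) (by omega)
    apply h3
    rw [Finset.mem_union]
    left
    rw [hQ, Finset.mem_image]
    refine ⟨j, ?_, by omega⟩
    rw [Finset.mem_filter, Finset.mem_range]
    exact ⟨hj, by omega, by omega⟩
  have hnotE : ∀ i, g ≤ i → i < g + L → w i = u i := by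
    intro i h1 h2
    by_contra hne
    have h3 := htS (i - g) (by omega)
    apply h3
    have h4 : n + t * L + (i - g) = i := by omega
    rw [h4, Finset.mem_union]
    right
    rw [hE, Finset.mem_filter, Finset.mem_range]
    exact ⟨by omega, by omega, hne⟩
  -- the phrase containing `g`
  have hgpos : 0 < g := by omega
  have hex : ∃ j, j < k ∧ p j < g ∧ g + L ≤ p (j + 1) := by
    have hb : ∃ j, g ≤ p j := ⟨k, by rw [hpk]; omega⟩
    have hmin := Nat.find_spec hb
    set J := Nat.find hb with hJ
    have hJ0 : J ≠ 0 := by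
      intro h0
      rw [h0, hp0] at hmin
      omega
    have hJk : J ≤ k := Nat.find_min' hb (by rw [hpk]; omega)
    have hprev : ¬ g ≤ p (J - 1) := Nat.find_min hb (by omega)
    refine ⟨J - 1, by omega, by omega, ?_⟩
    have e1 : J - 1 + 1 = J := by omega
    rw [e1]
    rcases Nat.lt_or_ge J k with h1 | h1
    · have h2 := hnotQ J h1
      by_contra h3
      exact h2 ⟨hmin, by omega⟩
    · have h2 : J = k := by omega
      rw [h2, hpk]
      omega
  obtain ⟨j, hjk, hj1, hj2⟩ := hex
  obtain ⟨_, hcase⟩ := hph j hjk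
  rcases hcase with h1 | ⟨s, hs, hcopy⟩
  · omega
  -- the shift
  have hu : ∀ i, g ≤ i → i < g + L → u (i - (p j - s)) = u i := by
    intro i h1 h2
    have h3 := hcopy (i - p j) (by omega)
    have e1 : s + (i - p j) = i - (p j - s) := by omega
    have e2 : p j + (i - p j) = i := by omega
    rw [e1, e2] at h3
    exact h3
  obtain ⟨r, hr, hrS⟩ := pig E M (g + n - (p j - s)) (A * n) he
  refine ⟨g + n - (p j - s) + r * (A * n), g + n + r * (A * n), by omega, ?_, ?_⟩
  · have h1 : r * (A * n) ≤ M * (A * n) := Nat.mul_le_mul_right _ hr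
    have h2 : (M + 1) * (A * n) = M * (A * n) + A * n := by ring
    omega
  · intro i hi
    have h1 : r * (A * n) ≤ M * (A * n) := Nat.mul_le_mul_right _ hr
    have h2 : (M + 1) * (A * n) = M * (A * n) + A * n := by ring
    have h3 := hrS i hi
    set x : ℕ := g + n - (p j - s) + r * (A * n) + i with hx
    set y : ℕ := g + n + r * (A * n) + i with hy
    have hxy : x = y - (p j - s) := by omega
    have h4 : w x = u x := by
      by_contra hne
      apply h3
      rw [hE, Finset.mem_filter, Finset.mem_range]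
      exact ⟨by omega, by omega, hne⟩
    have h5 : w y = u y := hnotE y (by omega) (by omega)
    rw [h4, h5, hxy]
    exact hu y (by omega) (by omega)

end Pool.Agent.CLX
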