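import Pool.Agent.CLX.StmtsT

/-!
# CLX, module TRJ: the theorem on trajectories (MP_d02c56_nt)
-/

set_option autoImplicit false

namespace Pool.Agent.CLX

open Filter Pool.Agent.SBT

namespace TRJ_

theorem phn_lt {u : ℕ → ℕ} {N k : ℕ} {p : ℕ → ℕ} (h : Phn u N k p) :
    ∀ j ≤ k, ∀ i < j, p i < p j := by
  intro j
  induction j with
  | zero => intro _ i hi; omega
  | succ j ih =>
    intro hj i hi
    have h1 := (h.2.2 j (by omega)).1
    rcases Nat.lt_succ_iff_lt_or_eq.1 hi with h2 | h2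
    · exact (ih (by omega) i h2).trans h1
    · rw [h2]
      exact h1

theorem phn_inj {u : ℕ → ℕ} {N k : ℕ} {p : ℕ → ℕ} (h : Phn u N k p) :
    ∀ i < k, ∀ j < k, p i = p j → i = j := by
  intro i hi j hj hij
  rcases lt_trichotomy i j with h1 | h1 | h1
  · have := phn_lt h j hj.le i h1
    omega
  · exact h1
  · have := phn_lt h i hi.le j h1
    omega

/-- the choice of `G` -/
theorem exG (c : ℝ) (hc : 0 ≤ c) : ∃ G M : ℕ, 2 ≤ G ∧ M = ⌊8 * c * (1 + Real.log G)⌋₊ ∧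
    8 * (M + 1) ^ 2 * (2 * (60000 * (M + 1) ^ 3 + 2) + 2) ≤ G := by
  have h1 : ∀ᶠ y : ℝ in atTop, ‖Real.log y ^ 5‖ ≤ (1 / (960048 * (16 * c + 1) ^ 5)) * ‖id y‖ :=
    (Real.isLittleO_pow_log_id_atTop (n := 5)).def (by positivity)
  have h2 : Tendsto (fun c : ℕ => (c : ℝ)) atTop atTop := tendsto_natCast_atTop_atTop
  obtain ⟨G, hG1, hG2, hG3⟩ := ((h2.eventually h1).and ((h2.eventually_ge_atTop (Real.exp 1)).and
    (eventually_ge_atTop 2))).exists
  refine ⟨G, _, hG3, rfl, ?_⟩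
  set M := ⌊8 * c * (1 + Real.log G)⌋₊ with hM
  have hG0 : (0 : ℝ) < G := lt_of_lt_of_le (Real.exp_pos 1) hG2
  have hlog : 1 ≤ Real.log G := by
    rw [Real.le_log_iff_exp_le hG0]
    exact hG2
  have hM1 : ((M : ℝ) + 1) ≤ (16 * c + 1) * Real.log G := by
    have h3 : (M : ℝ) ≤ 8 * c * (1 + Real.log G) := Nat.floor_le (by positivity)
    have h4 : 8 * c * 1 ≤ 8 * c * Real.log G := mul_le_mul_of_nonneg_left hlog (by positivity)
    nlinarith
  have hM5 : ((M : ℝ) + 1) ^ 5 ≤ (16 * c + 1) ^ 5 * Real.log G ^ 5 := by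
    rw [← mul_pow]
    exact pow_le_pow_left₀ (by positivity) hM1 5
  rw [Real.norm_of_nonneg (by positivity), id, Real.norm_of_nonneg hG0.le] at hG1
  have h5 : (960048 * (16 * c + 1) ^ 5) * Real.log G ^ 5 ≤ G := by
    have h6 := mul_le_mul_of_nonneg_left hG1
      (show (0 : ℝ) ≤ 960048 * (16 * c + 1) ^ 5 by positivity)
    rw [← mul_assoc, mul_one_div_cancel (by positivity), one_mul] at h6
    exact h6
  have h7 : (960048 : ℝ) * ((M : ℝ) + 1) ^ 5 ≤ G := by
    calc (960048 : ℝ) * ((M : ℝ) + 1) ^ 5 ≤ 960048 * ((16 * c + 1) ^ 5 * Real.log G ^ 5) := by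
          linarith
      _ = (960048 * (16 * c + 1) ^ 5) * Real.log G ^ 5 := by ring
      _ ≤ G := h5
  have h8 : 960048 * (M + 1) ^ 5 ≤ G := by exact_mod_cast h7
  refine le_trans ?_ h8
  have h9 : 6 ≤ 6 * (M + 1) ^ 3 := Nat.le_mul_of_pos_right _ (by positivity)
  calc 8 * (M + 1) ^ 2 * (2 * (60000 * (M + 1) ^ 3 + 2) + 2)
      = 8 * (M + 1) ^ 2 * (120000 * (M + 1) ^ 3 + 6) := by ring
    _ ≤ 8 * (M + 1) ^ 2 * (120000 * (M + 1) ^ 3 + 6 * (M + 1) ^ 3) :=
        Nat.mul_le_mul_left _ (by omega)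
    _ = 960048 * (M + 1) ^ 5 := by ring

theorem pow_bound {z : ℤ} {N n : ℕ} (h : Real.log |(z : ℝ)| ≤ 2 * Real.sqrt N)
    (hn : 4 * Real.sqrt N ≤ n) : |z| ≤ 2 ^ n := by
  by_cases hz : z = 0
  · rw [hz, abs_zero]
    positivity
  · have hz' : (0 : ℝ) < |(z : ℝ)| := abs_pos.2 (by exact_mod_cast hz)
    have h1 : Real.log |(z : ℝ)| ≤ n * Real.log 2 := by
      have h2 := Real.log_two_gt_d9
      have h3 : (0 : ℝ) ≤ n := Nat.cast_nonneg n
      have h4 : (n : ℝ) * (1 / 2) ≤ n * Real.log 2 := mul_le_mul_of_nonneg_left (by linarith) h3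
      linarith
    rw [← Real.log_pow, Real.log_le_log_iff hz' (by positivity)] at h1
    exact_mod_cast h1

theorem ev_log (c : ℝ) (hc : 0 ≤ c) : ∀ᶠ N : ℕ in atTop, c * (1 + Real.log N) ≤ Real.sqrt N := by
  have h1 : ∀ᶠ y : ℝ in atTop, ‖Real.log y ^ 1‖ ≤ (1 / (3 * c + 1)) * ‖id y‖ :=
    (Real.isLittleO_pow_log_id_atTop (n := 1)).def (by positivity)
  have h2 : Tendsto (fun c : ℕ => Real.sqrt (c : ℝ)) atTop atTop :=
    Real.tendsto_sqrt_atTop.comp tendsto_natCast_atTop_atTop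
  filter_upwards [h2.eventually h1, h2.eventually_ge_atTop (Real.exp 1)] with N hN hN2
  set y := Real.sqrt (N : ℝ) with hy
  have hy0 : 0 < y := lt_of_lt_of_le (Real.exp_pos 1) hN2
  have hly : 1 ≤ Real.log y := by
    rw [Real.le_log_iff_exp_le hy0]
    exact hN2
  have hlN : Real.log N = 2 * Real.log y := by
    have : (N : ℝ) = y ^ 2 := (Real.sq_sqrt (Nat.cast_nonneg N)).symm
    rw [this, Real.log_pow]
    norm_num
  rw [pow_one, Real.norm_of_nonneg (by positivity), id, Real.norm_of_nonneg hy0.le] at hN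
  have h3 : (3 * c + 1) * Real.log y ≤ y := by
    have h6 := mul_le_mul_of_nonneg_left hN (show (0 : ℝ) ≤ 3 * c + 1 by positivity)
    rw [← mul_assoc, mul_one_div_cancel (by positivity), one_mul] at h6
    exact h6
  rw [hlN]
  have h4 : c * 1 ≤ c * Real.log y := mul_le_mul_of_nonneg_left hly hc
  nlinarith

end TRJ_

theorem trj_proof (hTSC : Stmt_TSC) (hTWN : Stmt_TWN) (hTPG : Stmt_TPG) (hCOL : Stmt_COL) :
    Stmt_TRJ := by
  classical
  intro c₀
  set c : ℝ := max c₀ 0 with hcdef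
  have hc : 0 ≤ c := le_max_right _ _
  have hcc : c₀ ≤ c := le_max_left _ _
  obtain ⟨G, M, hG2, hM, hGM⟩ := TRJ_.exG c hc
  obtain ⟨n₀, hn₀⟩ := hTWN M G
  obtain ⟨N₁, hN₁⟩ := eventually_atTop.1 (hTSC G c hG2 hc)
  obtain ⟨N₂, hN₂⟩ := eventually_atTop.1 (TRJ_.ev_log c hc)
  refine ⟨N₁ + N₂ + 256 * G ^ 12 + 1 + (n₀ + M + 1) ^ 2, ?_⟩
  intro N hN κ x hκ hlκ hlx hdist K hLZE
  by_contra hcon
  push Not at hcon
  obtain ⟨u, k, p, hu2, hph, hke⟩ := hLZE
  have hN1 : 1 ≤ N := by omega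
  have hN1R : (1 : ℝ) ≤ N := by exact_mod_cast hN1
  have hlogN : 0 ≤ Real.log N := Real.log_nonneg hN1R
  set e := ((Finset.range N).filter fun i => par κ x i ≠ u i).card with he
  -- the marked places
  set P : Finset ℕ := (Finset.range k).image p ∪ (Finset.range N).filter fun i => par κ x i ≠ u i
    with hP
  have hPK : P.card ≤ K := by
    refine (Finset.card_union_le _ _).trans (le_trans ?_ hke)
    have := Finset.card_image_le (s := Finset.range k) (f := p)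
    rw [Finset.card_range] at this
    omega
  have hKc : (K : ℝ) ≤ c * (1 + Real.log N) := by
    have h1 : c₀ * Real.log N ≤ c * Real.log N := mul_le_mul_of_nonneg_right hcc hlogN
    nlinarith
  have hPc : (P.card : ℝ) ≤ c * (1 + Real.log N) :=
    le_trans (by exact_mod_cast hPK) hKc
  obtain ⟨n, hn1, hn2, hn3⟩ := hN₁ N (by omega) P hPc
  have hM' : (P.filter fun p => n ≤ p ∧ p < G * n).card ≤ M := by
    rw [hM]
    exact Nat.le_floor hn3
  -- `n` is large
  have hn4 : 16 * N ≤ n ^ 2 := by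
    by_contra hcon2
    push Not at hcon2
    have h1 : n ^ 4 ≤ (16 * N) ^ 2 := by
      calc n ^ 4 = (n ^ 2) ^ 2 := by ring
        _ ≤ (16 * N) ^ 2 := Nat.pow_le_pow_left hcon2.le 2
    have h2 : N ^ 3 ≤ G ^ 12 * (16 * N) ^ 2 := hn1.trans (Nat.mul_le_mul_left _ h1)
    have h3 : N ^ 2 * N ≤ N ^ 2 * (256 * G ^ 12) := by
      calc N ^ 2 * N = N ^ 3 := by ring
        _ ≤ G ^ 12 * (16 * N) ^ 2 := h2
        _ = N ^ 2 * (256 * G ^ 12) := by ring
    have h4 : N ≤ 256 * G ^ 12 := Nat.le_of_mul_le_mul_left h3 (by positivity)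
    omega
  have hsq : 4 * Real.sqrt N ≤ n := by
    have h1 : (16 : ℝ) * N ≤ (n : ℝ) ^ 2 := by exact_mod_cast hn4
    have h2 : 4 * Real.sqrt N = Real.sqrt (16 * N) := by
      rw [Real.sqrt_mul (by norm_num)]
      congr 1
      rw [show (16 : ℝ) = 4 ^ 2 by norm_num, Real.sqrt_sq (by norm_num)]
    rw [h2]
    exact Real.sqrt_le_iff.2 ⟨Nat.cast_nonneg n, h1⟩
  have hnbig : n₀ + M + 1 ≤ n := by
    have h1 : (n₀ + M + 1) ^ 2 ≤ n ^ 2 := by
      refine le_trans ?_ hn4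
      omega
    exact (Nat.pow_le_pow_iff_left two_ne_zero).1 h1
  have hen : e ≤ n := by
    have h1 : (e : ℝ) ≤ n := by
      have h2 : (e : ℝ) ≤ K := by exact_mod_cast (by omega : e ≤ K)
      have h3 := hN₂ N (by omega)
      have h4 := Real.sqrt_nonneg (N : ℝ)
      linarith
    exact_mod_cast h1
  have hk1 : ((Finset.range k).filter fun j => n ≤ p j ∧ p j < G * n).card ≤ M := by
    refine le_trans ?_ hM'
    apply Finset.card_le_card_of_injOn p
    · intro j hj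
      rw [Finset.coe_filter] at hj
      rw [Finset.mem_coe, Finset.mem_filter]
      refine ⟨?_, hj.2⟩
      rw [hP, Finset.mem_union]
      exact Or.inl (Finset.mem_image_of_mem _ hj.1)
    · intro i hi j hj hij
      rw [Finset.coe_filter] at hi hj
      exact TRJ_.phn_inj hph i (Finset.mem_range.1 hi.1) j (Finset.mem_range.1 hj.1) hij
  have he1 : ((Finset.range (G * n)).filter fun i => n ≤ i ∧ par κ x i ≠ u i).card ≤ M := by
    refine le_trans (Finset.card_le_card ?_) hM'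
    intro i hi
    rw [Finset.mem_filter, Finset.mem_range] at hi
    rw [Finset.mem_filter]
    refine ⟨?_, hi.2.1, hi.1⟩
    rw [hP, Finset.mem_union, Finset.mem_filter, Finset.mem_range]
    exact Or.inr ⟨by omega, hi.2.2⟩
  have hsmall := hn₀ n (by omega) κ x N k u p hκ (TRJ_.pow_bound hlκ hsq) (TRJ_.pow_bound hlx hsq)
    hu2 hph hn2 hk1 he1 hen
  -- the repetition
  obtain ⟨E, hE⟩ : ∃ E : ℕ, E = 60000 * (M + 1) ^ 3 := ⟨_, rfl⟩
  rw [← hE] at hsmall hGM
  obtain ⟨a, b, hab, hb, heq⟩ := hTPG M (2 * (E + 2)) G n N k (par κ x) u p hGM (by omega) hph hn2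
    hk1 he1
  have hcol := (hCOL κ x hκ).2.2.2.2 a b ((E + 2) * n) (by
    funext t
    exact heq t (by
      have := t.2
      have h5 : 2 * (E + 2) * n = 2 * ((E + 2) * n) := by ring
      omega))
  have hn0 : 1 ≤ n := by omega
  have hAn : 1 ≤ 2 * (E + 2) * n := Nat.mul_pos (by omega) hn0
  have hbN : b < N := by omega
  have haG : a ≤ G * n := by omega
  have hbG : b ≤ G * n := by omega
  apply hdist a b hab hbN
  by_contra hne
  have h1 : (2 : ℤ) ^ ((E + 2) * n) ≤ |(col κ)^[a] x - (col κ)^[b] x| := by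
    apply Int.le_of_dvd
    · exact abs_pos.2 (sub_ne_zero.2 hne)
    · rwa [dvd_abs]
  have h2 : |(col κ)^[a] x - (col κ)^[b] x| ≤ 2 ^ (E * n) + 2 ^ (E * n) := by
    have h5 := abs_le.1 (hsmall a haG)
    have h6 := abs_le.1 (hsmall b hbG)
    rw [abs_le]
    constructor <;> linarith [h5.1, h5.2, h6.1, h6.2]
  have h3 : (2 : ℤ) ^ (E * n) + 2 ^ (E * n) < 2 ^ ((E + 2) * n) := by
    have h4 : (E + 2) * n = E * n + 2 * n := by ring
    rw [h4, pow_add]
    have h5 : (0 : ℤ) < 2 ^ (E * n) := by positivity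
    have h6 : (4 : ℤ) ≤ 2 ^ (2 * n) := by
      calc (4 : ℤ) = 2 ^ 2 := by norm_num
        _ ≤ 2 ^ (2 * n) := pow_le_pow_right₀ (by norm_num) (by omega)
    nlinarith
  linarith

end Pool.Agent.CLX
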