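import Pool.Agent.CLX.StmtsT

/-!
# CLX TSC: a window with few cutting points, not too low
-/

set_option autoImplicit false

namespace Pool.Agent.CLX

open Filter Pool.Agent.SBT

theorem tsc_proof : Stmt_TSC := by
  intro G C hG hC
  filter_upwards [eventually_ge_atTop (G ^ 4)] with N hN P hP
  have hN0 : N ≠ 0 := by
    have : 0 < G ^ 4 := by positivity
    omega
  set l := Nat.log G N with hl
  have hl2 : 4 ≤ l := (Nat.le_log_iff_pow_le (by omega) hN0).2 hN
  set J := l / 4 with hJ
  have hJ1 : 1 ≤ J := by omega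
  have h1 : G ^ (4 * J) ≤ N :=
    (Nat.pow_le_pow_right (by omega) (by omega)).trans (Nat.pow_log_le_self G hN0)
  have h2 : N < G ^ (4 * J + 4) :=
    (Nat.lt_pow_succ_log_self (by omega) N).trans_le (Nat.pow_le_pow_right (by omega) (by omega))
  by_contra hcon
  push Not at hcon
  have h3 : ∀ j ∈ Finset.Ico (3 * J) (4 * J), 8 * C * (1 + Real.log G) <
      ((P.filter fun p => G ^ j ≤ p ∧ p < G * G ^ j).card : ℝ) := by
    intro j hj
    rw [Finset.mem_Ico] at hj
    apply hcon (G ^ j)
    · calc N ^ 3 ≤ (G ^ (4 * J + 4)) ^ 3 := Nat.pow_le_pow_left h2.le 3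
        _ = G ^ 12 * G ^ (4 * (3 * J)) := by
          rw [← pow_mul, ← pow_add]
          congr 1
          ring
        _ ≤ G ^ 12 * G ^ (4 * j) :=
          Nat.mul_le_mul_left _ (Nat.pow_le_pow_right (by omega) (by omega))
        _ = G ^ 12 * (G ^ j) ^ 4 := by rw [← pow_mul, mul_comm j 4]
    · calc G * G ^ j = G ^ (j + 1) := by ring
        _ ≤ G ^ (4 * J) := Nat.pow_le_pow_right (by omega) (by omega)
        _ ≤ N := h1
  have h4 : ∑ j ∈ Finset.Ico (3 * J) (4 * J), (P.filter fun p => G ^ j ≤ p ∧ p < G * G ^ j).card ≤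
      P.card := by
    rw [← Finset.card_biUnion]
    · apply Finset.card_le_card
      intro p hp
      rw [Finset.mem_biUnion] at hp
      obtain ⟨j, _, hj⟩ := hp
      exact (Finset.mem_filter.1 hj).1
    · intro i _ j _ hij
      rw [Function.onFun, Finset.disjoint_left]
      intro p hp hp'
      rw [Finset.mem_filter] at hp hp'
      rcases lt_or_gt_of_ne hij with h | h
      · have : G * G ^ i ≤ G ^ j := by
          rw [← pow_succ']
          exact Nat.pow_le_pow_right (by omega) h
        omega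
      · have : G * G ^ j ≤ G ^ i := by
          rw [← pow_succ']
          exact Nat.pow_le_pow_right (by omega) h
        omega
  have h5 : (J : ℝ) * (8 * C * (1 + Real.log G)) <
      ∑ j ∈ Finset.Ico (3 * J) (4 * J),
        ((P.filter fun p => G ^ j ≤ p ∧ p < G * G ^ j).card : ℝ) := by
    have h6 : (J : ℝ) * (8 * C * (1 + Real.log G)) =
        ∑ _j ∈ Finset.Ico (3 * J) (4 * J), 8 * C * (1 + Real.log G) := by
      rw [Finset.sum_const, Nat.card_Ico, nsmul_eq_mul]
      congr 2
      omega
    rw [h6]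
    exact Finset.sum_lt_sum_of_nonempty (Finset.nonempty_Ico.2 (by omega)) h3
  have h7 : (∑ j ∈ Finset.Ico (3 * J) (4 * J),
        ((P.filter fun p => G ^ j ≤ p ∧ p < G * G ^ j).card : ℝ)) ≤ P.card := by
    exact_mod_cast h4
  have h8 : Real.log N ≤ (4 * J + 4) * Real.log G := by
    have h9 : (N : ℝ) ≤ (G : ℝ) ^ (4 * J + 4) := by exact_mod_cast h2.le
    have h10 := Real.log_le_log (by exact_mod_cast Nat.pos_of_ne_zero hN0) h9
    rw [Real.log_pow] at h10
    push_cast at h10
    exact h10
  have hlog : 0 ≤ Real.log G := Real.log_natCast_nonneg G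
  have hJR : (1 : ℝ) ≤ J := by exact_mod_cast hJ1
  have h11 : C * (1 + Real.log N) ≤ (J : ℝ) * (8 * C * (1 + Real.log G)) := by
    calc C * (1 + Real.log N) ≤ C * (1 + (4 * J + 4) * Real.log G) := by gcongr
      _ ≤ C * (J * (8 * (1 + Real.log G))) := by
        apply mul_le_mul_of_nonneg_left _ hC
        nlinarith
      _ = _ := by ring
  linarith

end Pool.Agent.CLX
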