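import Pool.Agent.CLX.StmtsT

/-!
# TST: the values at some places by the values at few places `≤ n`
-/

set_option autoImplicit false

namespace Pool.Agent.CLX

open Filter Pool.Agent.SBT

namespace TST_

/-! ## Calculus of `Rpt` -/

theorem add {N N' c W : ℕ} {F G : ℤ} (h : Rpt N c W F) (h' : Rpt N' c W G) :
    Rpt (N + N') c W (F + G) := by
  obtain ⟨e, a, b, h1, h2, rfl⟩ := h
  obtain ⟨e', a', b', h1', h2', rfl⟩ := h'
  refine ⟨Fin.append e e', Fin.append a a', Fin.append b b', ?_, ?_, ?_⟩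
  · intro t
    refine Fin.addCases (fun i => ?_) (fun i => ?_) t
    · rw [Fin.append_left]
      exact h1 i
    · rw [Fin.append_right]
      exact h1' i
  · intro t
    refine Fin.addCases (fun i => ?_) (fun i => ?_) t
    · simp only [Fin.append_left]
      exact h2 i
    · simp only [Fin.append_right]
      exact h2' i
  · rw [Fin.sum_univ_add]
    simp only [Fin.append_left, Fin.append_right]

theorem zero (N c W : ℕ) : Rpt N c W 0 :=
  ⟨fun _ => 0, fun _ => 0, fun _ => 0, by intro t; simp, fun t h => absurd rfl h, by simp⟩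

theorem mono {N N' c c' W W' : ℕ} {F : ℤ} (hN : N ≤ N') (hc : c' ≤ c) (hW : W ≤ W')
    (h : Rpt N c W F) : Rpt N' c' W' F := by
  have h1 : Rpt N c' W' F := by
    obtain ⟨e, a, b, h1, h2, rfl⟩ := h
    refine ⟨e, a, b, h1, fun t ht => ?_, rfl⟩
    have := h2 t ht
    omega
  obtain ⟨d, rfl⟩ := Nat.exists_eq_add_of_le hN
  have := add h1 (zero d c' W')
  rwa [add_zero] at this

theorem neg {N c W : ℕ} {F : ℤ} (h : Rpt N c W F) : Rpt N c W (-F) := by
  obtain ⟨e, a, b, h1, h2, rfl⟩ := h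
  refine ⟨fun t => - e t, a, b, ?_, fun t ht => h2 t (fun h0 => ht ?_), ?_⟩
  · intro t
    rw [abs_neg]
    exact h1 t
  · simp [h0]
  · simp

theorem pw {c W α β : ℕ} (h : α + β + c ≤ W) : Rpt 1 c W (2 ^ α * 3 ^ β) :=
  ⟨fun _ => 1, fun _ => α, fun _ => β, by intro t; simp, fun _ _ => h, by simp⟩

theorem mul {N N' c c' W σ : ℕ} {F H : ℤ} (h : Rpt N c W F) (h' : Rpt N' c' (c + σ) H) :
    Rpt (N * N') c' (W + σ) (F * H) := by
  obtain ⟨e, a, b, h1, h2, rfl⟩ := h
  obtain ⟨e', a', b', h1', h2', rfl⟩ := h'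
  refine ⟨fun p => e (finProdFinEquiv.symm p).1 * e' (finProdFinEquiv.symm p).2,
    fun p => a (finProdFinEquiv.symm p).1 + a' (finProdFinEquiv.symm p).2,
    fun p => b (finProdFinEquiv.symm p).1 + b' (finProdFinEquiv.symm p).2, ?_, ?_, ?_⟩
  · intro t
    rw [abs_mul]
    exact mul_le_one₀ (h1 _) (abs_nonneg _) (h1' _)
  · intro t ht
    have h3 := h2 (finProdFinEquiv.symm t).1 (left_ne_zero_of_mul ht)
    have h4 := h2' (finProdFinEquiv.symm t).2 (right_ne_zero_of_mul ht)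
    dsimp only
    omega
  · rw [Finset.sum_mul_sum, ← Fintype.sum_prod_type']
    rw [← Equiv.sum_comp finProdFinEquiv.symm]
    apply Finset.sum_congr rfl
    intro p _
    rw [pow_add, pow_add]
    ring

theorem up {N c W ζ : ℕ} {F : ℤ} (h : Rpt N c W F) : Rpt N c (W + ζ) (2 ^ ζ * F) := by
  obtain ⟨e, a, b, h1, h2, rfl⟩ := h
  refine ⟨e, fun t => a t + ζ, b, h1, fun t ht => ?_, ?_⟩
  · have := h2 t ht
    dsimp only
    omega
  · rw [Finset.mul_sum]
    refine Finset.sum_congr rfl fun t _ => ?_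
    rw [pow_add]
    ring

theorem down {N c W ζ : ℕ} {F : ℤ} (h : Rpt N (c + ζ) W F) : Rpt N c W (2 ^ ζ * F) := by
  obtain ⟨e, a, b, h1, h2, rfl⟩ := h
  refine ⟨e, fun t => a t + ζ, b, h1, fun t ht => ?_, ?_⟩
  · have := h2 t ht
    dsimp only
    omega
  · rw [Finset.mul_sum]
    refine Finset.sum_congr rfl fun t _ => ?_
    rw [pow_add]
    ring

/-- a factor -/
theorem fac {c ζ μ n : ℕ} (h : ζ + μ ≤ n) : Rpt 2 c (c + n) ((2 : ℤ) ^ ζ - 3 ^ μ) := by
  have h1 : Rpt 1 c (c + n) (2 ^ ζ * 3 ^ 0) := pw (by omega)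
  have h2 : Rpt 1 c (c + n) (2 ^ 0 * 3 ^ μ) := pw (by omega)
  have h3 := add h1 (neg h2)
  have e : (2 : ℤ) ^ ζ - 3 ^ μ = 2 ^ ζ * 3 ^ 0 + -(2 ^ 0 * 3 ^ μ) := by ring
  rw [e]
  exact h3

theorem prd {m n : ℕ} (ζ μ : Fin m → ℕ) (h : ∀ i, ζ i + μ i ≤ n) :
    Rpt (2 ^ m) 0 (m * n) (∏ i, ((2 : ℤ) ^ ζ i - 3 ^ μ i)) := by
  induction m with
  | zero =>
    have h1 : Rpt 1 0 0 (2 ^ 0 * 3 ^ 0) := pw (by omega)
    simpa using h1
  | succ m ih =>
    rw [Fin.prod_univ_succ]
    have h1 := ih (fun i => ζ i.succ) (fun i => μ i.succ) (fun i => h i.succ)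
    have h2 : Rpt 2 0 (0 + n) ((2 : ℤ) ^ ζ 0 - 3 ^ μ 0) := fac (h 0)
    have h3 : Rpt (2 ^ m) 0 (0 + m * n) (∏ i : Fin m, ((2 : ℤ) ^ ζ i.succ - 3 ^ μ i.succ)) := by
      rw [Nat.zero_add]
      exact h1
    have h4 := mul h2 h3
    refine mono ?_ le_rfl ?_ h4
    · rw [pow_succ]
      omega
    · have : (m + 1) * n = m * n + n := by ring
      omega

/-! ## The word -/

theorem ze_succ (u : ℕ → ℕ) (i : ℕ) : ze u (i + 1) = ze u i + (1 - u i) := by
  simp only [ze]
  rw [Finset.sum_range_succ]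

theorem on_succ (u : ℕ → ℕ) (i : ℕ) : on u (i + 1) = on u i + u i := by
  simp only [on]
  rw [Finset.sum_range_succ]

theorem ze_mono (u : ℕ → ℕ) : Monotone (ze u) :=
  monotone_nat_of_le_succ fun i => by rw [ze_succ]; omega

theorem on_mono (u : ℕ → ℕ) : Monotone (on u) :=
  monotone_nat_of_le_succ fun i => by rw [on_succ]; omega

theorem ze_on {u : ℕ → ℕ} (hu : ∀ i, u i < 2) : ∀ x, ze u x + on u x = x := by
  intro x
  induction x with
  | zero => simp [ze, on]
  | succ x ih =>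
    rw [ze_succ, on_succ]
    have := hu x
    omega

/-- the values in a copied piece -/
theorem copy_step {u : ℕ → ℕ} {κ : ℤ} {P : ℕ → ℤ} (hP : Val u κ P) {s c e ζ μ : ℕ}
    (hu : ∀ i, c + i < e → u (s + i) = u (c + i))
    (hζ : ze u c = ze u s + ζ) (hμ : on u c = on u s + μ) :
    ∀ i, c + i ≤ e → ∃ g : ℕ, on u (c + i) = on u c + g ∧ ze u (c + i) = ze u (s + i) + ζ ∧
      on u (c + i) = on u (s + i) + μ ∧
      P (c + i) = 2 ^ ζ * P (s + i) + 3 ^ g * (P c - 2 ^ ζ * P s) := by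
  intro i
  induction i with
  | zero =>
    intro _
    refine ⟨0, rfl, hζ, hμ, ?_⟩
    simp
  | succ i ih =>
    intro hi
    obtain ⟨g, h1, h2, h3, h4⟩ := ih (by omega)
    have h5 := hu i (by omega)
    refine ⟨g + u (c + i), ?_, ?_, ?_, ?_⟩
    · rw [← add_assoc, on_succ]
      omega
    · rw [← add_assoc, ← add_assoc, ze_succ, ze_succ, h5]
      omega
    · rw [← add_assoc, ← add_assoc, on_succ, on_succ, h5]
      omega
    · rw [← add_assoc, ← add_assoc, hP, hP, h5, h2, h4, pow_add, pow_add]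
      ring

/-- pulling a place back through the copies -/
theorem copy_back {u : ℕ → ℕ} {κ : ℤ} {P : ℕ → ℤ} (hP : Val u κ P) {s c e ζ μ K : ℕ}
    (hs : s < c) (hu : ∀ i, c + i < e → u (s + i) = u (c + i))
    (hζ : ze u c = ze u s + ζ) (hμ : on u c = on u s + μ)
    (hK : ∀ x, c ≤ x → x ≤ e → on u x + ze u c ≤ on u c + ze u x + K) :
    ∀ x, c < x → x ≤ e → ∃ (z a β : ℕ) (T : ℤ), z ≤ c ∧ 1 ≤ a ∧
      x = z + a * (c - s) ∧ ze u x = ze u z + a * ζ ∧ on u x + μ = on u c + β + a * μ ∧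
      β + ze u c ≤ ze u z + ζ + K ∧ Rpt a (ze u c) (ze u x + K) T ∧
      P x = 2 ^ (a * ζ) * P z + T * (P c - 2 ^ ζ * P s) ∧
      ((2 : ℤ) ^ ζ - 3 ^ μ) * P x = 2 ^ (a * ζ) * ((2 : ℤ) ^ ζ - 3 ^ μ) * P z +
        (2 ^ (a * ζ) * 3 ^ β + -(2 ^ 0 * 3 ^ (a * μ + β))) * (P c - 2 ^ ζ * P s) := by
  intro x
  induction x using Nat.strong_induction_on with
  | _ x ih =>
  intro h1 h2
  obtain ⟨g, g1, g2, g3, g4⟩ := copy_step hP hu hζ hμ (x - c) (by omega)
  have e1 : c + (x - c) = x := by omega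
  have e2 : s + (x - c) = x - (c - s) := by omega
  rw [e1, e2] at g2 g3 g4
  rw [e1] at g1
  have hKx := hK x h1.le h2
  by_cases hx : x - (c - s) ≤ c
  · refine ⟨x - (c - s), 1, g, 2 ^ 0 * 3 ^ g, hx, le_rfl, by omega, by omega, by omega,
      by omega, pw (by omega), ?_, ?_⟩
    · rw [g4]
      ring
    · rw [g4]
      ring
  · push Not at hx
    obtain ⟨z, a, β, T, i2, i3, i4, i5, i6, i7, i8, i9, i10⟩ :=
      ih (x - (c - s)) (by omega) hx (by omega)
    have hg : g = β + a * μ := by omega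
    refine ⟨z, a + 1, β, 2 ^ ζ * T + 2 ^ 0 * 3 ^ g, i2, by omega, ?_, ?_, ?_, i7, ?_, ?_, ?_⟩
    · have : (a + 1) * (c - s) = a * (c - s) + (c - s) := by ring
      omega
    · have : (a + 1) * ζ = a * ζ + ζ := by ring
      omega
    · have : (a + 1) * μ = a * μ + μ := by ring
      omega
    · have j1 : Rpt a (ze u c) (ze u x + K) (2 ^ ζ * T) :=
        mono le_rfl le_rfl (by omega) (up (ζ := ζ) i8)
      exact add j1 (pw (by omega))
    · rw [g4, i9]
      have : (2 : ℤ) ^ ((a + 1) * ζ) = 2 ^ ζ * 2 ^ (a * ζ) := by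
        rw [← pow_add]
        congr 1
        ring
      rw [this]
      ring
    · have e5 : ((2 : ℤ) ^ ζ - 3 ^ μ) * P x =
          2 ^ ζ * (((2 : ℤ) ^ ζ - 3 ^ μ) * P (x - (c - s))) +
            ((2 : ℤ) ^ ζ - 3 ^ μ) * 3 ^ g * (P c - 2 ^ ζ * P s) := by
        rw [g4]
        ring
      have e6 : (2 : ℤ) ^ ((a + 1) * ζ) = 2 ^ ζ * 2 ^ (a * ζ) := by
        rw [← pow_add]
        congr 1
        ring
      have e7 : (3 : ℤ) ^ ((a + 1) * μ + β) = 3 ^ μ * 3 ^ (a * μ) * 3 ^ β := by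
        rw [← pow_add, ← pow_add]
        congr 1
        ring
      have e8 : (3 : ℤ) ^ (a * μ + β) = 3 ^ (a * μ) * 3 ^ β := pow_add _ _ _
      have e9 : (3 : ℤ) ^ g = 3 ^ β * 3 ^ (a * μ) := by rw [hg, pow_add]
      rw [e5, i10, e6, e7, e8, e9]
      ring

/-- one step -/
theorem step {N k n K G X : ℕ} {κ : ℤ} {u p : ℕ → ℕ} {P : ℕ → ℤ} (hn : 1 ≤ n)
    (hu : ∀ i, u i < 2) (hP : Val u κ P) (hp : Phn u N k p)
    (hK : ∀ a b, a ≤ b → b ≤ N → on u b + ze u a ≤ on u a + ze u b + K)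
    (hX : 0 < X) (hXN : X ≤ N) (hXG : X ≤ G * n) :
    ∃ (j ζ μ s : ℕ), j < k ∧ p j < X ∧ 1 ≤ ζ + μ ∧ ζ + μ ≤ n ∧ s ≤ p j ∧
      ∀ x, x ≤ X → ∃ (z : ℕ) (A B C c : ℤ), z ≤ p j ∧
        Rpt (G + 2) (ze u z) (ze u x + (n + K)) A ∧
        Rpt (G + 2) (ze u (p j)) (ze u x + (n + K)) B ∧
        Rpt (G + 2) (ze u s) (ze u x + (n + K)) C ∧
        Rpt (G + 2) 0 (ze u x + (n + K)) c ∧
        ((2 : ℤ) ^ ζ - 3 ^ μ) * P x = A * P z + B * P (p j) + C * P s + c * κ := by
  classical
  obtain ⟨h0, hk, hph⟩ := hp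
  have hk0 : 0 < k := by
    rcases Nat.eq_zero_or_pos k with rfl | h
    · omega
    · exact h
  -- the last phrase which starts before `X`
  obtain ⟨j, hj, hjm⟩ : ∃ j, (j < k ∧ p j < X) ∧ ∀ i, (i < k ∧ p i < X) → i ≤ j := by
    have hne : ((Finset.range k).filter fun i => p i < X).Nonempty :=
      ⟨0, by simp [hk0, h0, hX]⟩
    refine ⟨((Finset.range k).filter fun i => p i < X).max' hne, ?_, ?_⟩
    · have := Finset.max'_mem _ hne
      simpa using this
    · intro i hi
      exact Finset.le_max' _ _ (by simpa using hi)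
  have hj1 : X ≤ p (j + 1) := by
    by_contra hc
    push Not at hc
    rcases Nat.lt_or_ge (j + 1) k with h | h
    · have := hjm (j + 1) ⟨h, hc⟩
      omega
    · have : j + 1 = k := by omega
      rw [this, hk] at hc
      omega
  -- a kept place
  have kept : ∀ (ζ μ s x : ℕ), ζ + μ ≤ n → x ≤ p j → ∃ (z : ℕ) (A B C c : ℤ), z ≤ p j ∧
        Rpt (G + 2) (ze u z) (ze u x + (n + K)) A ∧
        Rpt (G + 2) (ze u (p j)) (ze u x + (n + K)) B ∧
        Rpt (G + 2) (ze u s) (ze u x + (n + K)) C ∧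
        Rpt (G + 2) 0 (ze u x + (n + K)) c ∧
        ((2 : ℤ) ^ ζ - 3 ^ μ) * P x = A * P z + B * P (p j) + C * P s + c * κ := by
    intro ζ μ s x h1 h2
    refine ⟨x, (2 : ℤ) ^ ζ - 3 ^ μ, 0, 0, 0, h2, mono (by omega) le_rfl (by omega) (fac h1),
      zero _ _ _, zero _ _ _, zero _ _ _, by ring⟩
  obtain ⟨hlt, hcase⟩ := hph j hj.1
  rcases hcase with h1 | ⟨s, hs, hcopy⟩
  · -- one letter
    refine ⟨j, 1, 0, p j, hj.1, hj.2, by omega, by omega, le_rfl, ?_⟩
    intro x hx
    by_cases hxj : x ≤ p j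
    · exact kept 1 0 (p j) x (by omega) hxj
    · have hx1 : x = p j + 1 := by omega
      have hz := ze_succ u (p j)
      have hup := hu (p j)
      refine ⟨p j, 2 ^ 0 * 3 ^ u (p j), 0, 0, (u (p j) : ℤ) * 2 ^ ze u (p j), le_rfl, ?_,
        zero _ _ _, zero _ _ _, ?_, ?_⟩
      · rw [hx1]
        exact mono (by omega) le_rfl le_rfl (pw (by omega))
      · rw [hx1]
        rcases Nat.lt_or_ge (u (p j)) 1 with h | h
        · have h0 : u (p j) = 0 := by omega
          rw [h0, Nat.cast_zero, zero_mul]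
          exact zero _ _ _
        · have h2 : u (p j) = 1 := by omega
          have h3 : Rpt 1 0 (ze u (p j + 1) + (n + K)) (2 ^ ze u (p j) * 3 ^ 0) :=
            pw (by omega)
          have h4 := mono (N' := G + 2) (by omega) le_rfl le_rfl h3
          rw [h2]
          simpa using h4
      · rw [hx1, hP]
        ring
  · -- a copy
    obtain ⟨ζ, hζ⟩ := Nat.exists_eq_add_of_le (ze_mono u hs.le)
    obtain ⟨μ, hμ⟩ := Nat.exists_eq_add_of_le (on_mono u hs.le)
    have hper : ζ + μ = p j - s := by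
      have h3 := ze_on hu (p j)
      have h4 := ze_on hu s
      omega
    have hKX : ∀ x, p j ≤ x → x ≤ X →
        on u x + ze u (p j) ≤ on u (p j) + ze u x + K := fun x h3 h4 => hK _ _ h3 (by omega)
    have hcopy' : ∀ i, p j + i < X → u (s + i) = u (p j + i) := fun i hi =>
      hcopy i (by omega)
    have hback := copy_back hP hs hcopy' hζ hμ hKX
    by_cases hpn : p j - s ≤ n
    · -- a short period
      refine ⟨j, ζ, μ, s, hj.1, hj.2, by omega, by omega, hs.le, ?_⟩
      intro x hx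
      by_cases hxj : x ≤ p j
      · exact kept ζ μ s x (by omega) hxj
      · push Not at hxj
        obtain ⟨z, a, β, T, i2, i3, i4, i5, i6, i7, i8, i9, i10⟩ := hback x hxj hx
        have hKx := hKX x hxj.le hx
        have hA : Rpt (G + 2) (ze u z) (ze u x + (n + K))
            (2 ^ (a * ζ) * ((2 : ℤ) ^ ζ - 3 ^ μ)) :=
          mono (by omega) le_rfl (by omega)
            (up (ζ := a * ζ) (fac (c := ze u z) (n := n) (by omega)))
        have hB : Rpt (G + 2) (ze u (p j)) (ze u x + (n + K))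
            (2 ^ (a * ζ) * 3 ^ β + -(2 ^ 0 * 3 ^ (a * μ + β))) := by
          refine mono (N := 1 + 1) (by omega) le_rfl le_rfl (add (pw ?_) (neg (pw ?_)))
          · omega
          · omega
        refine ⟨z, _, _, -(2 ^ ζ * (2 ^ (a * ζ) * 3 ^ β + -(2 ^ 0 * 3 ^ (a * μ + β)))), 0, i2,
          hA, hB, ?_, zero _ _ _, ?_⟩
        · rw [hζ] at hB
          exact neg (down hB)
        · rw [i10]
          ring
    · -- a long period
      refine ⟨j, 1, 0, s, hj.1, hj.2, by omega, by omega, hs.le, ?_⟩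
      intro x hx
      by_cases hxj : x ≤ p j
      · exact kept 1 0 s x (by omega) hxj
      · push Not at hxj hpn
        obtain ⟨z, a, β, T, i2, i3, i4, i5, i6, i7, i8, i9, i10⟩ := hback x hxj hx
        have ha : a ≤ G := by
          by_contra hc
          push Not at hc
          have j1 : (G + 1) * (n + 1) ≤ a * (p j - s) := Nat.mul_le_mul (by omega) (by omega)
          have j2 : (G + 1) * (n + 1) = G * n + G + n + 1 := by ring
          omega
        have hA : Rpt (G + 2) (ze u z) (ze u x + (n + K)) (2 ^ (a * ζ) * 3 ^ 0) :=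
          mono (by omega) le_rfl le_rfl (pw (by omega))
        have hB : Rpt (G + 2) (ze u (p j)) (ze u x + (n + K)) T :=
          mono (by omega) le_rfl (by omega) i8
        refine ⟨z, _, T, -(2 ^ ζ * T), 0, i2, hA, hB, ?_, zero _ _ _, ?_⟩
        · rw [hζ] at hB
          exact neg (down hB)
        · rw [i9]
          ring

/-- the family version -/
theorem main (G : ℕ) : ∀ m : ℕ, ∃ R : ℕ, ∀ (N k n K X : ℕ) (κ : ℤ) (u p : ℕ → ℕ)
    (P : ℕ → ℤ) (S : Finset ℕ), 1 ≤ n →
    (∀ i, u i < 2) → Val u κ P → Phn u N k p →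
    (∀ a b, a ≤ b → b ≤ N → on u b + ze u a ≤ on u a + ze u b + K) →
    X ≤ N → X ≤ G * n → (∀ x ∈ S, x ≤ X) →
    (X ≤ n ∨ ((Finset.range k).filter fun j => n < p j ∧ p j < X).card + 1 ≤ m) →
    ∃ (ζ μ : Fin m → ℕ) (Y : Finset ℕ) (F : ℕ → ℕ → ℤ) (F₀ : ℕ → ℤ),
      Y.card ≤ S.card + 2 * m ∧ (∀ y ∈ Y, y ≤ n) ∧ (∀ i, 1 ≤ ζ i + μ i ∧ ζ i + μ i ≤ n) ∧
      (∀ x ∈ S, ∀ y ∈ Y, Rpt R (ze u y) (ze u x + m * (n + K)) (F x y)) ∧
      (∀ x ∈ S, Rpt R 0 (ze u x + m * (n + K)) (F₀ x)) ∧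
      ∀ x ∈ S, (∏ i, ((2 : ℤ) ^ ζ i - 3 ^ μ i)) * P x = ∑ y ∈ Y, F x y * P y + F₀ x * κ := by
  intro m
  -- the trivial case
  have triv : ∀ (R m n K X : ℕ) (κ : ℤ) (u : ℕ → ℕ) (P : ℕ → ℤ) (S : Finset ℕ), 1 ≤ n → 1 ≤ R →
      (∀ x ∈ S, x ≤ X) → X ≤ n →
      ∃ (ζ μ : Fin m → ℕ) (Y : Finset ℕ) (F : ℕ → ℕ → ℤ) (F₀ : ℕ → ℤ),
        Y.card ≤ S.card + 2 * m ∧ (∀ y ∈ Y, y ≤ n) ∧ (∀ i, 1 ≤ ζ i + μ i ∧ ζ i + μ i ≤ n) ∧
        (∀ x ∈ S, ∀ y ∈ Y, Rpt R (ze u y) (ze u x + m * (n + K)) (F x y)) ∧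
        (∀ x ∈ S, Rpt R 0 (ze u x + m * (n + K)) (F₀ x)) ∧
        ∀ x ∈ S, (∏ i, ((2 : ℤ) ^ ζ i - 3 ^ μ i)) * P x =
          ∑ y ∈ Y, F x y * P y + F₀ x * κ := by
    intro R m n K X κ u P S hn hR hS hXn
    classical
    refine ⟨fun _ => 1, fun _ => 0, S, fun x y => if y = x then 1 else 0,
      fun _ => 0, by omega, fun y hy => (hS y hy).trans hXn,
      fun i => ⟨le_rfl, hn⟩, ?_, fun x _ => zero _ _ _, ?_⟩
    · intro x _ y _
      by_cases h : y = x
      · subst h
        have h1 : Rpt 1 (ze u y) (ze u y + m * (n + K)) (2 ^ 0 * 3 ^ 0) := pw (by omega)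
        have h2 := mono (N' := R) hR le_rfl le_rfl h1
        simpa using h2
      · simp only [h, if_false]
        exact zero _ _ _
    · intro x hx
      rw [zero_mul, add_zero, Finset.sum_eq_single x]
      · simp
      · intro y _ hy
        simp [hy]
      · intro h
        exact absurd hx h
  induction m with
  | zero =>
    refine ⟨1, ?_⟩
    intro N k n K X κ u p P S hn hu hP hp hK hXN hXG hS hX
    rcases hX with hX | hX
    · exact triv 1 0 n K X κ u P S hn le_rfl hS hX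
    · omega
  | succ m ih =>
    obtain ⟨R, hR⟩ := ih
    refine ⟨3 * ((G + 2) * R) + 2 ^ m * (G + 2) + 1, ?_⟩
    intro N k n K X κ u p P S hn hu hP hp hK hXN hXG hS hX
    by_cases hXn : X ≤ n
    · exact triv _ (m + 1) n K X κ u P S hn (by omega) hS hXn
    push Not at hXn
    have hX' : ((Finset.range k).filter fun j => n < p j ∧ p j < X).card + 1 ≤ m + 1 := by
      rcases hX with h | h
      · omega
      · exact h
    obtain ⟨j, ζ₀, μ₀, s, hjk, hjX, hper, hpern, hs, hstep⟩ :=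
      step hn hu hP hp hK (by omega : 0 < X) hXN hXG
    classical
    choose! z A B C c hz hA hB hC hc hrel using hstep
    let S' : Finset ℕ := insert (p j) (insert s (S.image z))
    have hS'card : S'.card ≤ S.card + 2 := by
      have h1 : (S.image z).card ≤ S.card := Finset.card_image_le
      have h2 : (insert s (S.image z)).card ≤ (S.image z).card + 1 := Finset.card_insert_le _ _
      have h3 : S'.card ≤ (insert s (S.image z)).card + 1 := Finset.card_insert_le _ _
      omega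
    have hS' : ∀ x ∈ S', x ≤ p j := by
      intro x hx
      simp only [S', Finset.mem_insert, Finset.mem_image] at hx
      rcases hx with rfl | rfl | ⟨y, hy, rfl⟩
      · exact le_rfl
      · exact hs
      · exact hz y (hS y hy)
    have hcount : p j ≤ n ∨
        ((Finset.range k).filter fun i => n < p i ∧ p i < p j).card + 1 ≤ m := by
      by_cases h : p j ≤ n
      · exact Or.inl h
      · right
        push Not at h
        have hsub : ((Finset.range k).filter fun i => n < p i ∧ p i < p j) ⊂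
            ((Finset.range k).filter fun i => n < p i ∧ p i < X) := by
          rw [Finset.ssubset_iff_of_subset]
          · refine ⟨j, ?_, ?_⟩
            · simp [hjk, h, hjX]
            · simp
          · intro i hi
            simp only [Finset.mem_filter, Finset.mem_range] at hi ⊢
            exact ⟨hi.1, hi.2.1, hi.2.2.trans hjX⟩
        have := Finset.card_lt_card hsub
        omega
    obtain ⟨ζ, μ, Y, F, F₀, h1, h2, h3, h4, h5, h6⟩ :=
      hR N k n K (p j) κ u p P S' hn hu hP hp hK (by omega) (by omega) hS' hcount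
    have hmemz : ∀ x ∈ S, z x ∈ S' := by
      intro x hx
      simp only [S', Finset.mem_insert, Finset.mem_image]
      exact Or.inr (Or.inr ⟨x, hx, rfl⟩)
    have hmemp : p j ∈ S' := by simp [S']
    have hmems : s ∈ S' := by simp [S']
    have hD : Rpt (2 ^ m) 0 (m * n) (∏ i, ((2 : ℤ) ^ ζ i - 3 ^ μ i)) :=
      prd ζ μ (fun i => (h3 i).2)
    have hW : ∀ x, ze u x + (n + K) + m * (n + K) = ze u x + (m + 1) * (n + K) := by
      intro x
      ring
    refine ⟨Fin.cons ζ₀ ζ, Fin.cons μ₀ μ, Y,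
      fun x y => A x * F (z x) y + B x * F (p j) y + C x * F s y,
      fun x => A x * F₀ (z x) + B x * F₀ (p j) + C x * F₀ s +
        (∏ i, ((2 : ℤ) ^ ζ i - 3 ^ μ i)) * c x, ?_, h2, ?_, ?_, ?_, ?_⟩
    · omega
    · intro i
      refine Fin.cases ?_ (fun i => ?_) i
      · simp only [Fin.cons_zero]
        exact ⟨hper, hpern⟩
      · simp only [Fin.cons_succ]
        exact h3 i
    · intro x hx y hy
      have g1 := mul (hA x (hS x hx)) (h4 (z x) (hmemz x hx) y hy)
      have g2 := mul (hB x (hS x hx)) (h4 (p j) hmemp y hy)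
      have g3 := mul (hC x (hS x hx)) (h4 s hmems y hy)
      refine mono ?_ le_rfl (hW x).le (add (add g1 g2) g3)
      omega
    · intro x hx
      have g1 := mul (hA x (hS x hx)) (h5 (z x) (hmemz x hx))
      have g2 := mul (hB x (hS x hx)) (h5 (p j) hmemp)
      have g3 := mul (hC x (hS x hx)) (h5 s hmems)
      have hc' : Rpt (G + 2) 0 (0 + (ze u x + (n + K))) (c x) := by
        rw [Nat.zero_add]
        exact hc x (hS x hx)
      have g4 := mul hD hc'
      have g5 : Rpt (2 ^ m * (G + 2)) 0 (ze u x + (n + K) + m * (n + K))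
          ((∏ i, ((2 : ℤ) ^ ζ i - 3 ^ μ i)) * c x) := by
        refine mono le_rfl le_rfl ?_ g4
        have : m * n ≤ m * (n + K) := Nat.mul_le_mul_left _ (by omega)
        omega
      refine mono ?_ le_rfl (hW x).le (add (add (add g1 g2) g3) g5)
      omega
    · intro x hx
      rw [Fin.prod_univ_succ]
      simp only [Fin.cons_zero, Fin.cons_succ]
      have e1 := h6 (z x) (hmemz x hx)
      have e2 := h6 (p j) hmemp
      have e3 := h6 s hmems
      have e4 := hrel x (hS x hx)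
      have e5 : ∑ y ∈ Y, (A x * F (z x) y + B x * F (p j) y + C x * F s y) * P y =
          A x * ∑ y ∈ Y, F (z x) y * P y + B x * ∑ y ∈ Y, F (p j) y * P y +
            C x * ∑ y ∈ Y, F s y * P y := by
        rw [Finset.mul_sum, Finset.mul_sum, Finset.mul_sum, ← Finset.sum_add_distrib,
          ← Finset.sum_add_distrib]
        refine Finset.sum_congr rfl fun y _ => ?_
        ring
      rw [e5]
      linear_combination (∏ i, ((2 : ℤ) ^ ζ i - 3 ^ μ i)) * e4 + A x * e1 + B x * e2 + C x * e3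

end TST_

theorem tst_proof : Stmt_TST := by
  intro M S G
  obtain ⟨R, hR⟩ := TST_.main G (M + 1)
  refine ⟨R, ?_⟩
  intro N k n K κ u p P x hn hu hP hp hx hK hcard
  classical
  have hXle : ∀ t, x t ≤ Finset.univ.sup x := fun t => Finset.le_sup (Finset.mem_univ t)
  have hXcase : Finset.univ.sup x = 0 ∨ ∃ t, Finset.univ.sup x = x t := by
    rcases Nat.eq_zero_or_pos S with rfl | hS
    · left
      simp
    · right
      obtain ⟨t, _, ht⟩ := Finset.exists_mem_eq_sup (Finset.univ : Finset (Fin S))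
        ⟨⟨0, hS⟩, Finset.mem_univ _⟩ x
      exact ⟨t, ht⟩
  have hXN : Finset.univ.sup x ≤ N := Finset.sup_le fun t _ => (hx t).1
  have hXG : Finset.univ.sup x ≤ G * n := Finset.sup_le fun t _ => (hx t).2
  have hXc : Finset.univ.sup x ≤ n ∨
      ((Finset.range k).filter fun j => n < p j ∧ p j < Finset.univ.sup x).card + 1 ≤ M + 1 := by
    rcases hXcase with h | ⟨t, h⟩
    · left
      omega
    · right
      rw [h]
      have := hcard t
      omega
  obtain ⟨ζ, μ, Y, F, F₀, h1, h2, h3, h4, h5, h6⟩ :=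
    hR N k n K (Finset.univ.sup x) κ u p P (Finset.univ.image x) hn hu hP hp hK hXN hXG
      (by
        intro y hy
        obtain ⟨t, _, rfl⟩ := Finset.mem_image.1 hy
        exact hXle t) hXc
  have hmem : ∀ t, x t ∈ Finset.univ.image x := fun t =>
    Finset.mem_image_of_mem x (Finset.mem_univ t)
  have hcardY : Y.card ≤ S + 2 * (M + 1) := by
    have : (Finset.univ.image x).card ≤ S := by
      refine Finset.card_image_le.trans ?_
      simp
    omega
  let f : ℕ → ℕ := fun i => if h : i < Y.card then Y.orderEmbOfFin rfl ⟨i, h⟩ else 0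
  have hf : ∀ i (h : i < Y.card), f i = Y.orderEmbOfFin rfl ⟨i, h⟩ := fun i h => by
    simp only [f, h, dif_pos]
  have hfmem : ∀ i, i < Y.card → f i ∈ Y := fun i h => by
    rw [hf i h]
    exact Finset.orderEmbOfFin_mem _ _ _
  refine ⟨ζ, μ, fun i => f i, fun t i => if (i : ℕ) < Y.card then F (x t) (f i) else 0,
    fun t => F₀ (x t), h3, ?_, ?_, fun t => h5 _ (hmem t), ?_⟩
  · intro i
    by_cases h : (i : ℕ) < Y.card
    · exact h2 _ (hfmem i h)
    · simp only [f, h, dif_neg, not_false_eq_true]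
      omega
  · intro t i
    by_cases h : (i : ℕ) < Y.card
    · simp only [h, if_true]
      exact TST_.mono le_rfl (Nat.zero_le _) le_rfl (h4 _ (hmem t) _ (hfmem i h))
    · simp only [h, if_false]
      exact TST_.zero _ _ _
  · intro t
    rw [h6 _ (hmem t)]
    congr 1
    rw [Fin.sum_univ_eq_sum_range
      (fun i => (if i < Y.card then F (x t) (f i) else 0) * P (f i)) (S + 2 * (M + 1))]
    rw [← Finset.sum_subset (Finset.range_subset_range.2 hcardY) (by
      intro i _ hi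
      simp only [Finset.mem_range, not_lt] at hi
      rw [if_neg (by omega), zero_mul])]
    rw [← Fin.sum_univ_eq_sum_range
      (fun i => (if i < Y.card then F (x t) (f i) else 0) * P (f i)) Y.card]
    have : ∑ y ∈ Y, F (x t) y * P y =
        ∑ i : Fin Y.card, F (x t) (Y.orderEmbOfFin rfl i) * P (Y.orderEmbOfFin rfl i) := by
      conv_lhs => rw [← Finset.image_orderEmbOfFin_univ Y rfl]
      rw [Finset.sum_image (fun i _ j _ h => (Y.orderEmbOfFin rfl).injective h)]
    rw [this]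
    refine Finset.sum_congr rfl fun i _ => ?_
    rw [if_pos i.2, hf i i.2]

end Pool.Agent.CLX
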