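import Pool.Agent.SBT.Main
import Pool.Agent.SBT.BAG
import Pool.Agent.SBT.BAS
import Pool.Agent.SBT.LCC
import Pool.Agent.SBT.EG1
import Pool.Agent.SBT.EGM
import Pool.Agent.SBT.SIM
import Pool.Agent.SBT.VOR
import Pool.Agent.SBT.LTM
import Pool.Agent.CLX.S2V
import Pool.Agent.CLX.COL
import Pool.Agent.CLX.INH
import Pool.Agent.CLX.TLD
import Pool.Agent.CLX.TCR
import Pool.Agent.CLX.TST
import Pool.Agent.CLX.TER
import Pool.Agent.CLX.TPG
import Pool.Agent.CLX.TSC
import Pool.Agent.CLX.TWN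
import Pool.Agent.CLX.TRJ

/-!
# Collatz trajectories and Lempel-Ziv complexity with errors (section T): the assembly
-/

set_option autoImplicit false

namespace Pool.Agent.CLX

open Filter Pool.Agent.SBT

theorem T2V_ : Stmt_S2V := s2v_proof SBB_ sim_proof vor_proof ltm_proof

theorem TGM_ : Stmt_EGM := egm_proof (eg1_proof UNI_ S1T_)

theorem TLD_ : Stmt_TLD := tld_proof lcc_proof (bag_proof bas_proof) inh_proof TGM_

theorem TCR_ : Stmt_TCR := tcr_proof UNI_ T2V_ TLD_

theorem TER_ : Stmt_TER := ter_proof tst_proof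

theorem TWN_ : Stmt_TWN := twn_proof TER_ TCR_ col_proof

theorem TRJ_ : Stmt_TRJ := trj_proof tsc_proof TWN_ tpg_proof col_proof

end Pool.Agent.CLX
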