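import Pool.Agent.CLX.Stmts2

set_option autoImplicit false

namespace Pool.Agent.CLX

open Filter Pool.Agent.SBT

namespace ORT_

theorem av0 (x : ℚ) : av 0 x = |(x : ℝ)| := by
  unfold av
  simp

theorem sum_pad (N K : ℕ) (h : N ≤ K) (f : Fin N → ℚ) :
    ∑ t : Fin K, (if ht : t.1 < N then f ⟨t.1, ht⟩ else 0) = ∑ t : Fin N, f t := by
  have h1 : ∑ t : Fin K, (if ht : t.1 < N then f ⟨t.1, ht⟩ else 0) =
      ∑ t ∈ Finset.range K, (if ht : t < N then f ⟨t, ht⟩ else 0) :=
    Fin.sum_univ_eq_sum_range (fun t => if ht : t < N then f ⟨t, ht⟩ else 0) K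
  have h2 : ∑ t : Fin N, (if ht : t.1 < N then f ⟨t.1, ht⟩ else 0) =
      ∑ t ∈ Finset.range N, (if ht : t < N then f ⟨t, ht⟩ else 0) :=
    Fin.sum_univ_eq_sum_range (fun t => if ht : t < N then f ⟨t, ht⟩ else 0) N
  have h3 : ∑ t : Fin N, (if ht : t.1 < N then f ⟨t.1, ht⟩ else 0) = ∑ t : Fin N, f t := by
    refine Finset.sum_congr rfl fun t _ => ?_
    rw [dif_pos t.2]
  rw [h1, ← h3, h2]
  symm
  apply Finset.sum_subset
  · intro t ht
    rw [Finset.mem_range] at ht ⊢
    omega
  · intro t _ ht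
    rw [Finset.mem_range] at ht
    rw [dif_neg ht]

theorem one_mem (U : Ultrafilter ℕ) (S : Finset ℕ) (T : ℕ → ℝ) (hS : PS S) :
    (fun _ => (1 : ℚ)) ∈ Un U S T := by
  have h1 : ∀ v ∈ pl S, av v 1 = 1 := by
    intro v hv
    unfold av
    split_ifs with h
    · simp
    · simp
  refine ⟨fun n => ⟨one_pos, ?_⟩, 0, ?_⟩
  · rw [Finset.prod_congr rfl h1]
    simp
  · filter_upwards with n v hv
    rw [h1 v hv]
    simp

/-- common number of summands -/
theorem pad (U : Ultrafilter ℕ) (S : Finset ℕ) (T : ℕ → ℝ) (hS : PS S) {d : ℕ}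
    (G : Fin d → ℕ → ℚ) (hG : ∀ i, Lc U (Un U S T) (G i)) :
    ∃ (K : ℕ) (c : Fin d → Fin K → ℤ) (u : Fin d → Fin K → ℕ → ℚ), (∀ i t, u i t ∈ Un U S T) ∧
      ∀ᶠ n in (U : Filter ℕ), ∀ i, G i n = ∑ t, (c i t : ℚ) * u i t n := by
  choose N c u hu hGe using hG
  refine ⟨∑ i, N i, fun i t => if ht : t.1 < N i then c i ⟨t.1, ht⟩ else 0,
    fun i t => if ht : t.1 < N i then u i ⟨t.1, ht⟩ else fun _ => 1, ?_, ?_⟩
  · intro i t
    simp only []
    split_ifs with ht
    · exact hu i _
    · exact one_mem U S T hS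
  · filter_upwards [eventually_all.mpr hGe] with n hn i
    rw [hn i, ← sum_pad (N i) (∑ i, N i) (Finset.single_le_sum (fun _ _ => Nat.zero_le _)
      (Finset.mem_univ i)) (fun t => (c i t : ℚ) * u i t n)]
    refine Finset.sum_congr rfl fun t _ => ?_
    split_ifs with ht
    · rfl
    · simp

theorem s2u_all (hS2U : Stmt_S2U) (U : Ultrafilter ℕ) (S : Finset ℕ) (T : ℕ → ℝ) (d : ℕ)
    (Z : Fin d → ℕ → ℤ) (B : ℝ) (hS : PS S) (hT : Tendsto T (U : Filter ℕ) atTop) (hB : 0 ≤ B)
    (hZ : ∀ᶠ n in (U : Filter ℕ), ∀ i, |(Z i n : ℝ)| ≤ Real.exp (B * T n)) (hI : IndU U S T Z)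
    (G : Fin d → ℕ → ℚ) (hG : ∀ i, Lc U (Un U S T) (G i)) (i : Fin d) :
    ∀ᶠ n in (U : Filter ℕ), av 0 (G i n) ≤
      Real.exp ((d * B + 1) * T n) * av 0 (∑ i, G i n * (Z i n : ℚ)) := by
  obtain ⟨K, c, u, hu, hGe⟩ := pad U S T hS G hG
  have h1 := hS2U U S T d Z B 1 0 hS hT hB one_pos (Finset.mem_insert_self 0 S) hZ hI K c u hu i
    Finset.univ (fun _ _ _ _ => Finset.mem_univ _)
  filter_upwards [h1, hGe] with n hn1 hn2
  simp only [hn2]
  exact hn1

theorem ind_castSucc (hLCC : Stmt_LCC) (U : Ultrafilter ℕ) (S : Finset ℕ) (T : ℕ → ℝ) (d : ℕ)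
    (Z : Fin (d + 1) → ℕ → ℤ) (hI : IndU U S T Z) : IndU U S T (fun i : Fin d => Z i.castSucc) := by
  intro H hH hs i
  have h0 := (hLCC U).1
  have h1 := hI (Fin.snoc H (0 : ℕ → ℚ)) (by
    intro j
    refine Fin.lastCases ?_ (fun j => ?_) j
    · rw [Fin.snoc_last]
      exact h0 _
    · rw [Fin.snoc_castSucc]
      exact hH j) (by
    filter_upwards [hs] with n hn
    rw [Fin.sum_univ_castSucc]
    simp only [Fin.snoc_castSucc, Fin.snoc_last]
    rw [hn]
    simp)
  have h2 := h1 i.castSucc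
  simpa only [Fin.snoc_castSucc] using h2

theorem step (hS2U : Stmt_S2U) (hLCC : Stmt_LCC) (U : Ultrafilter ℕ) (S : Finset ℕ) (T : ℕ → ℝ)
    (d : ℕ) (Z : Fin (d + 1) → ℕ → ℤ) (B ε : ℝ) (hS : PS S)
    (hT : Tendsto T (U : Filter ℕ) atTop) (hB : 0 ≤ B) (hε : 0 < ε)
    (hZ : ∀ᶠ n in (U : Filter ℕ), ∀ i, |(Z i n : ℝ)| ≤ Real.exp (B * T n)) (hI : IndU U S T Z)
    (a : Fin d → Fin d → ℕ → ℚ) (ha : ∀ i j, Lc U (Un U S T) (a i j))
    (hdet : ∀ᶠ n in (U : Filter ℕ), (Matrix.of fun i j => a i j n).det ≠ 0)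
    (ho : Orth U S T (lc a (fun i : Fin d => Z i.castSucc)) (ε / 2)) :
    ∃ a : Fin (d + 1) → Fin (d + 1) → ℕ → ℚ, (∀ i j, Lc U (Un U S T) (a i j)) ∧
      (∀ᶠ n in (U : Filter ℕ), (Matrix.of fun i j => a i j n).det ≠ 0) ∧
        Orth U S T (lc a Z) ε := by
  obtain ⟨L0, Ladd, Lmul, -, -, Lmem, Leq, -⟩ := hLCC U
  have Lmul' : ∀ f g, Lc U (Un U S T) f → Lc U (Un U S T) g → Lc U (Un U S T) (f * g) := by
    intro f g hf hg
    refine Lmul _ _ _ f g hf hg ?_
    intro u hu u' hu'
    obtain ⟨hu1, C, hC⟩ := hu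
    obtain ⟨hu1', C', hC'⟩ := hu'
    have hav : ∀ v ∈ pl S, ∀ x y : ℚ, av v (x * y) = av v x * av v y := by
      intro v hv x y
      unfold av
      split_ifs with h
      · push_cast
        exact abs_mul _ _
      · have hp : v.Prime := by
          rcases Finset.mem_insert.mp hv with h' | h'
          · exact absurd h' h
          · exact hS v h'
        haveI : Fact v.Prime := ⟨hp⟩
        rw [padicNorm.mul]
        push_cast
        rfl
    refine ⟨fun n => ⟨mul_pos (hu1 n).1 (hu1' n).1, ?_⟩, C + C', ?_⟩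
    · have : ∏ v ∈ pl S, av v ((u * u') n) = (∏ v ∈ pl S, av v (u n)) * ∏ v ∈ pl S, av v (u' n) := by
        rw [← Finset.prod_mul_distrib]
        refine Finset.prod_congr rfl fun v hv => ?_
        exact hav v hv _ _
      rw [this, (hu1 n).2, (hu1' n).2, one_mul]
    · filter_upwards [hC, hC'] with n h1 h2 v hv
      have h3 : av v ((u * u') n) = av v (u n) * av v (u' n) := hav v hv _ _
      have hnn : ∀ x : ℚ, 0 ≤ av v x := by
        intro x
        unfold av
        split_ifs
        · exact abs_nonneg _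
        · exact_mod_cast padicNorm.nonneg x
      rw [h3]
      calc av v (u n) * av v (u' n) ≤ Real.exp (C * T n) * Real.exp (C' * T n) :=
            mul_le_mul (h1 v hv) (h2 v hv) (hnn _) (Real.exp_pos _).le
        _ = Real.exp ((C + C') * T n) := by
            rw [← Real.exp_add]
            congr 1
            ring
  have Lsum : ∀ (s : Finset (Fin d)) (f : Fin d → ℕ → ℚ), (∀ i, Lc U (Un U S T) (f i)) →
      Lc U (Un U S T) (∑ i ∈ s, f i) := by
    intro s f hf
    induction s using Finset.induction_on with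
    | empty =>
      rw [Finset.sum_empty]
      exact L0 _
    | insert i s hi ih =>
      rw [Finset.sum_insert hi]
      exact Ladd _ _ _ (hf i) ih
  set A : Set ℝ := {c : ℝ | ∃ (a' : ℕ → ℚ) (b : Fin d → ℕ → ℚ), Lc U (Un U S T) a' ∧
    (∀ᶠ n in (U : Filter ℕ), a' n ≠ 0) ∧ (∀ j, Lc U (Un U S T) (b j)) ∧
    ∀ᶠ n in (U : Filter ℕ), |((∑ j, b j n * (Z j.castSucc n : ℚ) + a' n * (Z (Fin.last d) n : ℚ) : ℚ) : ℝ)| ≤
      Real.exp (c * T n) * |(a' n : ℝ)|} with hA
  have hAne : A.Nonempty := by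
    refine ⟨B, fun _ => 1, fun _ => 0, Lmem _ _ (one_mem U S T hS), ?_, fun _ => L0 _, ?_⟩
    · filter_upwards with n
      exact one_ne_zero
    · filter_upwards [hZ] with n hn
      have := hn (Fin.last d)
      simpa using this
  have hAbd : BddBelow A := by
    refine ⟨-((d + 1 : ℕ) * B + 1), ?_⟩
    rintro c ⟨a', b, ha', hne, hb, hc⟩
    have h1 := s2u_all hS2U U S T (d + 1) Z B hS hT hB hZ hI (Fin.snoc b a') (by
      intro j
      refine Fin.lastCases ?_ (fun j => ?_) j
      · rw [Fin.snoc_last]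
        exact ha'
      · rw [Fin.snoc_castSucc]
        exact hb j) (Fin.last d)
    have h2 := (h1.and (hc.and (hne.and (hT.eventually_gt_atTop 0)))).exists
    obtain ⟨n, hn1, hn2, hn3, hn4⟩ := h2
    rw [Fin.sum_univ_castSucc] at hn1
    simp only [Fin.snoc_castSucc, Fin.snoc_last, av0] at hn1
    have h3 : (0 : ℝ) < |(a' n : ℝ)| := by
      rw [abs_pos]
      exact_mod_cast hn3
    have h4 : |(a' n : ℝ)| ≤ Real.exp ((((d + 1 : ℕ) : ℝ) * B + 1) * T n) *
        (Real.exp (c * T n) * |(a' n : ℝ)|) :=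
      hn1.trans (mul_le_mul_of_nonneg_left hn2 (Real.exp_pos _).le)
    rw [← mul_assoc, ← Real.exp_add] at h4
    have h5 : (1 : ℝ) ≤ Real.exp ((((d + 1 : ℕ) : ℝ) * B + 1) * T n + c * T n) := by
      by_contra hlt
      push Not at hlt
      have : Real.exp ((((d + 1 : ℕ) : ℝ) * B + 1) * T n + c * T n) * |(a' n : ℝ)| <
          1 * |(a' n : ℝ)| := mul_lt_mul_of_pos_right hlt h3
      linarith
    have h6 : 0 ≤ (((d + 1 : ℕ) : ℝ) * B + 1) * T n + c * T n := Real.one_le_exp_iff.mp h5
    have h7 : 0 ≤ ((((d + 1 : ℕ) : ℝ) * B + 1) + c) * T n := by linarith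
    have h8 : 0 ≤ (((d + 1 : ℕ) : ℝ) * B + 1) + c := nonneg_of_mul_nonneg_left h7 hn4
    linarith
  obtain ⟨c₀, ⟨a', b, ha', hne, hb, hc⟩, hc₀⟩ :=
    exists_lt_of_csInf_lt hAne (show sInf A < sInf A + ε / 6 by linarith)
  set ι := sInf A with hι
  refine ⟨Fin.snoc (fun i => Fin.snoc (a i) 0) (Fin.snoc b a'), ?_, ?_, ?_⟩
  · intro i j
    refine Fin.lastCases ?_ (fun i => ?_) i
    · rw [Fin.snoc_last]
      refine Fin.lastCases ?_ (fun j => ?_) j
      · rw [Fin.snoc_last]
        exact ha'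
      · rw [Fin.snoc_castSucc]
        exact hb j
    · rw [Fin.snoc_castSucc]
      refine Fin.lastCases ?_ (fun j => ?_) j
      · rw [Fin.snoc_last]
        exact L0 _
      · rw [Fin.snoc_castSucc]
        exact ha i j
  · filter_upwards [hdet, hne] with n hn1 hn2
    rw [Matrix.det_succ_column _ (Fin.last d), Fin.sum_univ_castSucc]
    have h1 : ∀ i : Fin d, (Matrix.of fun (i j : Fin (d + 1)) =>
        (Fin.snoc (α := fun _ => Fin (d + 1) → ℕ → ℚ) (fun i => Fin.snoc (α := fun _ => ℕ → ℚ) (a i) 0)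
          (Fin.snoc (α := fun _ => ℕ → ℚ) b a')) i j n) i.castSucc (Fin.last d) = 0 := by
      intro i
      rw [Matrix.of_apply, Fin.snoc_castSucc, Fin.snoc_last]
      rfl
    have h2 : (Matrix.of fun (i j : Fin (d + 1)) =>
        (Fin.snoc (α := fun _ => Fin (d + 1) → ℕ → ℚ) (fun i => Fin.snoc (α := fun _ => ℕ → ℚ) (a i) 0)
          (Fin.snoc (α := fun _ => ℕ → ℚ) b a')) i j n) (Fin.last d) (Fin.last d) = a' n := by
      rw [Matrix.of_apply, Fin.snoc_last, Fin.snoc_last]
    have h3 : ((Matrix.of fun (i j : Fin (d + 1)) =>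
        (Fin.snoc (α := fun _ => Fin (d + 1) → ℕ → ℚ) (fun i => Fin.snoc (α := fun _ => ℕ → ℚ) (a i) 0)
          (Fin.snoc (α := fun _ => ℕ → ℚ) b a')) i j n).submatrix (Fin.last d).succAbove
            (Fin.last d).succAbove) = Matrix.of fun i j => a i j n := by
      ext i j
      rw [Matrix.submatrix_apply, Matrix.of_apply, Matrix.of_apply, Fin.succAbove_last,
        Fin.snoc_castSucc, Fin.snoc_castSucc]
    rw [h2, h3]
    have h4 : ∀ x : Fin d, (-1 : ℚ) ^ ((x.castSucc : ℕ) + (Fin.last d : ℕ)) * (Matrix.of fun (i j : Fin (d + 1)) =>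
        (Fin.snoc (α := fun _ => Fin (d + 1) → ℕ → ℚ) (fun i => Fin.snoc (α := fun _ => ℕ → ℚ) (a i) 0)
          (Fin.snoc (α := fun _ => ℕ → ℚ) b a')) i j n) x.castSucc (Fin.last d) *
          ((Matrix.of fun (i j : Fin (d + 1)) =>
        (Fin.snoc (α := fun _ => Fin (d + 1) → ℕ → ℚ) (fun i => Fin.snoc (α := fun _ => ℕ → ℚ) (a i) 0)
          (Fin.snoc (α := fun _ => ℕ → ℚ) b a')) i j n).submatrix x.castSucc.succAbove
            (Fin.last d).succAbove).det = 0 := by
      intro x
      rw [h1 x, mul_zero, zero_mul]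
    rw [Finset.sum_congr rfl (fun x _ => h4 x), Finset.sum_const_zero, zero_add]
    apply mul_ne_zero (mul_ne_zero _ hn2) hn1
    exact pow_ne_zero _ (by norm_num)
  · intro b' hb'
    -- coefficients of the total
    have hco : ∀ j, Lc U (Un U S T)
        (b' (Fin.last d) * b j + ∑ i, b' i.castSucc * a i j) := by
      intro j
      apply Ladd _ _ _ (Lmul' _ _ (hb' _) (hb j))
      exact Lsum _ _ (fun i => Lmul' _ _ (hb' _) (ha i j))
    have hlast : Lc U (Un U S T) (b' (Fin.last d) * a') := Lmul' _ _ (hb' _) ha'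
    set e : Fin d → ℕ → ℚ := lc a (fun i : Fin d => Z i.castSucc) with he
    set v : ℕ → ℚ := fun n => ∑ j, b j n * (Z j.castSucc n : ℚ) + a' n * (Z (Fin.last d) n : ℚ) with hv
    set aa : Fin (d + 1) → Fin (d + 1) → ℕ → ℚ :=
      Fin.snoc (fun i => Fin.snoc (a i) 0) (Fin.snoc b a') with haa
    have hel : ∀ n, lc aa Z (Fin.last d) n = v n := by
      intro n
      rw [lc, hv, haa, Fin.sum_univ_castSucc]
      simp only [Fin.snoc_last, Fin.snoc_castSucc]
    have hec : ∀ (i : Fin d) n, lc aa Z i.castSucc n = e i n := by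
      intro i n
      rw [lc, he, lc, haa, Fin.sum_univ_castSucc]
      simp only [Fin.snoc_last, Fin.snoc_castSucc, Pi.zero_apply, zero_mul, add_zero]
    have htot : ∀ n, ∑ i, b' i n * lc aa Z i n =
        ∑ i : Fin d, b' i.castSucc n * e i n + b' (Fin.last d) n * v n := by
      intro n
      rw [Fin.sum_univ_castSucc, hel n]
      congr 1
      exact Finset.sum_congr rfl fun i _ => by rw [hec i n]
    have htot2 : ∀ n, ∑ i, b' i n * lc aa Z i n =
        ∑ j : Fin d, (b' (Fin.last d) * b j + ∑ i, b' i.castSucc * a i j) n *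
          (Z j.castSucc n : ℚ) + (b' (Fin.last d) * a') n * (Z (Fin.last d) n : ℚ) := by
      intro n
      rw [htot n, hv, he]
      simp only [lc, Pi.add_apply, Pi.mul_apply, Finset.sum_apply]
      simp_rw [add_mul, Finset.sum_add_distrib, Finset.sum_mul, Finset.mul_sum]
      rw [Finset.sum_comm, mul_add, Finset.mul_sum]
      simp_rw [mul_assoc]
      ring
    have ho' := ho (fun i => b' i.castSucc) (fun i => hb' _)
    have hTlog : ∀ᶠ n in (U : Filter ℕ), Real.log 2 ≤ ε / 6 * T n :=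
      (hT.const_mul_atTop (by positivity : (0 : ℝ) < ε / 6)).eventually_ge_atTop _
    by_cases hz : ∀ᶠ n in (U : Filter ℕ), b' (Fin.last d) n = 0
    · filter_upwards [hz, ho', hTlog, hT.eventually_ge_atTop 0] with n hn0 hn1 hn2 hn3 i
      rw [htot n, hn0, zero_mul, add_zero, av0, av0]
      simp only [av0] at hn1
      have hexp : Real.exp (ε / 2 * T n) ≤ Real.exp (ε * T n) := by
        apply Real.exp_le_exp.mpr
        nlinarith
      refine Fin.lastCases ?_ (fun i => ?_) i
      · rw [hn0]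
        simp only [zero_mul, Rat.cast_zero, abs_zero]
        positivity
      · rw [hec i n]
        exact (hn1 i).trans (mul_le_mul_of_nonneg_right hexp (abs_nonneg _))
    · have hnz : ∀ᶠ n in (U : Filter ℕ), b' (Fin.last d) n ≠ 0 :=
        Ultrafilter.eventually_not.mpr hz
      have hnot : ¬ ∀ᶠ n in (U : Filter ℕ), |((∑ i, b' i n * lc aa Z i n : ℚ) : ℝ)| ≤
          Real.exp ((ι - ε / 6) * T n) * |((b' (Fin.last d) * a') n : ℝ)| := by
        intro hcon
        have hmem : ι - ε / 6 ∈ A := by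
          refine ⟨b' (Fin.last d) * a', fun j => b' (Fin.last d) * b j + ∑ i, b' i.castSucc * a i j,
            hlast, ?_, hco, ?_⟩
          · filter_upwards [hnz, hne] with n h1 h2
            exact mul_ne_zero h1 h2
          · filter_upwards [hcon] with n h1
            rw [htot2 n] at h1
            exact h1
        have := csInf_le hAbd hmem
        rw [← hι] at this
        linarith
      have hlow := Ultrafilter.eventually_not.mpr hnot
      filter_upwards [hlow, ho', hTlog, hT.eventually_ge_atTop 0, hc] with n hn0 hn1 hn2 hn3 hn4 i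
      push Not at hn0
      rw [av0, av0]
      simp only [av0] at hn1
      set t : ℝ := |((∑ i, b' i n * lc aa Z i n : ℚ) : ℝ)| with ht
      have ht0 : 0 ≤ t := abs_nonneg _
      -- bound for b' v
      have hbv : |((b' (Fin.last d) n * v n : ℚ) : ℝ)| ≤ Real.exp (ε / 3 * T n) * t := by
        have h1 : |((b' (Fin.last d) n * v n : ℚ) : ℝ)| = |(b' (Fin.last d) n : ℝ)| * |(v n : ℝ)| := by
          push_cast
          exact abs_mul _ _
        have h2 : |(((b' (Fin.last d) * a') n : ℚ) : ℝ)| =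
            |(b' (Fin.last d) n : ℝ)| * |(a' n : ℝ)| := by
          rw [Pi.mul_apply]
          push_cast
          exact abs_mul _ _
        have h3 : |(v n : ℝ)| ≤ Real.exp ((ι + ε / 6) * T n) * |(a' n : ℝ)| := by
          refine hn4.trans ?_
          apply mul_le_mul_of_nonneg_right _ (abs_nonneg _)
          apply Real.exp_le_exp.mpr
          exact mul_le_mul_of_nonneg_right hc₀.le hn3
        have h4 : Real.exp (ε / 3 * T n) * Real.exp ((ι - ε / 6) * T n) =
            Real.exp ((ι + ε / 6) * T n) := by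
          rw [← Real.exp_add]
          congr 1
          ring
        calc |((b' (Fin.last d) n * v n : ℚ) : ℝ)| = |(b' (Fin.last d) n : ℝ)| * |(v n : ℝ)| := h1
          _ ≤ |(b' (Fin.last d) n : ℝ)| * (Real.exp ((ι + ε / 6) * T n) * |(a' n : ℝ)|) :=
              mul_le_mul_of_nonneg_left h3 (abs_nonneg _)
          _ = Real.exp (ε / 3 * T n) * (Real.exp ((ι - ε / 6) * T n) *
              |(((b' (Fin.last d) * a') n : ℚ) : ℝ)|) := by
              rw [h2, ← h4]
              ring
          _ ≤ Real.exp (ε / 3 * T n) * t := by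
              apply mul_le_mul_of_nonneg_left _ (Real.exp_pos _).le
              exact hn0.le
      have h13 : Real.exp (ε / 3 * T n) ≤ Real.exp (ε * T n) := by
        apply Real.exp_le_exp.mpr
        nlinarith
      refine Fin.lastCases ?_ (fun i => ?_) i
      · rw [hel n]
        exact hbv.trans (mul_le_mul_of_nonneg_right h13 ht0)
      · rw [hec i n]
        have h5 : |((∑ i : Fin d, b' i.castSucc n * e i n : ℚ) : ℝ)| ≤
            Real.exp (ε / 2 * T n) * t := by
          have h6 : ((∑ i : Fin d, b' i.castSucc n * e i n : ℚ) : ℝ) =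
              ((∑ i, b' i n * lc aa Z i n : ℚ) : ℝ) - ((b' (Fin.last d) n * v n : ℚ) : ℝ) := by
            rw [htot n]
            push_cast
            ring
          have h7 : |((∑ i : Fin d, b' i.castSucc n * e i n : ℚ) : ℝ)| ≤
              t + |((b' (Fin.last d) n * v n : ℚ) : ℝ)| := by
            rw [h6]
            exact abs_sub _ _
          have h8 : (1 : ℝ) ≤ Real.exp (ε / 3 * T n) := Real.one_le_exp (by positivity)
          have h9 : (2 : ℝ) ≤ Real.exp (ε / 6 * T n) := by
            calc (2 : ℝ) = Real.exp (Real.log 2) := (Real.exp_log (by norm_num)).symm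
              _ ≤ _ := Real.exp_le_exp.mpr hn2
          have h10 : Real.exp (ε / 2 * T n) = Real.exp (ε / 6 * T n) * Real.exp (ε / 3 * T n) := by
            rw [← Real.exp_add]
            congr 1
            ring
          rw [h10]
          calc |((∑ i : Fin d, b' i.castSucc n * e i n : ℚ) : ℝ)|
              ≤ t + Real.exp (ε / 3 * T n) * t := h7.trans (by linarith)
            _ ≤ 2 * Real.exp (ε / 3 * T n) * t := by nlinarith
            _ ≤ Real.exp (ε / 6 * T n) * Real.exp (ε / 3 * T n) * t := by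
                apply mul_le_mul_of_nonneg_right _ ht0
                exact mul_le_mul_of_nonneg_right h9 (Real.exp_pos _).le
        have h11 : Real.exp (ε * T n) = Real.exp (ε / 2 * T n) * Real.exp (ε / 2 * T n) := by
          rw [← Real.exp_add]
          congr 1
          ring
        calc |((b' i.castSucc n * e i n : ℚ) : ℝ)|
            ≤ Real.exp (ε / 2 * T n) * |((∑ i : Fin d, b' i.castSucc n * e i n : ℚ) : ℝ)| := hn1 i
          _ ≤ Real.exp (ε / 2 * T n) * (Real.exp (ε / 2 * T n) * t) :=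
              mul_le_mul_of_nonneg_left h5 (Real.exp_pos _).le
          _ = Real.exp (ε * T n) * t := by
              rw [h11]
              ring

end ORT_

theorem ort_proof (hS2U : Stmt_S2U) (hLCC : Stmt_LCC) (_hLBU : Stmt_LBU) : Stmt_ORT := by
  intro U S T d
  induction d with
  | zero =>
    intro Z B ε hS hT hB hε hZ hI
    refine ⟨fun i => i.elim0, fun i => i.elim0, ?_, ?_⟩
    · filter_upwards with n
      rw [Matrix.det_isEmpty]
      exact one_ne_zero
    · intro b hb
      filter_upwards with n i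
      exact i.elim0
  | succ d ih =>
    intro Z B ε hS hT hB hε hZ hI
    obtain ⟨a, ha, hdet, ho⟩ := ih (fun i : Fin d => Z i.castSucc) B (ε / 2) hS hT hB
      (by positivity) (by
        filter_upwards [hZ] with n hn i
        exact hn i.castSucc) (ORT_.ind_castSucc hLCC U S T d Z hI)
    exact ORT_.step hS2U hLCC U S T d Z B ε hS hT hB hε hZ hI a ha hdet ho

end Pool.Agent.CLX
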