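import Pool.Agent.CLX.Defs

/-!
# Collatz trajectories and block complexity (MP_d02c56_nt): statements of the modules
# Recipes: /team-store/MP_d02c56_CLX.md
-/

set_option autoImplicit false

namespace Pool.Agent.CLX

open Filter Pool.Agent.SBT

/-! ## Words -/

/-- CRP: arithmetic of `Rpc` and `Rps`. Uses nothing. -/
def Stmt_CRP : Prop :=
  (∀ Z M N N' B L F G, Rpc Z M N B L F → Rpc Z M N' B L G → Rpc Z M (N + N') B L (F + G)) ∧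
  (∀ Z M N N' B B' L F G, Rpc Z M N B L F → Rps N' B' G → Rpc Z M (N * N') (B + B') L (F * G)) ∧
  (∀ Z M N N' B B' L F, N ≤ N' → B ≤ B' → Rpc Z M N B L F → Rpc Z M N' B' L F) ∧
  (∀ Z M N B L, Rpc Z M N B L 0) ∧
  (∀ Z M N B L F, Rpc Z M N B L F → Rpc Z M N B L (-F)) ∧
  -- a point near the path
  (∀ (Z M : ℕ → ℕ) (B L j α β : ℕ), j ≤ L → |(α : ℤ) - Z j| ≤ B →
    |(β : ℤ) - ((M L : ℤ) - M j)| ≤ B → Rpc Z M 1 B L (2 ^ α * 3 ^ β)) ∧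
  -- a longer path
  (∀ (Z M : ℕ → ℕ) (N B L L' : ℕ) (F : ℤ), L ≤ L' → M L ≤ M L' → Rpc Z M N B L F →
    Rpc Z M N B L' (3 ^ (M L' - M L) * F)) ∧
  (∀ N N' B B' F G, Rps N B F → Rps N' B' G → Rps (N * N') (B + B') (F * G)) ∧
  (∀ N N' B B' F, N ≤ N' → B ≤ B' → Rps N B F → Rps N' B' F) ∧
  (∀ α β : ℕ, Rps 1 (max α β) (2 ^ α * 3 ^ β)) ∧
  ∀ (E : ℕ) (ζ μ : Fin E → ℕ), Rps (2 ^ E) (∑ i, (ζ i + μ i)) (∏ i, ((2 : ℤ) ^ ζ i - 3 ^ μ i))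

/-- CVP: the value of a periodic piece. `Z l`, `M l` = numbers of zeros, ones before the `l`-th
place. Uses CRP. -/
def Stmt_CVP : Prop :=
  ∀ (E i k r B : ℕ) (ty : ℕ → Fin E) (Z M : ℕ → ℕ) (y : Fin E → ℤ) (zt ot ζ μ : Fin E → ℕ),
    1 ≤ r → r ≤ E → i + r ≤ k →
    (∀ l, i ≤ l → l < k → Z (l + 1) = Z l + zt (ty l) ∧ M (l + 1) = M l + ot (ty l)) →
    (∀ t, zt t ≤ B ∧ ot t ≤ B ∧ ζ t ≤ B ∧ μ t ≤ B) →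
    Z (i + r) = Z i + ζ (ty i) → M (i + r) = M i + μ (ty i) →
    (∀ l, i ≤ l → l + r < k → ty l = ty (l + r)) →
    ∃ F : Fin E → ℤ, (∀ t, Rpc Z M (2 * E) (2 * B) k (F t)) ∧
      ((2 : ℤ) ^ ζ (ty i) - 3 ^ μ (ty i)) *
        ∑ l ∈ Finset.Ico i k, 3 ^ (M k - M (l + 1)) * 2 ^ Z l * y (ty l) = ∑ t, F t * y t

/-- CSV: the value of a prefix. Uses CRP, CVP, PCS. -/
def Stmt_CSV : Prop :=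
  ∀ (E G : ℕ), ∃ N : ℕ, ∀ (D X K B : ℕ) (ty : ℕ → Fin E) (β : ℕ → ℕ) (y : Fin E → ℤ)
    (len q zt ot ζ μ : Fin E → ℕ) (Z M : ℕ → ℕ) (P : ℕ → ℤ), 1 ≤ D → X ≤ G * D →
    (∀ t, 1 ≤ q t ∧ q t ≤ D) → (∀ l < K, β (l + 1) = β l + len (ty l)) →
    (∀ l < K, 1 ≤ len (ty l)) → β K < X →
    (∀ l < K, Z (l + 1) = Z l + zt (ty l) ∧ M (l + 1) = M l + ot (ty l)) →
    Z 0 ≤ B → (∀ t, zt t ≤ B ∧ ot t ≤ B ∧ ζ t ≤ B ∧ μ t ≤ B) →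
    (∀ l < K, P (l + 1) = 3 ^ ot (ty l) * P l + 2 ^ Z l * y (ty l)) →
    (∀ k k', k < k' → k' ≤ K → ty k = ty k' → β k' ≤ β k + D →
      (∀ j, k < j → j < k' → ty k ≠ ty j) →
      β k' = β k + q (ty k) ∧ Z k' = Z k + ζ (ty k) ∧ M k' = M k + μ (ty k) ∧
        ∀ i j, k ≤ i → i < j → j < k' → ty i ≠ ty j) →
    (∀ k k' k'', k < k' → k' ≤ k'' → k'' ≤ K → ty k = ty k' → ty k = ty k'' →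
      β k'' ≤ β k + D → (∀ j, k < j → j < k' → ty k ≠ ty j) →
      ∀ l, k ≤ l → l + (k' - k) ≤ k'' → ty l = ty (l + (k' - k))) →
    ∃ (F₀ : ℤ) (F : Fin E → ℤ), Rpc Z M N ((2 * E + 3) * B) K F₀ ∧
      (∀ t, Rpc Z M N ((2 * E + 3) * B) K (F t)) ∧
      (∏ t, ((2 : ℤ) ^ ζ t - 3 ^ μ t)) * P K = F₀ * P 0 + ∑ t, F t * y t

/-- CSF: the structure theorem. Uses TYC, DTM, SPX, RTN, CSV. -/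
def Stmt_CSF : Prop :=
  ∀ C : ℕ, ∃ s B : ℕ, ∀ Λ : ℕ, ∃ N : ℕ, ∀ (n : ℕ) (k : ℤ) (u : ℕ → ℕ) (P : ℕ → ℤ), 8 ≤ n →
    (∀ i, u i < 2) → Val u k P → nbl u n (Λ * n) ≤ C * n →
    ∃ (m : ℕ) (ζ μ : Fin s → ℕ) (y : Fin s → ℤ), n ≤ 2 * m ∧ m ≤ n ∧
      (∀ i, 1 ≤ ζ i + μ i ∧ ζ i ≤ B * n ∧ μ i ≤ B * n) ∧
      (∀ i, |y i| ≤ (|P 0| + |k|) * 4 ^ (B * n)) ∧
      (∀ x, Spe u m (Λ * n) x → ∃ F : Fin s → ℤ,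
        (∀ i, Rpc (ze u) (on u) N (B * n) (x + m) (F i)) ∧
        (∏ i, ((2 : ℤ) ^ ζ i - 3 ^ μ i)) * P (x + m) = ∑ i, F i * y i) ∧
      ∀ z, z + B * n < Λ * n →
        (∃ x, z ≤ x ∧ x ≤ z + B * n ∧ Spe u m (Λ * n) x) ∨
        ∃ per, 1 ≤ per ∧ per ≤ B * n ∧
          ∀ i, z + B * n ≤ i → i + per < Λ * n → u i = u (i + per)

/-- CSG: the structure theorem for all places. Uses CSF, CRP. -/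
def Stmt_CSG : Prop :=
  ∀ C : ℕ, ∃ s B : ℕ, ∀ Λ : ℕ, ∃ N : ℕ, ∀ (n : ℕ) (k : ℤ) (u : ℕ → ℕ) (P : ℕ → ℤ), 8 ≤ n →
    (∀ i, u i < 2) → Val u k P → nbl u n (Λ * n) ≤ C * n →
    ∃ (ζ μ : Fin s → ℕ) (y : Fin s → ℤ),
      (∀ i, 1 ≤ ζ i + μ i ∧ ζ i ≤ B * n ∧ μ i ≤ B * n) ∧
      (∀ i, |y i| ≤ (|P 0| + |k|) * 4 ^ (B * n)) ∧
      ∀ z, z + B * n < Λ * n → ∃ L, z ≤ L ∧ L ≤ z + B * n ∧ ∃ F : Fin s → ℤ,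
        (∀ i, Rpc (ze u) (on u) N (B * n) L (F i)) ∧
        (∏ i, ((2 : ℤ) ^ ζ i - 3 ^ μ i)) * P L = ∑ i, F i * y i

/-! ## Units -/

/-- S2V: S2T at every place. Uses SBB, SIM, VOR, LTM. -/
def Stmt_S2V : Prop :=
  ∀ (U : Ultrafilter ℕ) (S : Finset ℕ) (T : ℕ → ℝ) (r d : ℕ) (g : Fin r → ℕ → ℚ)
    (Z : Fin d → ℕ → ℤ) (B δ : ℝ) (D : Fin d → MvPolynomial (Fin r) ℚ) (w : ℕ), Gd U S T g →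
    0 ≤ B → 0 < δ → w ∈ pl S →
    (∀ᶠ n in (U : Filter ℕ), ∀ i, |(Z i n : ℝ)| ≤ Real.exp (B * T n)) →
    Indp U g Z → ∀ i, ∀ e ∈ (D i).support, ∀ᶠ n in (U : Filter ℕ),
      av w (mon g e n) ≤
        Real.exp ((d * B + δ) * T n) * av w (∑ i, ev g n (D i) * (Z i n : ℚ))

/-- INH: the first description, for any set of sequences. Uses nothing (copy of ING). -/
def Stmt_INH : Prop :=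
  ∀ (U : Ultrafilter ℕ) (S : Finset ℕ) (T : ℕ → ℝ) (r s : ℕ) (g : Fin r → ℕ → ℚ)
    (Γ : Set (ℕ → ℚ)) (y : Fin s → ℕ → ℤ) (R : ℕ → ℤ) (f₀ : ℕ → ℚ) (f : Fin s → ℕ → ℚ) (B : ℝ),
    Gd U S T g → 0 ≤ B → Lc U (Sm U S T B ∩ Gg U g) f₀ →
    (∀ i, Lc U ({u | ∃ w ∈ Γ, ∀ᶠ n in (U : Filter ℕ), ∀ v ∈ pl S,
      av v (u n) ≤ Real.exp (B * T n) * av v (w n)} ∩ Gg U g) (f i)) →
    (∀ᶠ n in (U : Filter ℕ), f₀ n ≠ 0) →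
    (∀ᶠ n in (U : Filter ℕ), f₀ n * (R n : ℚ) = ∑ i, f i n * (y i n : ℚ)) →
    Dsg U S T g Γ y R (B + 1)

/-- CLD: a description of the value at a place. Uses LCC, BAG, INH, EGM. -/
def Stmt_CLD : Prop :=
  ∀ (s B : ℕ), ∃ E : ℝ, 0 ≤ E ∧ ∀ (U : Ultrafilter ℕ) (N Λ : ℕ) (Z M : ℕ → ℕ → ℕ) (L : ℕ → ℕ)
    (ζ μ : Fin s → ℕ → ℕ) (y : Fin s → ℕ → ℤ) (R : ℕ → ℤ), (U : Filter ℕ) ≤ atTop →
    (∀ n j, j ≤ L n → Z n j ≤ Λ * n ∧ M n j ≤ M n (L n) ∧ M n (L n) ≤ Λ * n) →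
    (∀ᶠ n in (U : Filter ℕ), ∀ i, 1 ≤ ζ i n + μ i n ∧ ζ i n ≤ B * n ∧ μ i n ≤ B * n) →
    (∀ᶠ n in (U : Filter ℕ), ∀ i, |y i n| ≤ 2 ^ (B * n)) →
    (∀ᶠ n in (U : Filter ℕ), ∃ F : Fin s → ℤ, (∀ i, Rpc (Z n) (M n) N (B * n) (L n) (F i)) ∧
      (∏ i, ((2 : ℤ) ^ ζ i n - 3 ^ μ i n)) * R n = ∑ i, F i * y i n) →
    ∃ (r : ℕ) (g : Fin r → ℕ → ℚ) (d : ℕ) (Y : Fin d → ℕ → ℤ),
      Gd U S23 (fun n => (n : ℝ)) g ∧ d ≤ s ∧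
      (∀ᶠ n in (U : Filter ℕ), ∀ i, |(Y i n : ℝ)| ≤ Real.exp (B * (n : ℝ))) ∧ Indp U g Y ∧
      Dsg U S23 (fun n => (n : ℝ)) g (Pth Z M L) Y R E

/-- CCR: the core: the terms are small. Uses UNI, S2V, CLD. -/
def Stmt_CCR : Prop :=
  ∀ (s B : ℕ), ∃ E : ℕ, ∀ (U : Ultrafilter ℕ) (N Λ : ℕ) (Z M : ℕ → ℕ → ℕ) (L : ℕ → ℕ)
    (ζ μ : Fin s → ℕ → ℕ) (y : Fin s → ℕ → ℤ) (R X : ℕ → ℤ), (U : Filter ℕ) ≤ atTop →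
    (∀ n j, j ≤ L n → Z n j ≤ Λ * n ∧ Z n j ≤ Z n (L n) ∧ M n j ≤ M n (L n) ∧
      M n (L n) ≤ Λ * n ∧ M n (L n) - M n j ≤ Z n (L n) - Z n j + 1) →
    (∀ᶠ n in (U : Filter ℕ), ∀ i, 1 ≤ ζ i n + μ i n ∧ ζ i n ≤ B * n ∧ μ i n ≤ B * n) →
    (∀ᶠ n in (U : Filter ℕ), ∀ i, |y i n| ≤ 2 ^ (B * n)) →
    (∀ᶠ n in (U : Filter ℕ), ∃ F : Fin s → ℤ, (∀ i, Rpc (Z n) (M n) N (B * n) (L n) (F i)) ∧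
      (∏ i, ((2 : ℤ) ^ ζ i n - 3 ^ μ i n)) * R n = ∑ i, F i * y i n) →
    (∀ᶠ n in (U : Filter ℕ), R n = 2 ^ Z n (L n) * X n) →
    ∀ᶠ n in (U : Filter ℕ), |X n| ≤ 2 ^ (E * n)

/-! ## The theorem -/

/-- COL: the trajectories. Uses nothing. -/
def Stmt_COL : Prop :=
  ∀ k x : ℤ, Odd k →
    Val (par k x) k (fun i => 2 ^ ze (par k x) i * (col k)^[i] x) ∧
    (∀ i, par k x i < 2) ∧ (∀ i, par k x i = 1 → par k x (i + 1) = 0) ∧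
    (∀ i t, |(col k)^[i + t] x| ≤ 4 ^ t * (|(col k)^[i] x| + |k|)) ∧
    ∀ i j m, blk (par k x) (2 * m) i = blk (par k x) (2 * m) j →
      (2 : ℤ) ^ m ∣ (col k)^[i] x - (col k)^[j] x

/-- CGR: low complexity implies small terms. Uses CRP, CSG, CCR, COL. -/
def Stmt_CGR : Prop :=
  ∀ C : ℕ, ∃ A : ℕ, ∀ Λ : ℕ, ∃ n₀ : ℕ, ∀ n ≥ n₀, ∀ k x : ℤ, Odd k → |k| ≤ 2 ^ n → |x| ≤ 2 ^ n →
    nbl (par k x) n (Λ * n) ≤ C * n → ∀ i ≤ Λ * n, |(col k)^[i] x| ≤ 2 ^ (A * n)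

/-- CFN: the theorem. Uses CGR, COL. -/
def Stmt_CFN : Prop :=
  ∀ C : ℕ, ∃ A : ℕ, ∀ Λ : ℕ, ∃ n₀ : ℕ, ∀ n ≥ n₀, ∀ k x : ℤ, Odd k → |k| ≤ 2 ^ n → |x| ≤ 2 ^ n →
    nbl (par k x) n (Λ * n) ≤ C * n →
    (∀ i ≤ Λ * n, |(col k)^[i] x| ≤ 2 ^ (A * n)) ∧
    ∀ i ≤ Λ * n, ∀ j ≤ Λ * n, blk (par k x) (A * n) i = blk (par k x) (A * n) j →
      (col k)^[i] x = (col k)^[j] x

end Pool.Agent.CLX
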