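import Pool.Agent.CLX.Stmts
import Pool.Agent.CLX.Defs2

/-!
# Collatz trajectories and block complexity, second part: statements of the modules
# Recipes: /team-store/MP_d02c56_CLX2.md
-/

set_option autoImplicit false

namespace Pool.Agent.CLX

open Filter Pool.Agent.SBT

/-! ## Words -/

/-- CVQ: the value of a periodic piece, with sizes. Uses nothing. -/
def Stmt_CVQ : Prop :=
  ∀ (E i k r B : ℕ) (ty : ℕ → Fin E) (Z M : ℕ → ℕ) (y : Fin E → ℕ) (zt ot ζ μ : Fin E → ℕ),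
    1 ≤ r → r ≤ E → i + r ≤ k →
    (∀ l, i ≤ l → l < k → Z (l + 1) = Z l + zt (ty l) ∧ M (l + 1) = M l + ot (ty l)) →
    (∀ t, zt t ≤ B ∧ ot t ≤ B ∧ ζ t ≤ B ∧ μ t ≤ B) →
    Z (i + r) = Z i + ζ (ty i) → M (i + r) = M i + μ (ty i) →
    (∀ l, i ≤ l → l + r < k → ty l = ty (l + r)) →
    ∃ F : Fin E → ℤ, (∀ t, Rpw Z M (2 * E) (2 * B) k (max (2 ^ ζ (ty i)) (3 ^ μ (ty i)) *
        ∑ l ∈ Finset.Ico i k, 3 ^ (M k - M (l + 1)) * 2 ^ Z l * y (ty l)) (y t) (F t)) ∧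
      ((2 : ℤ) ^ ζ (ty i) - 3 ^ μ (ty i)) *
        ∑ l ∈ Finset.Ico i k, 3 ^ (M k - M (l + 1)) * 2 ^ Z l * y (ty l) = ∑ t, F t * y t

/-- CSW: the value of a prefix, with sizes. Uses CVQ, PCS. -/
def Stmt_CSW : Prop :=
  ∀ (E G : ℕ), ∃ N : ℕ, ∀ (D X K B : ℕ) (ty : ℕ → Fin E) (β : ℕ → ℕ) (y : Fin E → ℕ)
    (len q zt ot ζ μ : Fin E → ℕ) (Z M : ℕ → ℕ) (P : ℕ → ℕ), 1 ≤ D → X ≤ G * D →
    (∀ t, 1 ≤ q t ∧ q t ≤ D) → (∀ l < K, β (l + 1) = β l + len (ty l)) →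
    (∀ l < K, 1 ≤ len (ty l)) → β K < X →
    (∀ l < K, Z (l + 1) = Z l + zt (ty l) ∧ M (l + 1) = M l + ot (ty l)) →
    Z 0 ≤ B → (∀ t, zt t ≤ B ∧ ot t ≤ B ∧ ζ t ≤ B ∧ μ t ≤ B) →
    (∀ l < K, P (l + 1) = 3 ^ ot (ty l) * P l + 2 ^ Z l * y (ty l)) →
    (∀ k k', k < k' → k' ≤ K → ty k = ty k' → β k' ≤ β k + D →
      (∀ j, k < j → j < k' → ty k ≠ ty j) →
      β k' = β k + q (ty k) ∧ Z k' = Z k + ζ (ty k) ∧ M k' = M k + μ (ty k) ∧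
        ∀ i j, k ≤ i → i < j → j < k' → ty i ≠ ty j) →
    (∀ k k' k'', k < k' → k' ≤ k'' → k'' ≤ K → ty k = ty k' → ty k = ty k'' →
      β k'' ≤ β k + D → (∀ j, k < j → j < k' → ty k ≠ ty j) →
      ∀ l, k ≤ l → l + (k' - k) ≤ k'' → ty l = ty (l + (k' - k))) →
    ∃ (F₀ : ℤ) (F : Fin E → ℤ), Rpw Z M N ((2 * E + 3) * B) K (mx ζ μ * P K) (P 0) F₀ ∧
      (∀ t, Rpw Z M N ((2 * E + 3) * B) K (mx ζ μ * P K) (y t) (F t)) ∧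
      (∏ t, ((2 : ℤ) ^ ζ t - 3 ^ μ t)) * P K = F₀ * P 0 + ∑ t, F t * y t

/-- CSH: the structure theorem: the same integers for all windows. Uses TYC, DTM, SPX, RTN,
CSW. -/
def Stmt_CSH : Prop :=
  ∀ C : ℕ, ∃ s B : ℕ, ∃ N : ℕ → ℕ, ∀ (Λ n : ℕ) (u : ℕ → ℕ), 8 ≤ n → (∀ i, u i < 2) →
    nbl u n (Λ * n) ≤ C * n →
    ∃ (m : ℕ) (ζ μ y : Fin s → ℕ), m ≤ n ∧
      (∀ i, 1 ≤ ζ i + μ i ∧ ζ i ≤ B * n ∧ μ i ≤ B * n) ∧ (∀ i, y i ≤ 4 ^ (B * n)) ∧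
      (∀ G x, Spe u m (Λ * n) x → x < G * n → ∃ F : Fin s → ℤ,
        (∀ i, Rpw (ze u) (on u) (N G) (B * n) (x + m) (mx ζ μ * bv u (x + m)) (y i) (F i)) ∧
        (∏ i, ((2 : ℤ) ^ ζ i - 3 ^ μ i)) * bv u (x + m) = ∑ i, F i * y i) ∧
      ∀ z, z + B * n < Λ * n →
        (∃ x, z ≤ x ∧ x ≤ z + B * n ∧ Spe u m (Λ * n) x) ∨
        ∃ per, 1 ≤ per ∧ per ≤ B * n ∧
          ∀ i, z + B * n ≤ i → i + per < Λ * n → u i = u (i + per)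

/-! ## Unit sums -/

/-- S2U: S2V for unit sums; `P` is a set of indices closed under proportionality. Uses UNI, BAG,
S2V. -/
def Stmt_S2U : Prop :=
  ∀ (U : Ultrafilter ℕ) (S : Finset ℕ) (T : ℕ → ℝ) (d : ℕ) (Z : Fin d → ℕ → ℤ) (B δ : ℝ) (w : ℕ),
    PS S → Tendsto T (U : Filter ℕ) atTop → 0 ≤ B → 0 < δ → w ∈ pl S →
    (∀ᶠ n in (U : Filter ℕ), ∀ i, |(Z i n : ℝ)| ≤ Real.exp (B * T n)) → IndU U S T Z →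
    ∀ (K : ℕ) (c : Fin d → Fin K → ℤ) (u : Fin d → Fin K → ℕ → ℚ), (∀ i t, u i t ∈ Un U S T) →
    ∀ (i : Fin d) (P : Finset (Fin K)),
      (∀ t ∈ P, ∀ t', (∃ κ : ℚ, ∀ᶠ n in (U : Filter ℕ), u i t' n = κ * u i t n) → t' ∈ P) →
      ∀ᶠ n in (U : Filter ℕ), av w (∑ t ∈ P, (c i t : ℚ) * u i t n) ≤
        Real.exp ((d * B + δ) * T n) * av w (∑ i, (∑ t, (c i t : ℚ) * u i t n) * (Z i n : ℚ))

/-- BSE: a basis of the given integers. Uses LCC. -/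
def Stmt_BSE : Prop :=
  ∀ (U : Ultrafilter ℕ) (S : Finset ℕ) (T : ℕ → ℝ) (s : ℕ) (y : Fin s → ℕ → ℤ), PS S →
    Tendsto T (U : Filter ℕ) atTop →
    ∃ (d : ℕ) (σ : Fin d → Fin s) (F : ℕ → ℚ) (H : Fin s → Fin d → ℕ → ℚ), d ≤ s ∧
      IndU U S T (fun i => y (σ i)) ∧ Lc U (Un U S T) F ∧
      (∀ᶠ n in (U : Filter ℕ), F n ≠ 0) ∧ (∀ t i, Lc U (Un U S T) (H t i)) ∧
      ∀ t, ∀ᶠ n in (U : Filter ℕ), F n * (y t n : ℚ) = ∑ i, H t i n * (y (σ i) n : ℚ)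

/-- LBU: nonzero unit sums are not small. Uses S2U. -/
def Stmt_LBU : Prop :=
  ∀ (U : Ultrafilter ℕ) (S : Finset ℕ) (T : ℕ → ℝ) (w : ℕ) (f : ℕ → ℚ), PS S →
    Tendsto T (U : Filter ℕ) atTop → w ∈ pl S → Lc U (Un U S T) f →
    (∀ᶠ n in (U : Filter ℕ), f n ≠ 0) →
    ∃ K : ℝ, ∀ᶠ n in (U : Filter ℕ), Real.exp (-(K * T n)) ≤ av w (f n) ∧
      av w (f n) ≤ Real.exp (K * T n)

/-- ORT: an almost orthogonal basis at infinity. Uses S2U, LCC, LBU. -/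
def Stmt_ORT : Prop :=
  ∀ (U : Ultrafilter ℕ) (S : Finset ℕ) (T : ℕ → ℝ) (d : ℕ) (Z : Fin d → ℕ → ℤ) (B ε : ℝ),
    PS S → Tendsto T (U : Filter ℕ) atTop → 0 ≤ B → 0 < ε →
    (∀ᶠ n in (U : Filter ℕ), ∀ i, |(Z i n : ℝ)| ≤ Real.exp (B * T n)) → IndU U S T Z →
    ∃ a : Fin d → Fin d → ℕ → ℚ, (∀ i j, Lc U (Un U S T) (a i j)) ∧
      (∀ᶠ n in (U : Filter ℕ), (Matrix.of fun i j => a i j n).det ≠ 0) ∧ Orth U S T (lc a Z) ε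

/-- LBE: the lower bound for combinations of the `lc a Z i`. Uses S2U, LCC, LBU. -/
def Stmt_LBE : Prop :=
  ∀ (U : Ultrafilter ℕ) (S : Finset ℕ) (T : ℕ → ℝ) (d : ℕ) (Z : Fin d → ℕ → ℤ) (B : ℝ) (w : ℕ)
    (a : Fin d → Fin d → ℕ → ℚ), PS S → Tendsto T (U : Filter ℕ) atTop → 0 ≤ B → w ∈ pl S →
    (∀ᶠ n in (U : Filter ℕ), ∀ i, |(Z i n : ℝ)| ≤ Real.exp (B * T n)) → IndU U S T Z →
    (∀ i j, Lc U (Un U S T) (a i j)) →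
    (∀ᶠ n in (U : Filter ℕ), (Matrix.of fun i j => a i j n).det ≠ 0) →
    ∃ K : ℝ, ∀ G : Fin d → ℕ → ℚ, (∀ i, Lc U (Un U S T) (G i)) →
      ∀ᶠ n in (U : Filter ℕ), ∀ i, av w (G i n) ≤
        Real.exp (K * T n) * av w (∑ i, G i n * lc a Z i n)

/-- TRN: truncation. Uses S2U, LCC, LBE. -/
def Stmt_TRN : Prop :=
  ∀ (U : Ultrafilter ℕ) (S : Finset ℕ) (T : ℕ → ℝ) (d s : ℕ) (Z : Fin d → ℕ → ℤ) (B ε : ℝ) (w : ℕ)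
    (a : Fin d → Fin d → ℕ → ℚ) (X : Fin d → ℕ → ℚ) (Y : Fin s → Fin d → ℕ → ℚ),
    PS S → Tendsto T (U : Filter ℕ) atTop → 0 ≤ B → 0 < ε → w ∈ S →
    (∀ᶠ n in (U : Filter ℕ), ∀ i, |(Z i n : ℝ)| ≤ Real.exp (B * T n)) → IndU U S T Z →
    (∀ i j, Lc U (Un U S T) (a i j)) →
    (∀ᶠ n in (U : Filter ℕ), (Matrix.of fun i j => a i j n).det ≠ 0) → Orth U S T (lc a Z) ε →
    (∀ i, Lc U (Un U S T) (X i)) → (∀ t i, Lc U (Un U S T) (Y t i)) →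
    ∃ Θ : ℝ, ∀ (K : ℕ) (v : ℕ → ℚ) (c : Fin s → Fin K → ℤ) (μ : Fin s → Fin K → ℕ → ℚ),
      v ∈ Un U S T → (∀ᶠ n in (U : Filter ℕ), av w (v n) = 1) → (∀ t τ, μ t τ ∈ Un U S T) →
      (∀ᶠ n in (U : Filter ℕ), av w (∑ i, (v n * X i n +
        ∑ t, ∑ τ, (c t τ : ℚ) * μ t τ n * Y t i n) * lc a Z i n) ≤ Real.exp (-(Θ * T n))) →
      ∀ᶠ n in (U : Filter ℕ), av 0 (v n * ∑ i, X i n * lc a Z i n) ≤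
        Real.exp (2 * ε * T n) * ∑ t, ∑ τ, |(c t τ : ℝ)| * av 0 (μ t τ n) *
          av 0 (∑ i, Y t i n * lc a Z i n)

/-- RDT: `2^ζ - 3^μ` is not small. Uses S2U. -/
def Stmt_RDT : Prop :=
  ∀ (U : Ultrafilter ℕ) (T : ℕ → ℝ) (ζ μ : ℕ → ℕ) (C δ : ℝ), Tendsto T (U : Filter ℕ) atTop →
    0 < δ → (∀ᶠ n in (U : Filter ℕ), 1 ≤ ζ n + μ n ∧ (ζ n : ℝ) ≤ C * T n ∧ (μ n : ℝ) ≤ C * T n) →
    ∀ᶠ n in (U : Filter ℕ), max ((2 : ℝ) ^ ζ n) (3 ^ μ n) ≤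
      Real.exp (δ * T n) * |(2 : ℝ) ^ ζ n - 3 ^ μ n|

/-! ## The limit object and the theorem -/

/-- BSM: the values are small. Uses nothing. -/
def Stmt_BSM : Prop :=
  ∀ (U : Ultrafilter ℕ) (T : ℕ → ℕ) (s B κ : ℕ) (N : ℕ → ℕ) (u : ℕ → ℕ → ℕ) (k x : ℕ → ℤ)
    (ζ μ : Fin s → ℕ → ℕ) (y : Fin s → ℕ → ℕ), Lim U T s B κ N u k x ζ μ y → ∀ G : ℕ,
    ∀ᶠ n in (U : Filter ℕ), ∀ j ≤ G * T n,
      |(k n : ℝ)| * bv (u n) j ≤ Real.exp (-((T n : ℝ) / 40)) * (3 ^ on (u n) j * |(x n : ℝ)|)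

/-- LIM: there is no limit object. Uses LCC, S2U, BSE, LBU, ORT, TRN, RDT, BSM. -/
def Stmt_LIM : Prop :=
  ∀ (U : Ultrafilter ℕ) (T : ℕ → ℕ) (s B κ : ℕ) (N : ℕ → ℕ) (u : ℕ → ℕ → ℕ) (k x : ℕ → ℤ)
    (ζ μ : Fin s → ℕ → ℕ) (y : Fin s → ℕ → ℕ), ¬ Lim U T s B κ N u k x ζ μ y

/-- VIS: terms of size less than `2^(T/8)` occur only at the beginning. Uses COL. -/
def Stmt_VIS : Prop :=
  ∀ (U : Ultrafilter ℕ) (T : ℕ → ℕ) (C : ℕ) (k x : ℕ → ℤ), (U : Filter ℕ) ≤ atTop →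
    Tendsto T (U : Filter ℕ) atTop → (∀ n, Odd (k n)) → (∀ n, |k n| ^ 16 ≤ 2 ^ T n) →
    (∀ n i j, i < j → j ≤ n * T n → (col (k n))^[i] (x n) ≠ (col (k n))^[j] (x n)) →
    (∀ n, nbl (par (k n) (x n)) (T n) (n * T n) ≤ C * T n) →
    ∃ l : ℕ, ∀ G : ℕ, ∀ᶠ n in (U : Filter ℕ), ∀ j, l * T n ≤ j → j ≤ G * T n →
      2 ^ (T n / 8) ≤ |(col (k n))^[j] (x n)|

/-- UFN: the theorem. Uses CSH, LIM, VIS, COL. -/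
def Stmt_UFN : Prop :=
  ∀ C : ℕ, ∃ Λ n₀ : ℕ, ∀ n ≥ n₀, ∀ k x : ℤ, Odd k → |k| ^ 16 ≤ 2 ^ n → |x| ≤ 2 ^ n →
    (∀ i j, i < j → j ≤ Λ * n → (col k)^[i] x ≠ (col k)^[j] x) →
    C * n < nbl (par k x) n (Λ * n)

end Pool.Agent.CLX
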