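import Pool.Agent.CLX.Stmts

/-!
# Collatz trajectories and Lempel-Ziv complexity with errors (MP_d02c56_nt), section T
# Recipes: /team-store/MP_d02c56_CLXT.md
-/

set_option autoImplicit false

namespace Pool.Agent.CLX

open Filter Pool.Agent.SBT

/-! ## Definitions -/

/-- the first `N` letters of `u` are a product of `k` phrases with cutting points `p`, each of
which is one letter or has an earlier occurrence (overlaps allowed) -/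
def Phn (u : ℕ → ℕ) (N k : ℕ) (p : ℕ → ℕ) : Prop :=
  p 0 = 0 ∧ p k = N ∧ ∀ j < k, p j < p (j + 1) ∧
    (p (j + 1) = p j + 1 ∨ ∃ s < p j, ∀ i, p j + i < p (j + 1) → u (s + i) = u (p j + i))

/-- the first `N` letters of `w` differ at `e` places from a word over `{0, 1}` which is a product
of `k` phrases, and `k + e ≤ K` -/
def LZE (w : ℕ → ℕ) (N K : ℕ) : Prop :=
  ∃ (u : ℕ → ℕ) (k : ℕ) (p : ℕ → ℕ), (∀ i, u i < 2) ∧ Phn u N k p ∧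
    k + ((Finset.range N).filter fun i => w i ≠ u i).card ≤ K

/-- `F` is a sum of `N` terms `ε 2^α 3^β` with `|ε| ≤ 1` and `α + β + c ≤ W` (if `ε ≠ 0`) -/
def Rpt (N c W : ℕ) (F : ℤ) : Prop :=
  ∃ (ε : Fin N → ℤ) (α β : Fin N → ℕ), (∀ t, |ε t| ≤ 1) ∧
    (∀ t, ε t ≠ 0 → α t + β t + c ≤ W) ∧ F = ∑ t, ε t * 2 ^ α t * 3 ^ β t

/-- the sequences `2^α 3^β` with `α + β ≤ W` -/
def Gmw (W : ℕ → ℕ) : Set (ℕ → ℚ) :=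
  {w | ∃ α β : ℕ → ℕ, (∀ n, α n + β n ≤ W n) ∧ ∀ n, w n = 2 ^ α n * 3 ^ β n}

/-! ## Words -/

/-- TSC: a window with few points, not too low. Uses nothing. -/
def Stmt_TSC : Prop :=
  ∀ (G : ℕ) (C : ℝ), 2 ≤ G → 0 ≤ C → ∀ᶠ N : ℕ in atTop, ∀ P : Finset ℕ,
    (P.card : ℝ) ≤ C * (1 + Real.log N) →
    ∃ n : ℕ, N ^ 3 ≤ G ^ 12 * n ^ 4 ∧ G * n ≤ N ∧
      ((P.filter fun p => n ≤ p ∧ p < G * n).card : ℝ) ≤ 8 * C * (1 + Real.log G)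

/-- TST: the values at the places `x t` by the values at few places `≤ n`. Uses nothing. -/
def Stmt_TST : Prop :=
  ∀ M S G : ℕ, ∃ R : ℕ, ∀ (N k n K : ℕ) (κ : ℤ) (u p : ℕ → ℕ) (P : ℕ → ℤ) (x : Fin S → ℕ),
    1 ≤ n → (∀ i, u i < 2) → Val u κ P → Phn u N k p → (∀ t, x t ≤ N ∧ x t ≤ G * n) →
    (∀ a b, a ≤ b → b ≤ N → on u b + ze u a ≤ on u a + ze u b + K) →
    (∀ t, ((Finset.range k).filter fun j => n < p j ∧ p j < x t).card ≤ M) →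
    ∃ (ζ μ : Fin (M + 1) → ℕ) (y : Fin (S + 2 * (M + 1)) → ℕ)
      (F : Fin S → Fin (S + 2 * (M + 1)) → ℤ) (F₀ : Fin S → ℤ),
      (∀ i, 1 ≤ ζ i + μ i ∧ ζ i + μ i ≤ n) ∧ (∀ i, y i ≤ n) ∧
      (∀ t i, Rpt R 0 (ze u (x t) + (M + 1) * (n + K)) (F t i)) ∧
      (∀ t, Rpt R 0 (ze u (x t) + (M + 1) * (n + K)) (F₀ t)) ∧
      ∀ t, (∏ i, ((2 : ℤ) ^ ζ i - 3 ^ μ i)) * P (x t) = ∑ i, F t i * P (y i) + F₀ t * κ

/-- TER: the same with errors. Uses TST. -/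
def Stmt_TER : Prop :=
  ∀ M G : ℕ, ∃ R : ℕ, ∀ (N k n L : ℕ) (κ : ℤ) (w u p : ℕ → ℕ) (P : ℕ → ℤ), 1 ≤ n →
    (∀ i, w i < 2) → (∀ i, w i = 1 → w (i + 1) = 0) → (∀ i, u i < 2) → Val w κ P →
    Phn u N k p → n ≤ L → L ≤ N → L ≤ G * n →
    ((Finset.range k).filter fun j => n < p j ∧ p j < L).card ≤ M →
    ((Finset.range L).filter fun i => n ≤ i ∧ w i ≠ u i).card ≤ M →
    ((Finset.range N).filter fun i => w i ≠ u i).card ≤ n →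
    ∃ (δ : ℕ) (ζ μ : Fin (4 * M + 6) → ℕ) (y F : Fin (4 * M + 6) → ℤ), δ ≤ n ∧
      (∀ i, 1 ≤ ζ i + μ i ∧ ζ i + μ i ≤ n) ∧ (∀ i, |y i| ≤ 4 ^ n * (|P 0| + |κ|)) ∧
      (∀ i, Rpt R 0 (ze w L + 10 * (M + 1) * n) (F i)) ∧
      2 ^ δ * (∏ i, ((2 : ℤ) ^ ζ i - 3 ^ μ i)) * P L = ∑ i, F i * y i

/-- TPG: a long block which occurs twice. Uses nothing. -/
def Stmt_TPG : Prop :=
  ∀ (M A G n N k : ℕ) (w u p : ℕ → ℕ), 8 * (M + 1) ^ 2 * (A + 2) ≤ G → M + 1 ≤ n →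
    Phn u N k p → G * n ≤ N →
    ((Finset.range k).filter fun j => n ≤ p j ∧ p j < G * n).card ≤ M →
    ((Finset.range (G * n)).filter fun i => n ≤ i ∧ w i ≠ u i).card ≤ M →
    ∃ a b : ℕ, a < b ∧ b + A * n ≤ G * n ∧ ∀ i < A * n, w (a + i) = w (b + i)

/-! ## Units -/

/-- TLD: the description. Uses LCC, BAG, INH, EGM. -/
def Stmt_TLD : Prop :=
  ∀ (s B N G : ℕ) (U : Ultrafilter ℕ) (Z δ : ℕ → ℕ) (ζ μ : Fin s → ℕ → ℕ)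
    (y : Fin s → ℕ → ℤ) (R : ℕ → ℤ), (U : Filter ℕ) ≤ atTop →
    (∀ᶠ n in (U : Filter ℕ), Z n ≤ G * n) →
    (∀ᶠ n in (U : Filter ℕ), δ n ≤ B * n ∧ ∀ i, 1 ≤ ζ i n + μ i n ∧ ζ i n + μ i n ≤ B * n) →
    (∀ᶠ n in (U : Filter ℕ), ∀ i, |y i n| ≤ 2 ^ (B * n)) →
    (∀ᶠ n in (U : Filter ℕ), ∃ F : Fin s → ℤ, (∀ i, Rpt N 0 (Z n + B * n) (F i)) ∧
      2 ^ δ n * (∏ i, ((2 : ℤ) ^ ζ i n - 3 ^ μ i n)) * R n = ∑ i, F i * y i n) →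
    ∃ (r : ℕ) (g : Fin r → ℕ → ℚ) (d : ℕ) (Y : Fin d → ℕ → ℤ),
      Gd U S23 (fun n => (n : ℝ)) g ∧ d ≤ s ∧
      (∀ᶠ n in (U : Filter ℕ), ∀ i, |(Y i n : ℝ)| ≤ Real.exp (B * (n : ℝ))) ∧ Indp U g Y ∧
      Dsg U S23 (fun n => (n : ℝ)) g (Gmw Z) Y R (3 * (s + 1) ^ 2 * (B + 1))

/-- TCR: the terms are small. Uses UNI, S2V, TLD. -/
def Stmt_TCR : Prop :=
  ∀ (s B N G : ℕ) (U : Ultrafilter ℕ) (Z δ : ℕ → ℕ) (ζ μ : Fin s → ℕ → ℕ)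
    (y : Fin s → ℕ → ℤ) (R X : ℕ → ℤ), (U : Filter ℕ) ≤ atTop →
    (∀ᶠ n in (U : Filter ℕ), Z n ≤ G * n) →
    (∀ᶠ n in (U : Filter ℕ), δ n ≤ B * n ∧ ∀ i, 1 ≤ ζ i n + μ i n ∧ ζ i n + μ i n ≤ B * n) →
    (∀ᶠ n in (U : Filter ℕ), ∀ i, |y i n| ≤ 2 ^ (B * n)) →
    (∀ᶠ n in (U : Filter ℕ), ∃ F : Fin s → ℤ, (∀ i, Rpt N 0 (Z n + B * n) (F i)) ∧
      2 ^ δ n * (∏ i, ((2 : ℤ) ^ ζ i n - 3 ^ μ i n)) * R n = ∑ i, F i * y i n) →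
    (∀ᶠ n in (U : Filter ℕ), R n = 2 ^ Z n * X n) →
    ∀ᶠ n in (U : Filter ℕ), |X n| ≤ 2 ^ (100 * (s + 1) ^ 2 * (B + 1) * n)

/-! ## The theorem -/

/-- TWN: in a window with few phrases and errors the trajectory stays small. Uses TER, TCR,
COL. -/
def Stmt_TWN : Prop :=
  ∀ M G : ℕ, ∃ n₀ : ℕ, ∀ n ≥ n₀, ∀ (κ x : ℤ) (N k : ℕ) (u p : ℕ → ℕ), Odd κ →
    |κ| ≤ 2 ^ n → |x| ≤ 2 ^ n → (∀ i, u i < 2) → Phn u N k p → G * n ≤ N →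
    ((Finset.range k).filter fun j => n ≤ p j ∧ p j < G * n).card ≤ M →
    ((Finset.range (G * n)).filter fun i => n ≤ i ∧ par κ x i ≠ u i).card ≤ M →
    ((Finset.range N).filter fun i => par κ x i ≠ u i).card ≤ n →
    ∀ i ≤ G * n, |(col κ)^[i] x| ≤ 2 ^ (60000 * (M + 1) ^ 3 * n)

/-- TRJ: `N` different terms have a parity word which is far from the products of `O(log N)`
phrases. Uses TSC, TWN, TPG, COL. -/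
def Stmt_TRJ : Prop :=
  ∀ c : ℝ, ∃ N₀ : ℕ, ∀ N ≥ N₀, ∀ κ x : ℤ, Odd κ →
    Real.log |(κ : ℝ)| ≤ 2 * Real.sqrt N → Real.log |(x : ℝ)| ≤ 2 * Real.sqrt N →
    (∀ i j, i < j → j < N → (col κ)^[i] x ≠ (col κ)^[j] x) →
    ∀ K : ℕ, LZE (par κ x) N K → c * Real.log N < K

end Pool.Agent.CLX
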