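import Pool.Agent.CLX.StmtsT

/-!
# TWN: in a window with few phrases and errors the trajectory stays small
-/

set_option autoImplicit false

namespace Pool.Agent.CLX

open Filter Pool.Agent.SBT

namespace TWN_

theorem exists_ultra (p : ℕ → Prop) (h : ∃ᶠ n in atTop, p n) :
    ∃ U : Ultrafilter ℕ, (U : Filter ℕ) ≤ atTop ∧ ∀ᶠ n in (U : Filter ℕ), p n := by
  have hne : (atTop ⊓ 𝓟 {n | p n} : Filter ℕ).NeBot := by
    rw [Filter.inf_principal_neBot_iff]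
    intro s hs
    obtain ⟨n, hn1, hn2⟩ := (h.and_eventually hs).exists
    exact ⟨n, hn2, hn1⟩
  refine ⟨Ultrafilter.of (atTop ⊓ 𝓟 {n | p n}), ?_, ?_⟩
  · exact (Ultrafilter.of_le _).trans inf_le_left
  · have h1 : ((Ultrafilter.of (atTop ⊓ 𝓟 {n | p n}) : Ultrafilter ℕ) : Filter ℕ) ≤
        𝓟 {n | p n} := (Ultrafilter.of_le _).trans inf_le_right
    exact h1 (mem_principal_self _)

theorem ze_le (u : ℕ → ℕ) (j : ℕ) : ze u j ≤ j := by
  induction j with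
  | zero => simp [ze]
  | succ j ih =>
    have : ze u (j + 1) = ze u j + (1 - u j) := by
      unfold ze
      rw [Finset.sum_range_succ]
    omega

theorem pow_sum_le {a b : ℤ} {n : ℕ} (ha : a ≤ 2 ^ n) (hb : b ≤ 2 ^ n) :
    a + b ≤ 2 ^ (n + 1) := by
  rw [pow_succ]
  linarith

theorem four_pow (t : ℕ) : (4 : ℤ) ^ t = 2 ^ (2 * t) := by
  rw [pow_mul]
  norm_num

/-- the exponent of the bound -/
def EE (M : ℕ) : ℕ := 60000 * (M + 1) ^ 3

theorem EE_ge (M : ℕ) : 100 * (4 * M + 7) ^ 2 * (10 * (M + 1) + 1) ≤ EE M := by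
  unfold EE
  nlinarith [Nat.zero_le M, Nat.zero_le (M ^ 2), Nat.zero_le (M ^ 3)]

theorem EE_ge' (M : ℕ) : 5 ≤ EE M := by
  have := EE_ge M
  nlinarith [Nat.zero_le M, Nat.zero_le (M ^ 2), Nat.zero_le (M ^ 3)]

/-- the hypotheses -/
def Hyp (M G n : ℕ) (κ x : ℤ) (N k : ℕ) (u p : ℕ → ℕ) : Prop :=
  Odd κ ∧ |κ| ≤ 2 ^ n ∧ |x| ≤ 2 ^ n ∧ (∀ i, u i < 2) ∧ Phn u N k p ∧ G * n ≤ N ∧
    ((Finset.range k).filter fun j => n ≤ p j ∧ p j < G * n).card ≤ M ∧
    ((Finset.range (G * n)).filter fun i => n ≤ i ∧ par κ x i ≠ u i).card ≤ M ∧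
    ((Finset.range N).filter fun i => par κ x i ≠ u i).card ≤ n

/-- the bad integers -/
def Bad (M G n : ℕ) : Prop :=
  ∃ (κ x : ℤ) (N k : ℕ) (u p : ℕ → ℕ) (i : ℕ), Hyp M G n κ x N k u p ∧ i ≤ G * n ∧
    2 ^ (EE M * n) < |(col κ)^[i] x|

end TWN_

open TWN_

theorem twn_proof (hTER : Stmt_TER) (hTCR : Stmt_TCR) (hCOL : Stmt_COL) : Stmt_TWN := by
  intro M G
  obtain ⟨R, hR⟩ := hTER M G
  by_contra hcon
  have hfr : ∃ᶠ n in atTop, Bad M G n := by
    rw [Filter.frequently_atTop]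
    intro a
    by_contra h
    refine hcon ⟨a, ?_⟩
    intro n hn κ x N k u p h1 h2 h3 h4 h5 h6 h7 h8 h9 i hi
    by_contra h10
    exact h ⟨n, hn, κ, x, N, k, u, p, i, ⟨h1, h2, h3, h4, h5, h6, h7, h8, h9⟩, hi,
      not_le.1 h10⟩
  obtain ⟨U, hU, hUe⟩ := exists_ultra _ hfr
  have key : ∀ n : ℕ, ∃ (κ x : ℤ) (L δ : ℕ) (ζ μ : Fin (4 * M + 6) → ℕ)
      (y : Fin (4 * M + 6) → ℤ), 1 ≤ n → Bad M G n →
        L ≤ G * n ∧ δ ≤ n ∧ (∀ i, 1 ≤ ζ i + μ i ∧ ζ i + μ i ≤ n) ∧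
        (∀ i, |y i| ≤ 2 ^ (10 * (M + 1) * n)) ∧
        (∃ F : Fin (4 * M + 6) → ℤ,
          (∀ i, Rpt R 0 (ze (par κ x) L + 10 * (M + 1) * n) (F i)) ∧
          2 ^ δ * (∏ i, ((2 : ℤ) ^ ζ i - 3 ^ μ i)) * (2 ^ ze (par κ x) L * (col κ)^[L] x) =
            ∑ i, F i * y i) ∧ 2 ^ (EE M * n) < |(col κ)^[L] x| := by
    intro n
    by_cases h1n : 1 ≤ n
    swap
    · exact ⟨0, 0, 0, 0, fun _ => 0, fun _ => 0, fun _ => 0, fun h => absurd h h1n⟩
    by_cases hbad : Bad M G n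
    swap
    · exact ⟨0, 0, 0, 0, fun _ => 0, fun _ => 0, fun _ => 0, fun _ h => absurd h hbad⟩
    obtain ⟨κ, x, N, k, u, p, i, ⟨h1, h2, h3, h4, h5, h6, h7, h8, h9⟩, hi, hbig⟩ := hbad
    obtain ⟨hVal, hpar, hnoc, hgr, -⟩ := hCOL κ x h1
    have hsum : |x| + |κ| ≤ 2 ^ (n + 1) := pow_sum_le h3 h2
    -- the place is not below `n`
    have hni : n ≤ i := by
      by_contra hlt
      have h10 := hgr 0 i
      rw [zero_add] at h10
      have h11 : |(col κ)^[0] x| + |κ| ≤ 2 ^ (n + 1) := by simpa using hsum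
      have h12 : |(col κ)^[i] x| ≤ 2 ^ (2 * i + (n + 1)) := by
        rw [pow_add, ← four_pow]
        exact h10.trans (mul_le_mul_of_nonneg_left h11 (by positivity))
      have h13 : (2 : ℤ) ^ (2 * i + (n + 1)) ≤ 2 ^ (EE M * n) := by
        apply pow_le_pow_right₀ (by norm_num)
        have := Nat.mul_le_mul_right n (EE_ge' M)
        omega
      exact absurd (h12.trans h13) (not_le.2 hbig)
    obtain ⟨δ, ζ, μ, y, F, hδ, hζ, hy, hF, hid⟩ := hR N k n i κ (par κ x) u p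
      (fun j => 2 ^ ze (par κ x) j * (col κ)^[j] x) h1n hpar hnoc h4 hVal h5 hni
      (hi.trans h6) hi
      (le_trans (Finset.card_le_card (by
        intro j hj
        rw [Finset.mem_filter] at hj ⊢
        exact ⟨hj.1, hj.2.1.le, lt_of_lt_of_le hj.2.2 hi⟩)) h7)
      (le_trans (Finset.card_le_card (by
        intro j hj
        rw [Finset.mem_filter, Finset.mem_range] at hj ⊢
        exact ⟨lt_of_lt_of_le hj.1 hi, hj.2⟩)) h8) h9
    refine ⟨κ, x, i, δ, ζ, μ, y, fun _ _ => ⟨hi, hδ, hζ, ?_, ⟨F, hF, hid⟩, hbig⟩⟩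
    intro j
    refine (hy j).trans ?_
    have h10 : |(fun j => (2 : ℤ) ^ ze (par κ x) j * (col κ)^[j] x) 0| = |x| := by
      simp [ze]
    rw [h10]
    calc (4 : ℤ) ^ n * (|x| + |κ|) ≤ 4 ^ n * 2 ^ (n + 1) :=
          mul_le_mul_of_nonneg_left hsum (by positivity)
      _ = 2 ^ (2 * n + (n + 1)) := by rw [four_pow, ← pow_add]
      _ ≤ 2 ^ (10 * (M + 1) * n) := by
          apply pow_le_pow_right₀ (by norm_num)
          have h11 : 10 * (M + 1) * n = 10 * (M * n) + 10 * n := by ring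
          rw [h11]
          omega
  choose κ x L δ ζ μ y hdata using key
  have h1 : ∀ᶠ n : ℕ in (U : Filter ℕ), 1 ≤ n := hU (eventually_ge_atTop 1)
  have hmul : ∀ n : ℕ, n ≤ 10 * (M + 1) * n := by
    intro n
    have h11 : 10 * (M + 1) * n = 10 * (M * n) + 10 * n := by ring
    rw [h11]
    omega
  have hfin := hTCR (4 * M + 6) (10 * (M + 1)) R G U
    (fun n => ze (par (κ n) (x n)) (L n)) δ
    (fun i n => ζ n i) (fun i n => μ n i) (fun i n => y n i)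
    (fun n => 2 ^ ze (par (κ n) (x n)) (L n) * (col (κ n))^[L n] (x n))
    (fun n => (col (κ n))^[L n] (x n)) hU ?_ ?_ ?_ ?_ ?_
  · have hF : ∀ᶠ n in (U : Filter ℕ), False := by
      filter_upwards [h1, hUe, hfin] with n h2 h3 h4
      have h5 := (hdata n h2 h3).2.2.2.2.2
      have h6 : (2 : ℤ) ^ (100 * (4 * M + 6 + 1) ^ 2 * (10 * (M + 1) + 1) * n) ≤
          2 ^ (EE M * n) :=
        pow_le_pow_right₀ (by norm_num) (Nat.mul_le_mul_right n (EE_ge M))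
      exact absurd (h4.trans h6) (not_le.2 h5)
    rw [eventually_false_iff_eq_bot] at hF
    exact U.neBot.ne hF
  · filter_upwards [h1, hUe] with n h2 h3
    exact (ze_le _ _).trans (hdata n h2 h3).1
  · filter_upwards [h1, hUe] with n h2 h3
    obtain ⟨-, h4, h5, -⟩ := hdata n h2 h3
    exact ⟨h4.trans (hmul n), fun i => ⟨(h5 i).1, (h5 i).2.trans (hmul n)⟩⟩
  · filter_upwards [h1, hUe] with n h2 h3
    exact (hdata n h2 h3).2.2.2.1
  · filter_upwards [h1, hUe] with n h2 h3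
    exact (hdata n h2 h3).2.2.2.2.1
  · exact Filter.Eventually.of_forall fun n => rfl

end Pool.Agent.CLX
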