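import Pool.Agent.CLX.Stmts2

/-!
# UFN: superlinear block complexity of the parities of distinct terms
-/

set_option autoImplicit false

namespace Pool.Agent.CLX

open Filter Pool.Agent.SBT

namespace UFN_

theorem par_shift (k x : ℤ) (a i : ℕ) : par k ((col k)^[a] x) i = par k x (a + i) := by
  unfold par
  rw [← Function.iterate_add_apply, Nat.add_comm i a]

theorem nbl_shift (u v : ℕ → ℕ) (m a X Y : ℕ) (huv : ∀ i, v i = u (a + i)) (h : a + X ≤ Y) :
    nbl v m X ≤ nbl u m Y := by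
  unfold nbl
  apply Set.ncard_le_ncard
  · rintro w ⟨i, hi, rfl⟩
    refine ⟨a + i, ?_, ?_⟩
    · have : i < X := hi
      show a + i < Y
      omega
    · funext t
      simp only [blk]
      rw [huv, Nat.add_assoc]
  · exact (Set.finite_Iio Y).image _

theorem val_eq (k x : ℤ) (u : ℕ → ℕ)
    (hV : Val u k (fun i => 2 ^ ze u i * (col k)^[i] x)) (j : ℕ) :
    3 ^ on u j * x + k * bv u j = 2 ^ ze u j * (col k)^[j] x := by
  induction j with
  | zero => simp [on, ze, bv]
  | succ j ih =>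
    have h1 := hV j
    simp only at h1
    rw [h1, ← ih]
    have h2 : on u (j + 1) = on u j + u j := by
      unfold on
      rw [Finset.sum_range_succ]
    rw [h2, bv]
    push_cast
    ring

theorem rpw_mono {Z M : ℕ → ℕ} {N B B' L W v : ℕ} {F : ℤ} (h : Rpw Z M N B L W v F)
    (hB : B ≤ B') : Rpw Z M N B' L W v F := by
  obtain ⟨ε, α, β, j, h1, h2, h3, h4⟩ := h
  refine ⟨ε, α, β, j, h1, fun t => ?_, h3, h4⟩
  obtain ⟨e1, e2, e3⟩ := h2 t
  have : (B : ℤ) ≤ B' := by exact_mod_cast hB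
  exact ⟨e1, e2.trans this, e3.trans this⟩

theorem abs_k_le {k : ℤ} {T : ℕ} (h : |k| ^ 16 ≤ 2 ^ T) : |k| ≤ 2 ^ T := by
  refine le_trans ?_ h
  rcases eq_or_ne k 0 with rfl | hk
  · simp
  · exact le_self_pow₀ (Int.one_le_abs hk) (by norm_num)

theorem four_pow (t : ℕ) : (4 : ℤ) ^ t = 2 ^ (2 * t) := by
  rw [pow_mul]
  norm_num

/-- growth of the terms -/
theorem grow {k x : ℤ} {t κ T : ℕ} (hκ : 1 ≤ κ)
    (h : |(col k)^[t] x| ≤ 4 ^ t * (|x| + |k|)) (hx : |x| ≤ 2 ^ (κ * T)) (hk : |k| ≤ 2 ^ T) :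
    |(col k)^[t] x| ≤ 2 ^ (2 * t + (κ * T + 1)) := by
  have h1 : T ≤ κ * T := Nat.le_mul_of_pos_left T (by omega)
  have h2 : (2 : ℤ) ^ T ≤ 2 ^ (κ * T) := pow_le_pow_right₀ (by norm_num) h1
  rw [pow_add, ← four_pow, pow_succ]
  refine h.trans (mul_le_mul_of_nonneg_left ?_ (by positivity))
  linarith

end UFN_

open UFN_

theorem ufn_proof (hCSH : Stmt_CSH) (hLIM : Stmt_LIM) (hVIS : Stmt_VIS) (hCOL : Stmt_COL) :
    Stmt_UFN := by
  intro C
  by_contra hcon
  have key : ∀ l : ℕ, ∃ (n : ℕ) (k x : ℤ), l + 8 ≤ n ∧ Odd k ∧ |k| ^ 16 ≤ 2 ^ n ∧ |x| ≤ 2 ^ n ∧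
      (∀ i j, i < j → j ≤ l * n → (col k)^[i] x ≠ (col k)^[j] x) ∧
      nbl (par k x) n (l * n) ≤ C * n := by
    intro l
    by_contra h
    refine hcon ⟨l, l + 8, fun n hn k x hk hkn hxn hd => ?_⟩
    by_contra h2
    exact h ⟨n, k, x, hn, hk, hkn, hxn, hd, not_lt.1 h2⟩
  choose T k x hT hk hkT hxT hdis hnb using key
  obtain ⟨U, hU⟩ : ∃ U : Ultrafilter ℕ, (U : Filter ℕ) ≤ atTop :=
    ⟨hyperfilter ℕ, Nat.hyperfilter_le_atTop⟩
  have hTlim : Tendsto T (U : Filter ℕ) atTop := by
    refine Tendsto.mono_left ?_ hU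
    exact tendsto_atTop_mono (fun n => (by have := hT n; omega : n ≤ T n)) tendsto_id
  obtain ⟨l₀, hl₀⟩ := hVIS U T C k x hU hTlim hk hkT hdis hnb
  -- the shifted word
  set x' : ℕ → ℤ := fun n => (col (k n))^[l₀ * T n] (x n) with hx'
  have hit : ∀ n i, (col (k n))^[i] (x' n) = (col (k n))^[l₀ * T n + i] (x n) := by
    intro n i
    rw [hx', Nat.add_comm, Function.iterate_add_apply]
  have hnb' : ∀ n, nbl (par (k n) (x' n)) (T n) ((n - l₀) * T n) ≤ C * T n := by
    intro n
    rcases le_or_gt l₀ n with h | h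
    · refine le_trans (nbl_shift (par (k n) (x n)) _ _ (l₀ * T n) _ (n * T n) ?_ ?_) (hnb n)
      · intro i
        exact par_shift _ _ _ _
      · rw [← Nat.add_mul]
        apply Nat.mul_le_mul_right
        omega
    · have h0 : n - l₀ = 0 := by omega
      rw [h0, Nat.zero_mul]
      unfold nbl
      have : Set.Iio 0 = (∅ : Set ℕ) := by
        ext i
        simp
      rw [this, Set.image_empty, Set.ncard_empty]
      exact Nat.zero_le _
  obtain ⟨s, B, N, hS⟩ := hCSH C
  have key2 : ∀ n, ∃ (m : ℕ) (ζ μ y : Fin s → ℕ), m ≤ T n ∧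
      (∀ i, 1 ≤ ζ i + μ i ∧ ζ i ≤ B * T n ∧ μ i ≤ B * T n) ∧ (∀ i, y i ≤ 4 ^ (B * T n)) ∧
      (∀ G z, Spe (par (k n) (x' n)) m ((n - l₀) * T n) z → z < G * T n → ∃ F : Fin s → ℤ,
        (∀ i, Rpw (ze (par (k n) (x' n))) (on (par (k n) (x' n))) (N G) (B * T n) (z + m)
          (mx ζ μ * bv (par (k n) (x' n)) (z + m)) (y i) (F i)) ∧
        (∏ i, ((2 : ℤ) ^ ζ i - 3 ^ μ i)) * bv (par (k n) (x' n)) (z + m) = ∑ i, F i * y i) ∧
      ∀ z, z + B * T n < (n - l₀) * T n →
        (∃ z', z ≤ z' ∧ z' ≤ z + B * T n ∧ Spe (par (k n) (x' n)) m ((n - l₀) * T n) z') ∨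
        ∃ per, 1 ≤ per ∧ per ≤ B * T n ∧
          ∀ i, z + B * T n ≤ i → i + per < (n - l₀) * T n →
            par (k n) (x' n) i = par (k n) (x' n) (i + per) := by
    intro n
    refine hS (n - l₀) (T n) (par (k n) (x' n)) (by have := hT n; omega) ?_ (hnb' n)
    exact (hCOL (k n) (x' n) (hk n)).2.1
  choose m ζ μ y hm hζ hy hdesc hspe using key2
  have hkabs : ∀ n, |k n| ≤ 2 ^ T n := fun n => abs_k_le (hkT n)
  have hT1 : ∀ n, 1 ≤ T n := fun n => by have := hT n; omega
  -- size of the new starting point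
  have hxb : ∀ n, |x' n| ≤ 2 ^ ((2 * l₀ + 2) * T n) := by
    intro n
    have h1 := (hCOL (k n) (x n) (hk n)).2.2.2.1 0 (l₀ * T n)
    rw [Nat.zero_add, Function.iterate_zero, id] at h1
    have h2 := grow (κ := 1) le_rfl h1 (by rw [Nat.one_mul]; exact hxT n) (hkabs n)
    refine h2.trans (pow_le_pow_right₀ (by norm_num) ?_)
    have h3 := hT1 n
    have h4 : (2 * l₀ + 2) * T n = 2 * (l₀ * T n) + 2 * T n := by ring
    omega
  have hval : ∀ n j, 3 ^ on (par (k n) (x' n)) j * x' n + k n * bv (par (k n) (x' n)) j =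
      2 ^ ze (par (k n) (x' n)) j * (col (k n))^[j] (x' n) := by
    intro n j
    exact val_eq (k n) (x' n) _ (hCOL (k n) (x' n) (hk n)).1 j
  refine hLIM U T s (B + 1) (2 * l₀ + 2) (fun G => N (G + B + 1)) (fun n => par (k n) (x' n)) k x'
    (fun i n => ζ n i) (fun i n => μ n i) (fun i n => y n i) ?_
  refine ⟨hTlim, ?_, ?_, Eventually.of_forall hkT, Eventually.of_forall hxb, ?_, ?_, ?_, ?_, ?_⟩
  · intro n i
    exact (hCOL (k n) (x' n) (hk n)).2.1 i
  · intro n i
    exact (hCOL (k n) (x' n) (hk n)).2.2.1 i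
  · refine Eventually.of_forall fun n j => ?_
    rw [hval n j]
    exact Dvd.intro _ rfl
  · intro G
    filter_upwards [hl₀ (l₀ + G)] with n hn j hj
    rw [hval n j, hit n j, abs_mul, pow_add, abs_of_nonneg (by positivity : (0 : ℤ) ≤ 2 ^ _)]
    refine mul_le_mul_of_nonneg_left ?_ (by positivity)
    refine hn _ (Nat.le_add_right _ _) ?_
    rw [Nat.add_mul]
    omega
  · refine Eventually.of_forall fun n i => ?_
    obtain ⟨h1, h2, h3⟩ := hζ n i
    have h4 : B * T n ≤ (B + 1) * T n := Nat.mul_le_mul_right _ (by omega)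
    exact ⟨h1, h2.trans h4, h3.trans h4⟩
  · refine Eventually.of_forall fun n i => ?_
    exact (hy n i).trans (Nat.pow_le_pow_right (by norm_num) (Nat.mul_le_mul_right _ (by omega)))
  · intro G
    -- the exponent of the congruence
    obtain ⟨E, hE⟩ : ∃ E : ℕ, E = 2 * G + 4 * B + (2 * l₀ + 2) + 3 := ⟨_, rfl⟩
    have hlarge : ∀ᶠ n : ℕ in (U : Filter ℕ), l₀ + G + 2 * B + 2 * E + 1 ≤ n :=
      hU (eventually_ge_atTop _)
    filter_upwards [hlarge] with n hn
    have hTn := hT1 n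
    have e1 : (G + 2 * B + 2 * E + 1) * T n ≤ (n - l₀) * T n :=
      Nat.mul_le_mul_right _ (by omega)
    have e2 : (G + 2 * B + 2 * E + 1) * T n = G * T n + 2 * (B * T n) + 2 * (E * T n) + T n := by
      ring
    rcases hspe n (G * T n) (by omega) with ⟨z, hz1, hz2, hz3⟩ | ⟨per, hp1, hp2, hp3⟩
    · obtain ⟨F, hF1, hF2⟩ := hdesc n (G + B + 1) z hz3 (by
        have : (G + B + 1) * T n = G * T n + B * T n + T n := by ring
        omega)
      have hmn := hm n
      refine ⟨z + m n, by omega, ?_, F, ?_, hF2⟩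
      · have : (G + (B + 1)) * T n = G * T n + B * T n + T n := by ring
        omega
      · intro i
        exact rpw_mono (hF1 i) (Nat.mul_le_mul_right _ (by omega))
    · exfalso
      have hblk : blk (par (k n) (x' n)) (2 * (E * T n)) (G * T n + B * T n) =
          blk (par (k n) (x' n)) (2 * (E * T n)) (G * T n + B * T n + per) := by
        funext t
        have ht := t.2
        simp only [blk]
        rw [hp3 (G * T n + B * T n + t) (by omega) (by omega)]
        congr 1
        omega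
      have hdvd := (hCOL (k n) (x' n) (hk n)).2.2.2.2 _ _ _ hblk
      have hb1 : ∀ t, t ≤ G * T n + 2 * (B * T n) →
          |(col (k n))^[t] (x' n)| ≤ 2 ^ (E * T n - 2) := by
        intro t ht
        have h1 := (hCOL (k n) (x' n) (hk n)).2.2.2.1 0 t
        rw [Nat.zero_add, Function.iterate_zero, id] at h1
        have h2 := grow (by omega) h1 (hxb n) (hkabs n)
        refine h2.trans (pow_le_pow_right₀ (by norm_num) ?_)
        have h3 : E * T n = 2 * (G * T n) + 4 * (B * T n) + (2 * l₀ + 2) * T n + 3 * T n := by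
          rw [hE]
          ring
        omega
      have hlt : |(col (k n))^[G * T n + B * T n] (x' n) -
          (col (k n))^[G * T n + B * T n + per] (x' n)| < 2 ^ (E * T n) := by
        have h1 := hb1 (G * T n + B * T n) (by omega)
        have h2 := hb1 (G * T n + B * T n + per) (by omega)
        have h3 : (2 : ℤ) ^ (E * T n) = 2 ^ (E * T n - 2) * 4 := by
          have h4 : 2 ≤ E * T n := by
            have : 1 * 1 ≤ E * T n := Nat.mul_le_mul (by omega) hTn
            have : 3 * 1 ≤ E * T n := Nat.mul_le_mul (by omega) hTn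
            omega
          conv_lhs => rw [show E * T n = (E * T n - 2) + 2 by omega]
          rw [pow_add]
          norm_num
        have h5 : (0 : ℤ) < 2 ^ (E * T n - 2) := by positivity
        calc _ ≤ |(col (k n))^[G * T n + B * T n] (x' n)| +
              |(col (k n))^[G * T n + B * T n + per] (x' n)| := abs_sub _ _
          _ ≤ 2 ^ (E * T n - 2) + 2 ^ (E * T n - 2) := add_le_add h1 h2
          _ < _ := by rw [h3]; linarith
      have h0 := Int.eq_zero_of_abs_lt_dvd hdvd hlt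
      have heq : (col (k n))^[G * T n + B * T n] (x' n) =
          (col (k n))^[G * T n + B * T n + per] (x' n) := by linarith
      rw [hit, hit] at heq
      refine hdis n _ _ ?_ ?_ heq
      · omega
      · have h3 : (l₀ + (G + 2 * B + 2 * E + 1)) * T n ≤ n * T n :=
          Nat.mul_le_mul_right _ (by omega)
        rw [Nat.add_mul, e2] at h3
        omega

end Pool.Agent.CLX
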